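import Pool.Agent.Lib.MP_ae38e0_lc.Nbb.Gen

set_option autoImplicit false

/-! Row P10: labels are not guessed. -/

namespace Pool.Agent.Nbb

open Pool.Agent.LinOT Classical

variable {Q K α : Type} [Finite Q] [Finite K]

/-- A list of things contains, at some position, a thing which matches (`g`) the value of the oracle
at a cell which is not in the list before this position. -/
def Bad (g : Q → Q → K → Prop) (O : Q → K) : List Q → Prop
  | l => ∃ (i : ℕ) (d y : Q), l[i]? = some d ∧ g d y (O y) ∧ y ∉ l.take i

private theorem P10_take (y : Q) {O O' : Q → K} (h : ∀ x, x ≠ y → O x = O' x) (c : Comp Q K α) :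
    ∀ i : ℕ, y ∉ (c.asked O).take i → (c.asked O').take (i + 1) = (c.asked O).take (i + 1) := by
  induction c with
  | ret a => intro i _; rfl
  | ask q next ih =>
    intro i hi
    cases i with
    | zero => simp
    | succ j =>
      rw [Comp.asked_ask, List.take_succ_cons, List.mem_cons, not_or] at hi
      have hq : O q = O' q := h q (fun e => hi.1 e.symm)
      rw [Comp.asked_ask, Comp.asked_ask, List.take_succ_cons, List.take_succ_cons, ← hq,
        ih (O q) j hi.2]

private theorem P10_get (y : Q) {O O' : Q → K} (h : ∀ x, x ≠ y → O x = O' x) (c : Comp Q K α)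
    (i : ℕ) (hi : y ∉ (c.asked O).take i) : (c.asked O')[i]? = (c.asked O)[i]? := by
  have h1 := congrArg (fun l => l[i]?) (P10_take y h c i hi)
  simpa [List.getElem?_take] using h1

private theorem P10_cell (S : Q → Finset K) (g : Q → Q → K → Prop) (k : ℕ)
    (hg : ∀ d y, k * ((S y).filter fun v => g d y v).card ≤ (S y).card)
    (c : Comp Q K α) (i : ℕ) (y : Q) :
    k * (Finset.univ.filter fun O : Orc S => y ∉ (c.asked O.1).take i ∧
      ∃ d, (c.asked O.1)[i]? = some d ∧ g d y (O.1 y)).card ≤ Fintype.card (Orc S) := by
  rcases isEmpty_or_nonempty (Orc S) with hemp | ⟨⟨O0⟩⟩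
  · rw [Finset.univ_eq_empty, Finset.filter_empty]
    simp
  set B := Finset.univ.filter fun O : Orc S => y ∉ (c.asked O.1).take i ∧
      ∃ d, (c.asked O.1)[i]? = some d ∧ g d y (O.1 y) with hB
  set f : Orc S → (Q → K) := fun O => Function.update O.1 y (O0.1 y) with hf
  have off : ∀ O O' : Orc S, f O = f O' → ∀ x, x ≠ y → O.1 x = O'.1 x := by
    intro O O' e x hx
    have := congrFun e x
    simpa [hf, Function.update_of_ne hx] using this
  have inj : ∀ O O' : Orc S, f O = f O' → O.1 y = O'.1 y → O = O' := by
    intro O O' e e'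
    apply Subtype.ext
    funext x
    by_cases hx : x = y
    · rw [hx]; exact e'
    · exact off O O' e x hx
  have key : ∀ b ∈ (Finset.univ : Finset (Orc S)).image f,
      k * (B.filter fun O => f O = b).card ≤ (Finset.univ.filter fun O : Orc S => f O = b).card := by
    intro b _
    rcases (B.filter fun O => f O = b).eq_empty_or_nonempty with he | ⟨O1, hO1⟩
    · rw [he]; simp
    rw [Finset.mem_filter] at hO1
    obtain ⟨hO1B, hO1b⟩ := hO1
    rw [hB, Finset.mem_filter] at hO1B
    obtain ⟨-, hy, d, hd, hgd⟩ := hO1B
    have h1 : (B.filter fun O => f O = b).card ≤ ((S y).filter fun v => g d y v).card := by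
      refine Finset.card_le_card_of_injOn (fun O => O.1 y) ?_ ?_
      · intro O hO
        rw [Finset.mem_coe, Finset.mem_filter] at hO
        obtain ⟨hOB, hOb⟩ := hO
        rw [hB, Finset.mem_filter] at hOB
        obtain ⟨-, -, d', hd', hgd'⟩ := hOB
        have e1 := P10_get y (off O1 O (hO1b.trans hOb.symm)) c i hy
        rw [hd, hd'] at e1
        have e2 : d' = d := Option.some.inj e1
        rw [Finset.mem_coe, Finset.mem_filter]
        exact ⟨O.2 y, e2 ▸ hgd'⟩
      · intro O hO O' hO' e
        rw [Finset.mem_coe, Finset.mem_filter] at hO hO'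
        exact inj O O' (hO.2.trans hO'.2.symm) e
    have h2 : (S y).card ≤ (Finset.univ.filter fun O : Orc S => f O = b).card := by
      refine Finset.card_le_card_of_injOn (fun v => if hv : v ∈ S y then
        (⟨Function.update O1.1 y v, fun x => by
          by_cases hx : x = y
          · rw [hx, Function.update_self]; exact hv
          · rw [Function.update_of_ne hx]; exact O1.2 x⟩ : Orc S) else O1) ?_ ?_
      · intro v hv
        rw [Finset.mem_coe] at hv
        rw [Finset.mem_coe, Finset.mem_filter]
        refine ⟨Finset.mem_univ _, ?_⟩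
        simp only [dif_pos hv]
        rw [← hO1b]
        simp [hf]
      · intro v hv v' hv' e
        rw [Finset.mem_coe] at hv hv'
        simp only [dif_pos hv, dif_pos hv'] at e
        have := congrFun (congrArg Subtype.val e) y
        simpa using this
    exact (Nat.mul_le_mul_left k h1).trans ((hg d y).trans h2)
  have e1 : B.card = ∑ b ∈ (Finset.univ : Finset (Orc S)).image f,
      (B.filter fun O => f O = b).card :=
    Finset.card_eq_sum_card_fiberwise (fun O _ => Finset.mem_coe.2
      (Finset.mem_image_of_mem f (Finset.mem_univ O)))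
  have e2 : Fintype.card (Orc S) = ∑ b ∈ (Finset.univ : Finset (Orc S)).image f,
      (Finset.univ.filter fun O : Orc S => f O = b).card := by
    rw [← Finset.card_univ]
    exact Finset.card_eq_sum_card_fiberwise (fun O _ => Finset.mem_coe.2
      (Finset.mem_image_of_mem f (Finset.mem_univ O)))
  rw [e1, e2, Finset.mul_sum]
  exact Finset.sum_le_sum key

/-- Proof: fix `i` and `y`.  Two oracles which differ only at `y` have the same list up to position
`i` as long as `y` is not in it, so the thing `d` is the same; for fixed `d` at most a fraction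
`1 / k` of the values at `y` match.  Here `Y` is the set of the cells `y` for which `g` is not
empty. -/
theorem bad_le (S : Q → Finset K) (g : Q → Q → K → Prop) (k I : ℕ) (Y : Finset Q)
    (hY : ∀ d y v, g d y v → y ∈ Y)
    (hg : ∀ d y, k * ((S y).filter fun v => g d y v).card ≤ (S y).card)
    (c : Comp Q K α) (hI : ∀ O : Orc S, (c.asked O.1).length ≤ I) :
    k * (Finset.univ.filter fun O : Orc S => Bad g O.1 (c.asked O.1)).card ≤
      I * Y.card * Fintype.card (Orc S) := by
  have hsub : (Finset.univ.filter fun O : Orc S => Bad g O.1 (c.asked O.1)) ⊆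
      (Finset.range I ×ˢ Y).biUnion fun w => Finset.univ.filter fun O : Orc S =>
        w.2 ∉ (c.asked O.1).take w.1 ∧ ∃ d, (c.asked O.1)[w.1]? = some d ∧ g d w.2 (O.1 w.2) := by
    intro O hO
    rw [Finset.mem_filter] at hO
    obtain ⟨-, i, d, y, h1, h2, h3⟩ := hO
    rw [Finset.mem_biUnion]
    refine ⟨(i, y), ?_, ?_⟩
    · rw [Finset.mem_product, Finset.mem_range]
      have h4 : i < (c.asked O.1).length := by
        by_contra hcon
        push Not at hcon
        rw [List.getElem?_eq_none hcon] at h1
        exact absurd h1 (by simp)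
      exact ⟨h4.trans_le (hI O), hY d y _ h2⟩
    · rw [Finset.mem_filter]
      exact ⟨Finset.mem_univ _, h3, d, h1, h2⟩
  calc k * (Finset.univ.filter fun O : Orc S => Bad g O.1 (c.asked O.1)).card
      ≤ k * ∑ w ∈ Finset.range I ×ˢ Y, (Finset.univ.filter fun O : Orc S =>
        w.2 ∉ (c.asked O.1).take w.1 ∧ ∃ d, (c.asked O.1)[w.1]? = some d ∧
          g d w.2 (O.1 w.2)).card :=
        Nat.mul_le_mul_left k ((Finset.card_le_card hsub).trans Finset.card_biUnion_le)
    _ = ∑ w ∈ Finset.range I ×ˢ Y, k * (Finset.univ.filter fun O : Orc S =>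
        w.2 ∉ (c.asked O.1).take w.1 ∧ ∃ d, (c.asked O.1)[w.1]? = some d ∧
          g d w.2 (O.1 w.2)).card := Finset.mul_sum _ _ _
    _ ≤ ∑ w ∈ Finset.range I ×ˢ Y, Fintype.card (Orc S) :=
        Finset.sum_le_sum fun w _ => P10_cell S g k hg c w.1 w.2
    _ = I * Y.card * Fintype.card (Orc S) := by
        rw [Finset.sum_const, smul_eq_mul, Finset.card_product, Finset.card_range]

end Pool.Agent.Nbb
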