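import Pool.Agent.Lib.MP_ae38e0_lc.Nbb.Split

set_option autoImplicit false

/-! Rows P7 (hits), P8 (payoff), P9 (budget), P9b (code 2): inductions on the process, always for
all `X`, `Y`, `kn`. -/

namespace Pool.Agent.Nbb

open Pool.Agent.LinOT Classical

variable {Q K StA StB RA RB M RQ RK Mg : Type} [Finite Q] [Finite K] [Fintype RA] [Fintype RB]

variable (S : Q → Finset K) (cel : Q → Prop)

private theorem P7_qp_nonneg (n : ℕ) (X : Sd Q K StA RA) (Y : Sd Q K StB RB) (kn : List (Q × K))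
    (hX : Bd S n X kn) (hY : Bd S n Y kn) : 0 ≤ qp S n X Y kn := by
  unfold qp
  refine Finset.sum_nonneg fun w hw => ?_
  rw [mem_rl] at hw
  have h1 : (X.q w.1 w.2.2.1).length ≤ n := hX (w.1, w.2.2) ((mem_sup S).mpr ⟨hw.1, hw.2.2⟩)
  have h2 : (Y.q w.2.1 w.2.2.1).length ≤ n := hY (w.2.1, w.2.2) ((mem_sup S).mpr ⟨hw.2.1, hw.2.2⟩)
  have h1' : ((X.q w.1 w.2.2.1).length : ℝ) ≤ n := by exact_mod_cast h1
  have h2' : ((Y.q w.2.1 w.2.2.1).length : ℝ) ≤ n := by exact_mod_cast h2
  linarith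

omit [Finite Q] [Finite K] in
private theorem P7_asks {α : Type} (c : Comp Q K α) (O : Q → K) (h : asksC c) :
    1 ≤ (c.asked O).length := by
  cases c with
  | ret a => exact absurd h (by simp [asksC])
  | ask q next => simp

private theorem P7_stepA (n L : ℕ) (X : Sd Q K StA RA) (Y : Sd Q K StB RB) (kn : List (Q × K))
    (c : StA → Comp Q K (StA × M))
    (h : L * ((gr S cel X Y kn).filter fun w => hitA S c X Y kn w).card ≤
      2 * n * ((gr S cel X Y kn).filter fun w => asksC (c (X.s w.1 w.2.2.1))).card) :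
    (L : ℝ) * ∑ w ∈ rl S X Y kn, (if Dw S cel X Y kn w ∧ hitA S c X Y kn w then (1 : ℝ) else 0) ≤
      2 * n * ∑ w ∈ rl S X Y kn, (((c (X.s w.1 w.2.2.1)).asked w.2.2.1).length : ℝ) := by
  have e1 : ∑ w ∈ rl S X Y kn, (if Dw S cel X Y kn w ∧ hitA S c X Y kn w then (1 : ℝ) else 0) =
      (((gr S cel X Y kn).filter fun w => hitA S c X Y kn w).card : ℝ) := by
    rw [Finset.sum_boole, gr, Finset.filter_filter]
  have e2 : (((gr S cel X Y kn).filter fun w => asksC (c (X.s w.1 w.2.2.1))).card : ℝ) ≤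
      ∑ w ∈ rl S X Y kn, (((c (X.s w.1 w.2.2.1)).asked w.2.2.1).length : ℝ) := by
    rw [gr, Finset.filter_filter, ← Finset.sum_boole]
    refine Finset.sum_le_sum fun w _ => ?_
    split_ifs with hw
    · exact_mod_cast P7_asks _ _ hw.2
    · exact Nat.cast_nonneg _
  rw [e1]
  have h' : (L : ℝ) * (((gr S cel X Y kn).filter fun w => hitA S c X Y kn w).card : ℝ) ≤
      2 * n * (((gr S cel X Y kn).filter fun w => asksC (c (X.s w.1 w.2.2.1))).card : ℝ) := by
    exact_mod_cast h
  exact h'.trans (mul_le_mul_of_nonneg_left e2 (by positivity))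

private theorem P7_stepB (n L : ℕ) (X : Sd Q K StA RA) (Y : Sd Q K StB RB) (kn : List (Q × K))
    (c : StB → Comp Q K (StB × M))
    (h : L * ((gr S cel X Y kn).filter fun w => hitB S c X Y kn w).card ≤
      2 * n * ((gr S cel X Y kn).filter fun w => asksC (c (Y.s w.2.1 w.2.2.1))).card) :
    (L : ℝ) * ∑ w ∈ rl S X Y kn, (if Dw S cel X Y kn w ∧ hitB S c X Y kn w then (1 : ℝ) else 0) ≤
      2 * n * ∑ w ∈ rl S X Y kn, (((c (Y.s w.2.1 w.2.2.1)).asked w.2.2.1).length : ℝ) := by
  have e1 : ∑ w ∈ rl S X Y kn, (if Dw S cel X Y kn w ∧ hitB S c X Y kn w then (1 : ℝ) else 0) =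
      (((gr S cel X Y kn).filter fun w => hitB S c X Y kn w).card : ℝ) := by
    rw [Finset.sum_boole, gr, Finset.filter_filter]
  have e2 : (((gr S cel X Y kn).filter fun w => asksC (c (Y.s w.2.1 w.2.2.1))).card : ℝ) ≤
      ∑ w ∈ rl S X Y kn, (((c (Y.s w.2.1 w.2.2.1)).asked w.2.2.1).length : ℝ) := by
    rw [gr, Finset.filter_filter, ← Finset.sum_boole]
    refine Finset.sum_le_sum fun w _ => ?_
    split_ifs with hw
    · exact_mod_cast P7_asks _ _ hw.2
    · exact Nat.cast_nonneg _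
  rw [e1]
  have h' : (L : ℝ) * (((gr S cel X Y kn).filter fun w => hitB S c X Y kn w).card : ℝ) ≤
      2 * n * (((gr S cel X Y kn).filter fun w => asksC (c (Y.s w.2.1 w.2.2.1))).card : ℝ) := by
    exact_mod_cast h
  exact h'.trans (mul_le_mul_of_nonneg_left e2 (by positivity))

/-- Row P7.  In a step of the first party: `hitA_le` (or the step is silent, and then nobody is
hit), `#{asks} <= sum of the numbers of new things`, and `qp` goes down by this sum. -/
theorem hits_le (hcel : ∀ q, ¬ cel q → (S q).card ≤ 1) (N L n : ℕ) (hN : 4 * n ≤ N) (hL0 : 0 < L)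
    (hLN : L ≤ N) (p : Proc Q K StA StB M RQ RK Mg) :
    ∀ (X : Sd Q K StA RA) (Y : Sd Q K StB RB) (kn : List (Q × K)), X.Loc → Y.Loc →
      p.Ok S cel N L n X Y kn →
      (L : ℝ) * ∑ w ∈ rl S X Y kn, (p.hits S cel X Y kn w : ℝ) ≤ 2 * n * qp S n X Y kn := by
  induction p with
  | stop k =>
    intro X Y kn hX hY hOk
    have h0 := P7_qp_nonneg S n X Y kn hOk.1 hOk.2.1
    have e : ∑ w ∈ rl S X Y kn,
        (((Proc.stop k : Proc Q K StA StB M RQ RK Mg).hits S cel X Y kn w : ℕ) : ℝ) = 0 := by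
      simp [Proc.hits]
    rw [e, mul_zero]
    positivity
  | learn q o next ih =>
    intro X Y kn hX hY hOk
    have e1 : ∑ w ∈ rl S X Y kn, (((Proc.learn q o next).hits S cel X Y kn w : ℕ) : ℝ) =
        ∑ v ∈ S q, ∑ w ∈ rl S X Y (kn ++ [(q, v)]),
          ((next v).hits S cel X Y (kn ++ [(q, v)]) w : ℝ) := by
      rw [← sum_learn S X Y kn q]
      refine Finset.sum_congr rfl fun v _ => Finset.sum_congr rfl fun w hw => ?_
      have hv := ((mem_rl_learn S X Y kn q v w).mp hw).2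
      subst hv
      rfl
    have e2 : qp S n X Y kn = ∑ v ∈ S q, qp S n X Y (kn ++ [(q, v)]) := by
      unfold qp
      rw [← sum_learn S X Y kn q]
    rw [e1, e2, Finset.mul_sum, Finset.mul_sum]
    exact Finset.sum_le_sum fun v hv => ih v X Y _ hX hY (hOk v hv)
  | mA i c next ih =>
    intro X Y kn hX hY hOk
    obtain ⟨hc, hn⟩ := hOk
    have hA : (L : ℝ) * ∑ w ∈ rl S X Y kn,
        (if Dw S cel X Y kn w ∧ hitA S c X Y kn w then (1 : ℝ) else 0) ≤
        2 * n * ∑ w ∈ rl S X Y kn, (((c (X.s w.1 w.2.2.1)).asked w.2.2.1).length : ℝ) := by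
      refine P7_stepA S cel n L X Y kn c ?_
      rcases hc with hc | ⟨h1, h2, h3, h4⟩
      · have : ((gr S cel X Y kn).filter fun w => hitA S c X Y kn w) = ∅ := by
          refine Finset.filter_eq_empty_iff.mpr fun w _ hw => ?_
          obtain ⟨q, hq, _⟩ := hw
          rw [hc] at hq
          exact absurd hq (by simp)
        rw [this]
        simp
      · exact hitA_le S cel hcel N n L hN hL0 hLN X Y hX hY kn c h1 h3 h4 h2
    have e1 : ∑ w ∈ rl S X Y kn, (((Proc.mA i c next).hits S cel X Y kn w : ℕ) : ℝ) =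
        ∑ w ∈ rl S X Y kn, (if Dw S cel X Y kn w ∧ hitA S c X Y kn w then (1 : ℝ) else 0) +
        ∑ m ∈ (rl S X Y kn).image (Proc.rsA S c X), ∑ w ∈ rl S (X.upd c m) Y kn,
          ((next m).hits S cel (X.upd c m) Y kn w : ℝ) := by
      have e3 : ∑ m ∈ (rl S X Y kn).image (Proc.rsA S c X), ∑ w ∈ rl S (X.upd c m) Y kn,
          ((next m).hits S cel (X.upd c m) Y kn w : ℝ) = ∑ w ∈ rl S X Y kn,
          ((next (Proc.rsA S c X w)).hits S cel (X.upd c (Proc.rsA S c X w)) Y kn w : ℝ) := by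
        rw [← sum_mA S X Y kn c]
        refine Finset.sum_congr rfl fun m _ => Finset.sum_congr rfl fun w hw => ?_
        have hv := ((mem_rl_updA S X Y kn c m w).mp hw).2
        subst hv
        rfl
      rw [e3, ← Finset.sum_add_distrib]
      refine Finset.sum_congr rfl fun w _ => ?_
      simp only [Proc.hits]
      push_cast
      rfl
    have e2 : ∑ m ∈ (rl S X Y kn).image (Proc.rsA S c X), qp S n (X.upd c m) Y kn =
        qp S n X Y kn -
          ∑ w ∈ rl S X Y kn, (((c (X.s w.1 w.2.2.1)).asked w.2.2.1).length : ℝ) := by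
      unfold qp
      rw [← Finset.sum_sub_distrib, ← sum_mA S X Y kn c]
      refine Finset.sum_congr rfl fun m _ => Finset.sum_congr rfl fun w hw => ?_
      simp only [Sd.upd, List.length_append]
      push_cast
      ring
    have e4 : (L : ℝ) * ∑ m ∈ (rl S X Y kn).image (Proc.rsA S c X),
        ∑ w ∈ rl S (X.upd c m) Y kn, ((next m).hits S cel (X.upd c m) Y kn w : ℝ) ≤
        2 * n * ∑ m ∈ (rl S X Y kn).image (Proc.rsA S c X), qp S n (X.upd c m) Y kn := by
      rw [Finset.mul_sum, Finset.mul_sum]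
      exact Finset.sum_le_sum fun m _ => ih m (X.upd c m) Y kn (upd_loc hX c m) hY (hn m)
    rw [e2] at e4
    rw [e1, mul_add]
    linarith
  | mB i c next ih =>
    intro X Y kn hX hY hOk
    obtain ⟨hc, hn⟩ := hOk
    have hA : (L : ℝ) * ∑ w ∈ rl S X Y kn,
        (if Dw S cel X Y kn w ∧ hitB S c X Y kn w then (1 : ℝ) else 0) ≤
        2 * n * ∑ w ∈ rl S X Y kn, (((c (Y.s w.2.1 w.2.2.1)).asked w.2.2.1).length : ℝ) := by
      refine P7_stepB S cel n L X Y kn c ?_
      rcases hc with hc | ⟨h1, h2, h3, h4⟩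
      · have : ((gr S cel X Y kn).filter fun w => hitB S c X Y kn w) = ∅ := by
          refine Finset.filter_eq_empty_iff.mpr fun w _ hw => ?_
          obtain ⟨q, hq, _⟩ := hw
          rw [hc] at hq
          exact absurd hq (by simp)
        rw [this]
        simp
      · exact hitB_le S cel hcel N n L hN hL0 hLN X Y hX hY kn c h1 h3 h4 h2
    have e1 : ∑ w ∈ rl S X Y kn, (((Proc.mB i c next).hits S cel X Y kn w : ℕ) : ℝ) =
        ∑ w ∈ rl S X Y kn, (if Dw S cel X Y kn w ∧ hitB S c X Y kn w then (1 : ℝ) else 0) +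
        ∑ m ∈ (rl S X Y kn).image (Proc.rsB S c Y), ∑ w ∈ rl S X (Y.upd c m) kn,
          ((next m).hits S cel X (Y.upd c m) kn w : ℝ) := by
      have e3 : ∑ m ∈ (rl S X Y kn).image (Proc.rsB S c Y), ∑ w ∈ rl S X (Y.upd c m) kn,
          ((next m).hits S cel X (Y.upd c m) kn w : ℝ) = ∑ w ∈ rl S X Y kn,
          ((next (Proc.rsB S c Y w)).hits S cel X (Y.upd c (Proc.rsB S c Y w)) kn w : ℝ) := by
        rw [← sum_mB S X Y kn c]
        refine Finset.sum_congr rfl fun m _ => Finset.sum_congr rfl fun w hw => ?_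
        have hv := ((mem_rl_updB S X Y kn c m w).mp hw).2
        subst hv
        rfl
      rw [e3, ← Finset.sum_add_distrib]
      refine Finset.sum_congr rfl fun w _ => ?_
      simp only [Proc.hits]
      push_cast
      rfl
    have e2 : ∑ m ∈ (rl S X Y kn).image (Proc.rsB S c Y), qp S n X (Y.upd c m) kn =
        qp S n X Y kn -
          ∑ w ∈ rl S X Y kn, (((c (Y.s w.2.1 w.2.2.1)).asked w.2.2.1).length : ℝ) := by
      unfold qp
      rw [← Finset.sum_sub_distrib, ← sum_mB S X Y kn c]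
      refine Finset.sum_congr rfl fun m _ => Finset.sum_congr rfl fun w hw => ?_
      simp only [Sd.upd, List.length_append]
      push_cast
      ring
    have e4 : (L : ℝ) * ∑ m ∈ (rl S X Y kn).image (Proc.rsB S c Y),
        ∑ w ∈ rl S X (Y.upd c m) kn, ((next m).hits S cel X (Y.upd c m) kn w : ℝ) ≤
        2 * n * ∑ m ∈ (rl S X Y kn).image (Proc.rsB S c Y), qp S n X (Y.upd c m) kn := by
      rw [Finset.mul_sum, Finset.mul_sum]
      exact Finset.sum_le_sum fun m _ => ih m X (Y.upd c m) kn hX (upd_loc hY c m) (hn m)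
    rw [e2] at e4
    rw [e1, mul_add]
    linarith

/-- The value of a truth value. -/
private noncomputable def P8_i (P : Prop) : ℝ := if P then 1 else 0

private theorem P8_mono {P P' : Prop} (h : P → P') : P8_i P ≤ P8_i P' := by
  unfold P8_i
  by_cases hP : P
  · rw [if_pos hP, if_pos (h hP)]
  · rw [if_neg hP]
    split_ifs
    · exact zero_le_one
    · exact le_refl _

private theorem P8_nonneg (P : Prop) : 0 ≤ P8_i P := by
  unfold P8_i
  split_ifs
  · exact zero_le_one
  · exact le_refl _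

private theorem P8_le_one (P : Prop) : P8_i P ≤ 1 := by
  unfold P8_i
  split_ifs
  · exact le_refl _
  · exact zero_le_one

private theorem P8_card {α : Type} (s : Finset α) (P : α → Prop) [DecidablePred P] :
    ((s.filter P).card : ℝ) = ∑ w ∈ s, P8_i (P w) := by
  rw [Finset.card_filter, Nat.cast_sum]
  refine Finset.sum_congr rfl fun w _ => ?_
  unfold P8_i
  by_cases hP : P w
  · rw [if_pos hP, if_pos hP, Nat.cast_one]
  · rw [if_neg hP, if_neg hP, Nat.cast_zero]

/-- The local form of the payoff. -/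
private noncomputable def P8_g (N n : ℕ) (outA : RA → StA → Option Bool)
    (outB : RB → StB → Bool) (p : Proc Q K StA StB M RQ RK Mg) (X : Sd Q K StA RA)
    (Y : Sd Q K StB RB) (kn : List (Q × K)) (w : RA × RB × Orc S) : ℝ :=
  P8_i (p.lf S X Y kn w = 0 ∧
    outA w.1 (p.fin S X Y kn w).1 = some (outB w.2.1 (p.fin S X Y kn w).2)) -
  P8_i (p.lf S X Y kn w = 0 ∧ p.lg S outB X Y kn w = outB w.2.1 (p.fin S X Y kn w).2) -
  1 + P8_i (Dw S cel X Y kn w) - (p.hits S cel X Y kn w : ℝ) - 2 * n / N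

private theorem P8_main (hcel : ∀ q, ¬ cel q → (S q).card ≤ 1) (N L n : ℕ) (hN : 4 * n ≤ N)
    (hN0 : 0 < N) (outA : RA → StA → Option Bool) (outB : RB → StB → Bool)
    (p : Proc Q K StA StB M RQ RK Mg) :
    ∀ (X : Sd Q K StA RA) (Y : Sd Q K StB RB) (kn : List (Q × K)), X.Loc → Y.Loc →
      p.Ok S cel N L n X Y kn →
      ∑ w ∈ rl S X Y kn, P8_g S cel N n outA outB p X Y kn w ≤ 0 := by
  induction p with
  | stop k =>
    intro X Y kn hX hY hok
    obtain ⟨hbX, hbY, h0, -⟩ := hok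
    by_cases hk : k = 0
    · subst hk
      have h := leaf_pay S cel hcel N n hN hN0 X Y hX hY kn (h0 rfl) hbX hbY outA outB
      have hg : ((gr S cel X Y kn).card : ℝ) = ∑ w ∈ rl S X Y kn, P8_i (Dw S cel X Y kn w) :=
        P8_card _ _
      rw [P8_card, P8_card, hg, Finset.card_eq_sum_ones, Nat.cast_sum, Finset.mul_sum,
        ← Finset.sum_sub_distrib, ← Finset.sum_add_distrib, ← Finset.sum_add_distrib] at h
      rw [← sub_nonpos, ← Finset.sum_sub_distrib] at h
      refine le_trans (le_of_eq (Finset.sum_congr rfl fun w _ => ?_)) h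
      simp only [P8_g, Proc.lf, Proc.fin, Proc.lg, Proc.hits, true_and, Nat.cast_one,
        Nat.cast_zero]
      ring
    · refine Finset.sum_nonpos fun w _ => ?_
      have e1 : P8_i ((Proc.stop k : Proc Q K StA StB M RQ RK Mg).lf S X Y kn w = 0 ∧
          outA w.1 ((Proc.stop k : Proc Q K StA StB M RQ RK Mg).fin S X Y kn w).1 =
            some (outB w.2.1 ((Proc.stop k : Proc Q K StA StB M RQ RK Mg).fin S X Y kn w).2))
          = 0 := by
        unfold P8_i
        exact if_neg fun h => hk h.1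
      unfold P8_g
      rw [e1]
      have h1 := P8_nonneg ((Proc.stop k : Proc Q K StA StB M RQ RK Mg).lf S X Y kn w = 0 ∧
        (Proc.stop k : Proc Q K StA StB M RQ RK Mg).lg S outB X Y kn w =
          outB w.2.1 ((Proc.stop k : Proc Q K StA StB M RQ RK Mg).fin S X Y kn w).2)
      have h2 := P8_le_one (Dw S cel X Y kn w)
      have h3 : (0 : ℝ) ≤ 2 * n / N := by positivity
      have h4 : (0 : ℝ) ≤
          ((Proc.stop k : Proc Q K StA StB M RQ RK Mg).hits S cel X Y kn w : ℝ) :=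
        Nat.cast_nonneg _
      linarith
  | learn q o next ih =>
    intro X Y kn hX hY hok
    rw [← sum_learn S X Y kn q]
    refine Finset.sum_nonpos fun v hv => ?_
    refine le_trans (Finset.sum_le_sum fun w hw => ?_) (ih v X Y (kn ++ [(q, v)]) hX hY (hok v hv))
    have hq : w.2.2.1 q = v := ((mem_rl_learn S X Y kn q v w).1 hw).2
    have hd := P8_mono (dw_learn S cel X Y kn q v w)
    simp only [P8_g, Proc.lf, Proc.fin, Proc.lg, Proc.hits, hq]
    linarith
  | mA o c next ih =>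
    intro X Y kn hX hY hok
    rw [← sum_mA S X Y kn c]
    refine Finset.sum_nonpos fun m hm => ?_
    refine le_trans (Finset.sum_le_sum fun w hw => ?_)
      (ih m (X.upd c m) Y kn (upd_loc hX c m) hY (hok.2 m))
    have hq : Proc.rsA S c X w = m := ((mem_rl_updA S X Y kn c m w).1 hw).2
    have hd : P8_i (Dw S cel X Y kn w) -
        (if Dw S cel X Y kn w ∧ hitA S c X Y kn w then (1 : ℕ) else 0 : ℕ) ≤
        P8_i (Dw S cel (X.upd c m) Y kn w) := by
      by_cases h1 : Dw S cel X Y kn w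
      · by_cases h2 : hitA S c X Y kn w
        · rw [if_pos ⟨h1, h2⟩, Nat.cast_one]
          have := P8_le_one (Dw S cel X Y kn w)
          have := P8_nonneg (Dw S cel (X.upd c m) Y kn w)
          linarith
        · rw [if_neg fun h => h2 h.2, Nat.cast_zero, sub_zero]
          exact P8_mono fun h => dw_updA S cel X Y kn c m w h h2
      · rw [if_neg fun h => h1 h.1, Nat.cast_zero, sub_zero]
        exact P8_mono fun h => absurd h h1
    simp only [P8_g, Proc.lf, Proc.fin, Proc.lg, Proc.hits, hq, Nat.cast_add]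
    linarith
  | mB o c next ih =>
    intro X Y kn hX hY hok
    rw [← sum_mB S X Y kn c]
    refine Finset.sum_nonpos fun m hm => ?_
    refine le_trans (Finset.sum_le_sum fun w hw => ?_)
      (ih m X (Y.upd c m) kn hX (upd_loc hY c m) (hok.2 m))
    have hq : Proc.rsB S c Y w = m := ((mem_rl_updB S X Y kn c m w).1 hw).2
    have hd : P8_i (Dw S cel X Y kn w) -
        (if Dw S cel X Y kn w ∧ hitB S c X Y kn w then (1 : ℕ) else 0 : ℕ) ≤
        P8_i (Dw S cel X (Y.upd c m) kn w) := by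
      by_cases h1 : Dw S cel X Y kn w
      · by_cases h2 : hitB S c X Y kn w
        · rw [if_pos ⟨h1, h2⟩, Nat.cast_one]
          have := P8_le_one (Dw S cel X Y kn w)
          have := P8_nonneg (Dw S cel X (Y.upd c m) kn w)
          linarith
        · rw [if_neg fun h => h2 h.2, Nat.cast_zero, sub_zero]
          exact P8_mono fun h => dw_updB S cel X Y kn c m w h h2
      · rw [if_neg fun h => h1 h.1, Nat.cast_zero, sub_zero]
        exact P8_mono fun h => absurd h h1
    simp only [P8_g, Proc.lf, Proc.fin, Proc.lg, Proc.hits, hq, Nat.cast_add]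
    linarith

/-- Row P8. -/
theorem pay_le (hcel : ∀ q, ¬ cel q → (S q).card ≤ 1) (N L n : ℕ) (hN : 4 * n ≤ N) (hN0 : 0 < N)
    (outA : RA → StA → Option Bool) (outB : RB → StB → Bool)
    (p : Proc Q K StA StB M RQ RK Mg) :
    ∀ (X : Sd Q K StA RA) (Y : Sd Q K StB RB) (kn : List (Q × K)), X.Loc → Y.Loc →
      p.Ok S cel N L n X Y kn →
      (((rl S X Y kn).filter fun w => p.lf S X Y kn w = 0 ∧
        outA w.1 (p.fin S X Y kn w).1 = some (outB w.2.1 (p.fin S X Y kn w).2)).card : ℝ) ≤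
      ((rl S X Y kn).filter fun w => p.lf S X Y kn w = 0 ∧
        p.lg S outB X Y kn w = outB w.2.1 (p.fin S X Y kn w).2).card +
      ((rl S X Y kn).card - (gr S cel X Y kn).card) +
      ∑ w ∈ rl S X Y kn, (p.hits S cel X Y kn w : ℝ) + 2 * n / N * (rl S X Y kn).card := by
  intro X Y kn hX hY hok
  have h := P8_main S cel hcel N L n hN hN0 outA outB p X Y kn hX hY hok
  have hg : ((gr S cel X Y kn).card : ℝ) = ∑ w ∈ rl S X Y kn, P8_i (Dw S cel X Y kn w) :=
    P8_card _ _
  have h1 : ((rl S X Y kn).card : ℝ) = ∑ w ∈ rl S X Y kn, (1 : ℝ) := by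
    rw [Finset.sum_const, nsmul_eq_mul, mul_one]
  rw [P8_card, P8_card, hg, h1, Finset.mul_sum, ← Finset.sum_sub_distrib,
    ← Finset.sum_add_distrib, ← Finset.sum_add_distrib, ← Finset.sum_add_distrib]
  rw [← sub_nonpos, ← Finset.sum_sub_distrib]
  refine le_trans (le_of_eq (Finset.sum_congr rfl fun w _ => ?_)) h
  simp only [P8_g]
  ring

private theorem P9_unl_snoc (l W : List Q) (q : Q) :
    (unl l (W ++ [q]) : ℝ) = unl l W - (if q ∈ l ∧ q ∉ W then 1 else 0) := by
  unfold unl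
  have h1 : l.toFinset \ (W ++ [q]).toFinset = (l.toFinset \ W.toFinset).erase q := by
    ext x
    simp only [Finset.mem_sdiff, List.mem_toFinset, List.mem_append, List.mem_singleton,
      Finset.mem_erase]
    tauto
  rw [h1]
  by_cases h : q ∈ l ∧ q ∉ W
  · rw [if_pos h, Finset.card_erase_of_mem (by
      rw [Finset.mem_sdiff, List.mem_toFinset, List.mem_toFinset]; exact h)]
    have hpos : 1 ≤ (l.toFinset \ W.toFinset).card := Finset.card_pos.2 ⟨q, by
      rw [Finset.mem_sdiff, List.mem_toFinset, List.mem_toFinset]; exact h⟩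
    rw [Nat.cast_sub hpos]
    push_cast
    ring
  · rw [if_neg h, Finset.erase_eq_of_notMem (by
      rw [Finset.mem_sdiff, List.mem_toFinset, List.mem_toFinset]; exact h)]
    ring

private theorem P9_unl_append (l l' W : List Q) : (unl (l ++ l') W : ℝ) ≤ unl l W + l'.length := by
  unfold unl
  have h1 : (l ++ l').toFinset \ W.toFinset ⊆ (l.toFinset \ W.toFinset) ∪ l'.toFinset := by
    intro x
    simp only [Finset.mem_sdiff, List.mem_toFinset, List.mem_append, Finset.mem_union]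
    tauto
  have h2 := (Finset.card_le_card h1).trans (Finset.card_union_le _ _)
  have h3 : l'.toFinset.card ≤ l'.length := l'.toFinset_card_le
  have h4 := h2.trans (Nat.add_le_add_left h3 _)
  exact_mod_cast h4

/-- the term of the potential -/
private noncomputable def P9_t (n : ℕ) (X : Sd Q K StA RA) (Y : Sd Q K StB RB) (W : List Q)
    (w : RA × RB × Orc S) : ℝ :=
  2 * (n : ℝ) - ((X.q w.1 w.2.2.1).length : ℝ) - ((Y.q w.2.1 w.2.2.1).length : ℝ) +
      (unl (X.q w.1 w.2.2.1) W : ℝ) + (unl (Y.q w.2.1 w.2.2.1) W : ℝ)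

private theorem P9_pot (n : ℕ) (X : Sd Q K StA RA) (Y : Sd Q K StB RB) (kn : List (Q × K)) :
    pot S n X Y kn = ∑ w ∈ rl S X Y kn, P9_t S n X Y (kn.map Prod.fst) w := rfl

/-- learning a thing -/
private theorem P9_learn (n : ℕ) (X : Sd Q K StA RA) (Y : Sd Q K StB RB) (kn : List (Q × K))
    (q : Q) : ∑ v ∈ S q, pot S n X Y (kn ++ [(q, v)]) = pot S n X Y kn -
      ∑ w ∈ rl S X Y kn, (((if q ∈ X.q w.1 w.2.2.1 ∧ q ∉ kn.map Prod.fst then 1 else 0 : ℝ)) +
        (if q ∈ Y.q w.2.1 w.2.2.1 ∧ q ∉ kn.map Prod.fst then 1 else 0 : ℝ)) := by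
  have h1 : ∀ v ∈ S q, pot S n X Y (kn ++ [(q, v)]) =
      ∑ w ∈ rl S X Y (kn ++ [(q, v)]), P9_t S n X Y (kn.map Prod.fst ++ [q]) w := by
    intro v _
    rw [P9_pot, List.map_append]
    rfl
  rw [Finset.sum_congr rfl h1, sum_learn, P9_pot, ← Finset.sum_sub_distrib]
  refine Finset.sum_congr rfl fun w _ => ?_
  unfold P9_t
  rw [P9_unl_snoc, P9_unl_snoc]
  ring

omit [Finite Q] [Finite K] [Fintype RA] [Fintype RB] in
private theorem P9_card {ι : Type} (s : Finset ι) (p p' : ι → Prop) {i1 : DecidablePred p}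
    {i2 : DecidablePred p'} (h : ∀ x, p x ↔ p' x) :
    (@Finset.filter _ p i1 s).card = (@Finset.filter _ p' i2 s).card := by
  have : @Finset.filter _ p i1 s = @Finset.filter _ p' i2 s := by
    ext x
    simp only [Finset.mem_filter, h]
  rw [this]

/-- heavy things pay -/
private theorem P9_heavy (hcel : ∀ q, ¬ cel q → (S q).card ≤ 1) (N : ℕ) (X : Sd Q K StA RA)
    (Y : Sd Q K StB RB) (hX : X.Loc) (hY : Y.Loc) (kn : List (Q × K)) (q : Q)
    (hv : Hv S cel N X Y kn q) (hg : Gd S cel X Y kn) :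
    ((rl S X Y kn).card : ℝ) ≤ 2 * N * ∑ w ∈ rl S X Y kn,
      (((if q ∈ X.q w.1 w.2.2.1 ∧ q ∉ kn.map Prod.fst then 1 else 0 : ℝ)) +
        (if q ∈ Y.q w.2.1 w.2.2.1 ∧ q ∉ kn.map Prod.fst then 1 else 0 : ℝ)) := by
  rcases Nat.eq_zero_or_pos (rl S X Y kn).card with h0 | h0
  · rw [h0]
    push_cast
    refine mul_nonneg (by positivity) (Finset.sum_nonneg fun w _ => ?_)
    split_ifs <;> norm_num
  have hk := kap_pos S X Y kn h0
  have hA : ((gp S cel X Y kn).filter fun z => q ∈ X.q z.1.1 z.1.2.1).card =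
      ((gr S cel X Y kn).filter fun w => q ∈ X.q w.1 w.2.2.1).card * kap S kn := by
    have h := pair_eq S cel hcel X Y hX hY kn (fun r O => q ∈ X.q r O)
      (fun r O O' h => congrArg (fun l => q ∈ l) (hX.2.1 r O O' h)) (fun _ _ => ())
      (fun _ _ _ _ => rfl) (fun a _ => a)
    refine Eq.trans (P9_card _ _ _ fun z => Iff.rfl) (h.trans ?_)
    exact congrArg (fun t => t * kap S kn) (P9_card _ _ _ fun z => Iff.rfl)
  have hB : ((gp S cel X Y kn).filter fun z => q ∈ Y.q z.2.1 z.2.2.1).card =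
      ((gr S cel X Y kn).filter fun w => q ∈ Y.q w.2.1 w.2.2.1).card * kap S kn := by
    have h := pair_eq S cel hcel X Y hX hY kn (fun _ _ => ()) (fun _ _ _ _ => rfl)
      (fun r O => q ∈ Y.q r O) (fun r O O' h => congrArg (fun l => q ∈ l) (hY.2.1 r O O' h))
      (fun _ b => b)
    refine Eq.trans (P9_card _ _ _ fun z => Iff.rfl) (h.trans ?_)
    exact congrArg (fun t => t * kap S kn) (P9_card _ _ _ fun z => Iff.rfl)
  have hG := gp_card S cel hcel X Y hX hY kn
  have h1 := hv.2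
  unfold tA tB at h1
  rw [hA, hB, hG, ← add_mul, ← mul_assoc] at h1
  have h2 := Nat.le_of_mul_le_mul_right h1 hk
  have hsubA : ((gr S cel X Y kn).filter fun w => q ∈ X.q w.1 w.2.2.1).card ≤
      ((rl S X Y kn).filter fun w => q ∈ X.q w.1 w.2.2.1).card :=
    Finset.card_le_card (Finset.filter_subset_filter _ (Finset.filter_subset _ _))
  have hsubB : ((gr S cel X Y kn).filter fun w => q ∈ Y.q w.2.1 w.2.2.1).card ≤
      ((rl S X Y kn).filter fun w => q ∈ Y.q w.2.1 w.2.2.1).card :=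
    Finset.card_le_card (Finset.filter_subset_filter _ (Finset.filter_subset _ _))
  have h3 : (rl S X Y kn).card ≤ 2 * (N * (((rl S X Y kn).filter fun w =>
      q ∈ X.q w.1 w.2.2.1).card + ((rl S X Y kn).filter fun w => q ∈ Y.q w.2.1 w.2.2.1).card)) := by
    refine hg.trans (Nat.mul_le_mul_left 2 (h2.trans (Nat.mul_le_mul_left N ?_)))
    exact Nat.add_le_add hsubA hsubB
  have h4 : ((rl S X Y kn).card : ℝ) ≤ 2 * (N * ((((rl S X Y kn).filter fun w =>
      q ∈ X.q w.1 w.2.2.1).card : ℝ) +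
      (((rl S X Y kn).filter fun w => q ∈ Y.q w.2.1 w.2.2.1).card : ℝ))) := by exact_mod_cast h3
  refine h4.trans (le_of_eq ?_)
  have hq := hv.1
  rw [Finset.sum_add_distrib]
  have e1 : ∑ w ∈ rl S X Y kn, (if q ∈ X.q w.1 w.2.2.1 ∧ q ∉ kn.map Prod.fst then 1 else 0 : ℝ) =
      (((rl S X Y kn).filter fun w => q ∈ X.q w.1 w.2.2.1).card : ℝ) := by
    rw [Finset.card_filter]
    push_cast
    refine Finset.sum_congr rfl fun w _ => ?_
    simp [hq]
  have e2 : ∑ w ∈ rl S X Y kn, (if q ∈ Y.q w.2.1 w.2.2.1 ∧ q ∉ kn.map Prod.fst then 1 else 0 : ℝ) =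
      (((rl S X Y kn).filter fun w => q ∈ Y.q w.2.1 w.2.2.1).card : ℝ) := by
    rw [Finset.card_filter]
    push_cast
    refine Finset.sum_congr rfl fun w _ => ?_
    simp [hq]
  rw [e1, e2]
  ring

private theorem P9_mA (n : ℕ) (X : Sd Q K StA RA) (Y : Sd Q K StB RB) (kn : List (Q × K))
    (c : StA → Comp Q K (StA × M)) :
    ∑ m ∈ (rl S X Y kn).image (Proc.rsA S c X), pot S n (X.upd c m) Y kn ≤ pot S n X Y kn := by
  have h1 : ∀ m ∈ (rl S X Y kn).image (Proc.rsA S c X), pot S n (X.upd c m) Y kn ≤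
      ∑ w ∈ rl S (X.upd c m) Y kn, P9_t S n X Y (kn.map Prod.fst) w := by
    intro m _
    rw [P9_pot]
    refine Finset.sum_le_sum fun w _ => ?_
    unfold P9_t
    have h2 := P9_unl_append (X.q w.1 w.2.2.1) ((c (X.s w.1 w.2.2.1)).asked w.2.2.1)
      (kn.map Prod.fst)
    have h3 : (X.upd c m).q w.1 w.2.2.1 = X.q w.1 w.2.2.1 ++ (c (X.s w.1 w.2.2.1)).asked w.2.2.1 :=
      rfl
    rw [h3, List.length_append]
    push_cast
    linarith
  refine (Finset.sum_le_sum h1).trans (le_of_eq ?_)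
  rw [sum_mA, P9_pot]

private theorem P9_mB (n : ℕ) (X : Sd Q K StA RA) (Y : Sd Q K StB RB) (kn : List (Q × K))
    (c : StB → Comp Q K (StB × M)) :
    ∑ m ∈ (rl S X Y kn).image (Proc.rsB S c Y), pot S n X (Y.upd c m) kn ≤ pot S n X Y kn := by
  have h1 : ∀ m ∈ (rl S X Y kn).image (Proc.rsB S c Y), pot S n X (Y.upd c m) kn ≤
      ∑ w ∈ rl S X (Y.upd c m) kn, P9_t S n X Y (kn.map Prod.fst) w := by
    intro m _
    rw [P9_pot]
    refine Finset.sum_le_sum fun w _ => ?_
    unfold P9_t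
    have h2 := P9_unl_append (Y.q w.2.1 w.2.2.1) ((c (Y.s w.2.1 w.2.2.1)).asked w.2.2.1)
      (kn.map Prod.fst)
    have h3 : (Y.upd c m).q w.2.1 w.2.2.1 =
        Y.q w.2.1 w.2.2.1 ++ (c (Y.s w.2.1 w.2.2.1)).asked w.2.2.1 := rfl
    rw [h3, List.length_append]
    push_cast
    linarith
  refine (Finset.sum_le_sum h1).trans (le_of_eq ?_)
  rw [sum_mB, P9_pot]

/-- Row P9.  When a heavy `q` is learned at a good state then `pot` goes down by
`#{w : q unknown, in the list of X} + #{w : q unknown, in the list of Y} >= (tA + tB) / kap >=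
gp / (N kap) = gr / N >= rl / (2 N)`; it never goes up, and it is not negative at the leaves. -/
theorem cnt_le (hcel : ∀ q, ¬ cel q → (S q).card ≤ 1) (N' N L n : ℕ) (D : Q → Prop) (hN : 0 < N)
    (p : Proc Q K StA StB M RQ RK Mg) :
    ∀ (X : Sd Q K StA RA) (Y : Sd Q K StB RB) (kn : List (Q × K)), X.Loc → Y.Loc →
      p.Ok S cel N' L n X Y kn →
      ∑ w ∈ rl S X Y kn, (p.cnt S cel N D X Y kn w : ℝ) ≤ 2 * N * pot S n X Y kn := by
  induction p with
  | stop k =>
    intro X Y kn _ _ hok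
    have h0 : ∑ w ∈ rl S X Y kn, ((Proc.stop k : Proc Q K StA StB M RQ RK Mg).cnt S cel N D X Y kn w : ℝ) = 0 :=
      Finset.sum_eq_zero fun w _ => by simp [Proc.cnt]
    rw [h0]
    refine mul_nonneg (by positivity) ?_
    rw [P9_pot]
    refine Finset.sum_nonneg fun w hw => ?_
    rw [mem_rl] at hw
    have h1 : (X.q w.1 w.2.2.1).length ≤ n := hok.1 (w.1, w.2.2) ((mem_sup S).2 ⟨hw.1, hw.2.2⟩)
    have h2 : (Y.q w.2.1 w.2.2.1).length ≤ n := hok.2.1 (w.2.1, w.2.2) ((mem_sup S).2 ⟨hw.2.1, hw.2.2⟩)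
    have h3 : ((X.q w.1 w.2.2.1).length : ℝ) ≤ n := by exact_mod_cast h1
    have h4 : ((Y.q w.2.1 w.2.2.1).length : ℝ) ≤ n := by exact_mod_cast h2
    unfold P9_t
    have h5 : (0 : ℝ) ≤ unl (X.q w.1 w.2.2.1) (kn.map Prod.fst) := Nat.cast_nonneg _
    have h6 : (0 : ℝ) ≤ unl (Y.q w.2.1 w.2.2.1) (kn.map Prod.fst) := Nat.cast_nonneg _
    linarith
  | learn q o next ih =>
    intro X Y kn hX hY hok
    set ind : ℝ := (if D q ∧ Hv S cel N X Y kn q ∧ Gd S cel X Y kn then 1 else 0) with hind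
    have h1 : ∑ w ∈ rl S X Y kn, ((Proc.learn q o next).cnt S cel N D X Y kn w : ℝ) =
        ind * (rl S X Y kn).card + ∑ v ∈ S q, ∑ w ∈ rl S X Y (kn ++ [(q, v)]),
          ((next v).cnt S cel N D X Y (kn ++ [(q, v)]) w : ℝ) := by
      have h2 : ∀ v ∈ S q, ∑ w ∈ rl S X Y (kn ++ [(q, v)]),
          ((next v).cnt S cel N D X Y (kn ++ [(q, v)]) w : ℝ) =
          ∑ w ∈ rl S X Y (kn ++ [(q, v)]),
          ((next (w.2.2.1 q)).cnt S cel N D X Y (kn ++ [(q, w.2.2.1 q)]) w : ℝ) := by
        intro v _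
        refine Finset.sum_congr rfl fun w hw => ?_
        rw [mem_rl_learn] at hw
        rw [hw.2]
      rw [Finset.sum_congr rfl h2, sum_learn S X Y kn q
        (fun w => ((next (w.2.2.1 q)).cnt S cel N D X Y (kn ++ [(q, w.2.2.1 q)]) w : ℝ))]
      have h3 : ∀ w ∈ rl S X Y kn, ((Proc.learn q o next).cnt S cel N D X Y kn w : ℝ) =
          ind + ((next (w.2.2.1 q)).cnt S cel N D X Y (kn ++ [(q, w.2.2.1 q)]) w : ℝ) := by
        intro w _
        simp only [Proc.cnt]
        rw [hind]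
        push_cast
        rfl
      rw [Finset.sum_congr rfl h3, Finset.sum_add_distrib, Finset.sum_const, nsmul_eq_mul, mul_comm]
    rw [h1]
    have h4 : ∑ v ∈ S q, ∑ w ∈ rl S X Y (kn ++ [(q, v)]),
          ((next v).cnt S cel N D X Y (kn ++ [(q, v)]) w : ℝ) ≤
        ∑ v ∈ S q, 2 * N * pot S n X Y (kn ++ [(q, v)]) :=
      Finset.sum_le_sum fun v hv => ih v X Y _ hX hY (hok v hv)
    rw [← Finset.mul_sum, P9_learn] at h4
    have h5 : ind * (rl S X Y kn).card ≤ 2 * N * ∑ w ∈ rl S X Y kn,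
        (((if q ∈ X.q w.1 w.2.2.1 ∧ q ∉ kn.map Prod.fst then 1 else 0 : ℝ)) +
        (if q ∈ Y.q w.2.1 w.2.2.1 ∧ q ∉ kn.map Prod.fst then 1 else 0 : ℝ)) := by
      by_cases hh : D q ∧ Hv S cel N X Y kn q ∧ Gd S cel X Y kn
      · rw [hind, if_pos hh, one_mul]
        exact P9_heavy S cel hcel N X Y hX hY kn q hh.2.1 hh.2.2
      · rw [hind, if_neg hh, zero_mul]
        refine mul_nonneg (by positivity) (Finset.sum_nonneg fun w _ => ?_)
        split_ifs <;> norm_num
    rw [mul_sub] at h4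
    linarith
  | mA o c next ih =>
    intro X Y kn hX hY hok
    have h1 : ∑ w ∈ rl S X Y kn, ((Proc.mA o c next).cnt S cel N D X Y kn w : ℝ) =
        ∑ m ∈ (rl S X Y kn).image (Proc.rsA S c X), ∑ w ∈ rl S (X.upd c m) Y kn,
          ((next m).cnt S cel N D (X.upd c m) Y kn w : ℝ) := by
      have h2 : ∀ m ∈ (rl S X Y kn).image (Proc.rsA S c X), ∑ w ∈ rl S (X.upd c m) Y kn,
          ((next m).cnt S cel N D (X.upd c m) Y kn w : ℝ) = ∑ w ∈ rl S (X.upd c m) Y kn,
          ((next (Proc.rsA S c X w)).cnt S cel N D (X.upd c (Proc.rsA S c X w)) Y kn w : ℝ) := by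
        intro m _
        refine Finset.sum_congr rfl fun w hw => ?_
        rw [mem_rl_updA] at hw
        rw [hw.2]
      rw [Finset.sum_congr rfl h2, sum_mA S X Y kn c (fun w =>
        ((next (Proc.rsA S c X w)).cnt S cel N D (X.upd c (Proc.rsA S c X w)) Y kn w : ℝ))]
      rfl
    rw [h1]
    refine (Finset.sum_le_sum fun m _ => ih m (X.upd c m) Y kn (upd_loc hX c m) hY (hok.2 m)).trans ?_
    rw [← Finset.mul_sum]
    exact mul_le_mul_of_nonneg_left (P9_mA S n X Y kn c) (by positivity)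
  | mB o c next ih =>
    intro X Y kn hX hY hok
    have h1 : ∑ w ∈ rl S X Y kn, ((Proc.mB o c next).cnt S cel N D X Y kn w : ℝ) =
        ∑ m ∈ (rl S X Y kn).image (Proc.rsB S c Y), ∑ w ∈ rl S X (Y.upd c m) kn,
          ((next m).cnt S cel N D X (Y.upd c m) kn w : ℝ) := by
      have h2 : ∀ m ∈ (rl S X Y kn).image (Proc.rsB S c Y), ∑ w ∈ rl S X (Y.upd c m) kn,
          ((next m).cnt S cel N D X (Y.upd c m) kn w : ℝ) = ∑ w ∈ rl S X (Y.upd c m) kn,
          ((next (Proc.rsB S c Y w)).cnt S cel N D X (Y.upd c (Proc.rsB S c Y w)) kn w : ℝ) := by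
        intro m _
        refine Finset.sum_congr rfl fun w hw => ?_
        rw [mem_rl_updB] at hw
        rw [hw.2]
      rw [Finset.sum_congr rfl h2, sum_mB S X Y kn c (fun w =>
        ((next (Proc.rsB S c Y w)).cnt S cel N D X (Y.upd c (Proc.rsB S c Y w)) kn w : ℝ))]
      rfl
    rw [h1]
    refine (Finset.sum_le_sum fun m _ => ih m X (Y.upd c m) kn hX (upd_loc hY c m) (hok.2 m)).trans ?_
    rw [← Finset.mul_sum]
    exact mul_le_mul_of_nonneg_left (P9_mB S n X Y kn c) (by positivity)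

/-- the pointwise form -/
private noncomputable def P9b_g (p : Proc Q K StA StB M RQ RK Mg) (X : Sd Q K StA RA)
    (Y : Sd Q K StB RB) (kn : List (Q × K)) (w : RA × RB × Orc S) : ℝ :=
  (if p.lf S X Y kn w = 2 then (1 : ℝ) else 0) -
    2 * ((1 - (if Dw S cel X Y kn w then (1 : ℝ) else 0)) + (p.hits S cel X Y kn w : ℝ))

private theorem P9b_sum (N L n : ℕ) (p : Proc Q K StA StB M RQ RK Mg) :
    ∀ (X : Sd Q K StA RA) (Y : Sd Q K StB RB) (kn : List (Q × K)), p.Ok S cel N L n X Y kn →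
      ∑ w ∈ rl S X Y kn, P9b_g S cel p X Y kn w ≤ 0 := by
  induction p with
  | stop k =>
    intro X Y kn h
    by_cases hk : k = 2
    · have h2 := h.2.2.2.1 hk
      unfold Gd at h2
      push Not at h2
      have e : ∑ w ∈ rl S X Y kn, P9b_g S cel (Proc.stop k : Proc Q K StA StB M RQ RK Mg) X Y kn w =
          2 * ((gr S cel X Y kn).card : ℝ) - (rl S X Y kn).card := by
        unfold P9b_g gr
        simp only [Proc.lf, Proc.hits, hk, if_true, Nat.cast_zero, add_zero, Finset.sum_sub_distrib,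
          ← Finset.mul_sum, Finset.sum_const, nsmul_eq_mul, mul_one, Finset.sum_boole]
        ring
      rw [e]
      have h3 : (2 : ℝ) * ((gr S cel X Y kn).card : ℝ) < (rl S X Y kn).card := by exact_mod_cast h2
      linarith
    · refine Finset.sum_nonpos fun w _ => ?_
      unfold P9b_g
      simp only [Proc.lf, Proc.hits, hk, if_false, Nat.cast_zero, add_zero]
      split_ifs <;> norm_num
  | learn q o next ih =>
    intro X Y kn h
    rw [← sum_learn S X Y kn q]
    refine Finset.sum_nonpos fun v hv => ?_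
    refine le_trans (Finset.sum_le_sum fun w hw => ?_) (ih v X Y (kn ++ [(q, v)]) (h v hv))
    have hwv := ((mem_rl_learn S X Y kn q v w).1 hw).2
    unfold P9b_g
    simp only [Proc.lf, Proc.hits, hwv]
    have h1 : (if Dw S cel X Y kn w then (1 : ℝ) else 0) ≤
        (if Dw S cel X Y (kn ++ [(q, v)]) w then (1 : ℝ) else 0) := by
      by_cases hD : Dw S cel X Y kn w
      · rw [if_pos hD, if_pos (dw_learn S cel X Y kn q v w hD)]
      · rw [if_neg hD]
        split_ifs <;> norm_num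
    linarith
  | mA o c next ih =>
    intro X Y kn h
    rw [← sum_mA S X Y kn c]
    refine Finset.sum_nonpos fun m hm => ?_
    refine le_trans (Finset.sum_le_sum fun w hw => ?_) (ih m (X.upd c m) Y kn (h.2 m))
    have hwv := ((mem_rl_updA S X Y kn c m w).1 hw).2
    unfold P9b_g
    simp only [Proc.lf, Proc.hits, hwv]
    have h1 : (if Dw S cel X Y kn w then (1 : ℝ) else 0) ≤
        (if Dw S cel (X.upd c m) Y kn w then (1 : ℝ) else 0) +
          ((if Dw S cel X Y kn w ∧ hitA S c X Y kn w then 1 else 0 : ℕ) : ℝ) := by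
      by_cases hD : Dw S cel X Y kn w
      · by_cases hh : hitA S c X Y kn w
        · rw [if_pos hD, if_pos (And.intro hD hh)]
          split_ifs <;> norm_num
        · rw [if_pos hD, if_pos (dw_updA S cel X Y kn c m w hD hh)]
          have : (0 : ℝ) ≤ ((if Dw S cel X Y kn w ∧ hitA S c X Y kn w then 1 else 0 : ℕ) : ℝ) :=
            Nat.cast_nonneg _
          linarith
      · rw [if_neg hD]
        positivity
    push_cast at h1 ⊢
    linarith
  | mB o c next ih =>
    intro X Y kn h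
    rw [← sum_mB S X Y kn c]
    refine Finset.sum_nonpos fun m hm => ?_
    refine le_trans (Finset.sum_le_sum fun w hw => ?_) (ih m X (Y.upd c m) kn (h.2 m))
    have hwv := ((mem_rl_updB S X Y kn c m w).1 hw).2
    unfold P9b_g
    simp only [Proc.lf, Proc.hits, hwv]
    have h1 : (if Dw S cel X Y kn w then (1 : ℝ) else 0) ≤
        (if Dw S cel X (Y.upd c m) kn w then (1 : ℝ) else 0) +
          ((if Dw S cel X Y kn w ∧ hitB S c X Y kn w then 1 else 0 : ℕ) : ℝ) := by
      by_cases hD : Dw S cel X Y kn w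
      · by_cases hh : hitB S c X Y kn w
        · rw [if_pos hD, if_pos (And.intro hD hh)]
          split_ifs <;> norm_num
        · rw [if_pos hD, if_pos (dw_updB S cel X Y kn c m w hD hh)]
          have : (0 : ℝ) ≤ ((if Dw S cel X Y kn w ∧ hitB S c X Y kn w then 1 else 0 : ℕ) : ℝ) :=
            Nat.cast_nonneg _
          linarith
      · rw [if_neg hD]
        positivity
    push_cast at h1 ⊢
    linarith

/-- Row P9b. -/
theorem code2_le (N L n : ℕ) (p : Proc Q K StA StB M RQ RK Mg) :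
    ∀ (X : Sd Q K StA RA) (Y : Sd Q K StB RB) (kn : List (Q × K)), p.Ok S cel N L n X Y kn →
      (((rl S X Y kn).filter fun w => p.lf S X Y kn w = 2).card : ℝ) ≤
      2 * (((rl S X Y kn).card - (gr S cel X Y kn).card) +
        ∑ w ∈ rl S X Y kn, (p.hits S cel X Y kn w : ℝ)) := by
  intro X Y kn h
  have h1 := P9b_sum S cel N L n p X Y kn h
  have e : ∑ w ∈ rl S X Y kn, P9b_g S cel p X Y kn w =
      (((rl S X Y kn).filter fun w => p.lf S X Y kn w = 2).card : ℝ) -
      2 * (((rl S X Y kn).card - (gr S cel X Y kn).card) +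
        ∑ w ∈ rl S X Y kn, (p.hits S cel X Y kn w : ℝ)) := by
    unfold P9b_g gr
    simp only [Finset.sum_sub_distrib, ← Finset.mul_sum, Finset.sum_add_distrib, Finset.sum_const,
      nsmul_eq_mul, mul_one, Finset.sum_boole]
  rw [e] at h1
  linarith

theorem code4 (N L n : ℕ) (p : Proc Q K StA StB M RQ RK Mg) :
    ∀ (X : Sd Q K StA RA) (Y : Sd Q K StB RB) (kn : List (Q × K)), p.Ok S cel N L n X Y kn →
      ∀ w ∈ rl S X Y kn, p.lf S X Y kn w ≠ 4 := by
  induction p with
  | stop k =>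
    intro X Y kn h w hw hk
    rw [h.2.2.2.2.1 hk] at hw
    exact absurd hw (Finset.notMem_empty _)
  | learn q o next ih =>
    intro X Y kn h w hw
    exact ih _ X Y _ (h _ (w.2.2.2 q)) w ((mem_rl_learn S X Y kn q _ w).2 ⟨hw, rfl⟩)
  | mA o c next ih =>
    intro X Y kn h w hw
    exact ih _ _ Y kn (h.2 _) w ((mem_rl_updA S X Y kn c _ w).2 ⟨hw, rfl⟩)
  | mB o c next ih =>
    intro X Y kn h w hw
    exact ih _ X _ kn (h.2 _) w ((mem_rl_updB S X Y kn c _ w).2 ⟨hw, rfl⟩)

/-- A faithful eavesdropper ends at the right leaf. -/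
theorem eve_run (outB : RB → StB → Bool) (ρ : RQ → RK) (p : Proc Q K StA StB M RQ RK Mg) :
    ∀ (X : Sd Q K StA RA) (Y : Sd Q K StB RB) (kn : List (Q × K)) (t : List Mg)
      (w : RA × RB × Orc S), p.faith ρ w.2.2.1 (X.s w.1 w.2.2.1) (Y.s w.2.1 w.2.2.1) t →
      (p.eve S outB X Y kn t).run ρ = p.lg S outB X Y kn w := by
  induction p with
  | stop k =>
    intro X Y kn t w _
    rfl
  | learn q o next ih =>
    intro X Y kn t w h
    simp only [Proc.eve, Proc.lg, Comp.run_bind]
    rw [h.1]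
    exact ih _ X Y _ t w h.2
  | mA o c next ih =>
    intro X Y kn t w h
    rcases o with i | o
    · rcases t with _ | ⟨m, t⟩
      · exact absurd h (by simp [Proc.faith])
      · simp only [Proc.eve, Proc.lg]
        rw [h.1]
        exact ih _ (X.upd c _) Y kn t w h.2
    · simp only [Proc.eve, Proc.lg, Comp.run_bind]
      rw [h.1]
      exact ih _ (X.upd c _) Y kn t w h.2
  | mB o c next ih =>
    intro X Y kn t w h
    rcases o with i | o
    · rcases t with _ | ⟨m, t⟩
      · exact absurd h (by simp [Proc.faith])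
      · simp only [Proc.eve, Proc.lg]
        rw [h.1]
        exact ih _ X (Y.upd c _) kn t w h.2
    · simp only [Proc.eve, Proc.lg, Comp.run_bind]
      rw [h.1]
      exact ih _ X (Y.upd c _) kn t w h.2

/-- Codes above 4 do not occur. -/
theorem lf_le (N L n : ℕ) (p : Proc Q K StA StB M RQ RK Mg) :
    ∀ (X : Sd Q K StA RA) (Y : Sd Q K StB RB) (kn : List (Q × K)), p.Ok S cel N L n X Y kn →
      ∀ w, p.lf S X Y kn w ≤ 4 := by
  induction p with
  | stop k =>
    intro X Y kn h w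
    exact h.2.2.2.2.2
  | learn q o next ih =>
    intro X Y kn h w
    exact ih _ X Y _ (h _ (w.2.2.2 q)) w
  | mA o c next ih =>
    intro X Y kn h w
    exact ih _ _ Y kn (h.2 _) w
  | mB o c next ih =>
    intro X Y kn h w
    exact ih _ X _ kn (h.2 _) w

/-- The length of the list of all things touched in the process. -/
theorem flat_len (N L n : ℕ) (p : Proc Q K StA StB M RQ RK Mg) :
    ∀ (X : Sd Q K StA RA) (Y : Sd Q K StB RB) (kn : List (Q × K)), p.Ok S cel N L n X Y kn →
      ∀ w ∈ rl S X Y kn,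
        ((p.flat (X.s w.1 w.2.2.1) (Y.s w.2.1 w.2.2.1)).asked w.2.2.1).length +
          (X.q w.1 w.2.2.1).length + (Y.q w.2.1 w.2.2.1).length ≤ 2 * n + p.nl S X Y kn w := by
  induction p with
  | stop k =>
    intro X Y kn h w hw
    unfold rl at hw
    rw [Finset.mem_filter] at hw
    have h1 := h.1 (w.1, w.2.2) (by
      unfold sup
      exact Finset.mem_filter.2 ⟨Finset.mem_univ _, hw.2.1, hw.2.2.2⟩)
    have h2 := h.2.1 (w.2.1, w.2.2) (by
      unfold sup
      exact Finset.mem_filter.2 ⟨Finset.mem_univ _, hw.2.2.1, hw.2.2.2⟩)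
    simp only [Proc.flat, Proc.nl, Comp.asked_ret, List.length_nil]
    simp only at h1 h2
    omega
  | learn q o next ih =>
    intro X Y kn h w hw
    have := ih (w.2.2.1 q) X Y _ (h _ (w.2.2.2 q)) w ((mem_rl_learn S X Y kn q _ w).2 ⟨hw, rfl⟩)
    simp only [Proc.flat, Proc.nl, Comp.asked_ask, List.length_cons]
    omega
  | mA o c next ih =>
    intro X Y kn h w hw
    have := ih (Proc.rsA S c X w) (X.upd c (Proc.rsA S c X w)) Y kn (h.2 _) w
      ((mem_rl_updA S X Y kn c _ w).2 ⟨hw, rfl⟩)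
    simp only [Proc.flat, Proc.nl, Comp.asked_bind, List.length_append]
    simp only [Sd.upd, List.length_append, Proc.rsA] at this
    simp only [Proc.rsA, Sd.upd]
    omega
  | mB o c next ih =>
    intro X Y kn h w hw
    have := ih (Proc.rsB S c Y w) X (Y.upd c (Proc.rsB S c Y w)) kn (h.2 _) w
      ((mem_rl_updB S X Y kn c _ w).2 ⟨hw, rfl⟩)
    simp only [Proc.flat, Proc.nl, Comp.asked_bind, List.length_append]
    simp only [Sd.upd, List.length_append, Proc.rsB] at this
    simp only [Proc.rsB, Sd.upd]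
    omega

end Pool.Agent.Nbb
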