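import Pool.Agent.Lib.MP_ae38e0_lc.Nbb.Gen

set_option autoImplicit false

/-!
# Exchange of a value of the oracle with an independent one (row S1)
-/

namespace Pool.Agent.Nbb

open Pool.Agent.LinOT Classical

variable {Q K ι α : Type} [Finite Q] [Finite K] [Fintype ι]

private noncomputable def S1_sw (S : Q → Finset K) (q : ι → Q) (Uf : Finset K) (hU : ∀ i, S (q i) = Uf)
    (z : Orc S × ι × {u // u ∈ Uf}) : Orc S × ι × {u // u ∈ Uf} :=
  (⟨Function.update z.1.1 (q z.2.1) z.2.2.1, fun x => by
      by_cases hx : x = q z.2.1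
      · subst hx
        rw [Function.update_self, hU]
        exact z.2.2.2
      · rw [Function.update_of_ne hx]
        exact z.1.2 x⟩,
    z.2.1, ⟨z.1.1 (q z.2.1), by
      have h := z.1.2 (q z.2.1)
      rw [hU] at h
      exact h⟩)

private theorem S1_sw_sw (S : Q → Finset K) (q : ι → Q) (Uf : Finset K) (hU : ∀ i, S (q i) = Uf)
    (z : Orc S × ι × {u // u ∈ Uf}) : S1_sw S q Uf hU (S1_sw S q Uf hU z) = z := by
  obtain ⟨⟨O, hO⟩, i, ⟨u, hu⟩⟩ := z
  unfold S1_sw
  refine Prod.ext (Subtype.ext ?_) (Prod.ext rfl (Subtype.ext ?_))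
  · simp only [Function.update_idem, Function.update_eq_self]
  · simp only [Function.update_self]

/-- The triples `(O, i, u)` and `(O with the value u at q i, i, O (q i))` are in bijection. -/
theorem swap_card (S : Q → Finset K) (q : ι → Q) (Uf : Finset K) (hU : ∀ i, S (q i) = Uf)
    (Φ : (Q → K) → ι → K → Prop) :
    (Finset.univ.filter fun z : Orc S × ι × {u // u ∈ Uf} =>
      Φ (Function.update z.1.1 (q z.2.1) z.2.2.1) z.2.1 (z.1.1 (q z.2.1))).card =
    (Finset.univ.filter fun z : Orc S × ι × {u // u ∈ Uf} => Φ z.1.1 z.2.1 z.2.2.1).card := by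
  refine Finset.card_bij' (fun z _ => S1_sw S q Uf hU z) (fun z _ => S1_sw S q Uf hU z) ?_ ?_
    (fun z _ => S1_sw_sw S q Uf hU z) (fun z _ => S1_sw_sw S q Uf hU z)
  · intro z hz
    rw [Finset.mem_filter] at hz ⊢
    exact ⟨Finset.mem_univ _, hz.2⟩
  · intro z hz
    rw [Finset.mem_filter] at hz ⊢
    refine ⟨Finset.mem_univ _, ?_⟩
    have h1 := S1_sw_sw S q Uf hU z
    have h2 : Φ (S1_sw S q Uf hU (S1_sw S q Uf hU z)).1.1 (S1_sw S q Uf hU (S1_sw S q Uf hU z)).2.1
        (S1_sw S q Uf hU (S1_sw S q Uf hU z)).2.2.1 := by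
      rw [h1]
      exact hz.2
    exact h2

/-- Two oracles which differ only at `x`: the computation asks `x` with both or with none. -/
theorem asked_update (c : Comp Q K α) (O : Q → K) (x : Q) (u : K) :
    x ∈ c.asked (Function.update O x u) ↔ x ∈ c.asked O := by
  induction c with
  | ret a => simp
  | ask y next ih =>
    rw [Comp.asked_ask, Comp.asked_ask, List.mem_cons, List.mem_cons]
    by_cases hx : x = y
    · simp [hx]
    · rw [Function.update_of_ne (Ne.symm hx), ih]

/-- If `x` is not asked, nothing changes. -/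
theorem run_update (c : Comp Q K α) (O : Q → K) (x : Q) (u : K) (h : x ∉ c.asked O) :
    c.run (Function.update O x u) = c.run O ∧ c.asked (Function.update O x u) = c.asked O := by
  induction c with
  | ret a => exact ⟨rfl, rfl⟩
  | ask y next ih =>
    rw [Comp.asked_ask, List.mem_cons, not_or] at h
    rw [Comp.asked_ask, Comp.asked_ask, Comp.run_ask, Comp.run_ask,
      Function.update_of_ne (Ne.symm h.1)]
    obtain ⟨h1, h2⟩ := ih (O y) h.2
    exact ⟨h1, by rw [h2]⟩

private theorem S1_few (q : ι → Q) (hq : Function.Injective q) (l : List Q) :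
    (Finset.univ.filter fun i : ι => q i ∈ l).card ≤ l.length := by
  refine le_trans ?_ (List.toFinset_card_le l)
  refine Finset.card_le_card_of_injOn q ?_ (fun a _ b _ hab => hq hab)
  intro i hi
  have h1 := (Finset.mem_filter.1 (Finset.mem_coe.1 hi)).2
  exact Finset.mem_coe.2 (List.mem_toFinset.2 h1)

/-- A computation which gets the value at a random place `q i` as input hardly ever asks this place.
Proof: with an independent value `u`, `swap_card` and `asked_update`: for a fixed oracle and fixed
input at most `I` of the places are asked. -/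
theorem hit_card (S : Q → Finset K) (q : ι → Q) (hq : Function.Injective q) (Uf : Finset K)
    (hU : ∀ i, S (q i) = Uf) (hne : Uf.Nonempty) (c : K → Comp Q K α) (I : ℕ)
    (hI : ∀ (O : Orc S) (u : K), ((c u).asked O.1).length ≤ I) :
    (Finset.univ.filter fun z : Orc S × ι => q z.2 ∈ (c (z.1.1 (q z.2))).asked z.1.1).card ≤
      I * Fintype.card (Orc S) := by
  have hpos : 0 < Uf.card := hne.card_pos
  refine Nat.le_of_mul_le_mul_right ?_ hpos
  have h1 : (Finset.univ.filter fun z : Orc S × ι =>
        q z.2 ∈ (c (z.1.1 (q z.2))).asked z.1.1).card * Uf.card ≤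
      (Finset.univ.filter fun z : Orc S × ι × {u // u ∈ Uf} =>
        q z.2.1 ∈ (c (z.1.1 (q z.2.1))).asked (Function.update z.1.1 (q z.2.1) z.2.2.1)).card := by
    have hc : Uf.card = (Finset.univ : Finset {u // u ∈ Uf}).card := by
      rw [Finset.card_univ, Fintype.card_coe]
    rw [hc, ← Finset.card_product]
    refine Finset.card_le_card_of_injOn (fun w => (w.1.1, w.1.2, w.2)) ?_ ?_
    · intro w hw
      have h2 := (Finset.mem_filter.1 (Finset.mem_product.1 (Finset.mem_coe.1 hw)).1).2
      refine Finset.mem_coe.2 (Finset.mem_filter.2 ⟨Finset.mem_univ _, ?_⟩)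
      exact (asked_update _ _ _ _).2 h2
    · rintro ⟨⟨a, b⟩, d⟩ - ⟨⟨a', b'⟩, d'⟩ - h
      simp only [Prod.mk.injEq] at h
      obtain ⟨h1, h2, h3⟩ := h
      rw [h1, h2, h3]
  refine h1.trans ?_
  have h2 : (Finset.univ.filter fun z : Orc S × ι × {u // u ∈ Uf} =>
        q z.2.1 ∈ (c (z.1.1 (q z.2.1))).asked (Function.update z.1.1 (q z.2.1) z.2.2.1)).card =
      (Finset.univ.filter fun z : Orc S × ι × {u // u ∈ Uf} =>
        q z.2.1 ∈ (c z.2.2.1).asked z.1.1).card := by
    convert swap_card S q Uf hU (fun O i u => q i ∈ (c u).asked O)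
  rw [h2, Finset.card_filter, Fintype.sum_prod_type]
  have h3 : ∀ O : Orc S, (∑ y : ι × {u // u ∈ Uf},
      if q y.1 ∈ (c y.2.1).asked O.1 then 1 else 0) ≤ I * Uf.card := by
    intro O
    rw [Fintype.sum_prod_type, Finset.sum_comm]
    calc (∑ y : {u // u ∈ Uf}, ∑ x : ι, if q x ∈ (c y.1).asked O.1 then 1 else 0)
        ≤ ∑ y : {u // u ∈ Uf}, I := by
          refine Finset.sum_le_sum fun y _ => ?_
          rw [← Finset.card_filter]
          exact (S1_few q hq _).trans (hI O y.1)
      _ = I * Uf.card := by
          rw [Finset.sum_const, Finset.card_univ, Fintype.card_coe, smul_eq_mul, mul_comm]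
  calc (∑ O : Orc S, ∑ y : ι × {u // u ∈ Uf}, if q y.1 ∈ (c y.2.1).asked O.1 then 1 else 0)
      ≤ ∑ O : Orc S, I * Uf.card := Finset.sum_le_sum fun O _ => h3 O
    _ = I * Fintype.card (Orc S) * Uf.card := by
        rw [Finset.sum_const, Finset.card_univ, smul_eq_mul]
        ring

private theorem S2_aux {J : Type} [Fintype J] [Fintype K] (A : Finset J)
    (l : (Option J → K) → List (J × K))
    (hl : ∀ u u' : Option J → K, u none = u' none → (∀ j ∈ A, u (some j) = u' (some j)) →
      l u = l u') (i : ℕ) :
    Fintype.card K * (Finset.univ.filter fun u : Option J → K =>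
      ∃ j, j ∉ A ∧ (l u)[i]? = some (j, u (some j))).card ≤ Fintype.card (Option J → K) := by
  rw [mul_comm, ← Finset.card_univ (α := K), ← Finset.card_product,
    ← Finset.card_univ (α := Option J → K)]
  refine Finset.card_le_card_of_injOn (fun p : (Option J → K) × K =>
    match (l p.1)[i]? with
    | some x => Function.update p.1 (some x.1) p.2
    | none => p.1) (fun _ _ => Finset.mem_coe.2 (Finset.mem_univ _)) ?_
  rintro ⟨u, z⟩ hu ⟨u', z'⟩ hu' h
  simp only [Finset.coe_product, Finset.coe_filter, Finset.mem_univ, true_and, Finset.coe_univ,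
    Set.mem_prod, Set.mem_ofPred_eq, Set.mem_univ, and_true] at hu hu'
  obtain ⟨j, hj, h1⟩ := hu
  obtain ⟨j', hj', h1'⟩ := hu'
  simp only [h1, h1'] at h
  have a : ∀ (v : Option J → K) (k : J) (y : K), k ∉ A →
      l v = l (Function.update v (some k) y) := by
    intro v k y hk
    apply hl
    · rw [Function.update_of_ne (by simp)]
    · intro k' hk'
      rw [Function.update_of_ne]
      intro h2
      rw [Option.some.injEq] at h2
      exact hk (h2 ▸ hk')
  have e : l u = l u' := by
    rw [a u j z hj, h, ← a u' j' z' hj']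
  rw [e, h1', Option.some.injEq, Prod.mk.injEq] at h1
  obtain ⟨rfl, h3⟩ := h1
  have h4 : z = z' := by
    have := congrFun h (some j')
    rwa [Function.update_self, Function.update_self] at this
  have h5 : u = u' := by
    funext o
    by_cases ho : o = some j'
    · rw [ho, h3]
    · have := congrFun h o
      rwa [Function.update_of_ne ho, Function.update_of_ne ho] at this
  rw [h4, h5]

/-- Row S2.  Hidden labels are not guessed: `l u` depends only on the values of `u` outside of
`some j`, `j ∉ A`.  Proof: for a position `i` let `E` be the set of the `u` such that the element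
of `l u` at the position `i` is `(j, u (some j))` with `j ∉ A`; the map
`(u, z) ↦ update u (some j) z` is injective on `E × K` (the list does not change). -/
theorem hid_card {J : Type} [Fintype J] [Fintype K] (A : Finset J)
    (l : (Option J → K) → List (J × K)) (I : ℕ) (hI : ∀ u, (l u).length ≤ I)
    (hl : ∀ u u' : Option J → K, u none = u' none → (∀ j ∈ A, u (some j) = u' (some j)) →
      l u = l u') :
    Fintype.card K * (Finset.univ.filter fun u : Option J → K =>
      ∃ j ∉ A, (j, u (some j)) ∈ l u).card ≤ I * Fintype.card (Option J → K) := by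
  have h1 : (Finset.univ.filter fun u : Option J → K => ∃ j ∉ A, (j, u (some j)) ∈ l u) ⊆
      (Finset.range I).biUnion fun i => Finset.univ.filter fun u : Option J → K =>
        ∃ j, j ∉ A ∧ (l u)[i]? = some (j, u (some j)) := by
    intro u hu
    rw [Finset.mem_filter] at hu
    obtain ⟨-, j, hj, hm⟩ := hu
    obtain ⟨i, hi⟩ := List.mem_iff_getElem?.1 hm
    rw [Finset.mem_biUnion]
    refine ⟨i, ?_, ?_⟩
    · rw [Finset.mem_range]
      have : i < (l u).length := by
        by_contra hc
        rw [List.getElem?_eq_none (not_lt.1 hc)] at hi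
        exact absurd hi (by simp)
      exact lt_of_lt_of_le this (hI u)
    · rw [Finset.mem_filter]
      exact ⟨Finset.mem_univ _, j, hj, hi⟩
  calc Fintype.card K * (Finset.univ.filter fun u : Option J → K =>
        ∃ j ∉ A, (j, u (some j)) ∈ l u).card
      ≤ Fintype.card K * ∑ i ∈ Finset.range I, (Finset.univ.filter fun u : Option J → K =>
        ∃ j, j ∉ A ∧ (l u)[i]? = some (j, u (some j))).card :=
        Nat.mul_le_mul_left _ ((Finset.card_le_card h1).trans Finset.card_biUnion_le)
    _ = ∑ i ∈ Finset.range I, Fintype.card K * (Finset.univ.filter fun u : Option J → K =>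
        ∃ j, j ∉ A ∧ (l u)[i]? = some (j, u (some j))).card := by rw [Finset.mul_sum]
    _ ≤ ∑ _i ∈ Finset.range I, Fintype.card (Option J → K) :=
        Finset.sum_le_sum fun i _ => S2_aux A l hl i
    _ = I * Fintype.card (Option J → K) := by simp

end Pool.Agent.Nbb
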