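import Pool.Agent.Lib.MP_ae38e0_lc.Nbb.Gen

set_option autoImplicit false

/-!
# Values of the oracle which are replaced by independent ones, at places chosen adaptively

The computations considered here ask an oracle on `Q ⊕ (I × Z)`: besides the queries `.inl x` there
are queries `.inr (i, z)`; in the ideal execution their answer is `u i`, in the real one it is the
value of the oracle at the place `g z`.
-/

namespace Pool.Agent.Nbb

open Pool.Agent.LinOT Classical

variable {Q K I Z α : Type}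

/-- The ideal answers. -/
def ansI (O : Q → K) (u : I → K) : Q ⊕ (I × Z) → K := Sum.elim O fun z => u z.1

/-- The real answers. -/
def ansR (O : Q → K) (g : Z → Q) : Q ⊕ (I × Z) → K := Sum.elim O fun z => O (g z.2)

/-- No place with `R` is asked directly, and different `i` belong to different places. -/
def Gq (R : Q → Prop) (g : Z → Q) (l : List (Q ⊕ (I × Z))) : Prop :=
  (∀ x, .inl x ∈ l → ¬ R x) ∧
    ∀ z z' : I × Z, .inr z ∈ l → .inr z' ∈ l → (z.1 = z'.1 ↔ g z.2 = g z'.2)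

/-- The exchange for the list `l`: at the places `g z`, `.inr (i, z)` in `l`, the value `u i` is
written, and `u i` becomes the old value. -/
noncomputable def exO (g : Z → Q) (l : List (Q ⊕ (I × Z))) (O : Q → K) (u : I → K) : Q → K :=
  fun x => if h : ∃ z : I × Z, .inr z ∈ l ∧ g z.2 = x then u h.choose.1 else O x

/-- The exchange for the list `l`, second part. -/
noncomputable def exU (g : Z → Q) (l : List (Q ⊕ (I × Z))) (O : Q → K) (u : I → K) : I → K :=
  fun i => if h : ∃ z : I × Z, .inr z ∈ l ∧ z.1 = i then O (g h.choose.2) else u i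

/-! ## Row S1 -/

private theorem S1_exO_mem {R : Q → Prop} {g : Z → Q} {l : List (Q ⊕ (I × Z))} (hl : Gq R g l)
    (O : Q → K) (u : I → K) {z : I × Z} (hz : .inr z ∈ l) : exO g l O u (g z.2) = u z.1 := by
  have h : ∃ z' : I × Z, .inr z' ∈ l ∧ g z'.2 = g z.2 := ⟨z, hz, rfl⟩
  unfold exO
  rw [dif_pos h]
  congr 1
  exact (hl.2 _ _ h.choose_spec.1 hz).2 h.choose_spec.2

private theorem S1_exO_not {g : Z → Q} {l : List (Q ⊕ (I × Z))} (O : Q → K) (u : I → K) {x : Q}
    (h : ¬ ∃ z : I × Z, .inr z ∈ l ∧ g z.2 = x) : exO g l O u x = O x := by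
  unfold exO
  rw [dif_neg h]

private theorem S1_exU_mem {R : Q → Prop} {g : Z → Q} {l : List (Q ⊕ (I × Z))} (hl : Gq R g l)
    (O : Q → K) (u : I → K) {z : I × Z} (hz : .inr z ∈ l) : exU g l O u z.1 = O (g z.2) := by
  have h : ∃ z' : I × Z, .inr z' ∈ l ∧ z'.1 = z.1 := ⟨z, hz, rfl⟩
  unfold exU
  rw [dif_pos h]
  congr 1
  exact (hl.2 _ _ h.choose_spec.1 hz).1 h.choose_spec.2

private theorem S1_exU_not {g : Z → Q} {l : List (Q ⊕ (I × Z))} (O : Q → K) (u : I → K) {i : I}
    (h : ¬ ∃ z : I × Z, .inr z ∈ l ∧ z.1 = i) : exU g l O u i = u i := by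
  unfold exU
  rw [dif_neg h]

theorem ex_ex (R : Q → Prop) (g : Z → Q) (hg : ∀ z, R (g z)) (l : List (Q ⊕ (I × Z)))
    (hl : Gq R g l) (O : Q → K) (u : I → K) :
    exO g l (exO g l O u) (exU g l O u) = O ∧ exU g l (exO g l O u) (exU g l O u) = u := by
  constructor
  · funext x
    by_cases h : ∃ z : I × Z, .inr z ∈ l ∧ g z.2 = x
    · obtain ⟨z, hz, rfl⟩ := h
      rw [S1_exO_mem hl _ _ hz, S1_exU_mem hl _ _ hz]
    · rw [S1_exO_not _ _ h, S1_exO_not _ _ h]
  · funext i
    by_cases h : ∃ z : I × Z, .inr z ∈ l ∧ z.1 = i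
    · obtain ⟨z, hz, rfl⟩ := h
      rw [S1_exU_mem hl _ _ hz, S1_exO_mem hl _ _ hz]
    · rw [S1_exU_not _ _ h, S1_exU_not _ _ h]

/-- On the queries of `l` the real answers after the exchange are the ideal answers. -/
theorem ansR_ex (R : Q → Prop) (g : Z → Q) (hg : ∀ z, R (g z)) (l : List (Q ⊕ (I × Z)))
    (hl : Gq R g l) (O : Q → K) (u : I → K) :
    ∀ x ∈ l, ansR (exO g l O u) g x = ansI O u x ∧
      ansI (exO g l O u) (exU g l O u) x = ansR O g x := by
  intro x hx
  cases x with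
  | inl q =>
    have h : ¬ ∃ z : I × Z, .inr z ∈ l ∧ g z.2 = q := by
      rintro ⟨z, _, rfl⟩
      exact hl.1 _ hx (hg _)
    have h1 : exO g l O u q = O q := S1_exO_not O u h
    exact ⟨h1, h1⟩
  | inr z =>
    exact ⟨S1_exO_mem hl O u hx, S1_exU_mem hl O u hx⟩

private theorem S1_exO_orc (S : Q → Finset K) (R : Q → Prop) (g : Z → Q) (hg : ∀ z, R (g z))
    (hS : ∀ x, R x → ∀ v : K, v ∈ S x) (l : List (Q ⊕ (I × Z))) (O : Orc S) (u : I → K) :
    ∀ x, exO g l O.1 u x ∈ S x := by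
  intro x
  by_cases h : ∃ z : I × Z, .inr z ∈ l ∧ g z.2 = x
  · obtain ⟨z, _, hz⟩ := h
    have hR : R x := by
      rw [← hz]
      exact hg _
    exact hS x hR _
  · rw [S1_exO_not _ _ h]
    exact O.2 x

/-- The executions without a query in `R`: the ideal ones and the real ones are in bijection, with
the same results.  Proof: the maps `(O, u) ↦ (exO g l O u, exU g l O u)` with `l = c.asked (ansI O u)`
and with `l = c.asked (ansR O g)` are inverse to each other (`Comp.run_congr`, `ansR_ex`,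
`ex_ex`). -/
theorem adapt_swap [Finite Q] [Fintype K] [Fintype I] (S : Q → Finset K) (R : Q → Prop)
    (g : Z → Q) (hg : ∀ z, R (g z)) (hS : ∀ x, R x → ∀ v : K, v ∈ S x)
    (c : Comp (Q ⊕ (I × Z)) K α) (A : α → Prop) :
    (Finset.univ.filter fun w : Orc S × (I → K) =>
      Gq R g (c.asked (ansI w.1.1 w.2)) ∧ A (c.run (ansI w.1.1 w.2))).card =
    (Finset.univ.filter fun w : Orc S × (I → K) =>
      Gq R g (c.asked (ansR w.1.1 g)) ∧ A (c.run (ansR w.1.1 g))).card := by
  have key1 : ∀ w : Orc S × (I → K), Gq R g (c.asked (ansI w.1.1 w.2)) →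
      c.run (ansR (exO g (c.asked (ansI w.1.1 w.2)) w.1.1 w.2) g) = c.run (ansI w.1.1 w.2) ∧
      c.asked (ansR (exO g (c.asked (ansI w.1.1 w.2)) w.1.1 w.2) g) =
        c.asked (ansI w.1.1 w.2) := by
    intro w hw
    have h := Comp.run_congr (O := ansI w.1.1 w.2)
      (O' := ansR (exO g (c.asked (ansI w.1.1 w.2)) w.1.1 w.2) g) c
      (fun q hq => (ansR_ex R g hg _ hw w.1.1 w.2 q hq).1.symm)
    exact ⟨h.1.symm, h.2.symm⟩
  have key2 : ∀ w : Orc S × (I → K), Gq R g (c.asked (ansR w.1.1 g)) →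
      c.run (ansI (exO g (c.asked (ansR w.1.1 g)) w.1.1 w.2)
        (exU g (c.asked (ansR w.1.1 g)) w.1.1 w.2)) = c.run (ansR w.1.1 g) ∧
      c.asked (ansI (exO g (c.asked (ansR w.1.1 g)) w.1.1 w.2)
        (exU g (c.asked (ansR w.1.1 g)) w.1.1 w.2)) = c.asked (ansR w.1.1 g) := by
    intro w hw
    have h := Comp.run_congr (O := ansR w.1.1 g)
      (O' := ansI (exO g (c.asked (ansR w.1.1 g)) w.1.1 w.2)
        (exU g (c.asked (ansR w.1.1 g)) w.1.1 w.2)) c
      (fun q hq => (ansR_ex R g hg _ hw w.1.1 w.2 q hq).2.symm)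
    exact ⟨h.1.symm, h.2.symm⟩
  refine Finset.card_bij'
    (fun w _ => (⟨exO g (c.asked (ansI w.1.1 w.2)) w.1.1 w.2,
      S1_exO_orc S R g hg hS _ w.1 w.2⟩, exU g (c.asked (ansI w.1.1 w.2)) w.1.1 w.2))
    (fun w _ => (⟨exO g (c.asked (ansR w.1.1 g)) w.1.1 w.2,
      S1_exO_orc S R g hg hS _ w.1 w.2⟩, exU g (c.asked (ansR w.1.1 g)) w.1.1 w.2))
    ?_ ?_ ?_ ?_
  · intro w hw
    rw [Finset.mem_filter] at hw ⊢
    obtain ⟨h1, h2⟩ := key1 w hw.2.1
    refine ⟨Finset.mem_univ _, ?_, ?_⟩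
    · show Gq R g (c.asked (ansR (exO g (c.asked (ansI w.1.1 w.2)) w.1.1 w.2) g))
      rw [h2]
      exact hw.2.1
    · show A (c.run (ansR (exO g (c.asked (ansI w.1.1 w.2)) w.1.1 w.2) g))
      rw [h1]
      exact hw.2.2
  · intro w hw
    rw [Finset.mem_filter] at hw ⊢
    obtain ⟨h1, h2⟩ := key2 w hw.2.1
    refine ⟨Finset.mem_univ _, ?_, ?_⟩
    · show Gq R g (c.asked (ansI (exO g (c.asked (ansR w.1.1 g)) w.1.1 w.2)
        (exU g (c.asked (ansR w.1.1 g)) w.1.1 w.2)))
      rw [h2]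
      exact hw.2.1
    · show A (c.run (ansI (exO g (c.asked (ansR w.1.1 g)) w.1.1 w.2)
        (exU g (c.asked (ansR w.1.1 g)) w.1.1 w.2)))
      rw [h1]
      exact hw.2.2
  · intro w hw
    rw [Finset.mem_filter] at hw
    obtain ⟨h1, h2⟩ := key1 w hw.2.1
    have h3 := ex_ex R g hg _ hw.2.1 w.1.1 w.2
    refine Prod.ext (Subtype.ext ?_) ?_
    · show exO g (c.asked (ansR (exO g (c.asked (ansI w.1.1 w.2)) w.1.1 w.2) g)) _ _ = w.1.1
      rw [h2]
      exact h3.1
    · show exU g (c.asked (ansR (exO g (c.asked (ansI w.1.1 w.2)) w.1.1 w.2) g)) _ _ = w.2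
      rw [h2]
      exact h3.2
  · intro w hw
    rw [Finset.mem_filter] at hw
    obtain ⟨h1, h2⟩ := key2 w hw.2.1
    have h3 := ex_ex R g hg _ hw.2.1 w.1.1 w.2
    refine Prod.ext (Subtype.ext ?_) ?_
    · show exO g (c.asked (ansI (exO g (c.asked (ansR w.1.1 g)) w.1.1 w.2)
        (exU g (c.asked (ansR w.1.1 g)) w.1.1 w.2))) _ _ = w.1.1
      rw [h2]
      exact h3.1
    · show exU g (c.asked (ansI (exO g (c.asked (ansR w.1.1 g)) w.1.1 w.2)
        (exU g (c.asked (ansR w.1.1 g)) w.1.1 w.2))) _ _ = w.2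
      rw [h2]
      exact h3.2

/-- A list meets few of the disjoint rows. -/
theorem row_hit {ι : Type} [Fintype ι] (row : ι → Q → Prop)
    (hrow : ∀ i i' x, row i x → row i' x → i = i') (l : List (Q ⊕ (I × Z))) :
    (Finset.univ.filter fun i : ι => ∃ x, .inl x ∈ l ∧ row i x).card ≤ l.length := by
  refine le_trans ?_ (List.toFinset_card_le l)
  rcases isEmpty_or_nonempty (Q ⊕ (I × Z)) with hE | hN
  · have h0 : (Finset.univ.filter fun i : ι =>
        ∃ x, (Sum.inl x : Q ⊕ (I × Z)) ∈ l ∧ row i x) = ∅ := by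
      rw [Finset.filter_eq_empty_iff]
      rintro i _ ⟨x, _, _⟩
      exact hE.elim (Sum.inl x)
    rw [h0]
    exact Nat.zero_le _
  · refine Finset.card_le_card_of_injOn
      (fun i => if h : ∃ x, (Sum.inl x : Q ⊕ (I × Z)) ∈ l ∧ row i x then Sum.inl h.choose
        else hN.some) ?_ ?_
    · intro i hi
      have h := (Finset.mem_filter.1 (Finset.mem_coe.1 hi)).2
      refine Finset.mem_coe.2 (List.mem_toFinset.2 ?_)
      simp only [dif_pos h]
      exact h.choose_spec.1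
    · intro i hi i' hi' he
      have h := (Finset.mem_filter.1 (Finset.mem_coe.1 hi)).2
      have h' := (Finset.mem_filter.1 (Finset.mem_coe.1 hi')).2
      simp only [dif_pos h, dif_pos h'] at he
      have he' : h.choose = h'.choose := Sum.inl.inj he
      have h1 := h.choose_spec.2
      rw [he'] at h1
      exact hrow _ _ _ h1 h'.choose_spec.2

end Pool.Agent.Nbb
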