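import Pool.Agent.Lib.MP_ae38e0_lc.Nbb.Light

set_option autoImplicit false

/-! Rows P4 (ownership) and P5 (the guess at the end). -/

namespace Pool.Agent.Nbb

open Pool.Agent.LinOT Classical

variable {Q K StA StB RA RB : Type} [Finite Q] [Finite K] [Fintype RA] [Fintype RB]

variable (S : Q → Finset K) (cel : Q → Prop)

/-- few consistent states of the first party touch a given unknown cell -/
private theorem P4a_touch (N n : ℕ) (hN : 4 * n ≤ N) (hN0 : 0 < N) (X : Sd Q K StA RA)
    (Y : Sd Q K StB RB) (kn : List (Q × K)) (hL : Lt S cel N cel X Y kn) (hX : Bd S n X kn)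
    (hg : 0 < (gp S cel X Y kn).card) (d : Q) (hd : cel d) (hdW : d ∉ kn.map Prod.fst) :
    3 * N * ((sup S X kn).filter fun p => d ∈ X.q p.1 p.2.1).card ≤ 4 * (sup S X kn).card := by
  obtain ⟨h1, h2, h3⟩ := gp_swap S cel X Y kn
  have hL' : Lt S cel N cel Y X kn := by
    intro e he heW
    rw [h1, h2, h3]
    exact ⟨(hL e he heW).2, (hL e he heW).1⟩
  refine touchB S cel N n N hN hN0 Y X kn hL' hX (by rw [h1]; exact hg) d ?_
  rw [h1, h3]
  exact (hL d hd hdW).1

/-- few consistent states of the first party are not partners of a given state of the second -/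
private theorem P4a_non (N n : ℕ) (hN : 4 * n ≤ N) (hN0 : 0 < N) (X : Sd Q K StA RA)
    (Y : Sd Q K StB RB) (kn : List (Q × K)) (hL : Lt S cel N cel X Y kn) (hX : Bd S n X kn)
    (hY : Bd S n Y kn) (hg : 0 < (gp S cel X Y kn).card) (p' : RB × Orc S)
    (hp : p' ∈ sup S Y kn) :
    3 * N * ((sup S X kn).filter fun p =>
      ¬ Dj cel (kn.map Prod.fst) (X.q p.1 p.2.1) (Y.q p'.1 p'.2.1)).card ≤
      4 * n * (sup S X kn).card := by
  set D : Finset Q := (Y.q p'.1 p'.2.1).toFinset.filter (fun c => cel c ∧ c ∉ kn.map Prod.fst)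
    with hD
  have hDn : D.card ≤ n :=
    le_trans (Finset.card_filter_le _ _) (le_trans (List.toFinset_card_le _) (hY p' hp))
  have hsub : ((sup S X kn).filter fun p =>
      ¬ Dj cel (kn.map Prod.fst) (X.q p.1 p.2.1) (Y.q p'.1 p'.2.1)) ⊆
      D.biUnion fun c => (sup S X kn).filter fun p => c ∈ X.q p.1 p.2.1 := by
    intro p hp
    rw [Finset.mem_filter] at hp
    obtain ⟨hp1, hp2⟩ := hp
    unfold Dj at hp2
    push Not at hp2
    obtain ⟨c, hc1, hc2, hc3, hc4⟩ := hp2
    rw [Finset.mem_biUnion]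
    refine ⟨c, ?_, Finset.mem_filter.mpr ⟨hp1, hc2⟩⟩
    rw [hD, Finset.mem_filter, List.mem_toFinset]
    exact ⟨hc3, hc1, hc4⟩
  calc 3 * N * ((sup S X kn).filter fun p =>
      ¬ Dj cel (kn.map Prod.fst) (X.q p.1 p.2.1) (Y.q p'.1 p'.2.1)).card
      ≤ 3 * N * ∑ c ∈ D, ((sup S X kn).filter fun p => c ∈ X.q p.1 p.2.1).card :=
        Nat.mul_le_mul_left _ (le_trans (Finset.card_le_card hsub) Finset.card_biUnion_le)
    _ = ∑ c ∈ D, 3 * N * ((sup S X kn).filter fun p => c ∈ X.q p.1 p.2.1).card := by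
        rw [Finset.mul_sum]
    _ ≤ ∑ _c ∈ D, 4 * (sup S X kn).card := by
        refine Finset.sum_le_sum fun c hc => ?_
        rw [hD, Finset.mem_filter] at hc
        exact P4a_touch S cel N n hN hN0 X Y kn hL hX hg c hc.2.1 hc.2.2
    _ = D.card * (4 * (sup S X kn).card) := by rw [Finset.sum_const, smul_eq_mul]
    _ ≤ n * (4 * (sup S X kn).card) := Nat.mul_le_mul_right _ hDn
    _ = 4 * n * (sup S X kn).card := by ring

/-- the good pairs with `oB` are in the product -/
private theorem P4a_prod (X : Sd Q K StA RA) (Y : Sd Q K StB RB) (kn : List (Q × K))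
    (oB : RB → (Q → K) → Prop) :
    ((gp S cel X Y kn).filter fun z => oB z.2.1 z.2.2.1).card ≤
      (sup S X kn).card * ((sup S Y kn).filter fun p => oB p.1 p.2.1).card := by
  rw [← Finset.card_product]
  apply Finset.card_le_card
  intro z hz
  rw [Finset.mem_filter] at hz
  obtain ⟨hz1, hz2⟩ := hz
  rw [gp, Finset.mem_filter, Finset.mem_product] at hz1
  rw [Finset.mem_product, Finset.mem_filter]
  exact ⟨hz1.1.1, hz1.1.2, hz2⟩

/-- the good pairs with `oA` and `oB`, counted over the second component -/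
private theorem P4a_both (X : Sd Q K StA RA) (Y : Sd Q K StB RB) (kn : List (Q × K))
    (oA : RA → (Q → K) → Prop) (oB : RB → (Q → K) → Prop) (a : ℕ)
    (h : ∀ p' ∈ sup S Y kn, a ≤ 2 * ((sup S X kn).filter fun p => oA p.1 p.2.1 ∧
      Dj cel (kn.map Prod.fst) (X.q p.1 p.2.1) (Y.q p'.1 p'.2.1)).card) :
    ((sup S Y kn).filter fun p => oB p.1 p.2.1).card * a ≤
      2 * ((gp S cel X Y kn).filter fun z => oA z.1.1 z.1.2.1 ∧ oB z.2.1 z.2.2.1).card := by
  have hmap : Set.MapsTo (fun z : (RA × Orc S) × (RB × Orc S) => z.2)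
      (((gp S cel X Y kn).filter fun z => oA z.1.1 z.1.2.1 ∧ oB z.2.1 z.2.2.1 :
        Finset ((RA × Orc S) × (RB × Orc S))) : Set ((RA × Orc S) × (RB × Orc S)))
      (((sup S Y kn).filter fun p => oB p.1 p.2.1 : Finset (RB × Orc S)) :
        Set (RB × Orc S)) := by
    intro z hz
    rw [Finset.mem_coe, Finset.mem_filter] at hz
    rw [Finset.mem_coe]
    obtain ⟨hz1, hz2⟩ := hz
    rw [gp, Finset.mem_filter, Finset.mem_product] at hz1
    exact Finset.mem_filter.mpr ⟨hz1.1.2, hz2.2⟩
  rw [Finset.card_eq_sum_card_fiberwise hmap, Finset.mul_sum]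
  calc ((sup S Y kn).filter fun p => oB p.1 p.2.1).card * a
      = ∑ _p ∈ (sup S Y kn).filter (fun p => oB p.1 p.2.1), a := by
        rw [Finset.sum_const, smul_eq_mul]
    _ ≤ _ := by
        refine Finset.sum_le_sum fun p' hp' => ?_
        rw [Finset.mem_filter] at hp'
        refine le_trans (h p' hp'.1) (Nat.mul_le_mul_left 2 ?_)
        refine Finset.card_le_card_of_injOn (fun p => (p, p')) ?_ ?_
        · intro p hp
          rw [Finset.mem_coe, Finset.mem_filter] at hp
          rw [Finset.mem_coe, Finset.mem_filter, Finset.mem_filter, gp, Finset.mem_filter,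
            Finset.mem_product]
          exact ⟨⟨⟨⟨hp.1, hp'.1⟩, hp.2.2⟩, hp.2.1, hp'.2⟩, rfl⟩
        · intro p _ q _ hpq
          exact (Prod.mk.inj hpq).1

/-- Row P4. If the consistent states of the first party have the property `oA` with at least the
probability with which those of the second party have `oB`, then `oB` is rare, up to coincidences.
Proof. If `N3 * #oA < |sup X|` then `#{z in gp : oB} <= |sup X| #oB < |sup X| |sup Y| / N3 <=
3/2 gp / N3` (`prod_le`).  Otherwise each `p'` with `oB` has at least `#oA - 4 n |sup X| / (3 N) >=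
#oA / 2` partners with `oA` (as in `nbA_big`), so `#{z in gp : oB} <= |sup X| #oB <= N3 #oA #oB <=
2 N3 #{z in gp : oA and oB}`.  Then `pair_eq`. -/
theorem own_le (hcel : ∀ q, ¬ cel q → (S q).card ≤ 1) (N n N3 : ℕ) (hN : 4 * n ≤ N) (hN0 : 0 < N)
    (hN3 : 0 < N3) (hN3' : 8 * n * N3 ≤ 3 * N) (X : Sd Q K StA RA) (Y : Sd Q K StB RB)
    (hX : X.Loc) (hY : Y.Loc) (kn : List (Q × K)) (hL : Lt S cel N cel X Y kn) (hX' : Bd S n X kn)
    (hY' : Bd S n Y kn) (oA : RA → (Q → K) → Prop) (oB : RB → (Q → K) → Prop)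
    (hoA : Lc X.q oA) (hoB : Lc Y.q oB)
    (hab : ((sup S Y kn).filter fun p => oB p.1 p.2.1).card * (sup S X kn).card ≤
      ((sup S X kn).filter fun p => oA p.1 p.2.1).card * (sup S Y kn).card) :
    N3 * ((gr S cel X Y kn).filter fun w => oB w.2.1 w.2.2.1).card ≤ 2 * (gr S cel X Y kn).card +
      2 * N3 ^ 2 * ((gr S cel X Y kn).filter fun w => oA w.1 w.2.2.1 ∧ oB w.2.1 w.2.2.1).card := by
  rcases Nat.eq_zero_or_pos (gr S cel X Y kn).card with h0 | h0
  · have : ((gr S cel X Y kn).filter fun w => oB w.2.1 w.2.2.1).card = 0 :=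
      Nat.le_zero.mp (le_trans (Finset.card_filter_le _ _) h0.le)
    rw [this]
    simp
  have hrl : 0 < (rl S X Y kn).card := lt_of_lt_of_le h0 (Finset.card_filter_le _ _)
  have hk : 0 < kap S kn := kap_pos S X Y kn hrl
  have e0 := gp_card S cel hcel X Y hX hY kn
  have hg : 0 < (gp S cel X Y kn).card := by rw [e0]; exact Nat.mul_pos h0 hk
  have e1 := pair_eq S cel hcel X Y hX hY kn oA hoA oB hoB (fun _ b => b)
  have e2 := pair_eq S cel hcel X Y hX hY kn oA hoA oB hoB (fun a b => a ∧ b)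
  have hpr := prod_le S cel N n hN hN0 X Y kn hL hX' hY' hg
  have hB := P4a_prod S cel X Y kn oB
  have key : N3 * ((gp S cel X Y kn).filter fun z => oB z.2.1 z.2.2.1).card ≤
      2 * (gp S cel X Y kn).card +
      2 * N3 ^ 2 * ((gp S cel X Y kn).filter fun z => oA z.1.1 z.1.2.1 ∧ oB z.2.1 z.2.2.1).card := by
    set A := (sup S X kn).card with hA
    set B := (sup S Y kn).card with hBd
    set a := ((sup S X kn).filter fun p => oA p.1 p.2.1).card with ha
    set b := ((sup S Y kn).filter fun p => oB p.1 p.2.1).card with hb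
    set g := (gp S cel X Y kn).card with hgd
    rcases lt_or_ge (N3 * a) A with hc | hc
    · -- first case
      have h1 : N3 * (A * b) ≤ A * B := by
        calc N3 * (A * b) = N3 * (b * A) := by ring
          _ ≤ N3 * (a * B) := Nat.mul_le_mul_left _ hab
          _ = (N3 * a) * B := by ring
          _ ≤ A * B := Nat.mul_le_mul_right _ hc.le
      have h2 : A * B ≤ 2 * g := by
        have h3 : 4 * n * (A * B) ≤ N * (A * B) := Nat.mul_le_mul_right _ hN
        have h4 : N * (A * B) ≤ N * (2 * g) := by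
          have : 2 * (N * (A * B)) ≤ 3 * (N * g) := by nlinarith
          nlinarith
        exact Nat.le_of_mul_le_mul_left h4 hN0
      calc N3 * ((gp S cel X Y kn).filter fun z => oB z.2.1 z.2.2.1).card
          ≤ N3 * (A * b) := Nat.mul_le_mul_left _ hB
        _ ≤ 2 * g := le_trans h1 h2
        _ ≤ _ := Nat.le_add_right _ _
    · -- second case
      have h1 : ∀ p' ∈ sup S Y kn, a ≤ 2 * ((sup S X kn).filter fun p => oA p.1 p.2.1 ∧
          Dj cel (kn.map Prod.fst) (X.q p.1 p.2.1) (Y.q p'.1 p'.2.1)).card := by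
        intro p' hp'
        have h2 := P4a_non S cel N n hN hN0 X Y kn hL hX' hY' hg p' hp'
        have h3 : a ≤ ((sup S X kn).filter fun p => oA p.1 p.2.1 ∧
            Dj cel (kn.map Prod.fst) (X.q p.1 p.2.1) (Y.q p'.1 p'.2.1)).card +
            ((sup S X kn).filter fun p =>
              ¬ Dj cel (kn.map Prod.fst) (X.q p.1 p.2.1) (Y.q p'.1 p'.2.1)).card := by
          rw [ha]
          refine le_trans (Finset.card_le_card ?_) (Finset.card_union_le _ _)
          intro p hp
          rw [Finset.mem_filter] at hp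
          rw [Finset.mem_union, Finset.mem_filter, Finset.mem_filter]
          by_cases hD : Dj cel (kn.map Prod.fst) (X.q p.1 p.2.1) (Y.q p'.1 p'.2.1)
          · exact Or.inl ⟨hp.1, hp.2, hD⟩
          · exact Or.inr ⟨hp.1, hD⟩
        generalize ((sup S X kn).filter fun p =>
              ¬ Dj cel (kn.map Prod.fst) (X.q p.1 p.2.1) (Y.q p'.1 p'.2.1)).card = u at h2 h3
        generalize ((sup S X kn).filter fun p => oA p.1 p.2.1 ∧
            Dj cel (kn.map Prod.fst) (X.q p.1 p.2.1) (Y.q p'.1 p'.2.1)).card = v at h3 ⊢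
        have h4 : 2 * (4 * n * A) ≤ 3 * N * a := by
          calc 2 * (4 * n * A) ≤ 2 * (4 * n * (N3 * a)) :=
                Nat.mul_le_mul_left _ (Nat.mul_le_mul_left _ hc)
            _ = (8 * n * N3) * a := by ring
            _ ≤ 3 * N * a := Nat.mul_le_mul_right _ hN3'
        have h5 : 3 * N * (2 * u) ≤ 3 * N * a := by nlinarith
        have h6 : 2 * u ≤ a := Nat.le_of_mul_le_mul_left h5 (by omega)
        omega
      have h2 := P4a_both S cel X Y kn oA oB a h1
      rw [← hb] at h2
      calc N3 * ((gp S cel X Y kn).filter fun z => oB z.2.1 z.2.2.1).card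
          ≤ N3 * (A * b) := Nat.mul_le_mul_left _ hB
        _ ≤ N3 * ((N3 * a) * b) := Nat.mul_le_mul_left _ (Nat.mul_le_mul_right _ hc)
        _ = N3 ^ 2 * (b * a) := by ring
        _ ≤ N3 ^ 2 * (2 * ((gp S cel X Y kn).filter fun z =>
              oA z.1.1 z.1.2.1 ∧ oB z.2.1 z.2.2.1).card) := Nat.mul_le_mul_left _ h2
        _ = 2 * N3 ^ 2 * ((gp S cel X Y kn).filter fun z =>
              oA z.1.1 z.1.2.1 ∧ oB z.2.1 z.2.2.1).card := by ring
        _ ≤ _ := Nat.le_add_left _ _
  rw [e0] at key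
  have e1' : ((gp S cel X Y kn).filter fun z => oB z.2.1 z.2.2.1).card =
      ((gr S cel X Y kn).filter fun w => oB w.2.1 w.2.2.1).card * kap S kn := e1
  have e2' : ((gp S cel X Y kn).filter fun z => oA z.1.1 z.1.2.1 ∧ oB z.2.1 z.2.2.1).card =
      ((gr S cel X Y kn).filter fun w => oA w.1 w.2.2.1 ∧ oB w.2.1 w.2.2.1).card * kap S kn := by
    convert e2
  rw [e1', e2'] at key
  refine Nat.le_of_mul_le_mul_right (c := kap S kn) ?_ hk
  calc _ = N3 * (((gr S cel X Y kn).filter fun w => oB w.2.1 w.2.2.1).card * kap S kn) := by ring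
    _ ≤ _ := key
    _ = _ := by ring

omit [Finite Q] in
private theorem P4b_dj_symm {W l l' : List Q} (h : Dj cel W l l') : Dj cel W l' l :=
  fun c hc h1 h2 => h c hc h2 h1

/-- the exchange of the parties for real executions -/
private theorem P4b_gr_swap (X : Sd Q K StA RA) (Y : Sd Q K StB RB) (kn : List (Q × K))
    (Φ : RA → RB → Orc S → Prop) [∀ a b O, Decidable (Φ a b O)] :
    ((gr S cel Y X kn).filter fun w => Φ w.2.1 w.1 w.2.2).card =
      ((gr S cel X Y kn).filter fun w => Φ w.1 w.2.1 w.2.2).card := by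
  refine Finset.card_bij' (fun w _ => (w.2.1, w.1, w.2.2)) (fun w _ => (w.2.1, w.1, w.2.2))
    ?_ ?_ (fun _ _ => rfl) (fun _ _ => rfl)
  · intro w hw
    obtain ⟨hw1, hw2⟩ := Finset.mem_filter.mp hw
    obtain ⟨hw3, hw4⟩ := Finset.mem_filter.mp hw1
    have hw5 := (mem_rl S).mp hw3
    exact Finset.mem_filter.mpr ⟨Finset.mem_filter.mpr
      ⟨(mem_rl S).mpr ⟨hw5.2.1, hw5.1, hw5.2.2⟩, P4b_dj_symm cel hw4⟩, hw2⟩
  · intro w hw
    obtain ⟨hw1, hw2⟩ := Finset.mem_filter.mp hw
    obtain ⟨hw3, hw4⟩ := Finset.mem_filter.mp hw1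
    have hw5 := (mem_rl S).mp hw3
    exact Finset.mem_filter.mpr ⟨Finset.mem_filter.mpr
      ⟨(mem_rl S).mpr ⟨hw5.2.1, hw5.1, hw5.2.2⟩, P4b_dj_symm cel hw4⟩, hw2⟩

/-- The same with the parties exchanged. -/
theorem own_le' (hcel : ∀ q, ¬ cel q → (S q).card ≤ 1) (N n N3 : ℕ) (hN : 4 * n ≤ N) (hN0 : 0 < N)
    (hN3 : 0 < N3) (hN3' : 8 * n * N3 ≤ 3 * N) (X : Sd Q K StA RA) (Y : Sd Q K StB RB)
    (hX : X.Loc) (hY : Y.Loc) (kn : List (Q × K)) (hL : Lt S cel N cel X Y kn) (hX' : Bd S n X kn)
    (hY' : Bd S n Y kn) (oA : RA → (Q → K) → Prop) (oB : RB → (Q → K) → Prop)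
    (hoA : Lc X.q oA) (hoB : Lc Y.q oB)
    (hab : ((sup S X kn).filter fun p => oA p.1 p.2.1).card * (sup S Y kn).card ≤
      ((sup S Y kn).filter fun p => oB p.1 p.2.1).card * (sup S X kn).card) :
    N3 * ((gr S cel X Y kn).filter fun w => oA w.1 w.2.2.1).card ≤ 2 * (gr S cel X Y kn).card +
      2 * N3 ^ 2 * ((gr S cel X Y kn).filter fun w => oA w.1 w.2.2.1 ∧ oB w.2.1 w.2.2.1).card := by
  have hL' : Lt S cel N cel Y X kn := by
    obtain ⟨h1, h2, h3⟩ := gp_swap S cel X Y kn
    intro d hd hd'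
    rw [h1, h2 d, h3 d]
    exact ⟨(hL d hd hd').2, (hL d hd hd').1⟩
  have h := own_le S cel hcel N n N3 hN hN0 hN3 hN3' Y X hY hX kn hL' hY' hX' oB oA hoB hoA hab
  have e1 := P4b_gr_swap S cel X Y kn (fun a _ O => oA a O.1)
  have e2 := P4b_gr_swap S cel X Y kn (fun a b O => oB b O.1 ∧ oA a O.1)
  have e3 := P4b_gr_swap S cel X Y kn (fun _ _ _ => True)
  simp only [Finset.filter_true] at e3
  have e4 : ((gr S cel X Y kn).filter fun w => oB w.2.1 w.2.2.1 ∧ oA w.1 w.2.2.1).card =
      ((gr S cel X Y kn).filter fun w => oA w.1 w.2.2.1 ∧ oB w.2.1 w.2.2.1).card := by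
    refine congrArg Finset.card (Finset.filter_congr fun w _ => and_comm)
  rw [e1, e2, e3, e4] at h
  exact h

/-- The more likely value of the output of the second party. -/
noncomputable def gs (outB : RB → StB → Bool) (Y : Sd Q K StB RB) (kn : List (Q × K)) : Bool :=
  decide (((sup S Y kn).filter fun p => outB p.1 (Y.s p.1 p.2.1) = false).card ≤
    ((sup S Y kn).filter fun p => outB p.1 (Y.s p.1 p.2.1) = true).card)

/-- The guess is the more likely value. -/
private theorem P5_gs (outB : RB → StB → Bool) (Y : Sd Q K StB RB) (kn : List (Q × K)) (b : Bool) :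
    ((sup S Y kn).filter fun p => outB p.1 (Y.s p.1 p.2.1) = b).card ≤
      ((sup S Y kn).filter fun p => outB p.1 (Y.s p.1 p.2.1) = gs S outB Y kn).card := by
  by_cases h : ((sup S Y kn).filter fun p => outB p.1 (Y.s p.1 p.2.1) = false).card ≤
      ((sup S Y kn).filter fun p => outB p.1 (Y.s p.1 p.2.1) = true).card
  · have hg : gs S outB Y kn = true := decide_eq_true h
    rw [hg]
    cases b
    · exact h
    · exact le_rfl
  · have hg : gs S outB Y kn = false := decide_eq_false h
    rw [hg]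
    cases b
    · exact le_rfl
    · exact (not_le.mp h).le

/-- The pairs which agree. -/
private theorem P5_agree (X : Sd Q K StA RA) (Y : Sd Q K StB RB) (kn : List (Q × K))
    (outA : RA → StA → Option Bool) (outB : RB → StB → Bool) :
    ((gp S cel X Y kn).filter fun z => outA z.1.1 (X.s z.1.1 z.1.2.1) =
        some (outB z.2.1 (Y.s z.2.1 z.2.2.1))).card ≤
      (sup S X kn).card *
        ((sup S Y kn).filter fun p => outB p.1 (Y.s p.1 p.2.1) = gs S outB Y kn).card := by
  rw [mul_comm]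
  refine Finset.card_le_mul_card_image_of_maps_to (f := Prod.fst) (t := sup S X kn) (fun z hz => ?_) _
    (fun p hp => ?_)
  · have h1 := (Finset.mem_filter.mp hz).1
    exact (Finset.mem_product.mp (Finset.mem_filter.mp h1).1).1
  · rcases hb : outA p.1 (X.s p.1 p.2.1) with _ | b
    · refine le_of_eq_of_le (Finset.card_eq_zero.mpr ?_) (Nat.zero_le _)
      refine Finset.eq_empty_of_forall_notMem fun z hz => ?_
      obtain ⟨hz1, hz2⟩ := Finset.mem_filter.mp hz
      have h3 := (Finset.mem_filter.mp hz1).2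
      rw [hz2, hb] at h3
      exact absurd h3 (by simp)
    · refine le_trans ?_ (P5_gs S outB Y kn b)
      refine Finset.card_le_card_of_injOn Prod.snd (fun z hz => ?_) (fun z hz z' hz' h => ?_)
      · obtain ⟨hz1, hz2⟩ := Finset.mem_filter.mp (Finset.mem_coe.mp hz)
        obtain ⟨hz3, hz4⟩ := Finset.mem_filter.mp hz1
        rw [hz2, hb] at hz4
        refine Finset.mem_coe.mpr (Finset.mem_filter.mpr ⟨?_, (Option.some.inj hz4).symm⟩)
        exact (Finset.mem_product.mp (Finset.mem_filter.mp hz3).1).2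
      · have h1 := (Finset.mem_filter.mp (Finset.mem_coe.mp hz)).2
        have h2 := (Finset.mem_filter.mp (Finset.mem_coe.mp hz')).2
        exact Prod.ext (h1.trans h2.symm) h

/-- The pairs in which the output of the second party is the guess. -/
private theorem P5_guess (X : Sd Q K StA RA) (Y : Sd Q K StB RB) (kn : List (Q × K))
    (o : RB × Orc S → Prop) :
    (sup S X kn).card * ((sup S Y kn).filter fun p => o p).card + (gp S cel X Y kn).card ≤
      ((gp S cel X Y kn).filter fun z => o z.2).card + (sup S X kn).card * (sup S Y kn).card := by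
  have h1 : (sup S X kn).card * ((sup S Y kn).filter fun p => o p).card =
      ((sup S X kn ×ˢ sup S Y kn).filter fun z => o z.2).card := by
    rw [← Finset.card_product]
    congr 1
    ext z
    simp only [Finset.mem_product, Finset.mem_filter]
    tauto
  have hsub : gp S cel X Y kn ⊆ sup S X kn ×ˢ sup S Y kn := Finset.filter_subset _ _
  rw [h1, ← Finset.card_product, ← Finset.card_union_add_card_inter]
  have h2 : (((sup S X kn ×ˢ sup S Y kn).filter fun z => o z.2) ∩ gp S cel X Y kn).card ≤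
      ((gp S cel X Y kn).filter fun z => o z.2).card := by
    apply Finset.card_le_card
    intro z hz
    rw [Finset.mem_inter, Finset.mem_filter] at hz
    exact Finset.mem_filter.mpr ⟨hz.2, hz.1.2⟩
  have h3 : (((sup S X kn ×ˢ sup S Y kn).filter fun z => o z.2) ∪ gp S cel X Y kn).card ≤
      (sup S X kn ×ˢ sup S Y kn).card :=
    Finset.card_le_card (Finset.union_subset (Finset.filter_subset _ _) hsub)
  omega

/-- Row P5. The guess `gs` is nearly as good as the output of the first party.  Proof. Let `m` be the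
number of `p' in sup Y` with `outB = gs`.  In `gp`: at most `|sup X| m` pairs agree, and at least
`|sup X| m - (|sup X| |sup Y| - gp) >= |sup X| m - 2 n gp / N` have `outB = gs` (`prod_le`).
`pair_eq` (the states are local) and division by `kap` give the claim for `gr`; the other real
executions are counted by `rl - gr`. -/
theorem leaf_pay (hcel : ∀ q, ¬ cel q → (S q).card ≤ 1) (N n : ℕ) (hN : 4 * n ≤ N) (hN0 : 0 < N)
    (X : Sd Q K StA RA) (Y : Sd Q K StB RB) (hX : X.Loc) (hY : Y.Loc) (kn : List (Q × K))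
    (hL : Lt S cel N cel X Y kn) (hX' : Bd S n X kn) (hY' : Bd S n Y kn)
    (outA : RA → StA → Option Bool) (outB : RB → StB → Bool) :
    (((rl S X Y kn).filter fun w => outA w.1 (X.s w.1 w.2.2.1) =
        some (outB w.2.1 (Y.s w.2.1 w.2.2.1))).card : ℝ) ≤
      ((rl S X Y kn).filter fun w => gs S outB Y kn = outB w.2.1 (Y.s w.2.1 w.2.2.1)).card +
      ((rl S X Y kn).card - (gr S cel X Y kn).card) + 2 * n / N * (rl S X Y kn).card := by
  have hsub : gr S cel X Y kn ⊆ rl S X Y kn := Finset.filter_subset _ _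
  have hle : ((gr S cel X Y kn).card : ℝ) ≤ (rl S X Y kn).card := by
    exact_mod_cast Finset.card_le_card hsub
  have hNn : (0 : ℝ) ≤ 2 * n / N := by positivity
  have hrl0 : (0 : ℝ) ≤ (rl S X Y kn).card := by positivity
  have hk := kap_pos S X Y kn
  -- the real executions which agree
  have h1 : (((rl S X Y kn).filter fun w => outA w.1 (X.s w.1 w.2.2.1) =
        some (outB w.2.1 (Y.s w.2.1 w.2.2.1))).card : ℝ) ≤
      ((gr S cel X Y kn).filter fun w => outA w.1 (X.s w.1 w.2.2.1) =
        some (outB w.2.1 (Y.s w.2.1 w.2.2.1))).card + ((rl S X Y kn).card - (gr S cel X Y kn).card) := by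
    have h2 : ((rl S X Y kn).filter fun w => outA w.1 (X.s w.1 w.2.2.1) =
        some (outB w.2.1 (Y.s w.2.1 w.2.2.1))).card ≤
        ((gr S cel X Y kn).filter fun w => outA w.1 (X.s w.1 w.2.2.1) =
        some (outB w.2.1 (Y.s w.2.1 w.2.2.1))).card + (rl S X Y kn \ gr S cel X Y kn).card := by
      refine (Finset.card_le_card (t := ((gr S cel X Y kn).filter fun w => outA w.1 (X.s w.1 w.2.2.1) =
        some (outB w.2.1 (Y.s w.2.1 w.2.2.1))) ∪ (rl S X Y kn \ gr S cel X Y kn)) ?_).trans
        (Finset.card_union_le _ _)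
      intro w hw
      obtain ⟨hw1, hw2⟩ := Finset.mem_filter.mp hw
      by_cases hw3 : w ∈ gr S cel X Y kn
      · exact Finset.mem_union_left _ (Finset.mem_filter.mpr ⟨hw3, hw2⟩)
      · exact Finset.mem_union_right _ (Finset.mem_sdiff.mpr ⟨hw1, hw3⟩)
    have h3 := Finset.card_sdiff_add_card_eq_card hsub
    have h4 : (((rl S X Y kn) \ (gr S cel X Y kn)).card : ℝ) + (gr S cel X Y kn).card = (rl S X Y kn).card := by
      exact_mod_cast h3
    have h5 : (((rl S X Y kn).filter fun w => outA w.1 (X.s w.1 w.2.2.1) =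
        some (outB w.2.1 (Y.s w.2.1 w.2.2.1))).card : ℝ) ≤
        ((gr S cel X Y kn).filter fun w => outA w.1 (X.s w.1 w.2.2.1) =
        some (outB w.2.1 (Y.s w.2.1 w.2.2.1))).card + (rl S X Y kn \ gr S cel X Y kn).card := by
      exact_mod_cast h2
    linarith
  -- the good executions
  suffices h : (((gr S cel X Y kn).filter fun w => outA w.1 (X.s w.1 w.2.2.1) =
        some (outB w.2.1 (Y.s w.2.1 w.2.2.1))).card : ℝ) ≤
      ((gr S cel X Y kn).filter fun w => outB w.2.1 (Y.s w.2.1 w.2.2.1) = gs S outB Y kn).card +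
        2 * n / N * (gr S cel X Y kn).card by
    have h6 : (((gr S cel X Y kn).filter fun w => outB w.2.1 (Y.s w.2.1 w.2.2.1) = gs S outB Y kn).card : ℝ) ≤
        ((rl S X Y kn).filter fun w => gs S outB Y kn = outB w.2.1 (Y.s w.2.1 w.2.2.1)).card := by
      norm_cast
      apply Finset.card_le_card
      intro w hw
      obtain ⟨hw1, hw2⟩ := Finset.mem_filter.mp hw
      exact Finset.mem_filter.mpr ⟨hsub hw1, hw2.symm⟩
    have h7 := mul_le_mul_of_nonneg_left hle hNn
    linarith
  by_cases hgr : (gr S cel X Y kn).card = 0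
  · rw [Finset.card_eq_zero] at hgr
    rw [hgr]
    simp
  have hgr0 : 0 < (gr S cel X Y kn).card := Nat.pos_of_ne_zero hgr
  have hkap : 0 < kap S kn := hk (hgr0.trans_le (Finset.card_le_card hsub))
  have hgp := gp_card S cel hcel X Y hX hY kn
  have hgp0 : 0 < (gp S cel X Y kn).card := by
    rw [hgp]
    exact Nat.mul_pos hgr0 hkap
  have hlA : Lc X.q (fun r O => outA r (X.s r O)) := by
    intro r O O' h
    show outA r (X.s r O) = outA r (X.s r O')
    rw [hX.1 r O O' h]
  have hlB : Lc Y.q (fun r O => outB r (Y.s r O)) := by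
    intro r O O' h
    show outB r (Y.s r O) = outB r (Y.s r O')
    rw [hY.1 r O O' h]
  have e1 : ((gp S cel X Y kn).filter fun z => outA z.1.1 (X.s z.1.1 z.1.2.1) =
        some (outB z.2.1 (Y.s z.2.1 z.2.2.1))).card =
      ((gr S cel X Y kn).filter fun w => outA w.1 (X.s w.1 w.2.2.1) =
        some (outB w.2.1 (Y.s w.2.1 w.2.2.1))).card * kap S kn := by
    convert pair_eq S cel hcel X Y hX hY kn _ hlA _ hlB (fun a b => a = some b)
  have e2 : ((gp S cel X Y kn).filter fun z => outB z.2.1 (Y.s z.2.1 z.2.2.1) = gs S outB Y kn).card =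
      ((gr S cel X Y kn).filter fun w => outB w.2.1 (Y.s w.2.1 w.2.2.1) = gs S outB Y kn).card *
        kap S kn := by
    convert pair_eq S cel hcel X Y hX hY kn _ hlA _ hlB (fun _ b => b = gs S outB Y kn)
  have i1 := P5_agree S cel X Y kn outA outB
  have i2 : (sup S X kn).card * ((sup S Y kn).filter fun p => outB p.1 (Y.s p.1 p.2.1) = gs S outB Y kn).card +
      (gp S cel X Y kn).card ≤
      ((gp S cel X Y kn).filter fun z => outB z.2.1 (Y.s z.2.1 z.2.2.1) = gs S outB Y kn).card +
        (sup S X kn).card * (sup S Y kn).card := by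
    convert P5_guess S cel X Y kn (fun p => outB p.1 (Y.s p.1 p.2.1) = gs S outB Y kn)
  have i3 := prod_le S cel N n hN hN0 X Y kn hL hX' hY' hgp0
  rw [e1] at i1
  rw [e2] at i2
  rw [hgp] at i2 i3
  have r1 : (((gr S cel X Y kn).filter fun w => outA w.1 (X.s w.1 w.2.2.1) =
        some (outB w.2.1 (Y.s w.2.1 w.2.2.1))).card : ℝ) * kap S kn ≤
      (sup S X kn).card *
        ((sup S Y kn).filter fun p => outB p.1 (Y.s p.1 p.2.1) = gs S outB Y kn).card := by
    exact_mod_cast i1
  have r2 : ((sup S X kn).card : ℝ) * ((sup S Y kn).filter fun p => outB p.1 (Y.s p.1 p.2.1) = gs S outB Y kn).card +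
        (gr S cel X Y kn).card * kap S kn ≤
      ((gr S cel X Y kn).filter fun w => outB w.2.1 (Y.s w.2.1 w.2.2.1) = gs S outB Y kn).card * kap S kn +
        (sup S X kn).card * (sup S Y kn).card := by
    exact_mod_cast i2
  have r3 : 3 * (N : ℝ) * ((sup S X kn).card * (sup S Y kn).card) ≤
      3 * N * ((gr S cel X Y kn).card * kap S kn) + 4 * n * ((sup S X kn).card * (sup S Y kn).card) := by
    exact_mod_cast i3
  have hN' : (0 : ℝ) < N := by exact_mod_cast hN0
  have h4n : 4 * (n : ℝ) ≤ N := by exact_mod_cast hN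
  have hP : (0 : ℝ) ≤ (sup S X kn).card * (sup S Y kn).card := by positivity
  have hG : (0 : ℝ) ≤ (gr S cel X Y kn).card * kap S kn := by positivity
  have hkap' : (0 : ℝ) < kap S kn := by exact_mod_cast hkap
  generalize ((sup S X kn).card : ℝ) * (sup S Y kn).card = P at *
  have r4 : 2 * P ≤ 3 * (((gr S cel X Y kn).card : ℝ) * kap S kn) := by
    have h8 : 4 * n * P ≤ N * P := mul_le_mul_of_nonneg_right h4n hP
    have h9 : (N : ℝ) * (2 * P) ≤ N * (3 * (((gr S cel X Y kn).card : ℝ) * kap S kn)) := by nlinarith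
    exact le_of_mul_le_mul_left h9 hN'
  have r5 : P - ((gr S cel X Y kn).card : ℝ) * kap S kn ≤ 2 * n / N * (((gr S cel X Y kn).card : ℝ) * kap S kn) := by
    rw [div_mul_eq_mul_div, le_div_iff₀ hN']
    have hn0 : (0 : ℝ) ≤ n := by positivity
    nlinarith [mul_le_mul_of_nonneg_left r4 hn0]
  have r6 : (((gr S cel X Y kn).filter fun w => outA w.1 (X.s w.1 w.2.2.1) =
        some (outB w.2.1 (Y.s w.2.1 w.2.2.1))).card : ℝ) * kap S kn ≤
      (((gr S cel X Y kn).filter fun w => outB w.2.1 (Y.s w.2.1 w.2.2.1) = gs S outB Y kn).card +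
        2 * n / N * (gr S cel X Y kn).card) * kap S kn := by
    rw [add_mul, mul_assoc (2 * (n : ℝ) / N)]
    linarith
  exact le_of_mul_le_mul_right r6 hkap'

end Pool.Agent.Nbb
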