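import Pool.Agent.Lib.MP_ae38e0_lc.Nbb.Gbound

set_option autoImplicit false

/-!
# Wrong guesses: generic part
-/

namespace Pool.Agent.Nbb

open Pool.Agent.LinOT Classical

section generic

variable {Q K StA StB RA RB M RQ RK Mg : Type} [Finite Q] [Finite K] [Fintype RA] [Fintype RB]

variable (S : Q → Finset K) (cel : Q → Prop)

/-- All things touched so far or later in the process are in the list `FL w`. -/
def Sb (FL : RA × RB × Orc S → List Q) (p : Proc Q K StA StB M RQ RK Mg) (X : Sd Q K StA RA)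
    (Y : Sd Q K StB RB) (kn : List (Q × K)) : Prop :=
  ∀ w ∈ rl S X Y kn, (∀ d ∈ X.q w.1 w.2.2.1, d ∈ FL w) ∧ (∀ d ∈ Y.q w.2.1 w.2.2.1, d ∈ FL w) ∧
    ∀ d ∈ (p.flat (X.s w.1 w.2.2.1) (Y.s w.2.1 w.2.2.1)).asked w.2.2.1, d ∈ FL w

/-- The bound for the executions with a wrong guess of the owner; `BS` is the set of the bad
executions. -/
def T3 (FL : RA × RB × Orc S → List Q) (BS : RA × RB × Orc S → Prop) (N3 L j : ℕ)
    (p : Proc Q K StA StB M RQ RK Mg) (X : Sd Q K StA RA) (Y : Sd Q K StB RB)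
    (kn : List (Q × K)) : Prop :=
  Sb S FL p X Y kn →
    (N3 : ℝ) * ((gr S cel X Y kn).filter fun w =>
      p.lf S X Y kn w = 3 ∧ p.hits S cel X Y kn w = 0).card ≤
    2 * ∑ w ∈ rl S X Y kn, (p.cnt S cel L (fun d => ¬ cel d) X Y kn w : ℝ) +
      2 * (N3 : ℝ) ^ 2 * j * ((rl S X Y kn).filter fun w => BS w).card

variable {FL : RA × RB × Orc S → List Q} {BS : RA × RB × Orc S → Prop} {N3 L : ℕ}

/-! ## Row C1 -/

variable (BS N3 L) in
/-- The contribution of an execution. -/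
private noncomputable def C1_f (j : ℕ) (p : Proc Q K StA StB M RQ RK Mg) (X : Sd Q K StA RA)
    (Y : Sd Q K StB RB) (kn : List (Q × K)) (w : RA × RB × Orc S) : ℝ :=
  (N3 : ℝ) * (if Dw S cel X Y kn w ∧ p.lf S X Y kn w = 3 ∧ p.hits S cel X Y kn w = 0 then 1 else 0)
    - 2 * (p.cnt S cel L (fun d => ¬ cel d) X Y kn w : ℝ)
    - 2 * (N3 : ℝ) ^ 2 * j * (if BS w then 1 else 0)

private theorem C1_iff (j : ℕ) (p : Proc Q K StA StB M RQ RK Mg) (X : Sd Q K StA RA)
    (Y : Sd Q K StB RB) (kn : List (Q × K)) : T3 S cel FL BS N3 L j p X Y kn ↔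
      (Sb S FL p X Y kn → ∑ w ∈ rl S X Y kn, C1_f S cel BS N3 L j p X Y kn w ≤ 0) := by
  unfold T3
  refine imp_congr_right fun _ => ?_
  have h1 : ∑ w ∈ rl S X Y kn, C1_f S cel BS N3 L j p X Y kn w =
      (N3 : ℝ) * ((gr S cel X Y kn).filter fun w =>
        p.lf S X Y kn w = 3 ∧ p.hits S cel X Y kn w = 0).card -
      2 * ∑ w ∈ rl S X Y kn, (p.cnt S cel L (fun d => ¬ cel d) X Y kn w : ℝ) -
      2 * (N3 : ℝ) ^ 2 * j * ((rl S X Y kn).filter fun w => BS w).card := by
    simp only [C1_f]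
    rw [Finset.sum_sub_distrib, Finset.sum_sub_distrib, ← Finset.mul_sum, ← Finset.mul_sum,
      ← Finset.mul_sum, Finset.sum_boole, Finset.sum_boole, gr, Finset.filter_filter]
  rw [h1]
  constructor <;> intro h <;> linarith

theorem t3_stop (j k : ℕ) (hk : k ≠ 3) (X : Sd Q K StA RA) (Y : Sd Q K StB RB)
    (kn : List (Q × K)) :
    T3 S cel FL BS N3 L j (.stop k : Proc Q K StA StB M RQ RK Mg) X Y kn := by
  rw [C1_iff]
  intro _
  refine Finset.sum_nonpos fun w _ => ?_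
  have h1 : ¬ (Dw S cel X Y kn w ∧
      (Proc.stop k : Proc Q K StA StB M RQ RK Mg).lf S X Y kn w = 3 ∧
      (Proc.stop k : Proc Q K StA StB M RQ RK Mg).hits S cel X Y kn w = 0) := by
    rintro ⟨_, h, _⟩
    exact hk h
  rw [C1_f, if_neg h1, mul_zero]
  have h2 : (0 : ℝ) ≤ 2 * (N3 : ℝ) ^ 2 * j * (if BS w then 1 else 0) := by
    split_ifs <;> positivity
  have h3 : (0 : ℝ) ≤ 2 * ((Proc.stop k : Proc Q K StA StB M RQ RK Mg).cnt S cel L
    (fun d => ¬ cel d) X Y kn w : ℝ) := by positivity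
  linarith

theorem t3_mono {j j' : ℕ} (hj : j ≤ j') (p : Proc Q K StA StB M RQ RK Mg) (X : Sd Q K StA RA)
    (Y : Sd Q K StB RB) (kn : List (Q × K)) (h : T3 S cel FL BS N3 L j p X Y kn) :
    T3 S cel FL BS N3 L j' p X Y kn := by
  intro hS
  refine (h hS).trans ?_
  have h1 : (j : ℝ) ≤ j' := by exact_mod_cast hj
  gcongr

theorem t3_learn (j : ℕ) (q : Q) (o : Comp RQ RK K) (next : K → Proc Q K StA StB M RQ RK Mg)
    (X : Sd Q K StA RA) (Y : Sd Q K StB RB) (kn : List (Q × K))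
    (h : ∀ v ∈ S q, T3 S cel FL BS N3 L j (next v) X Y (kn ++ [(q, v)])) :
    T3 S cel FL BS N3 L j (.learn q o next) X Y kn := by
  rw [C1_iff]
  intro hS
  rw [← sum_learn S X Y kn q]
  refine Finset.sum_nonpos fun v hv => ?_
  have h1 := (C1_iff S cel j (next v) X Y (kn ++ [(q, v)])).1 (h v hv) (fun w hw => by
    obtain ⟨hw1, hw2⟩ := (mem_rl_learn S X Y kn q v w).1 hw
    obtain ⟨h3, h4, h5⟩ := hS w hw1
    refine ⟨h3, h4, fun d hd => h5 d ?_⟩
    rw [Proc.flat, Comp.asked_ask, hw2]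
    exact List.mem_cons_of_mem _ hd)
  refine le_trans (Finset.sum_le_sum fun w hw => ?_) h1
  obtain ⟨hw1, hw2⟩ := (mem_rl_learn S X Y kn q v w).1 hw
  have h6 : (if Dw S cel X Y kn w ∧ (Proc.learn q o next).lf S X Y kn w = 3 ∧
      (Proc.learn q o next).hits S cel X Y kn w = 0 then (1 : ℝ) else 0) ≤
      (if Dw S cel X Y (kn ++ [(q, v)]) w ∧ (next v).lf S X Y (kn ++ [(q, v)]) w = 3 ∧
      (next v).hits S cel X Y (kn ++ [(q, v)]) w = 0 then (1 : ℝ) else 0) := by
    by_cases hc : Dw S cel X Y kn w ∧ (Proc.learn q o next).lf S X Y kn w = 3 ∧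
      (Proc.learn q o next).hits S cel X Y kn w = 0
    · rw [if_pos hc, if_pos]
      obtain ⟨h7, h8, h9⟩ := hc
      rw [Proc.lf, hw2] at h8
      rw [Proc.hits, hw2] at h9
      exact ⟨dw_learn S cel X Y kn q v w h7, h8, h9⟩
    · rw [if_neg hc]
      split_ifs <;> norm_num
  have h7 : ((next v).cnt S cel L (fun d => ¬ cel d) X Y (kn ++ [(q, v)]) w : ℝ) ≤
      ((Proc.learn q o next).cnt S cel L (fun d => ¬ cel d) X Y kn w : ℝ) := by
    rw [Proc.cnt, hw2]
    push_cast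
    split_ifs <;> simp
  unfold C1_f
  have h8 : (0 : ℝ) ≤ N3 := Nat.cast_nonneg _
  have h9 := mul_le_mul_of_nonneg_left h6 h8
  linarith

theorem t3_mA (j : ℕ) (i : (Mg → M) ⊕ Comp RQ RK M) (c : StA → Comp Q K (StA × M))
    (next : M → Proc Q K StA StB M RQ RK Mg) (X : Sd Q K StA RA) (Y : Sd Q K StB RB)
    (kn : List (Q × K)) (h : ∀ m, T3 S cel FL BS N3 L j (next m) (X.upd c m) Y kn) :
    T3 S cel FL BS N3 L j (.mA i c next) X Y kn := by
  rw [C1_iff]
  intro hS
  rw [← sum_mA S X Y kn c]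
  refine Finset.sum_nonpos fun m _ => ?_
  have h1 := (C1_iff S cel j (next m) (X.upd c m) Y kn).1 (h m) (fun w hw => by
    obtain ⟨hw1, hw2⟩ := (mem_rl_updA S X Y kn c m w).1 hw
    obtain ⟨h3, h4, h5⟩ := hS w hw1
    rw [Proc.rsA] at hw2
    refine ⟨fun d hd => ?_, h4, fun d hd => h5 d ?_⟩
    · rcases List.mem_append.1 hd with hd | hd
      · exact h3 d hd
      · refine h5 d ?_
        rw [Proc.flat, Comp.asked_bind]
        exact List.mem_append_left _ hd
    · rw [Proc.flat, Comp.asked_bind, hw2]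
      exact List.mem_append_right _ hd)
  refine le_trans (Finset.sum_le_sum fun w hw => ?_) h1
  obtain ⟨hw1, hw2⟩ := (mem_rl_updA S X Y kn c m w).1 hw
  have h6 : (if Dw S cel X Y kn w ∧ (Proc.mA i c next).lf S X Y kn w = 3 ∧
      (Proc.mA i c next).hits S cel X Y kn w = 0 then (1 : ℝ) else 0) ≤
      (if Dw S cel (X.upd c m) Y kn w ∧ (next m).lf S (X.upd c m) Y kn w = 3 ∧
      (next m).hits S cel (X.upd c m) Y kn w = 0 then (1 : ℝ) else 0) := by
    by_cases hc : Dw S cel X Y kn w ∧ (Proc.mA i c next).lf S X Y kn w = 3 ∧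
      (Proc.mA i c next).hits S cel X Y kn w = 0
    · rw [if_pos hc, if_pos]
      obtain ⟨h7, h8, h9⟩ := hc
      rw [Proc.lf, hw2] at h8
      rw [Proc.hits, hw2, Nat.add_eq_zero_iff] at h9
      have h10 : ¬ hitA S c X Y kn w := fun h11 => by
        have h12 := h9.1
        rw [if_pos ⟨h7, h11⟩] at h12
        exact one_ne_zero h12
      exact ⟨dw_updA S cel X Y kn c m w h7 h10, h8, h9.2⟩
    · rw [if_neg hc]
      split_ifs <;> norm_num
  have h7 : (Proc.mA i c next).cnt S cel L (fun d => ¬ cel d) X Y kn w =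
      (next m).cnt S cel L (fun d => ¬ cel d) (X.upd c m) Y kn w := by
    rw [Proc.cnt, hw2]
  unfold C1_f
  rw [h7]
  have h8 : (0 : ℝ) ≤ N3 := Nat.cast_nonneg _
  have h9 := mul_le_mul_of_nonneg_left h6 h8
  linarith

theorem t3_mB (j : ℕ) (i : (Mg → M) ⊕ Comp RQ RK M) (c : StB → Comp Q K (StB × M))
    (next : M → Proc Q K StA StB M RQ RK Mg) (X : Sd Q K StA RA) (Y : Sd Q K StB RB)
    (kn : List (Q × K)) (h : ∀ m, T3 S cel FL BS N3 L j (next m) X (Y.upd c m) kn) :
    T3 S cel FL BS N3 L j (.mB i c next) X Y kn := by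
  rw [C1_iff]
  intro hS
  rw [← sum_mB S X Y kn c]
  refine Finset.sum_nonpos fun m _ => ?_
  have h1 := (C1_iff S cel j (next m) X (Y.upd c m) kn).1 (h m) (fun w hw => by
    obtain ⟨hw1, hw2⟩ := (mem_rl_updB S X Y kn c m w).1 hw
    obtain ⟨h3, h4, h5⟩ := hS w hw1
    rw [Proc.rsB] at hw2
    refine ⟨h3, fun d hd => ?_, fun d hd => h5 d ?_⟩
    · rcases List.mem_append.1 hd with hd | hd
      · exact h4 d hd
      · refine h5 d ?_
        rw [Proc.flat, Comp.asked_bind]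
        exact List.mem_append_left _ hd
    · rw [Proc.flat, Comp.asked_bind, hw2]
      exact List.mem_append_right _ hd)
  refine le_trans (Finset.sum_le_sum fun w hw => ?_) h1
  obtain ⟨hw1, hw2⟩ := (mem_rl_updB S X Y kn c m w).1 hw
  have h6 : (if Dw S cel X Y kn w ∧ (Proc.mB i c next).lf S X Y kn w = 3 ∧
      (Proc.mB i c next).hits S cel X Y kn w = 0 then (1 : ℝ) else 0) ≤
      (if Dw S cel X (Y.upd c m) kn w ∧ (next m).lf S X (Y.upd c m) kn w = 3 ∧
      (next m).hits S cel X (Y.upd c m) kn w = 0 then (1 : ℝ) else 0) := by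
    by_cases hc : Dw S cel X Y kn w ∧ (Proc.mB i c next).lf S X Y kn w = 3 ∧
      (Proc.mB i c next).hits S cel X Y kn w = 0
    · rw [if_pos hc, if_pos]
      obtain ⟨h7, h8, h9⟩ := hc
      rw [Proc.lf, hw2] at h8
      rw [Proc.hits, hw2, Nat.add_eq_zero_iff] at h9
      have h10 : ¬ hitB S c X Y kn w := fun h11 => by
        have h12 := h9.1
        rw [if_pos ⟨h7, h11⟩] at h12
        exact one_ne_zero h12
      exact ⟨dw_updB S cel X Y kn c m w h7 h10, h8, h9.2⟩
    · rw [if_neg hc]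
      split_ifs <;> norm_num
  have h7 : (Proc.mB i c next).cnt S cel L (fun d => ¬ cel d) X Y kn w =
      (next m).cnt S cel L (fun d => ¬ cel d) X (Y.upd c m) kn w := by
    rw [Proc.cnt, hw2]
  unfold C1_f
  rw [h7]
  have h8 : (0 : ℝ) ≤ N3 := Nat.cast_nonneg _
  have h9 := mul_le_mul_of_nonneg_left h6 h8
  linarith

private theorem R1_rl {γ : Type} (X : Sd Q K StA RA) (Y : Sd Q K StB RB) (kn : List (Q × K)) (q : Q) (v0 : K)
    (hq : S q = {v0}) (β : γ → M) (hβ : Function.Injective β) (oA : StA → γ)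
    (oB : StB → γ) (b1 b2 : γ) (w : RA × RB × Orc S) :
    w ∈ rl S (X.upd (fun st => (.ret (st, β (oA st)) : Comp Q K (StA × M))) (β b1))
      (Y.upd (fun st => (.ret (st, β (oB st)) : Comp Q K (StB × M))) (β b2)) (kn ++ [(q, v0)]) ↔
    w ∈ rl S X Y kn ∧ (oA (X.s w.1 w.2.2.1), oB (Y.s w.2.1 w.2.2.1)) = (b1, b2) := by
  have hv : w.2.2.1 q = v0 := by
    have := w.2.2.2 q
    rw [hq, Finset.mem_singleton] at this
    exact this
  rw [mem_rl, mem_rl, Prod.mk.injEq]
  simp only [Sd.upd, Comp.run_ret, Kn, List.mem_append, List.mem_singleton, hβ.eq_iff]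
  constructor
  · rintro ⟨⟨h1, h2⟩, ⟨h3, h4⟩, h5⟩
    exact ⟨⟨h1, h3, fun u hu => h5 u (Or.inl hu)⟩, h2, h4⟩
  · rintro ⟨⟨h1, h3, h5⟩, h2, h4⟩
    refine ⟨⟨h1, h2⟩, ⟨h3, h4⟩, ?_⟩
    rintro u (hu | rfl)
    · exact h5 u hu
    · exact hv

/-- Row R1.  A heavy item `q` is learned, and both parties tell a value (`oA`, `oB`); `wr` says for
which values the process stops with a wrong guess.  (The case `γ = Bool` is `C2_core` in the old
file OwnB.lean; the proof is the same.) -/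
theorem t3_core {γ : Type} [Finite γ] (X : Sd Q K StA RA) (Y : Sd Q K StB RB)
    (kn : List (Q × K)) (q : Q)
    (v0 : K) (hq : S q = {v0}) (hcq : ¬ cel q) (β : γ → M) (hβ : Function.Injective β)
    (oA : StA → γ) (oB : StB → γ) (o : Comp RQ RK K) (i i' : (Mg → M) ⊕ Comp RQ RK M)
    (next : K → M → M → Proc Q K StA StB M RQ RK Mg) (j : ℕ) (wr : γ → γ → Prop)
    (hη : Hv S cel L X Y kn q) (hg : Gd S cel X Y kn)
    (h1 : ∀ b1 b2, ¬ wr b1 b2 → T3 S cel FL BS N3 L j (next v0 (β b1) (β b2))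
      (X.upd (fun st => (.ret (st, β (oA st)) : Comp Q K (StA × M))) (β b1))
      (Y.upd (fun st => (.ret (st, β (oB st)) : Comp Q K (StB × M))) (β b2)) (kn ++ [(q, v0)]))
    (h3 : (∀ w ∈ rl S X Y kn, (∀ d ∈ X.q w.1 w.2.2.1, d ∈ FL w) ∧
        ∀ d ∈ Y.q w.2.1 w.2.2.1, d ∈ FL w) →
      (N3 : ℝ) * ((gr S cel X Y kn).filter fun w =>
        wr (oA (X.s w.1 w.2.2.1)) (oB (Y.s w.2.1 w.2.2.1))).card ≤
      2 * (gr S cel X Y kn).card + 2 * (N3 : ℝ) ^ 2 * ((rl S X Y kn).filter fun w => BS w).card) :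
    T3 S cel FL BS N3 L (j + 1) (.learn q o fun v =>
      .mA i (fun st => (.ret (st, β (oA st)) : Comp Q K (StA × M))) fun m1 =>
        .mB i' (fun st => (.ret (st, β (oB st)) : Comp Q K (StB × M))) fun m2 =>
          next v m1 m2) X Y kn := by
  have : Fintype γ := Fintype.ofFinite γ
  intro hSb
  set cA : StA → Comp Q K (StA × M) := fun st => .ret (st, β (oA st)) with hcA
  set cB : StB → Comp Q K (StB × M) := fun st => .ret (st, β (oB st)) with hcB
  let ab : RA × RB × Orc S → γ × γ := fun w =>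
    (oA (X.s w.1 w.2.2.1), oB (Y.s w.2.1 w.2.2.1))
  have hv : ∀ w : RA × RB × Orc S, w.2.2.1 q = v0 := by
    intro w
    have := w.2.2.2 q
    rw [hq, Finset.mem_singleton] at this
    exact this
  have hrl : ∀ b : γ × γ, rl S (X.upd cA (β b.1)) (Y.upd cB (β b.2)) (kn ++ [(q, v0)]) =
      (rl S X Y kn).filter fun w => ab w = b := by
    intro b
    ext w
    rw [Finset.mem_filter]
    exact R1_rl S X Y kn q v0 hq β hβ oA oB b.1 b.2 w
  -- the outcome
  have hlf : ∀ w, (Proc.learn q o fun v => .mA i cA fun m1 => .mB i' cB fun m2 =>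
      next v m1 m2 : Proc Q K StA StB M RQ RK Mg).lf S X Y kn w =
      (next v0 (β (ab w).1) (β (ab w).2)).lf S (X.upd cA (β (ab w).1)) (Y.upd cB (β (ab w).2))
        (kn ++ [(q, v0)]) w := by
    intro w
    simp only [Proc.lf, Proc.rsA, Proc.rsB, hv w, hcA, hcB, Comp.run_ret, ab]
  have hhits : ∀ w, (Proc.learn q o fun v => .mA i cA fun m1 => .mB i' cB fun m2 =>
      next v m1 m2 : Proc Q K StA StB M RQ RK Mg).hits S cel X Y kn w =
      (next v0 (β (ab w).1) (β (ab w).2)).hits S cel (X.upd cA (β (ab w).1))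
        (Y.upd cB (β (ab w).2)) (kn ++ [(q, v0)]) w := by
    intro w
    simp only [Proc.hits, Proc.rsA, Proc.rsB, hv w, hcA, hcB, Comp.run_ret, ab, hitA, hitB,
      Comp.asked_ret, List.not_mem_nil, false_and, exists_false, and_false, if_false, zero_add]
  have hcnt : ∀ w, (Proc.learn q o fun v => .mA i cA fun m1 => .mB i' cB fun m2 =>
      next v m1 m2 : Proc Q K StA StB M RQ RK Mg).cnt S cel L (fun d => ¬ cel d) X Y kn w =
      1 + (next v0 (β (ab w).1) (β (ab w).2)).cnt S cel L (fun d => ¬ cel d)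
        (X.upd cA (β (ab w).1)) (Y.upd cB (β (ab w).2)) (kn ++ [(q, v0)]) w := by
    intro w
    have hc : (fun d => ¬ cel d) q ∧ Hv S cel L X Y kn q ∧ Gd S cel X Y kn := ⟨hcq, hη, hg⟩
    simp only [Proc.cnt, Proc.rsA, Proc.rsB, hv w, hcA, hcB, Comp.run_ret, ab]
    rw [if_pos hc]
  have hflat : ∀ w : RA × RB × Orc S, ∀ d ∈ ((next v0 (β (ab w).1) (β (ab w).2)).flat
      (X.s w.1 w.2.2.1) (Y.s w.2.1 w.2.2.1)).asked w.2.2.1,
      d ∈ ((Proc.learn q o fun v => .mA i cA fun m1 => .mB i' cB fun m2 =>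
        next v m1 m2 : Proc Q K StA StB M RQ RK Mg).flat
        (X.s w.1 w.2.2.1) (Y.s w.2.1 w.2.2.1)).asked w.2.2.1 := by
    intro w d hd
    simp only [Proc.flat, Comp.asked_ask, hv w, hcA, hcB, Comp.bind]
    exact List.mem_cons_of_mem _ hd
  -- abbreviations
  let Xb : γ × γ → Sd Q K StA RA := fun b => X.upd cA (β b.1)
  let Yb : γ × γ → Sd Q K StB RB := fun b => Y.upd cB (β b.2)
  let R : γ × γ → Proc Q K StA StB M RQ RK Mg := fun b => next v0 (β b.1) (β b.2)
  let kn' := kn ++ [(q, v0)]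
  let Gs : γ × γ → Finset (RA × RB × Orc S) := fun b =>
    (gr S cel (Xb b) (Yb b) kn').filter fun w =>
      (R b).lf S (Xb b) (Yb b) kn' w = 3 ∧ (R b).hits S cel (Xb b) (Yb b) kn' w = 0
  let cn : RA × RB × Orc S → ℝ := fun w =>
    ((R (ab w)).cnt S cel L (fun d => ¬ cel d) (Xb (ab w)) (Yb (ab w)) kn' w : ℝ)
  have hsub : ((gr S cel X Y kn).filter fun w =>
      (Proc.learn q o fun v => .mA i cA fun m1 => .mB i' cB fun m2 =>
        next v m1 m2 : Proc Q K StA StB M RQ RK Mg).lf S X Y kn w = 3 ∧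
      (Proc.learn q o fun v => .mA i cA fun m1 => .mB i' cB fun m2 =>
        next v m1 m2 : Proc Q K StA StB M RQ RK Mg).hits S cel X Y kn w = 0) ⊆
      ((gr S cel X Y kn).filter fun w =>
        wr (oA (X.s w.1 w.2.2.1)) (oB (Y.s w.2.1 w.2.2.1))) ∪
      (Finset.univ.filter fun b : γ × γ => ¬ wr b.1 b.2).biUnion Gs := by
    intro w hw
    rw [Finset.mem_filter] at hw
    obtain ⟨hwg, hw3, hw0⟩ := hw
    rw [Finset.mem_union]
    by_cases hwr : wr (oA (X.s w.1 w.2.2.1)) (oB (Y.s w.2.1 w.2.2.1))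
    · exact Or.inl (Finset.mem_filter.2 ⟨hwg, hwr⟩)
    · refine Or.inr (Finset.mem_biUnion.2 ⟨ab w, Finset.mem_filter.2 ⟨Finset.mem_univ _, hwr⟩, ?_⟩)
      refine Finset.mem_filter.2 ⟨?_, ?_, ?_⟩
      · have hwg' := hwg
        unfold gr at hwg' ⊢
        rw [Finset.mem_filter] at hwg' ⊢
        refine ⟨?_, ?_⟩
        · have h4 : w ∈ (rl S X Y kn).filter fun w' => ab w' = ab w :=
            Finset.mem_filter.2 ⟨hwg'.1, rfl⟩
          rw [← hrl] at h4
          exact h4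
        · intro c hc hcx hcy
          have hcx' : c ∈ X.q w.1 w.2.2.1 := by
            simpa only [Xb, Sd.upd, hcA, Comp.asked_ret, List.append_nil] using hcx
          have hcy' : c ∈ Y.q w.2.1 w.2.2.1 := by
            simpa only [Yb, Sd.upd, hcB, Comp.asked_ret, List.append_nil] using hcy
          have h5 := hwg'.2 c hc hcx' hcy'
          simp only [kn', List.map_append, List.mem_append]
          exact Or.inl h5
      · rw [← hw3]
        exact (hlf w).symm
      · rw [← hw0]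
        exact (hhits w).symm
  have hT : ∀ b : γ × γ, ¬ wr b.1 b.2 → (N3 : ℝ) * (Gs b).card ≤
      ∑ w ∈ (rl S X Y kn).filter (fun w => ab w = b),
        (2 * cn w + 2 * (N3 : ℝ) ^ 2 * j * (if BS w then 1 else 0)) := by
    intro b hb
    have h5 := h1 b.1 b.2 hb (by
      intro w hw
      have hw' := (R1_rl S X Y kn q v0 hq β hβ oA oB b.1 b.2 w).1 hw
      have h6 := hSb w hw'.1
      refine ⟨?_, ?_, ?_⟩
      · intro d hd
        refine h6.1 d ?_
        simpa only [Sd.upd, hcA, Comp.asked_ret, List.append_nil] using hd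
      · intro d hd
        refine h6.2.1 d ?_
        simpa only [Sd.upd, hcB, Comp.asked_ret, List.append_nil] using hd
      · intro d hd
        refine h6.2.2 d (hflat w d ?_)
        have h7 : ab w = b := hw'.2
        rw [h7]
        exact hd)
    refine h5.trans (le_of_eq ?_)
    rw [Finset.sum_add_distrib, ← Finset.mul_sum, ← Finset.mul_sum]
    have e1 : ∑ w ∈ rl S (Xb b) (Yb b) kn',
        ((R b).cnt S cel L (fun d => ¬ cel d) (Xb b) (Yb b) kn' w : ℝ) =
        ∑ w ∈ (rl S X Y kn).filter (fun w => ab w = b), cn w := by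
      rw [← hrl b]
      refine Finset.sum_congr rfl ?_
      intro w hw
      have hw' : w ∈ (rl S X Y kn).filter fun w => ab w = b := by
        rw [← hrl b]
        exact hw
      have h7 : ab w = b := (Finset.mem_filter.1 hw').2
      simp only [cn]
      rw [h7]
    have e2 : (((rl S (Xb b) (Yb b) kn').filter fun w => BS w).card : ℝ) =
        ∑ w ∈ (rl S X Y kn).filter (fun w => ab w = b), (if BS w then (1 : ℝ) else 0) := by
      rw [← hrl b, Finset.card_filter]
      push_cast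
      rfl
    exact congrArg₂ (· + ·) (congrArg (2 * ·) e1) (congrArg (2 * (N3 : ℝ) ^ 2 * j * ·) e2)
  have hX := h3 (fun w hw => ⟨(hSb w hw).1, (hSb w hw).2.1⟩)
  have hgr : ((gr S cel X Y kn).card : ℝ) ≤ (rl S X Y kn).card := by
    exact_mod_cast Finset.card_le_card (Finset.filter_subset _ _)
  have hsum : ∑ b ∈ Finset.univ.filter (fun b : γ × γ => ¬ wr b.1 b.2),
      (N3 : ℝ) * (Gs b).card ≤
      ∑ w ∈ rl S X Y kn, (2 * cn w + 2 * (N3 : ℝ) ^ 2 * j * (if BS w then 1 else 0)) := by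
    rw [← Finset.sum_fiberwise (rl S X Y kn) ab]
    refine (Finset.sum_le_sum fun b hb => hT b (Finset.mem_filter.1 hb).2).trans ?_
    refine Finset.sum_le_sum_of_subset_of_nonneg (Finset.filter_subset _ _) ?_
    intro b _ _
    refine Finset.sum_nonneg fun w _ => ?_
    have h8 : (0 : ℝ) ≤ cn w := Nat.cast_nonneg _
    have h9 : (0 : ℝ) ≤ if BS w then (1 : ℝ) else 0 := by split_ifs <;> norm_num
    have h10 : (0 : ℝ) ≤ 2 * (N3 : ℝ) ^ 2 * j := by positivity
    have := mul_nonneg h10 h9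
    linarith
  have hcard := Finset.card_le_card hsub
  have hcard' : (((gr S cel X Y kn).filter fun w =>
      (Proc.learn q o fun v => .mA i cA fun m1 => .mB i' cB fun m2 =>
        next v m1 m2 : Proc Q K StA StB M RQ RK Mg).lf S X Y kn w = 3 ∧
      (Proc.learn q o fun v => .mA i cA fun m1 => .mB i' cB fun m2 =>
        next v m1 m2 : Proc Q K StA StB M RQ RK Mg).hits S cel X Y kn w = 0).card : ℝ) ≤
      ((gr S cel X Y kn).filter fun w =>
        wr (oA (X.s w.1 w.2.2.1)) (oB (Y.s w.2.1 w.2.2.1))).card +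
      ∑ b ∈ Finset.univ.filter (fun b : γ × γ => ¬ wr b.1 b.2), ((Gs b).card : ℝ) := by
    have h11 := hcard.trans ((Finset.card_union_le _ _).trans
      (Nat.add_le_add_left Finset.card_biUnion_le _))
    exact_mod_cast h11
  have hmul := mul_le_mul_of_nonneg_left hcard' (Nat.cast_nonneg (α := ℝ) N3)
  rw [mul_add, Finset.mul_sum] at hmul
  have hS2 : ∑ w ∈ rl S X Y kn, (2 * cn w + 2 * (N3 : ℝ) ^ 2 * j * (if BS w then 1 else 0)) =
      2 * ∑ w ∈ rl S X Y kn, cn w +
        2 * (N3 : ℝ) ^ 2 * j * ((rl S X Y kn).filter fun w => BS w).card := by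
    rw [Finset.sum_add_distrib, ← Finset.mul_sum, ← Finset.mul_sum, Finset.card_filter]
    push_cast
    rfl
  have hcs : ∑ w ∈ rl S X Y kn, ((Proc.learn q o fun v => .mA i cA fun m1 => .mB i' cB fun m2 =>
      next v m1 m2 : Proc Q K StA StB M RQ RK Mg).cnt S cel L (fun d => ¬ cel d) X Y kn w : ℝ) =
      (rl S X Y kn).card + ∑ w ∈ rl S X Y kn, cn w := by
    rw [Finset.card_eq_sum_ones]
    push_cast
    rw [← Finset.sum_add_distrib]
    refine Finset.sum_congr rfl fun w _ => ?_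
    rw [hcnt w]
    push_cast
    rfl
  rw [hcs]
  push_cast
  rw [hS2] at hsum
  nlinarith [hmul, hsum, hX, hgr]

end generic

end Pool.Agent.Nbb
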