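import Pool.Agent.Lib.MP_ae38e0_lc.Nbb.World

import Pool.Agent.Lib.MP_ae38e0_lc.Nbb.Gbound

import Pool.Agent.Lib.MP_ae38e0_lc.Nbb.Fresh

set_option autoImplicit false

/-!
# The strategy of the eavesdropper as a public process
-/

namespace Pool.Agent.Nbb

open Pool.Agent.LinOT Classical

/-- The public state: the two sides, the known things, the table, a handle whose owner has still to
evaluate, and the items which were confirmed by the first and by the second party. -/
structure Env (X S J K V StA StB RA RB : Type) where
  A : Sd (Th X S J K) (Option J → K) (CS StA S J K) RA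
  B : Sd (Th X S J K) (Option J → K) (CS StB S J K) RB
  kn : List (Th X S J K × (Option J → K))
  T : Tb S J K V
  pend : Option K
  pA : Finset (Th X S J K)
  pB : Finset (Th X S J K)

/-- The processes used here. -/
abbrev PT (X S J K V Mg StA StB : Type) :=
  Proc (Th X S J K) (Option J → K) (CS StA S J K) (CS StB S J K) (Pb Mg V) (Qry X S J K)
    (Ans J K V) Mg

variable {X S J K V Mg StA StB RA RB : Type}

namespace Env

/-- A thing is learned. -/
def kna (e : Env X S J K V StA StB RA RB) (d : Th X S J K) (v : Option J → K) :
    Env X S J K V StA StB RA RB := { e with kn := e.kn ++ [(d, v)] }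

/-- Step of the first party. -/
def upA (e : Env X S J K V StA StB RA RB)
    (c : CS StA S J K → Comp (Th X S J K) (Option J → K) (CS StA S J K × Pb Mg V)) (m : Pb Mg V) :
    Env X S J K V StA StB RA RB := { e with A := e.A.upd c m }

/-- Step of the second party. -/
def upB (e : Env X S J K V StA StB RA RB)
    (c : CS StB S J K → Comp (Th X S J K) (Option J → K) (CS StB S J K × Pb Mg V)) (m : Pb Mg V) :
    Env X S J K V StA StB RA RB := { e with B := e.B.upd c m }

/-- The key of a handle is known. -/
noncomputable def setTr (e : Env X S J K V StA StB RA RB) (s : S) (v : Option J → K) :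
    Env X S J K V StA StB RA RB :=
  { e with T := { e.T with tr := Function.update e.T.tr (v none) (some (s, v)) } }

/-- New entry for a handle with a private key. -/
noncomputable def setPr (e : Env X S J K V StA StB RA RB) (η : K) (o : Bool) (ex : J → Option K)
    (r : Option V) : Env X S J K V StA StB RA RB :=
  { e with T := { e.T with pr := Function.update e.T.pr η (some (o, ex, r)) } }

/-- The owner `o` of `η` has confirmed the item `d` and will evaluate. -/
noncomputable def conf (e : Env X S J K V StA StB RA RB) (η : K) (o : Bool) (d : Th X S J K) :
    Env X S J K V StA StB RA RB :=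
  { e with pend := some η, pA := if o then insert d e.pA else e.pA,
           pB := if o then e.pB else insert d e.pB }

end Env

/-- Real queries of the eavesdropper. -/
noncomputable def obsX [Nonempty K] (x : X) : Comp (Qry X S J K) (Ans J K V) (Option J → K) :=
  .ask (.f x) fun a => .ret (match a with | .val y => fun _ => y | _ => cv)

noncomputable def obsS [Nonempty K] (s : S) : Comp (Qry X S J K) (Ans J K V) (Option J → K) :=
  .ask (.enc s) fun a => .ret (match a with | .lab v => v | _ => cv)

def obsB (η : K) (a : J → Option K) : Comp (Qry X S J K) (Ans J K V) (Pb Mg V) :=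
  .ask (.ev η a) fun r => .ret (.bit (match r with | .res (some _) => true | _ => false))

def obsL (η : K) (a : J → Option K) : Comp (Qry X S J K) (Ans J K V) (Pb Mg V) :=
  .ask (.ev η a) fun r => .ret (.lk (match r with | .res u => u | _ => none))

/-- The items of a list become known. -/
noncomputable def knowL [Nonempty K] : List (Th X S J K) → Env X S J K V StA StB RA RB →
    (Env X S J K V StA StB RA RB → PT X S J K V Mg StA StB) → PT X S J K V Mg StA StB
  | [], e, cont => cont e
  | d :: l, e, cont => .learn d (.ret cv) fun v => knowL l (e.kna d v) cont

section steps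

variable [Finite X] [Finite S] [Fintype J] [Finite K] [Nonempty K] [Fintype RA] [Fintype RB]

/-- A cell is learned. -/
noncomputable def cellStep (e : Env X S J K V StA StB RA RB) (q : Th X S J K)
    (cont : Env X S J K V StA StB RA RB → PT X S J K V Mg StA StB) : PT X S J K V Mg StA StB :=
  match q with
  | .x x => .learn (.x x) (obsX x) fun v => cont (e.kna (.x x) v)
  | .s s => .learn (.s s) (obsS s) fun v => knowL (items v) ((e.kna (.s s) v).setTr s v) cont
  | _ => .stop 4

/-- The consistent states of the first party own `η` with at least the probability of the other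
ones. -/
def des (e : Env X S J K V StA StB RA RB) (η : K) : Prop :=
  ((sup SV e.B e.kn).filter fun p => ownH η (e.B.s p.1 p.2.1) = true).card *
      (sup SV e.A e.kn).card ≤
    ((sup SV e.A e.kn).filter fun p => ownH η (e.A.s p.1 p.2.1) = true).card *
      (sup SV e.B e.kn).card

/-- A handle is learned: both parties tell whether they own it. -/
noncomputable def handleStep (e : Env X S J K V StA StB RA RB) (η : K)
    (cont : Env X S J K V StA StB RA RB → PT X S J K V Mg StA StB) : PT X S J K V Mg StA StB :=
  .learn (.h η) (.ret cv) fun v =>
    .mA (.inr (if des e η then obsB η fun _ => none else .ret (.bit false))) (bitH η) fun m1 =>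
      .mB (.inr (if des e η then .ret (.bit false) else obsB η fun _ => none)) (bitH η) fun m2 =>
        match m1, m2 with
        | .bit false, .bit false => cont (((e.kna (.h η) v).upA (bitH η) m1).upB (bitH η) m2)
        | .bit true, .bit false =>
          if des e η then
            cont (((((e.kna (.h η) v).upA (bitH η) m1).upB (bitH η) m2).setPr η true
              (fun _ => none) none).conf η true (.h η))
          else .stop 3
        | .bit false, .bit true =>
          if des e η then .stop 3
          else
            cont (((((e.kna (.h η) v).upA (bitH η) m1).upB (bitH η) m2).setPr η false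
              (fun _ => none) none).conf η false (.h η))
        | .bit true, .bit true => .stop 3
        | _, _ => .stop 4

/-- A label is learned: the owner of the handle tells whether it is one of his labels. -/
noncomputable def labelStep (e : Env X S J K V StA StB RA RB) (η : K) (j : J) (π : K)
    (cont : Env X S J K V StA StB RA RB → PT X S J K V Mg StA StB) : PT X S J K V Mg StA StB :=
  .learn (.l η j π) (.ret cv) fun v =>
    match e.T.tr η, e.T.pr η with
    | none, some (true, ex, _) =>
      .mA (.inr (obsB η (Function.update ex j (some π)))) (bitL η j π) fun m =>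
        match m with
        | .bit true =>
          cont ((((e.kna (.l η j π) v).upA (bitL η j π) m).setPr η true
            (Function.update ex j (some π)) none).conf η true (.l η j π))
        | .bit false => cont ((e.kna (.l η j π) v).upA (bitL η j π) m)
        | _ => .stop 4
    | none, some (false, ex, _) =>
      .mB (.inr (obsB η (Function.update ex j (some π)))) (bitL η j π) fun m =>
        match m with
        | .bit true =>
          cont ((((e.kna (.l η j π) v).upB (bitL η j π) m).setPr η false
            (Function.update ex j (some π)) none).conf η false (.l η j π))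
        | .bit false => cont ((e.kna (.l η j π) v).upB (bitL η j π) m)
        | _ => .stop 4
    | _, _ => cont (e.kna (.l η j π) v)

/-- The owner of the handle evaluates for the public labels. -/
noncomputable def leakStep (F : S → Finset J → Comp X K V) (e : Env X S J K V StA StB RA RB)
    (η : K) (cont : Env X S J K V StA StB RA RB → PT X S J K V Mg StA StB) :
    PT X S J K V Mg StA StB :=
  match e.T.pr η with
  | some (true, ex, _) =>
    .mA (.inr (obsL η ex)) (leakC F η ex) fun m =>
      match m with
      | .lk r => cont { (e.upA (leakC F η ex) m).setPr η true ex r with pend := none }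
      | _ => .stop 4
  | some (false, ex, _) =>
    .mB (.inr (obsL η ex)) (leakC F η ex) fun m =>
      match m with
      | .lk r => cont { (e.upB (leakC F η ex) m).setPr η false ex r with pend := none }
      | _ => .stop 4
  | none => cont { e with pend := none }

/-- Nothing is heavy. -/
def Lgt (N L : ℕ) (e : Env X S J K V StA StB RA RB) : Prop :=
  Lt SV cel N cel e.A e.B e.kn ∧ Lt SV cel L (fun d => ¬ cel d) e.A e.B e.kn ∧ e.pend = none

/-- One step of the strategy. -/
noncomputable def body (F : S → Finset J → Comp X K V) (N L : ℕ)
    (e : Env X S J K V StA StB RA RB)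
    (cont : Env X S J K V StA StB RA RB → PT X S J K V Mg StA StB)
    (k : PT X S J K V Mg StA StB) : PT X S J K V Mg StA StB :=
  if Lgt N L e then k
  else if ¬ Gd SV cel e.A e.B e.kn then .stop 2
  else if hc : ∃ d, cel d ∧ Hv SV cel N e.A e.B e.kn d then cellStep e hc.choose cont
  else match e.pend with
    | some η => leakStep F e η cont
    | none =>
      if hh : ∃ η, Hv SV cel L e.A e.B e.kn (.h η) then handleStep e hh.choose cont
      else if hl : ∃ x : K × J × K, Hv SV cel L e.A e.B e.kn (.l x.1 x.2.1 x.2.2) then
        labelStep e hl.choose.1 hl.choose.2.1 hl.choose.2.2 cont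
      else .stop 4

/-- The learning loop; `j` is the number of steps which are still allowed. -/
noncomputable def closeT (F : S → Finset J → Comp X K V) (N L : ℕ)
    (k : ℕ → Env X S J K V StA StB RA RB → PT X S J K V Mg StA StB) :
    ℕ → Env X S J K V StA StB RA RB → PT X S J K V Mg StA StB
  | 0, e => if Lgt N L e then k 0 e else .stop 1
  | j + 1, e => body F N L e (closeT F N L k j) (k (j + 1) e)

end steps

section build

variable [Finite X] [Finite S] [Fintype J] [Finite K] [Nonempty K] [Fintype RA] [Fintype RB]

variable {I I' : Type} (A : Party (Qry X S J K) (Ans J K V) Mg I)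
  (B : Party (Qry X S J K) (Ans J K V) Mg I')

/-- The process for `r` rounds. -/
noncomputable def build (F : S → Finset J → Comp X K V) (G : V → Finset J → Comp X K V)
    (m0 : Mg) (N L : ℕ) : ℕ → Mg → ℕ → Env X S J K V A.St B.St RA RB →
      PT X S J K V Mg A.St B.St
  | 0, _, j, e => closeT F N L (fun _ _ => .stop 0) j e
  | r + 1, μ, j, e =>
    closeT F N L (fun j e => .mA (.inl .msg) (stepC F G A m0 e.T μ) fun m =>
      match m with
      | .msg x =>
        closeT F N L (fun j e' => .mB (.inl .msg) (stepC F G B m0 e'.T x) fun m' =>
          match m' with
          | .msg y => build F G m0 N L r y j (e'.upB (stepC F G B m0 e'.T x) m')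
          | _ => .stop 4) j (e.upA (stepC F G A m0 e.T μ) m)
      | _ => .stop 4) j e

/-- The initial state of the public. -/
noncomputable def env0 (n : ℕ) (iA : RA → A.St) (iB : RB → B.St) :
    Env X S J K V A.St B.St RA RB where
  A := { s := fun r _ => ⟨iA r, [], n⟩, q := fun _ _ => [], P := fun _ _ => True }
  B := { s := fun r _ => ⟨iB r, [], n⟩, q := fun _ _ => [], P := fun _ _ => True }
  kn := []
  T := ⟨fun _ => none, fun _ => none⟩
  pend := none
  pA := ∅
  pB := ∅

end build

end Pool.Agent.Nbb
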