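import Pool.Agent.Lib.MP_ae38e0_lc.Nbb.Inv

set_option autoImplicit false

/-!
# Budgets (rows B1 - B3)
-/

namespace Pool.Agent.Nbb

open Pool.Agent.LinOT Classical

variable {X S J K V Mg StA StB RA RB : Type} [Finite X] [Finite S] [Fintype J] [Finite K]
  [Nonempty K] [Fintype RA] [Fintype RB]

/-- The leaf code. -/
noncomputable def lfE (p : PT X S J K V Mg StA StB) (e : Env X S J K V StA StB RA RB)
    (w : RA × RB × Orc (SV : Th X S J K → Finset (Option J → K))) : ℕ :=
  p.lf SV e.A e.B e.kn w

/-- The number of heavy things learned. -/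
noncomputable def cntE (N : ℕ) (D : Th X S J K → Prop) (p : PT X S J K V Mg StA StB)
    (e : Env X S J K V StA StB RA RB)
    (w : RA × RB × Orc (SV : Th X S J K → Finset (Option J → K))) : ℕ :=
  p.cnt SV cel N D e.A e.B e.kn w

/-! ## Row B1: who runs out of budget has learned many heavy things.  The step of the leak is paid
by the step before it which made the handle pending. -/

/-- the statement for the continuation -/
private def B1_H (N : ℕ) (w : RA × RB × Orc (SV : Th X S J K → Finset (Option J → K)))
    (cont : Env X S J K V StA StB RA RB → PT X S J K V Mg StA StB) (j : ℕ) : Prop :=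
  ∀ e, lfE (cont e) e w = 1 →
    j ≤ 2 * cntE N (fun _ => True) (cont e) e w + (if e.pend = none then 0 else 1)

private theorem B1_learn (N : ℕ) (D : Th X S J K → Prop)
    (w : RA × RB × Orc (SV : Th X S J K → Finset (Option J → K)))
    (e : Env X S J K V StA StB RA RB) (d : Th X S J K) (o : Comp (Qry X S J K) (Ans J K V) _)
    (next : (Option J → K) → PT X S J K V Mg StA StB) :
    cntE N D (.learn d o next) e w =
      (if D d ∧ Hv SV cel N e.A e.B e.kn d ∧ Gd SV cel e.A e.B e.kn then 1 else 0) +
        cntE N D (next (w.2.2.1 d)) (e.kna d (w.2.2.1 d)) w := rfl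

private theorem B1_know {N j : ℕ} {w : RA × RB × Orc (SV : Th X S J K → Finset (Option J → K))}
    {cont : Env X S J K V StA StB RA RB → PT X S J K V Mg StA StB} (h : B1_H N w cont j) :
    ∀ (l : List (Th X S J K)), B1_H N w (fun e => knowL l e cont) j := by
  intro l
  induction l with
  | nil => exact h
  | cons d l ih =>
    intro e hl
    have h1 := ih (e.kna d (w.2.2.1 d)) hl
    have h2 := B1_learn N (fun _ => True) w e d (.ret cv) (fun v => knowL l (e.kna d v) cont)
    have h3 : (e.kna d (w.2.2.1 d)).pend = e.pend := rfl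
    rw [h3] at h1
    show j ≤ 2 * cntE N (fun _ => True) (.learn d (.ret cv) fun v => knowL l (e.kna d v) cont) e w + _
    rw [h2]
    dsimp only at h1
    omega

private theorem B1_cell {N j : ℕ} {w : RA × RB × Orc (SV : Th X S J K → Finset (Option J → K))}
    {cont : Env X S J K V StA StB RA RB → PT X S J K V Mg StA StB} (h : B1_H N w cont j)
    (e : Env X S J K V StA StB RA RB) (q : Th X S J K) (hv : Hv SV cel N e.A e.B e.kn q)
    (hg : Gd SV cel e.A e.B e.kn) (hl : lfE (cellStep e q cont) e w = 1) :
    j + 1 ≤ 2 * cntE N (fun _ => True) (cellStep e q cont) e w +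
      (if e.pend = none then 0 else 1) := by
  cases q with
  | x x =>
    have h1 := h (e.kna (.x x) (w.2.2.1 (.x x))) hl
    have h2 := B1_learn N (fun _ => True) w e (.x x) (obsX x) (fun v => cont (e.kna (.x x) v))
    rw [if_pos ⟨trivial, hv, hg⟩] at h2
    have h3 : (e.kna (.x x) (w.2.2.1 (.x x))).pend = e.pend := rfl
    rw [h3] at h1
    show j + 1 ≤ 2 * cntE N (fun _ => True)
      (.learn (.x x) (obsX x) fun v => cont (e.kna (.x x) v)) e w + _
    rw [h2]
    omega
  | s s =>
    have h1 := B1_know h (items (w.2.2.1 (.s s)))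
      ((e.kna (.s s) (w.2.2.1 (.s s))).setTr s (w.2.2.1 (.s s))) hl
    have h2 := B1_learn N (fun _ => True) w e (.s s) (obsS s)
      (fun v => knowL (items v) ((e.kna (.s s) v).setTr s v) cont)
    rw [if_pos ⟨trivial, hv, hg⟩] at h2
    have h3 : ((e.kna (.s s) (w.2.2.1 (.s s))).setTr s (w.2.2.1 (.s s))).pend = e.pend := rfl
    have h4 : cntE N (fun _ => True) (knowL (items (w.2.2.1 (.s s)))
        ((e.kna (.s s) (w.2.2.1 (.s s))).setTr s (w.2.2.1 (.s s))) cont)
        (e.kna (.s s) (w.2.2.1 (.s s))) w =
      cntE N (fun _ => True) (knowL (items (w.2.2.1 (.s s)))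
        ((e.kna (.s s) (w.2.2.1 (.s s))).setTr s (w.2.2.1 (.s s))) cont)
        ((e.kna (.s s) (w.2.2.1 (.s s))).setTr s (w.2.2.1 (.s s))) w := rfl
    dsimp only at h1 h2
    rw [h3, ← h4] at h1
    show j + 1 ≤ 2 * cntE N (fun _ => True)
      (.learn (.s s) (obsS s) fun v => knowL (items v) ((e.kna (.s s) v).setTr s v) cont) e w + _
    rw [h2]
    omega
  | h η =>
    have h1 : (4 : ℕ) = 1 := hl
    omega
  | l η i π =>
    have h1 : (4 : ℕ) = 1 := hl
    omega

private theorem B1_key {N j : ℕ}
    {w : RA × RB × Orc (SV : Th X S J K → Finset (Option J → K))}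
    {cont : Env X S J K V StA StB RA RB → PT X S J K V Mg StA StB} (h : B1_H N w cont j)
    (e' : Env X S J K V StA StB RA RB)
    (he' : Proc.lf SV (cont e') e'.A e'.B e'.kn w = 1) :
    j ≤ 2 * Proc.cnt SV cel N (fun _ => True) (cont e') e'.A e'.B e'.kn w + 1 := by
  have := h e' he'
  unfold cntE at this
  split_ifs at this <;> omega

private theorem B1_key' {N j : ℕ}
    {w : RA × RB × Orc (SV : Th X S J K → Finset (Option J → K))}
    {cont : Env X S J K V StA StB RA RB → PT X S J K V Mg StA StB} (h : B1_H N w cont j)
    (e' : Env X S J K V StA StB RA RB) (hp : e'.pend = none)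
    (he' : Proc.lf SV (cont e') e'.A e'.B e'.kn w = 1) :
    j ≤ 2 * Proc.cnt SV cel N (fun _ => True) (cont e') e'.A e'.B e'.kn w := by
  have := h e' he'
  unfold cntE at this
  rw [if_pos hp] at this
  omega

private theorem B1_ar {j c : ℕ} (h : j ≤ 2 * c) : j + 1 ≤ 2 * (1 + c) := by omega

private theorem B1_ar' {j c : ℕ} (h : j ≤ 2 * c + 1) : j + 1 ≤ 2 * (1 + c) := by omega

private theorem B1_handle {N j : ℕ}
    {w : RA × RB × Orc (SV : Th X S J K → Finset (Option J → K))}
    {cont : Env X S J K V StA StB RA RB → PT X S J K V Mg StA StB} (h : B1_H N w cont j)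
    (e : Env X S J K V StA StB RA RB) (η : K) (hv : Hv SV cel N e.A e.B e.kn (.h η))
    (hg : Gd SV cel e.A e.B e.kn) (hp : e.pend = none) (hl : lfE (handleStep e η cont) e w = 1) :
    j + 1 ≤ 2 * cntE N (fun _ => True) (handleStep e η cont) e w := by
  unfold handleStep at hl ⊢
  simp only [lfE, cntE, Proc.lf, Proc.cnt] at hl ⊢
  rw [if_pos ⟨trivial, hv, hg⟩]
  generalize Proc.rsA SV (bitH η) e.A w = m1 at hl ⊢
  generalize Proc.rsB SV (bitH η) e.B w = m2 at hl ⊢
  rcases m1 with x | b | x
  · exact absurd hl (by simp [Proc.lf])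
  · rcases m2 with y | b' | y
    · cases b <;> exact absurd hl (by simp [Proc.lf])
    · cases b
      · cases b'
        · have h1 := B1_key' h (((e.kna (.h η) (w.2.2.1 (.h η))).upA (bitH η) (.bit false)).upB
            (bitH η) (.bit false)) hp hl
          exact B1_ar h1
        · by_cases hd : des e η
          · simp only [hd, if_true] at hl
            exact absurd hl (by simp [Proc.lf])
          · simp only [hd, if_false] at hl ⊢
            exact B1_ar' (B1_key h _ hl)
      · cases b'
        · by_cases hd : des e η
          · simp only [hd, if_true] at hl ⊢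
            exact B1_ar' (B1_key h _ hl)
          · simp only [hd, if_false] at hl
            exact absurd hl (by simp [Proc.lf])
        · exact absurd hl (by simp [Proc.lf])
    · cases b <;> exact absurd hl (by simp [Proc.lf])
  · exact absurd hl (by simp [Proc.lf])

private theorem B1_label {N j : ℕ}
    {w : RA × RB × Orc (SV : Th X S J K → Finset (Option J → K))}
    {cont : Env X S J K V StA StB RA RB → PT X S J K V Mg StA StB} (h : B1_H N w cont j)
    (e : Env X S J K V StA StB RA RB) (η : K) (i : J) (π : K)
    (hv : Hv SV cel N e.A e.B e.kn (.l η i π))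
    (hg : Gd SV cel e.A e.B e.kn) (hp : e.pend = none)
    (hl : lfE (labelStep e η i π cont) e w = 1) :
    j + 1 ≤ 2 * cntE N (fun _ => True) (labelStep e η i π cont) e w := by
  unfold labelStep at hl ⊢
  simp only [lfE, cntE, Proc.lf, Proc.cnt] at hl ⊢
  rw [if_pos ⟨trivial, hv, hg⟩]
  rcases htr : e.T.tr η with _ | a
  · rcases hpr : e.T.pr η with _ | ⟨o, ex, r⟩
    · simp only [htr, hpr] at hl ⊢
      exact B1_ar (B1_key' h _ hp hl)
    · cases o
      · simp only [htr, hpr, Proc.lf, Proc.cnt] at hl ⊢
        generalize Proc.rsB SV (bitL η i π) e.B w = m2 at hl ⊢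
        rcases m2 with y | b' | y
        · exact absurd hl (by simp [Proc.lf])
        · cases b'
          · exact B1_ar (B1_key' h ((e.kna (.l η i π) (w.2.2.1 (.l η i π))).upB (bitL η i π)
              (.bit false)) hp hl)
          · exact B1_ar' (B1_key h _ hl)
        · exact absurd hl (by simp [Proc.lf])
      · simp only [htr, hpr, Proc.lf, Proc.cnt] at hl ⊢
        generalize Proc.rsA SV (bitL η i π) e.A w = m1 at hl ⊢
        rcases m1 with y | b' | y
        · exact absurd hl (by simp [Proc.lf])
        · cases b'
          · exact B1_ar (B1_key' h ((e.kna (.l η i π) (w.2.2.1 (.l η i π))).upA (bitL η i π)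
              (.bit false)) hp hl)
          · exact B1_ar' (B1_key h _ hl)
        · exact absurd hl (by simp [Proc.lf])
  · simp only [htr] at hl ⊢
    exact B1_ar (B1_key' h _ hp hl)

private theorem B1_leak {N j : ℕ} (F : S → Finset J → Comp X K V)
    {w : RA × RB × Orc (SV : Th X S J K → Finset (Option J → K))}
    {cont : Env X S J K V StA StB RA RB → PT X S J K V Mg StA StB} (h : B1_H N w cont j)
    (e : Env X S J K V StA StB RA RB) (η : K)
    (hl : lfE (leakStep F e η cont) e w = 1) :
    j ≤ 2 * cntE N (fun _ => True) (leakStep F e η cont) e w := by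
  unfold leakStep at hl ⊢
  simp only [lfE, cntE] at hl ⊢
  rcases hpr : e.T.pr η with _ | ⟨o, ex, r⟩
  · simp only [hpr] at hl ⊢
    exact B1_key' h _ rfl hl
  · cases o
    · simp only [hpr, Proc.lf, Proc.cnt] at hl ⊢
      generalize Proc.rsB SV (leakC F η ex) e.B w = m2 at hl ⊢
      rcases m2 with y | b' | y
      · exact absurd hl (by simp [Proc.lf])
      · exact absurd hl (by simp [Proc.lf])
      · exact B1_key' h _ rfl hl
    · simp only [hpr, Proc.lf, Proc.cnt] at hl ⊢
      generalize Proc.rsA SV (leakC F η ex) e.A w = m1 at hl ⊢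
      rcases m1 with y | b' | y
      · exact absurd hl (by simp [Proc.lf])
      · exact absurd hl (by simp [Proc.lf])
      · exact B1_key' h _ rfl hl

private theorem B1_hv {N L : ℕ} (hLN : L ≤ N) {e : Env X S J K V StA StB RA RB}
    {q : Th X S J K} (h : Hv SV cel L e.A e.B e.kn q) : Hv SV cel N e.A e.B e.kn q :=
  ⟨h.1, h.2.trans (Nat.mul_le_mul_right _ hLN)⟩

theorem closeT_code1 (F : S → Finset J → Comp X K V) (N L : ℕ) (hLN : L ≤ N)
    (k : ℕ → Env X S J K V StA StB RA RB → PT X S J K V Mg StA StB)
    (hk : ∀ j e w, e.pend = none → lfE (k j e) e w = 1 →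
      j ≤ 2 * cntE N (fun _ => True) (k j e) e w) :
    ∀ j (e : Env X S J K V StA StB RA RB) w, lfE (closeT F N L k j e) e w = 1 →
      j ≤ 2 * cntE N (fun _ => True) (closeT F N L k j e) e w +
        (if e.pend = none then 0 else 1) := by
  intro j
  induction j with
  | zero => intro e w _; exact Nat.zero_le _
  | succ j ih =>
    intro e w hl
    have h : B1_H N w (closeT F N L k j) j := fun e' => ih e' w
    have e1 : closeT F N L k (j + 1) e = body F N L e (closeT F N L k j) (k (j + 1) e) := rfl
    rw [e1] at hl ⊢
    unfold body at hl ⊢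
    by_cases c1 : Lgt N L e
    · rw [if_pos c1] at hl ⊢
      have := hk (j + 1) e w c1.2.2 hl
      omega
    · rw [if_neg c1] at hl ⊢
      by_cases c2 : ¬ Gd SV cel e.A e.B e.kn
      · rw [if_pos c2] at hl
        have h1 : (2 : ℕ) = 1 := hl
        omega
      · rw [if_neg c2] at hl ⊢
        have hg : Gd SV cel e.A e.B e.kn := not_not.1 c2
        by_cases c3 : ∃ d, cel d ∧ Hv SV cel N e.A e.B e.kn d
        · rw [dif_pos c3] at hl ⊢
          exact B1_cell h e c3.choose c3.choose_spec.2 hg hl
        · rw [dif_neg c3] at hl ⊢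
          rcases hp : e.pend with _ | η
          · simp only [hp] at hl ⊢
            by_cases c4 : ∃ η, Hv SV cel L e.A e.B e.kn (.h η)
            · rw [dif_pos c4] at hl ⊢
              have := B1_handle h e c4.choose (B1_hv hLN c4.choose_spec) hg hp hl
              omega
            · rw [dif_neg c4] at hl ⊢
              by_cases c5 : ∃ x : K × J × K, Hv SV cel L e.A e.B e.kn (.l x.1 x.2.1 x.2.2)
              · rw [dif_pos c5] at hl ⊢
                have := B1_label h e _ _ _ (B1_hv hLN c5.choose_spec) hg hp hl
                omega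
              · rw [dif_neg c5] at hl
                have h1 : (4 : ℕ) = 1 := hl
                omega
          · simp only [hp] at hl ⊢
            have := B1_leak F h e η hl
            rw [if_neg (by simp)]
            omega

variable {I I' : Type} (A : Party (Qry X S J K) (Ans J K V) Mg I)
  (B : Party (Qry X S J K) (Ans J K V) Mg I')

theorem build_code1 (F : S → Finset J → Comp X K V) (G : V → Finset J → Comp X K V) (N L : ℕ)
    (hLN : L ≤ N) (m0 : Mg) :
    ∀ (r : ℕ) (μ : Mg) (j : ℕ) (e : Env X S J K V A.St B.St RA RB) w, e.pend = none →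
      lfE (build A B F G m0 N L r μ j e) e w = 1 →
      j ≤ 2 * cntE N (fun _ => True) (build A B F G m0 N L r μ j e) e w := by
  intro r
  induction r with
  | zero =>
    intro μ j e w hp hl
    have h1 := closeT_code1 F N L hLN (fun _ _ => .stop 0)
      (fun j e w _ h => absurd (show (0 : ℕ) = 1 from h) (by norm_num)) j e w hl
    rw [if_pos hp, add_zero] at h1
    exact h1
  | succ r ih =>
    intro μ j e w hp hl
    have h1 := closeT_code1 F N L hLN (fun j e => .mA (.inl .msg) (stepC F G A m0 e.T μ) fun m =>
      match m with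
      | .msg x =>
        closeT F N L (fun j e' => .mB (.inl .msg) (stepC F G B m0 e'.T x) fun m' =>
          match m' with
          | .msg y => build A B F G m0 N L r y j (e'.upB (stepC F G B m0 e'.T x) m')
          | _ => .stop 4) j (e.upA (stepC F G A m0 e.T μ) m)
      | _ => .stop 4) (by
      intro j e w hp hl
      simp only [lfE, cntE, Proc.lf, Proc.cnt] at hl ⊢
      generalize Proc.rsA SV (stepC F G A m0 e.T μ) e.A w = m1 at hl ⊢
      rcases m1 with x | b | y
      · have h2 := closeT_code1 F N L hLN (fun j e' => .mB (.inl .msg) (stepC F G B m0 e'.T x)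
          fun m' => match m' with
          | .msg y => build A B F G m0 N L r y j (e'.upB (stepC F G B m0 e'.T x) m')
          | _ => .stop 4) (by
          intro j e w hp hl
          simp only [lfE, cntE, Proc.lf, Proc.cnt] at hl ⊢
          generalize Proc.rsB SV (stepC F G B m0 e.T x) e.B w = m2 at hl ⊢
          rcases m2 with y | b | y
          · exact ih y j (e.upB (stepC F G B m0 e.T x) (.msg y)) w hp hl
          · exact absurd hl (by simp [Proc.lf])
          · exact absurd hl (by simp [Proc.lf])) j (e.upA (stepC F G A m0 e.T μ) (.msg x)) w hl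
        rw [if_pos (show (e.upA (stepC F G A m0 e.T μ) (.msg x)).pend = none from hp),
          add_zero] at h2
        exact h2
      · exact absurd hl (by simp [Proc.lf])
      · exact absurd hl (by simp [Proc.lf])) j e w hl
    rw [if_pos hp, add_zero] at h1
    exact h1

/-! ## Row B2: the number of nodes at which something is learned -/

private theorem B2_items_len (v : Option J → K) :
    (items v : List (Th X S J K)).length = Fintype.card J + 1 := by
  simp [items]

private theorem B2_knowL_nl (l : List (Th X S J K)) :
    ∀ (e : Env X S J K V StA StB RA RB)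
      (cont : Env X S J K V StA StB RA RB → PT X S J K V Mg StA StB)
      (w : RA × RB × Orc (SV : Th X S J K → Finset (Option J → K))) (b : ℕ),
      (∀ e', (cont e').nl SV e'.A e'.B e'.kn w ≤ b) →
      (knowL l e cont).nl SV e.A e.B e.kn w ≤ b + l.length := by
  induction l with
  | nil =>
    intro e cont w b h
    exact h e
  | cons d l ih =>
    intro e cont w b h
    have h1 := ih (e.kna d (w.2.2.1 d)) cont w b h
    show (knowL l (e.kna d (w.2.2.1 d)) cont).nl SV e.A e.B (e.kn ++ [(d, w.2.2.1 d)]) w + 1 ≤ _
    rw [List.length_cons]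
    have h2 : (knowL l (e.kna d (w.2.2.1 d)) cont).nl SV e.A e.B (e.kn ++ [(d, w.2.2.1 d)]) w ≤
      b + l.length := h1
    omega

private theorem B2_cell_nl (e : Env X S J K V StA StB RA RB) (q : Th X S J K)
    (cont : Env X S J K V StA StB RA RB → PT X S J K V Mg StA StB)
    (w : RA × RB × Orc (SV : Th X S J K → Finset (Option J → K))) (b : ℕ)
    (h : ∀ e', (cont e').nl SV e'.A e'.B e'.kn w ≤ b) :
    (cellStep e q cont).nl SV e.A e.B e.kn w ≤ b + (Fintype.card J + 2) := by
  cases q with
  | x x =>
    have h1 := h (e.kna (.x x) (w.2.2.1 (.x x)))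
    show (cont (e.kna (.x x) (w.2.2.1 (.x x)))).nl SV e.A e.B
      (e.kn ++ [(.x x, w.2.2.1 (.x x))]) w + 1 ≤ _
    have h2 : (cont (e.kna (.x x) (w.2.2.1 (.x x)))).nl SV e.A e.B
      (e.kn ++ [(.x x, w.2.2.1 (.x x))]) w ≤ b := h1
    omega
  | s s =>
    have h1 := B2_knowL_nl (items (w.2.2.1 (.s s)))
      ((e.kna (.s s) (w.2.2.1 (.s s))).setTr s (w.2.2.1 (.s s))) cont w b h
    rw [B2_items_len] at h1
    show (knowL (items (w.2.2.1 (.s s))) ((e.kna (.s s) (w.2.2.1 (.s s))).setTr s
      (w.2.2.1 (.s s))) cont).nl SV e.A e.B (e.kn ++ [(.s s, w.2.2.1 (.s s))]) w + 1 ≤ _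
    have h2 : (knowL (items (w.2.2.1 (.s s))) ((e.kna (.s s) (w.2.2.1 (.s s))).setTr s
      (w.2.2.1 (.s s))) cont).nl SV e.A e.B (e.kn ++ [(.s s, w.2.2.1 (.s s))]) w ≤
      b + (Fintype.card J + 1) := h1
    omega
  | h η => exact Nat.zero_le _
  | l η j π => exact Nat.zero_le _

private theorem B2_leak_nl (F : S → Finset J → Comp X K V) (e : Env X S J K V StA StB RA RB)
    (η : K) (cont : Env X S J K V StA StB RA RB → PT X S J K V Mg StA StB)
    (w : RA × RB × Orc (SV : Th X S J K → Finset (Option J → K))) (b : ℕ)
    (h : ∀ e', (cont e').nl SV e'.A e'.B e'.kn w ≤ b) :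
    (leakStep F e η cont).nl SV e.A e.B e.kn w ≤ b := by
  unfold leakStep
  rcases hT : e.T.pr η with _ | ⟨o, ex, r0⟩
  · exact h { e with pend := none }
  · cases o with
    | true =>
      simp only [Proc.nl]
      generalize hm : Proc.rsA SV (leakC F η ex) e.A w = m
      cases m with
      | lk r => exact h { (e.upA (leakC F η ex) (.lk r)).setPr η true ex r with pend := none }
      | msg x => exact Nat.zero_le _
      | bit x => exact Nat.zero_le _
    | false =>
      simp only [Proc.nl]
      generalize hm : Proc.rsB SV (leakC F η ex) e.B w = m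
      cases m with
      | lk r => exact h { (e.upB (leakC F η ex) (.lk r)).setPr η false ex r with pend := none }
      | msg x => exact Nat.zero_le _
      | bit x => exact Nat.zero_le _

private theorem B2_handle_nl (e : Env X S J K V StA StB RA RB)
    (η : K) (cont : Env X S J K V StA StB RA RB → PT X S J K V Mg StA StB)
    (w : RA × RB × Orc (SV : Th X S J K → Finset (Option J → K))) (b : ℕ)
    (h : ∀ e', (cont e').nl SV e'.A e'.B e'.kn w ≤ b) :
    (handleStep e η cont).nl SV e.A e.B e.kn w ≤ b + 1 := by
  unfold handleStep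
  simp only [Proc.nl]
  refine Nat.succ_le_succ ?_
  generalize hm1 : Proc.rsA SV (bitH η) e.A w = m1
  generalize hm2 : Proc.rsB SV (bitH η) e.B w = m2
  generalize w.2.2.1 (.h η) = v
  rcases m1 with x | (_ | _) | x
  · exact Nat.zero_le _
  · rcases m2 with y | (_ | _) | y
    · exact Nat.zero_le _
    · exact h (((e.kna (.h η) v).upA (bitH η) (.bit false)).upB (bitH η) (.bit false))
    · by_cases hd : des e η
      · simp only [hd, if_true]
        exact Nat.zero_le _
      · simp only [hd, if_false]
        exact h (((((e.kna (.h η) v).upA (bitH η) (.bit false)).upB (bitH η) (.bit true)).setPr η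
          false (fun _ => none) none).conf η false (.h η))
    · exact Nat.zero_le _
  · rcases m2 with y | (_ | _) | y
    · exact Nat.zero_le _
    · by_cases hd : des e η
      · simp only [hd, if_true]
        exact h (((((e.kna (.h η) v).upA (bitH η) (.bit true)).upB (bitH η) (.bit false)).setPr η
          true (fun _ => none) none).conf η true (.h η))
      · simp only [hd, if_false]
        exact Nat.zero_le _
    · exact Nat.zero_le _
    · exact Nat.zero_le _
  · exact Nat.zero_le _

private theorem B2_label_nl (e : Env X S J K V StA StB RA RB)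
    (η : K) (j : J) (π : K) (cont : Env X S J K V StA StB RA RB → PT X S J K V Mg StA StB)
    (w : RA × RB × Orc (SV : Th X S J K → Finset (Option J → K))) (b : ℕ)
    (h : ∀ e', (cont e').nl SV e'.A e'.B e'.kn w ≤ b) :
    (labelStep e η j π cont).nl SV e.A e.B e.kn w ≤ b + 1 := by
  unfold labelStep
  simp only [Proc.nl]
  refine Nat.succ_le_succ ?_
  generalize w.2.2.1 (.l η j π) = v
  rcases hT : e.T.tr η with _ | z
  · rcases hP : e.T.pr η with _ | ⟨o, ex, r0⟩
    · exact h (e.kna (.l η j π) v)
    · cases o with
      | true =>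
        simp only [Proc.nl]
        generalize hm : Proc.rsA SV (bitL η j π) e.A w = m
        rcases m with x | (_ | _) | x
        · exact Nat.zero_le _
        · exact h ((e.kna (.l η j π) v).upA (bitL η j π) (.bit false))
        · exact h ((((e.kna (.l η j π) v).upA (bitL η j π) (.bit true)).setPr η true
            (Function.update ex j (some π)) none).conf η true (.l η j π))
        · exact Nat.zero_le _
      | false =>
        simp only [Proc.nl]
        generalize hm : Proc.rsB SV (bitL η j π) e.B w = m
        rcases m with x | (_ | _) | x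
        · exact Nat.zero_le _
        · exact h ((e.kna (.l η j π) v).upB (bitL η j π) (.bit false))
        · exact h ((((e.kna (.l η j π) v).upB (bitL η j π) (.bit true)).setPr η false
            (Function.update ex j (some π)) none).conf η false (.l η j π))
        · exact Nat.zero_le _
  · exact h (e.kna (.l η j π) v)

private theorem B2_body_nl (F : S → Finset J → Comp X K V) (N L : ℕ)
    (e : Env X S J K V StA StB RA RB)
    (cont : Env X S J K V StA StB RA RB → PT X S J K V Mg StA StB) (k : PT X S J K V Mg StA StB)
    (w : RA × RB × Orc (SV : Th X S J K → Finset (Option J → K))) (b : ℕ)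
    (h : ∀ e', (cont e').nl SV e'.A e'.B e'.kn w ≤ b)
    (hk : k.nl SV e.A e.B e.kn w ≤ b + (Fintype.card J + 2)) :
    (body F N L e cont k).nl SV e.A e.B e.kn w ≤ b + (Fintype.card J + 2) := by
  unfold body
  by_cases h1 : Lgt N L e
  · rw [if_pos h1]
    exact hk
  rw [if_neg h1]
  by_cases h2 : Gd SV cel e.A e.B e.kn
  · rw [if_neg (not_not.2 h2)]
    by_cases h3 : ∃ d, cel d ∧ Hv SV cel N e.A e.B e.kn d
    · rw [dif_pos h3]
      exact B2_cell_nl e _ cont w b h
    · rw [dif_neg h3]
      rcases hp : e.pend with _ | η
      · simp only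
        split_ifs with h4 h5
        · exact (B2_handle_nl e _ cont w b h).trans (by omega)
        · exact (B2_label_nl e _ _ _ cont w b h).trans (by omega)
        · exact Nat.zero_le _
      · exact (B2_leak_nl F e η cont w b h).trans (by omega)
  · rw [if_pos h2]
    exact Nat.zero_le _

private theorem B2_close_nl (F : S → Finset J → Comp X K V) (N L : ℕ)
    (k : ℕ → Env X S J K V StA StB RA RB → PT X S J K V Mg StA StB)
    (w : RA × RB × Orc (SV : Th X S J K → Finset (Option J → K)))
    (hk : ∀ j e, (k j e).nl SV e.A e.B e.kn w ≤ j * (Fintype.card J + 2)) :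
    ∀ (j : ℕ) (e : Env X S J K V StA StB RA RB),
      (closeT F N L k j e).nl SV e.A e.B e.kn w ≤ j * (Fintype.card J + 2) := by
  intro j
  induction j with
  | zero =>
    intro e
    unfold closeT
    split_ifs with h
    · exact hk 0 e
    · exact Nat.zero_le _
  | succ j ih =>
    intro e
    unfold closeT
    rw [Nat.succ_mul]
    refine B2_body_nl F N L e _ _ w _ ih ?_
    rw [← Nat.succ_mul]
    exact hk (j + 1) e

private theorem B2_knowL_as (outB : RB → CS StB S J K → Bool) (ρ : Qry X S J K → Ans J K V)
    (l : List (Th X S J K)) :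
    ∀ (e : Env X S J K V StA StB RA RB)
      (cont : Env X S J K V StA StB RA RB → PT X S J K V Mg StA StB) (t : List Mg) (b : ℕ),
      (∀ e' t', (((cont e').eve SV outB e'.A e'.B e'.kn t').asked ρ).length ≤ b) →
      (((knowL l e cont).eve SV outB e.A e.B e.kn t).asked ρ).length ≤ b := by
  induction l with
  | nil =>
    intro e cont t b h
    exact h e t
  | cons d l ih =>
    intro e cont t b h
    exact ih (e.kna d cv) cont t b h

private theorem B2_cell_as (outB : RB → CS StB S J K → Bool) (ρ : Qry X S J K → Ans J K V)
    (e : Env X S J K V StA StB RA RB) (q : Th X S J K)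
    (cont : Env X S J K V StA StB RA RB → PT X S J K V Mg StA StB) (t : List Mg) (b : ℕ)
    (h : ∀ e' t', (((cont e').eve SV outB e'.A e'.B e'.kn t').asked ρ).length ≤ b) :
    (((cellStep e q cont).eve SV outB e.A e.B e.kn t).asked ρ).length ≤ b + 1 := by
  cases q with
  | x x =>
    simp only [cellStep, Proc.eve, Comp.asked_bind, List.length_append]
    generalize (obsX x : Comp (Qry X S J K) (Ans J K V) (Option J → K)).run ρ = v
    have h1 := h (e.kna (.x x) v) t
    have h2 : (((cont (e.kna (.x x) v)).eve SV outB e.A e.B (e.kn ++ [(.x x, v)]) t).asked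
      ρ).length ≤ b := h1
    have h3 : ((obsX x : Comp (Qry X S J K) (Ans J K V) (Option J → K)).asked ρ).length = 1 := rfl
    omega
  | s s =>
    simp only [cellStep, Proc.eve, Comp.asked_bind, List.length_append]
    generalize (obsS s : Comp (Qry X S J K) (Ans J K V) (Option J → K)).run ρ = v
    have h1 := B2_knowL_as outB ρ (items v) ((e.kna (.s s) v).setTr s v) cont t b h
    have h2 : (((knowL (items v) ((e.kna (.s s) v).setTr s v) cont).eve SV outB e.A e.B
      (e.kn ++ [(.s s, v)]) t).asked ρ).length ≤ b := h1
    have h3 : ((obsS s : Comp (Qry X S J K) (Ans J K V) (Option J → K)).asked ρ).length = 1 := rfl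
    omega
  | h η => exact Nat.zero_le _
  | l η j π => exact Nat.zero_le _

private theorem B2_leak_as (outB : RB → CS StB S J K → Bool) (ρ : Qry X S J K → Ans J K V)
    (F : S → Finset J → Comp X K V) (e : Env X S J K V StA StB RA RB)
    (η : K) (cont : Env X S J K V StA StB RA RB → PT X S J K V Mg StA StB) (t : List Mg) (b : ℕ)
    (h : ∀ e' t', (((cont e').eve SV outB e'.A e'.B e'.kn t').asked ρ).length ≤ b) :
    (((leakStep F e η cont).eve SV outB e.A e.B e.kn t).asked ρ).length ≤ b + 1 := by
  unfold leakStep
  rcases hT : e.T.pr η with _ | ⟨o, ex, r0⟩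
  · exact (h { e with pend := none } t).trans (by omega)
  · cases o with
    | true =>
      simp only [Proc.eve, Comp.asked_bind, List.length_append]
      have h3 : ((obsL η ex : Comp (Qry X S J K) (Ans J K V) (Pb Mg V)).asked ρ).length = 1 := rfl
      generalize (obsL η ex : Comp (Qry X S J K) (Ans J K V) (Pb Mg V)).run ρ = m
      cases m with
      | lk r =>
        have h5 := h { (e.upA (leakC F η ex) (.lk r : Pb Mg V)).setPr η true ex r with pend := none } t
        have h6 := Nat.add_le_add h3.le h5
        exact h6.trans (by omega)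
      | msg x => exact (Nat.add_le_add h3.le (Nat.zero_le b)).trans (by omega)
      | bit x => exact (Nat.add_le_add h3.le (Nat.zero_le b)).trans (by omega)
    | false =>
      simp only [Proc.eve, Comp.asked_bind, List.length_append]
      have h3 : ((obsL η ex : Comp (Qry X S J K) (Ans J K V) (Pb Mg V)).asked ρ).length = 1 := rfl
      generalize (obsL η ex : Comp (Qry X S J K) (Ans J K V) (Pb Mg V)).run ρ = m
      cases m with
      | lk r =>
        have h5 := h { (e.upB (leakC F η ex) (.lk r : Pb Mg V)).setPr η false ex r with pend := none } t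
        have h6 := Nat.add_le_add h3.le h5
        exact h6.trans (by omega)
      | msg x => exact (Nat.add_le_add h3.le (Nat.zero_le b)).trans (by omega)
      | bit x => exact (Nat.add_le_add h3.le (Nat.zero_le b)).trans (by omega)

private theorem B2_obsB (ρ : Qry X S J K → Ans J K V) (η : K) (a : J → Option K) :
    ((obsB η a : Comp (Qry X S J K) (Ans J K V) (Pb Mg V)).asked ρ).length = 1 := rfl

private theorem B2_ob (ρ : Qry X S J K → Ans J K V) (p : Prop) (η : K) (a : J → Option K) :
    ((if p then obsB η a else .ret (.bit false) :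
      Comp (Qry X S J K) (Ans J K V) (Pb Mg V)).asked ρ).length +
    ((if p then .ret (.bit false) else obsB η a :
      Comp (Qry X S J K) (Ans J K V) (Pb Mg V)).asked ρ).length = 1 := by
  split_ifs
  · rfl
  · rfl

private theorem B2_handle_as (outB : RB → CS StB S J K → Bool) (ρ : Qry X S J K → Ans J K V)
    (e : Env X S J K V StA StB RA RB)
    (η : K) (cont : Env X S J K V StA StB RA RB → PT X S J K V Mg StA StB) (t : List Mg) (b : ℕ)
    (h : ∀ e' t', (((cont e').eve SV outB e'.A e'.B e'.kn t').asked ρ).length ≤ b) :
    (((handleStep e η cont).eve SV outB e.A e.B e.kn t).asked ρ).length ≤ b + 1 := by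
  unfold handleStep
  simp only [Proc.eve, Comp.asked_bind, List.length_append, Comp.asked_ret, Comp.run_ret,
    List.length_nil, zero_add]
  have h3 := B2_ob (Mg := Mg) ρ (des e η) η (fun _ => none)
  have key : ∀ a c d : ℕ, a + c = 1 → d ≤ b → a + (c + d) ≤ b + 1 := by
    intro a c d h1 h2
    omega
  refine key _ _ _ h3 ?_
  generalize (if des e η then obsB η fun _ => none else .ret (.bit false) :
      Comp (Qry X S J K) (Ans J K V) (Pb Mg V)).run ρ = m1
  generalize (if des e η then .ret (.bit false) else obsB η fun _ => none :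
      Comp (Qry X S J K) (Ans J K V) (Pb Mg V)).run ρ = m2
  rcases m1 with x | (_ | _) | x
  · exact Nat.zero_le _
  · rcases m2 with y | (_ | _) | y
    · exact Nat.zero_le _
    · exact h (((e.kna (.h η) cv).upA (bitH η) (.bit false)).upB (bitH η) (.bit false)) t
    · by_cases hd : des e η
      · simp only [hd, if_true]
        exact Nat.zero_le _
      · simp only [hd, if_false]
        exact h (((((e.kna (.h η) cv).upA (bitH η) (.bit false)).upB (bitH η) (.bit true)).setPr η
          false (fun _ => none) none).conf η false (.h η)) t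
    · exact Nat.zero_le _
  · rcases m2 with y | (_ | _) | y
    · exact Nat.zero_le _
    · by_cases hd : des e η
      · simp only [hd, if_true]
        exact h (((((e.kna (.h η) cv).upA (bitH η) (.bit true)).upB (bitH η) (.bit false)).setPr η
          true (fun _ => none) none).conf η true (.h η)) t
      · simp only [hd, if_false]
        exact Nat.zero_le _
    · exact Nat.zero_le _
    · exact Nat.zero_le _
  · exact Nat.zero_le _

private theorem B2_label_as (outB : RB → CS StB S J K → Bool) (ρ : Qry X S J K → Ans J K V)
    (e : Env X S J K V StA StB RA RB) (η : K) (j : J) (π : K)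
    (cont : Env X S J K V StA StB RA RB → PT X S J K V Mg StA StB) (t : List Mg) (b : ℕ)
    (h : ∀ e' t', (((cont e').eve SV outB e'.A e'.B e'.kn t').asked ρ).length ≤ b) :
    (((labelStep e η j π cont).eve SV outB e.A e.B e.kn t).asked ρ).length ≤ b + 1 := by
  unfold labelStep
  simp only [Proc.eve, Comp.asked_bind, List.length_append, Comp.asked_ret, Comp.run_ret,
    List.length_nil, zero_add]
  rcases hT : e.T.tr η with _ | z
  · rcases hP : e.T.pr η with _ | ⟨o, ex, r0⟩
    · exact (h (e.kna (.l η j π) cv) t).trans (by omega)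
    · cases o with
      | true =>
        simp only [Proc.eve, Comp.asked_bind, List.length_append]
        have h3 := (B2_obsB (Mg := Mg) ρ η (Function.update ex j (some π))).le
        refine (Nat.add_le_add h3 (?_ : _ ≤ b)).trans (by omega)
        generalize (obsB η (Function.update ex j (some π)) :
          Comp (Qry X S J K) (Ans J K V) (Pb Mg V)).run ρ = m
        rcases m with x | (_ | _) | x
        · exact Nat.zero_le _
        · exact h ((e.kna (.l η j π) cv).upA (bitL η j π) (.bit false)) t
        · exact h ((((e.kna (.l η j π) cv).upA (bitL η j π) (.bit true)).setPr η true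
            (Function.update ex j (some π)) none).conf η true (.l η j π)) t
        · exact Nat.zero_le _
      | false =>
        simp only [Proc.eve, Comp.asked_bind, List.length_append]
        have h3 := (B2_obsB (Mg := Mg) ρ η (Function.update ex j (some π))).le
        refine (Nat.add_le_add h3 (?_ : _ ≤ b)).trans (by omega)
        generalize (obsB η (Function.update ex j (some π)) :
          Comp (Qry X S J K) (Ans J K V) (Pb Mg V)).run ρ = m
        rcases m with x | (_ | _) | x
        · exact Nat.zero_le _
        · exact h ((e.kna (.l η j π) cv).upB (bitL η j π) (.bit false)) t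
        · exact h ((((e.kna (.l η j π) cv).upB (bitL η j π) (.bit true)).setPr η false
            (Function.update ex j (some π)) none).conf η false (.l η j π)) t
        · exact Nat.zero_le _
  · exact (h (e.kna (.l η j π) cv) t).trans (by omega)

private theorem B2_body_as (outB : RB → CS StB S J K → Bool) (ρ : Qry X S J K → Ans J K V)
    (F : S → Finset J → Comp X K V) (N L : ℕ)
    (e : Env X S J K V StA StB RA RB)
    (cont : Env X S J K V StA StB RA RB → PT X S J K V Mg StA StB) (k : PT X S J K V Mg StA StB)
    (t : List Mg) (b : ℕ)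
    (h : ∀ e' t', (((cont e').eve SV outB e'.A e'.B e'.kn t').asked ρ).length ≤ b)
    (hk : ((k.eve SV outB e.A e.B e.kn t).asked ρ).length ≤ b + 1) :
    (((body F N L e cont k).eve SV outB e.A e.B e.kn t).asked ρ).length ≤ b + 1 := by
  unfold body
  by_cases h1 : Lgt N L e
  · rw [if_pos h1]
    exact hk
  rw [if_neg h1]
  by_cases h2 : Gd SV cel e.A e.B e.kn
  · rw [if_neg (not_not.2 h2)]
    by_cases h3 : ∃ d, cel d ∧ Hv SV cel N e.A e.B e.kn d
    · rw [dif_pos h3]
      exact B2_cell_as outB ρ e _ cont t b h
    · rw [dif_neg h3]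
      rcases hp : e.pend with _ | η
      · simp only
        split_ifs with h4 h5
        · exact B2_handle_as outB ρ e _ cont t b h
        · exact B2_label_as outB ρ e _ _ _ cont t b h
        · exact Nat.zero_le _
      · exact B2_leak_as outB ρ F e η cont t b h
  · rw [if_pos h2]
    exact Nat.zero_le _

private theorem B2_close_as (outB : RB → CS StB S J K → Bool) (ρ : Qry X S J K → Ans J K V)
    (F : S → Finset J → Comp X K V) (N L : ℕ)
    (k : ℕ → Env X S J K V StA StB RA RB → PT X S J K V Mg StA StB)
    (hk : ∀ j e t, (((k j e).eve SV outB e.A e.B e.kn t).asked ρ).length ≤ j) :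
    ∀ (j : ℕ) (e : Env X S J K V StA StB RA RB) (t : List Mg),
      (((closeT F N L k j e).eve SV outB e.A e.B e.kn t).asked ρ).length ≤ j := by
  intro j
  induction j with
  | zero =>
    intro e t
    unfold closeT
    split_ifs with h
    · exact hk 0 e t
    · exact Nat.zero_le _
  | succ j ih =>
    intro e t
    unfold closeT
    exact B2_body_as outB ρ F N L e _ _ t j ih (hk (j + 1) e t)

theorem build_nl (F : S → Finset J → Comp X K V) (G : V → Finset J → Comp X K V) (N L : ℕ)
    (m0 : Mg) :
    ∀ (r : ℕ) (μ : Mg) (j : ℕ) (e : Env X S J K V A.St B.St RA RB) w,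
      (build A B F G m0 N L r μ j e).nl SV e.A e.B e.kn w ≤ j * (Fintype.card J + 2) := by
  intro r
  induction r with
  | zero =>
    intro μ j e w
    unfold build
    exact B2_close_nl F N L _ w (fun j e => Nat.zero_le _) j e
  | succ r ih =>
    intro μ j e w
    unfold build
    refine B2_close_nl F N L _ w (fun j e => ?_) j e
    simp only [Proc.nl]
    generalize Proc.rsA SV (stepC F G A m0 e.T μ) e.A w = m
    cases m with
    | msg x =>
      refine B2_close_nl F N L _ w (fun j e => ?_) j (e.upA (stepC F G A m0 e.T μ) (.msg x))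
      simp only [Proc.nl]
      generalize Proc.rsB SV (stepC F G B m0 e.T x) e.B w = m'
      cases m' with
      | msg y => exact ih y j (e.upB (stepC F G B m0 e.T x) (.msg y)) w
      | bit y => exact Nat.zero_le _
      | lk y => exact Nat.zero_le _
    | bit x => exact Nat.zero_le _
    | lk x => exact Nat.zero_le _

/-! ## Row B3: the number of real queries of the eavesdropper -/

theorem build_asked (F : S → Finset J → Comp X K V) (G : V → Finset J → Comp X K V) (N L : ℕ)
    (m0 : Mg) (outB : RB → CS B.St S J K → Bool) (ρ : Qry X S J K → Ans J K V) :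
    ∀ (r : ℕ) (μ : Mg) (j : ℕ) (e : Env X S J K V A.St B.St RA RB) (t : List Mg),
      (((build A B F G m0 N L r μ j e).eve SV outB e.A e.B e.kn t).asked ρ).length ≤ j := by
  intro r
  induction r with
  | zero =>
    intro μ j e t
    unfold build
    exact B2_close_as outB ρ F N L _ (fun j e t => Nat.zero_le _) j e t
  | succ r ih =>
    intro μ j e t
    unfold build
    refine B2_close_as outB ρ F N L _ (fun j e t => ?_) j e t
    rcases t with _ | ⟨x, t⟩
    · exact Nat.zero_le _
    · refine B2_close_as outB ρ F N L _ (fun j e t => ?_) j (e.upA (stepC F G A m0 e.T μ) (.msg x)) t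
      rcases t with _ | ⟨y, t⟩
      · exact Nat.zero_le _
      · exact ih y j (e.upB (stepC F G B m0 e.T x) (.msg y)) t

end Pool.Agent.Nbb
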