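import Pool.Agent.Lib.MP_ae38e0_lc.Nbb.Inv

set_option autoImplicit false

/-!
# The eavesdropper and the compiled parties follow the real execution
-/

namespace Pool.Agent.Nbb

open Pool.Agent.LinOT Classical

/-- What holds in the execution with oracle `O` as long as nothing bad happens: `ownA`, `qA` belong
to the first party, `ownB`, `qB` to the second one, `W` are the known things, `pre` is the list of
all things touched so far (in order of time). -/
structure WI {X S J K V : Type} [Fintype J] (F : S → Finset J → Comp X K V)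
    (O : Th X S J K → Option J → K) (ownA ownB : Own S J K) (qA qB W pre : List (Th X S J K))
    (T : Tb S J K V) (pend : Option K) : Prop where
  all : ∀ d ∈ qA, d ∈ qB → d ∈ W
  valA : ∀ e ∈ ownA, e.2 = O (.s e.1) ∧ .s e.1 ∈ qA
  valB : ∀ e ∈ ownB, e.2 = O (.s e.1) ∧ .s e.1 ∈ qB
  keysA : ∀ s, .s s ∈ qA → ∃ e ∈ ownA, e.1 = s
  keysB : ∀ s, .s s ∈ qB → ∃ e ∈ ownB, e.1 = s
  itA : ∀ s, .s s ∈ qA → ∀ d ∈ items (O (.s s)), d ∈ qA
  itB : ∀ s, .s s ∈ qB → ∀ d ∈ items (O (.s s)), d ∈ qB
  pre_mem : ∀ d, d ∈ pre ↔ d ∈ qA ∨ d ∈ qB ∨ d ∈ W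
  nice : Nice O pre
  tr1 : ∀ s, .s s ∈ W → T.tr (O (.s s) none) = some (s, O (.s s))
  tr2 : ∀ η e, T.tr η = some e → .s e.1 ∈ W ∧ e.2 = O (.s e.1) ∧ e.2 none = η
  itW : ∀ s, .s s ∈ W → ∀ d ∈ items (O (.s s)), d ∈ W
  downW : ∀ η j π, .l η j π ∈ W → .h η ∈ W
  prA : ∀ s, .s s ∈ qA → .s s ∉ W → .h (O (.s s) none) ∈ W → ∃ ex r,
    T.pr (O (.s s) none) = some (true, ex, r) ∧
    ∀ j, .l (O (.s s) none) j (O (.s s) (some j)) ∈ W → ex j = some (O (.s s) (some j))
  prB : ∀ s, .s s ∈ qB → .s s ∉ W → .h (O (.s s) none) ∈ W → ∃ ex r,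
    T.pr (O (.s s) none) = some (false, ex, r) ∧
    ∀ j, .l (O (.s s) none) j (O (.s s) (some j)) ∈ W → ex j = some (O (.s s) (some j))
  pr1 : ∀ η o ex r, T.pr η = some (o, ex, r) → .h η ∈ W ∧ (r = none → pend = some η) ∧
    ∃ s, O (.s s) none = η ∧ .s s ∈ (if o then qA else qB) ∧ mtch ex (O (.s s)) ∧
      (r = none ∨ r = some ((F s (dom ex)).run (fO O)))

section

variable {X S J K V Mg StA StB RA RB : Type} [Finite X] [Finite S] [Fintype J] [Finite K]
  [Nonempty K] [Fintype RA] [Fintype RB]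

/-- The invariant for the execution `w` at the state `e`. -/
def WE (F : S → Finset J → Comp X K V) (e : Env X S J K V StA StB RA RB)
    (w : RA × RB × Orc (SV : Th X S J K → Finset (Option J → K))) (pre : List (Th X S J K)) :
    Prop :=
  WI F w.2.2.1 (e.A.s w.1 w.2.2.1).own (e.B.s w.2.1 w.2.2.1).own (e.A.q w.1 w.2.2.1)
    (e.B.q w.2.1 w.2.2.1) (e.kn.map Prod.fst) pre e.T e.pend ∧
  w ∈ rl SV e.A e.B e.kn

/-- The claim: the observations are right, and at a leaf with code 0 the states of the parties are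
`a` and `b`. -/
def Fa (ρ : Qry X S J K → Ans J K V) (t : List Mg) (a : StA) (b : StB)
    (p : PT X S J K V Mg StA StB) (e : Env X S J K V StA StB RA RB)
    (w : RA × RB × Orc (SV : Th X S J K → Finset (Option J → K))) : Prop :=
  p.faith ρ w.2.2.1 (e.A.s w.1 w.2.2.1) (e.B.s w.2.1 w.2.2.1) t ∧
  (p.lf SV e.A e.B e.kn w = 0 → (p.fin SV e.A e.B e.kn w).1.st = a ∧
    (p.fin SV e.A e.B e.kn w).2.st = b)

/-- Nothing bad happens in the process. -/
def Qt (p : PT X S J K V Mg StA StB) (e : Env X S J K V StA StB RA RB)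
    (w : RA × RB × Orc (SV : Th X S J K → Finset (Option J → K))) (pre : List (Th X S J K)) :
    Prop :=
  p.hits SV cel e.A e.B e.kn w = 0 ∧ p.lf SV e.A e.B e.kn w ≠ 3 ∧
  ¬ Bad gK w.2.2.1 (pre ++ (p.flat (e.A.s w.1 w.2.2.1) (e.B.s w.2.1 w.2.2.1)).asked w.2.2.1)

/-- The states of the parties are the same. -/
def Sm (e e' : Env X S J K V StA StB RA RB)
    (w : RA × RB × Orc (SV : Th X S J K → Finset (Option J → K))) : Prop :=
  e'.A.s w.1 w.2.2.1 = e.A.s w.1 w.2.2.1 ∧ e'.B.s w.2.1 w.2.2.1 = e.B.s w.2.1 w.2.2.1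

variable {F : S → Finset J → Comp X K V} {n m N L : ℕ} {e : Env X S J K V StA StB RA RB}
  {w : RA × RB × Orc (SV : Th X S J K → Finset (Option J → K))} {pre : List (Th X S J K)}
  {t : List Mg} {a : StA} {b : StB}

/-! ## Row F1: cells -/

private theorem F1_cv {O : Orc (SV : Th X S J K → Finset (Option J → K))} {d : Th X S J K}
    (hd : ¬ cel d) : O.1 d = cv := by
  have h := O.2 d
  cases d with
  | x x => exact absurd trivial hd
  | s s => exact absurd trivial hd
  | h η => simpa [SV] using h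
  | l η j π => simpa [SV] using h

private theorem F1_x {O : Orc (SV : Th X S J K → Finset (Option J → K))} (x : X) :
    O.1 (.x x) = fun _ => O.1 (.x x) none := by
  have h := O.2 (.x x)
  simp only [SV, Set.Finite.mem_toFinset, Set.mem_ofPred_eq] at h
  funext j
  cases j with
  | none => rfl
  | some j => exact h j

theorem knowL_fa (l : List (Th X S J K))
    (cont : Env X S J K V StA StB RA RB → PT X S J K V Mg StA StB) :
    ∀ (e : Env X S J K V StA StB RA RB) (pre : List (Th X S J K)), (∀ d ∈ l, ¬ cel d) →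
      (∀ l', l'.map Prod.fst = l → w ∈ rl SV (e.knas l').A (e.knas l').B (e.knas l').kn →
        Qt (cont (e.knas l')) (e.knas l') w (pre ++ l) →
        Fa (wd F w.2.2.1) t a b (cont (e.knas l')) (e.knas l') w) →
      w ∈ rl SV e.A e.B e.kn → Qt (knowL l e cont) e w pre →
      Fa (wd F w.2.2.1) t a b (knowL l e cont) e w := by
  induction l with
  | nil =>
    intro e pre _ hc hw hQ
    have he : e.knas [] = e := by
      cases e; simp [Env.knas]
    have := hc [] rfl
    rw [he, List.append_nil] at this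
    exact this hw hQ
  | cons d l ih =>
    intro e pre hd hc hw hQ
    have hdv : w.2.2.1 d = cv := F1_cv (hd d (by simp))
    have hw' : w ∈ rl SV (e.kna d (w.2.2.1 d)).A (e.kna d (w.2.2.1 d)).B
        (e.kna d (w.2.2.1 d)).kn := by
      rw [mem_rl] at hw ⊢
      refine ⟨hw.1, hw.2.1, ?_⟩
      intro y hy
      simp only [Env.kna, List.mem_append, List.mem_singleton] at hy
      rcases hy with hy | hy
      · exact hw.2.2 y hy
      · rw [hy]
    have hQ' : Qt (knowL l (e.kna d (w.2.2.1 d)) cont) (e.kna d (w.2.2.1 d)) w (pre ++ [d]) := by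
      obtain ⟨h1, h2, h3⟩ := hQ
      refine ⟨h1, h2, ?_⟩
      rw [List.append_assoc]
      exact h3
    have := ih (e.kna d (w.2.2.1 d)) (pre ++ [d]) (fun d' hd' => hd d' (by simp [hd']))
      (fun l' hl' hwl hQl => by
        have he : (e.kna d (w.2.2.1 d)).knas l' = e.knas ((d, w.2.2.1 d) :: l') := by
          simp [Env.kna, Env.knas]
        rw [he] at hwl hQl ⊢
        refine hc _ (by simp [hl']) hwl ?_
        rw [List.append_assoc] at hQl
        exact hQl) hw' hQ'
    exact ⟨⟨hdv.symm, this.1⟩, this.2⟩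

/-- If `.s s` was known before, or touched before, its items are in `pre`; the new known things are
`.s s` and its items.  For `tr1`, `prA`, `prB`: another key with the same handle contradicts
`uniq` for the list `pre ++ .s s :: items v`. -/
theorem wi_s (s : S) (v : Option J → K) (h : WE F e w pre) (hs : .s s ∉ e.kn.map Prod.fst)
    (hv : w.2.2.1 (.s s) = v) (l : List (Th X S J K × (Option J → K)))
    (hl : l.map Prod.fst = items v)
    (hw : w ∈ rl SV (((e.kna (.s s) v).setTr s v).knas l).A (((e.kna (.s s) v).setTr s v).knas l).B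
      (((e.kna (.s s) v).setTr s v).knas l).kn)
    (hb : ¬ Bad gK w.2.2.1 (pre ++ .s s :: items v)) :
    WE F (((e.kna (.s s) v).setTr s v).knas l) w (pre ++ .s s :: items v) := by
  obtain ⟨h, -⟩ := h
  have hn1 : Nice w.2.2.1 (.s s :: items v) := by
    intro l1 s' l2 hl
    cases l1 with
    | nil =>
      simp only [List.nil_append, List.cons.injEq, Th.s.injEq] at hl
      obtain ⟨rfl, rfl⟩ := hl
      rw [hv]
      exact ⟨_, rfl⟩
    | cons d l1 =>
      simp only [List.cons_append, List.cons.injEq] at hl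
      exact nice_items w.2.2.1 v l1 s' l2 hl.2
  have hn : Nice w.2.2.1 (pre ++ .s s :: items v) := nice_append h.nice hn1
  -- the known things
  have hW : ∀ d, d ∈ (((e.kna (.s s) v).setTr s v).knas l).kn.map Prod.fst ↔
      d ∈ e.kn.map Prod.fst ∨ d = .s s ∨ d ∈ (items v : List (Th X S J K)) := by
    intro d
    rw [← hl]
    simp only [Env.knas, Env.setTr, Env.kna, List.map_append, List.mem_append, List.map_cons,
      List.map_nil, List.mem_singleton]
    tauto
  -- another key with the same handle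
  have hu : ∀ s', .s s' ∈ pre → w.2.2.1 (.s s') none = v none → s' = s := by
    intro s' hs' he
    refine uniq hb hn (List.mem_append_left _ hs') (by simp) ?_
    rw [he, hv]
  have hpW : ∀ d, d ∈ e.kn.map Prod.fst → d ∈ pre := fun d hd => (h.pre_mem d).mpr (.inr (.inr hd))
  have hsi : ∀ s', .s s' ∉ (items v : List (Th X S J K)) := by
    intro s' hs'
    rw [mem_items] at hs'
    rcases hs' with hs' | ⟨j, hs'⟩ <;> cases hs'
  have hpr : ∀ s' j, .s s' ∈ pre → s' ≠ s →
      .l (w.2.2.1 (.s s') none) j (w.2.2.1 (.s s') (some j)) ∈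
        (((e.kna (.s s) v).setTr s v).knas l).kn.map Prod.fst →
      .l (w.2.2.1 (.s s') none) j (w.2.2.1 (.s s') (some j)) ∈ e.kn.map Prod.fst := by
    intro s' j hs' hne hd
    rcases (hW _).mp hd with hd | hd | hd
    · exact hd
    · cases hd
    · exfalso
      rw [mem_items] at hd
      rcases hd with hd | ⟨j', hd⟩
      · cases hd
      · simp only [Th.l.injEq] at hd
        exact hne (hu s' hs' hd.1)
  have hph : ∀ s', .s s' ∈ pre → s' ≠ s →
      .h (w.2.2.1 (.s s') none) ∈ (((e.kna (.s s) v).setTr s v).knas l).kn.map Prod.fst →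
      .h (w.2.2.1 (.s s') none) ∈ e.kn.map Prod.fst := by
    intro s' hs' hne hd
    rcases (hW _).mp hd with hd | hd | hd
    · exact hd
    · cases hd
    · exfalso
      rw [mem_items] at hd
      rcases hd with hd | ⟨j', hd⟩
      · simp only [Th.h.injEq] at hd
        exact hne (hu s' hs' hd)
      · cases hd
  refine ⟨?_, hw⟩
  constructor
  · intro d hdA hdB
    exact (hW d).mpr (.inl (h.all d hdA hdB))
  · exact h.valA
  · exact h.valB
  · exact h.keysA
  · exact h.keysB
  · exact h.itA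
  · exact h.itB
  · intro d
    rw [hW, List.mem_append, List.mem_cons, h.pre_mem]
    simp only [Env.knas, Env.setTr, Env.kna]
    tauto
  · exact hn
  · intro s' hs'
    by_cases hss : s' = s
    · subst hss
      simp only [Env.knas, Env.setTr, Env.kna, hv, Function.update_self]
    · have hs'' : .s s' ∈ e.kn.map Prod.fst := by
        rcases (hW _).mp hs' with hd | hd | hd
        · exact hd
        · exact absurd (by simpa using hd) hss
        · exact absurd hd (hsi s')
      have hne : w.2.2.1 (.s s') none ≠ v none := fun he => hss (hu s' (hpW _ hs'') he)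
      simp only [Env.knas, Env.setTr, Env.kna]
      rw [Function.update_of_ne hne]
      exact h.tr1 s' hs''
  · intro η u hu'
    simp only [Env.knas, Env.setTr, Env.kna] at hu'
    by_cases hη : η = v none
    · subst hη
      rw [Function.update_self] at hu'
      simp only [Option.some.injEq] at hu'
      subst hu'
      exact ⟨(hW _).mpr (.inr (.inl rfl)), hv.symm, rfl⟩
    · rw [Function.update_of_ne hη] at hu'
      obtain ⟨h1, h2⟩ := h.tr2 η u hu'
      exact ⟨(hW _).mpr (.inl h1), h2⟩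
  · intro s' hs' d hd
    rcases (hW _).mp hs' with hs'' | hs'' | hs''
    · exact (hW _).mpr (.inl (h.itW s' hs'' d hd))
    · simp only [Th.s.injEq] at hs''
      subst hs''
      rw [hv] at hd
      exact (hW _).mpr (.inr (.inr hd))
    · exact absurd hs'' (hsi s')
  · intro η j π hd
    rcases (hW _).mp hd with hd | hd | hd
    · exact (hW _).mpr (.inl (h.downW η j π hd))
    · cases hd
    · rw [mem_items] at hd
      rcases hd with hd | ⟨j', hd⟩
      · cases hd
      · simp only [Th.l.injEq] at hd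
        refine (hW _).mpr (.inr (.inr ?_))
        rw [mem_items, hd.1]
        exact .inl rfl
  · intro s' hsA hsW hsh
    have hne : s' ≠ s := fun he => hsW ((hW _).mpr (.inr (.inl (by rw [he]))))
    have hsp : .s s' ∈ pre := (h.pre_mem _).mpr (.inl hsA)
    obtain ⟨ex, r, h1, h2⟩ := h.prA s' hsA (fun h' => hsW ((hW _).mpr (.inl h')))
      (hph s' hsp hne hsh)
    exact ⟨ex, r, h1, fun j hj => h2 j (hpr s' j hsp hne hj)⟩
  · intro s' hsA hsW hsh
    have hne : s' ≠ s := fun he => hsW ((hW _).mpr (.inr (.inl (by rw [he]))))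
    have hsp : .s s' ∈ pre := (h.pre_mem _).mpr (.inr (.inl hsA))
    obtain ⟨ex, r, h1, h2⟩ := h.prB s' hsA (fun h' => hsW ((hW _).mpr (.inl h')))
      (hph s' hsp hne hsh)
    exact ⟨ex, r, h1, fun j hj => h2 j (hpr s' j hsp hne hj)⟩
  · intro η o ex r hT
    obtain ⟨h1, h2⟩ := h.pr1 η o ex r hT
    exact ⟨(hW _).mpr (.inl h1), h2⟩

theorem wi_x (x : X) (v : Option J → K) (h : WE F e w pre) (hv : w.2.2.1 (.x x) = v) :
    WE F (e.kna (.x x) v) w (pre ++ [.x x]) := by
  obtain ⟨h, hw⟩ := h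
  have hW : ∀ d, d ∈ (e.kna (.x x) v).kn.map Prod.fst ↔ d ∈ e.kn.map Prod.fst ∨ d = .x x := by
    intro d
    simp only [Env.kna, List.map_append, List.mem_append, List.map_cons,
      List.map_nil, List.mem_singleton]
  have hW1 : ∀ s, .s s ∈ (e.kna (.x x) v).kn.map Prod.fst → .s s ∈ e.kn.map Prod.fst := by
    intro s hs
    rcases (hW _).mp hs with hs | hs
    · exact hs
    · cases hs
  have hW2 : ∀ η, .h η ∈ (e.kna (.x x) v).kn.map Prod.fst → .h η ∈ e.kn.map Prod.fst := by
    intro s hs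
    rcases (hW _).mp hs with hs | hs
    · exact hs
    · cases hs
  have hW3 : ∀ η j π, .l η j π ∈ (e.kna (.x x) v).kn.map Prod.fst →
      .l η j π ∈ e.kn.map Prod.fst := by
    intro η j π hs
    rcases (hW _).mp hs with hs | hs
    · exact hs
    · cases hs
  refine ⟨?_, ?_⟩
  · constructor
    · intro d hdA hdB
      exact (hW d).mpr (.inl (h.all d hdA hdB))
    · exact h.valA
    · exact h.valB
    · exact h.keysA
    · exact h.keysB
    · exact h.itA
    · exact h.itB
    · intro d
      rw [hW, List.mem_append, List.mem_singleton, h.pre_mem]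
      simp only [Env.kna]
      tauto
    · refine nice_append h.nice ?_
      intro l1 s l2 hl
      cases l1 with
      | nil => simp at hl
      | cons d l1 => simp at hl
    · exact fun s hs => h.tr1 s (hW1 s hs)
    · intro η u hu
      obtain ⟨h1, h2⟩ := h.tr2 η u hu
      exact ⟨(hW _).mpr (.inl h1), h2⟩
    · exact fun s hs d hd => (hW _).mpr (.inl (h.itW s (hW1 s hs) d hd))
    · exact fun η j π hd => (hW _).mpr (.inl (h.downW η j π (hW3 η j π hd)))
    · intro s hsA hsW hsh
      obtain ⟨ex, r, h1, h2⟩ := h.prA s hsA (fun h' => hsW ((hW _).mpr (.inl h'))) (hW2 _ hsh)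
      exact ⟨ex, r, h1, fun j hj => h2 j (hW3 _ _ _ hj)⟩
    · intro s hsA hsW hsh
      obtain ⟨ex, r, h1, h2⟩ := h.prB s hsA (fun h' => hsW ((hW _).mpr (.inl h'))) (hW2 _ hsh)
      exact ⟨ex, r, h1, fun j hj => h2 j (hW3 _ _ _ hj)⟩
    · intro η o ex r hT
      obtain ⟨h1, h2⟩ := h.pr1 η o ex r hT
      exact ⟨(hW _).mpr (.inl h1), h2⟩
  · rw [mem_rl] at hw ⊢
    refine ⟨hw.1, hw.2.1, ?_⟩
    intro y hy
    simp only [Env.kna, List.mem_append, List.mem_singleton] at hy
    rcases hy with hy | hy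
    · exact hw.2.2 y hy
    · rw [hy]
      exact hv

theorem cellStep_fa (q : Th X S J K) (hq : cel q) (hq' : q ∉ e.kn.map Prod.fst)
    (cont : Env X S J K V StA StB RA RB → PT X S J K V Mg StA StB) (hg : GI n m e)
    (h : WE F e w pre)
    (hc : ∀ (e' : Env X S J K V StA StB RA RB) pre', GI n m e' → WE F e' w pre' → Sm e e' w →
      Qt (cont e') e' w pre' → Fa (wd F w.2.2.1) t a b (cont e') e' w)
    (hQ : Qt (cellStep e q cont) e w pre) :
    Fa (wd F w.2.2.1) t a b (cellStep e q cont) e w := by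
  cases q with
  | h η => exact absurd hq (by simp [cel])
  | l η j π => exact absurd hq (by simp [cel])
  | x x =>
    have hQ' : Qt (cont (e.kna (.x x) (w.2.2.1 (.x x)))) (e.kna (.x x) (w.2.2.1 (.x x))) w
        (pre ++ [.x x]) := by
      obtain ⟨h1, h2, h3⟩ := hQ
      refine ⟨h1, h2, ?_⟩
      rw [List.append_assoc]
      exact h3
    have := hc _ _ (gi_x hg x (w.2.2.1 (.x x))) (wi_x x _ h rfl) ⟨rfl, rfl⟩ hQ'
    refine ⟨⟨?_, this.1⟩, this.2⟩
    rw [F1_x x]
    rfl
  | s s =>
    obtain ⟨v, hv⟩ : ∃ v, v = w.2.2.1 (.s s) := ⟨_, rfl⟩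
    have hQ' : Qt (knowL (items v) ((e.kna (.s s) v).setTr s v) cont)
        ((e.kna (.s s) v).setTr s v) w (pre ++ [.s s]) := by
      obtain ⟨h1, h2, h3⟩ := hQ
      rw [hv]
      refine ⟨h1, h2, ?_⟩
      rw [List.append_assoc]
      exact h3
    have hw' : w ∈ rl SV ((e.kna (.s s) v).setTr s v).A ((e.kna (.s s) v).setTr s v).B
        ((e.kna (.s s) v).setTr s v).kn := by
      have hw := h.2
      rw [mem_rl] at hw ⊢
      refine ⟨hw.1, hw.2.1, ?_⟩
      intro y hy
      simp only [Env.setTr, Env.kna, List.mem_append, List.mem_singleton] at hy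
      rcases hy with hy | hy
      · exact hw.2.2 y hy
      · rw [hy]
        exact hv.symm
    have := knowL_fa (F := F) (t := t) (a := a) (b := b) (items v) cont
      ((e.kna (.s s) v).setTr s v) (pre ++ [.s s])
      (fun d hd => by
        rw [mem_items] at hd
        rcases hd with hd | ⟨j, hd⟩ <;> rw [hd] <;> simp [cel])
      (fun l' hl' hwl hQl => by
        rw [List.append_assoc] at hQl
        refine hc _ _ (gi_s hg s v l' hl') (wi_s s v h hq' hv.symm l' hl' hwl ?_) ⟨rfl, rfl⟩ hQl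
        intro hbad
        exact hQl.2.2 (bad_append hbad)) hw' hQ'
    rw [hv] at this
    exact ⟨⟨rfl, this.1⟩, this.2⟩

/-! ## Row F2: handles.  The evaluation `ev η ∅` succeeds iff some key has the handle `η`; by
`fresh_h` (`.h η` is learned) such a key is in `pre`, it is not known (`itW`), so it is a key of one
of the parties: it succeeds iff one of the bits is true. -/

/-- The party owns the handle iff one of its keys has it. -/
private theorem F2_own {St : Type} {η : K} {c : CS St S J K} :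
    ownH η c = true ↔ ∃ u ∈ c.own, u.2 none = η := by
  unfold ownH
  cases hl : lkup c.own η with
  | none =>
    simp only [Option.isSome_none, Bool.false_eq_true, false_iff, not_exists, not_and]
    exact fun u hu => lkup_none hl u hu
  | some u =>
    simp only [Option.isSome_some, true_iff]
    exact ⟨u, (lkup_some hl).1, (lkup_some hl).2⟩

/-- The state of the public after the two answers. -/
private noncomputable def F2_env (e : Env X S J K V StA StB RA RB) (η : K) (v : Option J → K)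
    (m1 m2 : Pb Mg V) : Env X S J K V StA StB RA RB :=
  ((e.kna (.h η) v).upA (bitH η) m1).upB (bitH η) m2

private theorem F2_W (η : K) (v : Option J → K) (m1 m2 : Pb Mg V) (d : Th X S J K) :
    d ∈ (F2_env e η v m1 m2).kn.map Prod.fst ↔ d ∈ e.kn.map Prod.fst ∨ d = .h η := by
  simp only [F2_env, Env.upA, Env.upB, Env.kna, List.map_append, List.mem_append, List.map_cons,
    List.map_nil, List.mem_singleton]

private theorem F2_rl (η : K) (v : Option J → K) (m1 m2 : Pb Mg V)
    (hw : w ∈ rl SV e.A e.B e.kn) (hv : w.2.2.1 (.h η) = v)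
    (h1 : (.bit (ownH η (e.A.s w.1 w.2.2.1)) : Pb Mg V) = m1)
    (h2 : (.bit (ownH η (e.B.s w.2.1 w.2.2.1)) : Pb Mg V) = m2) :
    w ∈ rl SV (F2_env e η v m1 m2).A (F2_env e η v m1 m2).B (F2_env e η v m1 m2).kn := by
  rw [mem_rl] at hw ⊢
  refine ⟨⟨hw.1, h1⟩, ⟨hw.2.1, h2⟩, ?_⟩
  intro y hy
  simp only [F2_env, Env.upA, Env.upB, Env.kna, List.mem_append, List.mem_singleton] at hy
  rcases hy with hy | hy
  · exact hw.2.2 y hy
  · rw [hy]
    exact hv

/-- The invariant after the two answers, for a table `T` which contains what is needed. -/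
private theorem F2_wi (η : K) (hη : .h η ∉ e.kn.map Prod.fst) (v : Option J → K) (m1 m2 : Pb Mg V)
    (T : Tb S J K V) (pend : Option K) (h : WE F e w pre) (hT : T.tr = e.T.tr)
    (hTn : ∀ η', η' ≠ η → T.pr η' = e.T.pr η')
    (hA : ownH η (e.A.s w.1 w.2.2.1) = true → ∃ r, T.pr η = some (true, fun _ => none, r))
    (hB : ownH η (e.B.s w.2.1 w.2.2.1) = true → ∃ r, T.pr η = some (false, fun _ => none, r))
    (hp : ∀ η' o ex, T.pr η' = some (o, ex, none) → pend = some η')
    (hpr : ∀ o ex r, T.pr η = some (o, ex, r) → ex = (fun _ => none) ∧ r = none ∧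
      (if o then ownH η (e.A.s w.1 w.2.2.1) = true else ownH η (e.B.s w.2.1 w.2.2.1) = true)) :
    WI F w.2.2.1 ((F2_env e η v m1 m2).A.s w.1 w.2.2.1).own
      ((F2_env e η v m1 m2).B.s w.2.1 w.2.2.1).own ((F2_env e η v m1 m2).A.q w.1 w.2.2.1)
      ((F2_env e η v m1 m2).B.q w.2.1 w.2.2.1) ((F2_env e η v m1 m2).kn.map Prod.fst)
      (pre ++ [.h η]) T pend := by
  obtain ⟨h, -⟩ := h
  have hqA : (F2_env e η v m1 m2).A.q w.1 w.2.2.1 = e.A.q w.1 w.2.2.1 :=
    List.append_nil _
  have hqB : (F2_env e η v m1 m2).B.q w.2.1 w.2.2.1 = e.B.q w.2.1 w.2.2.1 :=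
    List.append_nil _
  have hW := F2_W (e := e) η v m1 m2
  have hW1 : ∀ s, .s s ∈ (F2_env e η v m1 m2).kn.map Prod.fst → .s s ∈ e.kn.map Prod.fst := by
    intro s hs
    rcases (hW _).mp hs with hs | hs
    · exact hs
    · cases hs
  have hW3 : ∀ η' j π, .l η' j π ∈ (F2_env e η v m1 m2).kn.map Prod.fst →
      .l η' j π ∈ e.kn.map Prod.fst := by
    intro η j π hs
    rcases (hW _).mp hs with hs | hs
    · exact hs
    · cases hs
  rw [hqA, hqB]
  constructor
  · intro d hdA hdB
    exact (hW d).mpr (.inl (h.all d hdA hdB))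
  · exact h.valA
  · exact h.valB
  · exact h.keysA
  · exact h.keysB
  · exact h.itA
  · exact h.itB
  · intro d
    rw [hW, List.mem_append, List.mem_singleton, h.pre_mem]
    tauto
  · refine nice_append h.nice ?_
    intro l1 s l2 hl
    cases l1 with
    | nil => simp at hl
    | cons d l1 => simp at hl
  · intro s hs
    rw [hT]
    exact h.tr1 s (hW1 s hs)
  · intro η u hu
    rw [hT] at hu
    obtain ⟨h1, h2⟩ := h.tr2 η u hu
    exact ⟨(hW _).mpr (.inl h1), h2⟩
  · exact fun s hs d hd => (hW _).mpr (.inl (h.itW s (hW1 s hs) d hd))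
  · exact fun η j π hd => (hW _).mpr (.inl (h.downW η j π (hW3 η j π hd)))
  · intro s hsA hsW hsh
    by_cases hs : w.2.2.1 (.s s) none = η
    · obtain ⟨u, hu, hus⟩ := h.keysA s hsA
      obtain ⟨r, hr⟩ := hA (F2_own.mpr ⟨u, hu, by rw [(h.valA u hu).1, hus, hs]⟩)
      refine ⟨fun _ => none, r, by rw [hs]; exact hr, ?_⟩
      intro j hj
      exact absurd (h.downW _ _ _ (hW3 _ _ _ hj)) (by rw [hs]; exact hη)
    · have hsh' : .h (w.2.2.1 (.s s) none) ∈ e.kn.map Prod.fst := by
        rcases (hW _).mp hsh with hd | hd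
        · exact hd
        · exact absurd (by simpa using hd) hs
      obtain ⟨ex, r, h1, h2⟩ := h.prA s hsA (fun h' => hsW ((hW _).mpr (.inl h'))) hsh'
      refine ⟨ex, r, by rw [hTn _ hs]; exact h1, fun j hj => h2 j (hW3 _ _ _ hj)⟩
  · intro s hsA hsW hsh
    by_cases hs : w.2.2.1 (.s s) none = η
    · obtain ⟨u, hu, hus⟩ := h.keysB s hsA
      obtain ⟨r, hr⟩ := hB (F2_own.mpr ⟨u, hu, by rw [(h.valB u hu).1, hus, hs]⟩)
      refine ⟨fun _ => none, r, by rw [hs]; exact hr, ?_⟩
      intro j hj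
      exact absurd (h.downW _ _ _ (hW3 _ _ _ hj)) (by rw [hs]; exact hη)
    · have hsh' : .h (w.2.2.1 (.s s) none) ∈ e.kn.map Prod.fst := by
        rcases (hW _).mp hsh with hd | hd
        · exact hd
        · exact absurd (by simpa using hd) hs
      obtain ⟨ex, r, h1, h2⟩ := h.prB s hsA (fun h' => hsW ((hW _).mpr (.inl h'))) hsh'
      refine ⟨ex, r, by rw [hTn _ hs]; exact h1, fun j hj => h2 j (hW3 _ _ _ hj)⟩
  · intro η' o ex r hT'
    by_cases hη' : η' = η
    · subst hη'
      obtain ⟨rfl, rfl, hown⟩ := hpr o ex r hT'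
      refine ⟨(hW _).mpr (.inr rfl), fun _ => hp _ _ _ hT', ?_⟩
      cases o with
      | true =>
        obtain ⟨u, hu, huη⟩ := F2_own.mp (by simpa using hown)
        refine ⟨u.1, by rw [← (h.valA u hu).1]; exact huη, ?_, (fun j π hj => by cases hj), .inl rfl⟩
        exact (h.valA u hu).2
      | false =>
        obtain ⟨u, hu, huη⟩ := F2_own.mp (by simpa using hown)
        refine ⟨u.1, by rw [← (h.valB u hu).1]; exact huη, ?_, (fun j π hj => by cases hj), .inl rfl⟩
        exact (h.valB u hu).2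
    · have hT'' := hT'
      rw [hTn _ hη'] at hT''
      obtain ⟨h1, h2, h3⟩ := h.pr1 η' o ex r hT''
      refine ⟨(hW _).mpr (.inl h1), ?_, h3⟩
      intro hr
      rw [hr] at hT'
      exact hp _ _ _ hT'

/-- The evaluation with no labels: it succeeds iff one of the parties has a key with the handle. -/
private theorem F2_obs (η : K) (hη : .h η ∉ e.kn.map Prod.fst) (h : WE F e w pre)
    (hb : ¬ Bad gK w.2.2.1 (pre ++ [.h η])) :
    (obsB η (fun _ => none) : Comp (Qry X S J K) (Ans J K V) (Pb Mg V)).run (wd F w.2.2.1) =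
      .bit (ownH η (e.A.s w.1 w.2.2.1) || ownH η (e.B.s w.2.1 w.2.2.1)) := by
  obtain ⟨h, -⟩ := h
  have hn : Nice w.2.2.1 (pre ++ [.h η]) := by
    refine nice_append h.nice ?_
    intro l1 s l2 hl
    cases l1 with
    | nil => simp at hl
    | cons d l1 => simp at hl
  have hin : ∀ s, w.2.2.1 (.s s) none = η → .s s ∈ pre := by
    intro s hs
    have := fresh_h hb (s := s) (η := η) (by simp) hs
    simpa using this
  have hown : ∀ s, w.2.2.1 (.s s) none = η →
      ownH η (e.A.s w.1 w.2.2.1) = true ∨ ownH η (e.B.s w.2.1 w.2.2.1) = true := by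
    intro s hs
    rcases (h.pre_mem _).mp (hin s hs) with hq | hq | hq
    · obtain ⟨u, hu, hus⟩ := h.keysA s hq
      exact .inl (F2_own.mpr ⟨u, hu, by rw [(h.valA u hu).1, hus, hs]⟩)
    · obtain ⟨u, hu, hus⟩ := h.keysB s hq
      exact .inr (F2_own.mpr ⟨u, hu, by rw [(h.valB u hu).1, hus, hs]⟩)
    · refine absurd (h.itW s hq (.h η) ?_) hη
      rw [mem_items]
      exact .inl (by rw [hs])
  by_cases hex : ∃ s, w.2.2.1 (.s s) none = η
  · obtain ⟨s, hs⟩ := hex
    have hev := orc_ev_some F w.2.2.1 η (fun _ => none) s hs (fun j π hj => by cases hj) (by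
      intro s' hs'
      refine uniq hb hn (List.mem_append_left _ (hin s' hs')) (List.mem_append_left _ (hin s hs)) ?_
      rw [hs, hs'])
    have hor : (ownH η (e.A.s w.1 w.2.2.1) || ownH η (e.B.s w.2.1 w.2.2.1)) = true := by
      rcases hown s hs with h' | h' <;> simp [h']
    rw [hor]
    simp only [obsB, Comp.run_ask, Comp.run_ret, hev]
  · have hev := orc_ev_none F w.2.2.1 η (fun _ => none) (fun s hs => absurd ⟨s, hs⟩ hex)
    have hor : (ownH η (e.A.s w.1 w.2.2.1) || ownH η (e.B.s w.2.1 w.2.2.1)) = false := by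
      rw [Bool.or_eq_false_iff]
      constructor
      · by_contra hne
        rw [Bool.not_eq_false] at hne
        obtain ⟨u, hu, huη⟩ := F2_own.mp hne
        exact hex ⟨u.1, by rw [← (h.valA u hu).1]; exact huη⟩
      · by_contra hne
        rw [Bool.not_eq_false] at hne
        obtain ⟨u, hu, huη⟩ := F2_own.mp hne
        exact hex ⟨u.1, by rw [← (h.valB u hu).1]; exact huη⟩
    rw [hor]
    simp only [obsB, Comp.run_ask, Comp.run_ret, hev]

/-- What follows the two answers. -/
private noncomputable def F2_nx (e : Env X S J K V StA StB RA RB) (η : K)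
    (cont : Env X S J K V StA StB RA RB → PT X S J K V Mg StA StB) (v : Option J → K)
    (m1 m2 : Pb Mg V) : PT X S J K V Mg StA StB :=
  match m1, m2 with
  | .bit false, .bit false => cont (F2_env e η v m1 m2)
  | .bit true, .bit false =>
    if des e η then
      cont (((F2_env e η v m1 m2).setPr η true (fun _ => none) none).conf η true (.h η))
    else .stop 3
  | .bit false, .bit true =>
    if des e η then .stop 3
    else cont (((F2_env e η v m1 m2).setPr η false (fun _ => none) none).conf η false (.h η))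
  | .bit true, .bit true => .stop 3
  | _, _ => .stop 4

private theorem F2_step (η : K)
    (cont : Env X S J K V StA StB RA RB → PT X S J K V Mg StA StB) :
    handleStep e η cont = .learn (.h η) (.ret cv) fun v =>
      .mA (.inr (if des e η then obsB η fun _ => none else .ret (.bit false))) (bitH η) fun m1 =>
        .mB (.inr (if des e η then .ret (.bit false) else obsB η fun _ => none)) (bitH η) fun m2 =>
          F2_nx e η cont v m1 m2 := rfl

private theorem F2_qt (η : K)
    (cont : Env X S J K V StA StB RA RB → PT X S J K V Mg StA StB)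
    (hQ : Qt (handleStep e η cont) e w pre) :
    Qt (F2_nx e η cont (w.2.2.1 (.h η)) (.bit (ownH η (e.A.s w.1 w.2.2.1)))
        (.bit (ownH η (e.B.s w.2.1 w.2.2.1))))
      (F2_env e η (w.2.2.1 (.h η)) (.bit (ownH η (e.A.s w.1 w.2.2.1)) : Pb Mg V)
        (.bit (ownH η (e.B.s w.2.1 w.2.2.1)))) w (pre ++ [.h η]) := by
  rw [F2_step] at hQ
  obtain ⟨h1, h2, h3⟩ := hQ
  refine ⟨?_, h2, ?_⟩
  · simp only [Proc.hits] at h1
    exact (Nat.add_eq_zero_iff.mp (Nat.add_eq_zero_iff.mp h1).2).2
  · rw [List.append_assoc]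
    exact h3

theorem handleStep_fa (η : K) (hη : .h η ∉ e.kn.map Prod.fst) (hp : e.pend = none)
    (cont : Env X S J K V StA StB RA RB → PT X S J K V Mg StA StB) (hg : GI n m e)
    (h : WE F e w pre)
    (hc : ∀ (e' : Env X S J K V StA StB RA RB) pre', GI n m e' → WE F e' w pre' → Sm e e' w →
      Qt (cont e') e' w pre' → Fa (wd F w.2.2.1) t a b (cont e') e' w)
    (hQ : Qt (handleStep e η cont) e w pre) :
    Fa (wd F w.2.2.1) t a b (handleStep e η cont) e w := by
  have hQ' := F2_qt η cont hQ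
  have hv : (cv : Option J → K) = w.2.2.1 (.h η) := by
    have h' := w.2.2.2 (.h η)
    have h'' : w.2.2.1 (.h η) = cv := by simpa [SV] using h'
    exact h''.symm
  have hb : ¬ Bad gK w.2.2.1 (pre ++ [.h η]) := fun hb => hQ'.2.2 (bad_append hb)
  have hobs := F2_obs (Mg := Mg) η hη h hb
  have hrl := F2_rl (Mg := Mg) (e := e) (w := w) η (w.2.2.1 (.h η)) _ _ h.2 rfl rfl rfl
  have hpA : .h η ∉ e.pA := fun h' => hη (hg.wA _ h')
  have hpB : .h η ∉ e.pB := fun h' => hη (hg.wB _ h')
  have hold : ∀ o ex r, e.T.pr η ≠ some (o, ex, r) := fun o ex r hT => hη (h.1.pr1 η o ex r hT).1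
  suffices H : (if des e η then obsB η (fun _ => none) else
        .ret (.bit false) : Comp (Qry X S J K) (Ans J K V) (Pb Mg V)).run (wd F w.2.2.1) =
          .bit (ownH η (e.A.s w.1 w.2.2.1)) ∧
      (if des e η then .ret (.bit false) else
        obsB η (fun _ => none) : Comp (Qry X S J K) (Ans J K V) (Pb Mg V)).run (wd F w.2.2.1) =
          .bit (ownH η (e.B.s w.2.1 w.2.2.1)) ∧
      Fa (wd F w.2.2.1) t a b (F2_nx e η cont (w.2.2.1 (.h η)) (.bit (ownH η (e.A.s w.1 w.2.2.1)))
        (.bit (ownH η (e.B.s w.2.1 w.2.2.1))))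
        (F2_env e η (w.2.2.1 (.h η)) (.bit (ownH η (e.A.s w.1 w.2.2.1)) : Pb Mg V)
        (.bit (ownH η (e.B.s w.2.1 w.2.2.1)))) w by
    rw [F2_step]
    exact ⟨⟨hv, H.1, H.2.1, H.2.2.1⟩, H.2.2.2⟩
  have hgi : ∀ (m1 m2 : Pb Mg V), GI n m (F2_env e η (w.2.2.1 (.h η)) m1 m2) := fun m1 m2 =>
    gi_bitB (gi_bitA (gi_item hg (.h η) (by simp [cel]) _) η m1) η m2
  have hwi := fun (m1 m2 : Pb Mg V) => F2_wi (e := e) (w := w) (pre := pre) (F := F) η hη
    (w.2.2.1 (.h η)) m1 m2
  generalize hm : w.2.2.1 (.h η) = v at *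
  cases hA : ownH η (e.A.s w.1 w.2.2.1) with
  | false =>
    cases hB : ownH η (e.B.s w.2.1 w.2.2.1) with
    | false =>
      rw [hA, hB] at hobs hQ' hrl
      refine ⟨?_, ?_, ?_⟩
      · split_ifs
        · exact hobs
        · rfl
      · split_ifs
        · rfl
        · exact hobs
      · refine hc _ _ (hgi _ _) ⟨?_, hrl⟩ ⟨rfl, rfl⟩ hQ'
        refine hwi _ _ e.T e.pend h rfl (fun _ _ => rfl) ?_ ?_ ?_ ?_
        · intro h'
          rw [hA] at h'
          cases h'
        · intro h'
          rw [hB] at h'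
          cases h'
        · intro η' o ex hT
          exact (h.1.pr1 η' o ex none hT).2.1 rfl
        · intro o ex r hT
          exact absurd hT (hold o ex r)
    | true =>
      rw [hA, hB] at hobs hQ' hrl
      by_cases hd : des e η
      · simp only [F2_nx, if_pos hd] at hQ'
        exact absurd rfl hQ'.2.1
      · simp only [F2_nx, if_neg hd] at hQ' ⊢
        refine ⟨rfl, hobs, ?_⟩
        refine hc (((F2_env e η v (.bit false : Pb Mg V) (.bit true)).setPr η
          false (fun _ => none) none).conf η false (.h η)) (pre ++ [Th.h η]) ?_ ⟨?_, hrl⟩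
          ⟨rfl, rfl⟩ ⟨hQ'.1, hQ'.2.1, hQ'.2.2⟩
        · refine gi_confB (hgi _ _) η (.h η) (fun _ => none) ?_ hpB hp ?_
          · exact (F2_W η v _ _ _).mpr (.inr rfl)
          · intro p hp'
            obtain ⟨⟨-, h2⟩, -⟩ := (mem_sup SV).mp hp'
            have h2' : (.bit (ownH η (e.B.s p.1 p.2.1)) : Pb Mg V) = .bit true := h2
            simp only [Pb.bit.injEq] at h2'
            obtain ⟨u, hu, huη⟩ := F2_own.mp h2'
            exact ⟨u, hu, by rw [mem_items, huη]; exact .inl rfl⟩
        · refine hwi _ _ ⟨e.T.tr, Function.update e.T.pr η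
            (some (false, fun _ => none, none))⟩ (some η) h rfl
            (fun η' hη' => Function.update_of_ne hη' _ _) ?_ ?_ ?_ ?_
          · intro h'
            rw [hA] at h'
            cases h'
          · intro _
            exact ⟨none, by simp only [Function.update_self]⟩
          · intro η' o ex hT
            by_cases hη' : η' = η
            · rw [hη']
            · simp only [Function.update_of_ne hη'] at hT
              have := (h.1.pr1 η' o ex none hT).2.1 rfl
              rw [hp] at this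
              cases this
          · intro o ex r hT
            simp only [Function.update_self, Option.some.injEq, Prod.mk.injEq] at hT
            obtain ⟨rfl, rfl, rfl⟩ := hT
            exact ⟨rfl, rfl, by simpa using hB⟩
  | true =>
    cases hB : ownH η (e.B.s w.2.1 w.2.2.1) with
    | true =>
      rw [hA, hB] at hQ'
      exact absurd rfl hQ'.2.1
    | false =>
      rw [hA, hB] at hobs hQ' hrl
      by_cases hd : des e η
      · simp only [F2_nx, if_pos hd] at hQ' ⊢
        refine ⟨hobs, rfl, ?_⟩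
        refine hc (((F2_env e η v (.bit true : Pb Mg V) (.bit false)).setPr η
          true (fun _ => none) none).conf η true (.h η)) (pre ++ [Th.h η]) ?_ ⟨?_, hrl⟩
          ⟨rfl, rfl⟩ ⟨hQ'.1, hQ'.2.1, hQ'.2.2⟩
        · refine gi_confA (hgi _ _) η (.h η) (fun _ => none) ?_ hpA hp ?_
          · exact (F2_W η v _ _ _).mpr (.inr rfl)
          · intro p hp'
            obtain ⟨⟨-, h2⟩, -⟩ := (mem_sup SV).mp hp'
            have h2' : (.bit (ownH η (e.A.s p.1 p.2.1)) : Pb Mg V) = .bit true := h2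
            simp only [Pb.bit.injEq] at h2'
            obtain ⟨u, hu, huη⟩ := F2_own.mp h2'
            exact ⟨u, hu, by rw [mem_items, huη]; exact .inl rfl⟩
        · refine hwi _ _ ⟨e.T.tr, Function.update e.T.pr η
            (some (true, fun _ => none, none))⟩ (some η) h rfl
            (fun η' hη' => Function.update_of_ne hη' _ _) ?_ ?_ ?_ ?_
          · intro _
            exact ⟨none, by simp only [Function.update_self]⟩
          · intro h'
            rw [hB] at h'
            cases h'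
          · intro η' o ex hT
            by_cases hη' : η' = η
            · rw [hη']
            · simp only [Function.update_of_ne hη'] at hT
              have := (h.1.pr1 η' o ex none hT).2.1 rfl
              rw [hp] at this
              cases this
          · intro o ex r hT
            simp only [Function.update_self, Option.some.injEq, Prod.mk.injEq] at hT
            obtain ⟨rfl, rfl, rfl⟩ := hT
            exact ⟨rfl, rfl, by simpa using hA⟩
      · simp only [F2_nx, if_neg hd] at hQ'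
        exact absurd rfl hQ'.2.1

/-! ## Row F3: labels -/

private theorem F3_nice (O : Th X S J K → Option J → K) (η : K) (j : J) (π : K) :
    Nice O [(.l η j π : Th X S J K)] := by
  intro l1 s l2 h
  cases l1 with
  | nil => simp at h
  | cons y l1 => simp at h

/-- nothing changes if the label is not a label of a private key -/
private theorem F3_wi_same {F : S → Finset J → Comp X K V} {O : Th X S J K → Option J → K}
    {ownA ownB : Own S J K} {qA qB W pre : List (Th X S J K)} {T : Tb S J K V} {pend : Option K}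
    (h : WI F O ownA ownB qA qB W pre T pend) (η : K) (j : J) (π : K) (hη : .h η ∈ W)
    (hC : ∀ s, (.s s ∈ qA ∨ .s s ∈ qB) → .s s ∉ W → O (.s s) none = η →
      O (.s s) (some j) ≠ π) :
    WI F O ownA ownB qA qB (W ++ [.l η j π]) (pre ++ [.l η j π]) T pend := by
  have hW : ∀ d, d ∈ W → d ∈ W ++ [.l η j π] := fun d hd => List.mem_append_left _ hd
  have hs : ∀ s : S, (.s s : Th X S J K) ∈ W ++ [.l η j π] ↔ (.s s : Th X S J K) ∈ W := by
    intro s; simp
  have hh : ∀ η' : K, (.h η' : Th X S J K) ∈ W ++ [.l η j π] ↔ (.h η' : Th X S J K) ∈ W := by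
    intro s; simp
  have hll : ∀ (η' : K) (j' : J) (π' : K), (.l η' j' π' : Th X S J K) ∈ W ++ [.l η j π] →
      (.l η' j' π' : Th X S J K) ∈ W ∨ (η' = η ∧ j' = j ∧ π' = π) := by
    intro η' j' π' h'
    rcases List.mem_append.1 h' with h' | h'
    · exact Or.inl h'
    · right
      simpa using h'
  refine ⟨fun d h1 h2 => hW d (h.all d h1 h2), h.valA, h.valB, h.keysA, h.keysB, h.itA, h.itB,
    ?_, nice_append h.nice (F3_nice O η j π), ?_, ?_, ?_, ?_, ?_, ?_, ?_⟩
  · intro d
    rw [List.mem_append, List.mem_append, h.pre_mem]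
    tauto
  · intro s h1
    exact h.tr1 s ((hs s).1 h1)
  · intro η' e' h1
    obtain ⟨h2, h3, h4⟩ := h.tr2 η' e' h1
    exact ⟨hW _ h2, h3, h4⟩
  · intro s h1 d hd
    exact hW d (h.itW s ((hs s).1 h1) d hd)
  · intro η' j' π' h1
    rcases hll η' j' π' h1 with h1 | ⟨rfl, rfl, rfl⟩
    · exact hW _ (h.downW _ _ _ h1)
    · exact hW _ hη
  · intro s h1 h2 h3
    rw [hs] at h2
    rw [hh] at h3
    obtain ⟨ex, r, h4, h5⟩ := h.prA s h1 h2 h3
    refine ⟨ex, r, h4, fun j' h6 => ?_⟩
    rcases hll _ _ _ h6 with h6 | ⟨h7, h8, h9⟩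
    · exact h5 j' h6
    · subst h8
      exact absurd h9 (hC s (Or.inl h1) h2 h7)
  · intro s h1 h2 h3
    rw [hs] at h2
    rw [hh] at h3
    obtain ⟨ex, r, h4, h5⟩ := h.prB s h1 h2 h3
    refine ⟨ex, r, h4, fun j' h6 => ?_⟩
    rcases hll _ _ _ h6 with h6 | ⟨h7, h8, h9⟩
    · exact h5 j' h6
    · subst h8
      exact absurd h9 (hC s (Or.inr h1) h2 h7)
  · intro η' o ex r h1
    obtain ⟨h2, h3, h4⟩ := h.pr1 η' o ex r h1
    exact ⟨hW _ h2, h3, h4⟩

/-- the label is a label of the private key of the owner `o` -/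
private theorem F3_wi_true {F : S → Finset J → Comp X K V} {O : Th X S J K → Option J → K}
    {ownA ownB : Own S J K} {qA qB W pre : List (Th X S J K)} {T : Tb S J K V}
    (h : WI F O ownA ownB qA qB W pre T none) (η : K) (j : J) (π : K) (hη : .h η ∈ W)
    (o : Bool) (ex : J → Option K) (r : Option V) (hpr : T.pr η = some (o, ex, r)) (s : S)
    (hs1 : O (.s s) none = η) (hs2 : O (.s s) (some j) = π)
    (hs3 : .s s ∈ (if o then qA else qB)) (hs4 : mtch ex (O (.s s)))
    (hu : ∀ s', .s s' ∈ pre → O (.s s') none = η → s' = s) :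
    WI F O ownA ownB qA qB (W ++ [.l η j π]) (pre ++ [.l η j π])
      { T with pr := Function.update T.pr η (some (o, Function.update ex j (some π), none)) }
      (some η) := by
  have hW : ∀ d, d ∈ W → d ∈ W ++ [.l η j π] := fun d hd => List.mem_append_left _ hd
  have hs : ∀ s : S, (.s s : Th X S J K) ∈ W ++ [.l η j π] ↔ (.s s : Th X S J K) ∈ W := by
    intro s; simp
  have hh : ∀ η' : K, (.h η' : Th X S J K) ∈ W ++ [.l η j π] ↔ (.h η' : Th X S J K) ∈ W := by
    intro s; simp
  have hll : ∀ (η' : K) (j' : J) (π' : K), (.l η' j' π' : Th X S J K) ∈ W ++ [.l η j π] →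
      (.l η' j' π' : Th X S J K) ∈ W ∨ (η' = η ∧ j' = j ∧ π' = π) := by
    intro η' j' π' h'
    rcases List.mem_append.1 h' with h' | h'
    · exact Or.inl h'
    · right
      simpa using h'
  have hold : ∀ (o' : Bool) (s' : S), O (.s s') none = η → s' = s →
      (∃ ex' r', T.pr (O (.s s') none) = some (o', ex', r') ∧
        ∀ j, .l (O (.s s') none) j (O (.s s') (some j)) ∈ W → ex' j = some (O (.s s') (some j))) →
      o' = o ∧ ∃ ex'' r'', (some (o, Function.update ex j (some π), none) :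
        Option (Bool × (J → Option K) × Option V)) = some (o', ex'', r'') ∧
        ∀ j', .l (O (.s s') none) j' (O (.s s') (some j')) ∈ W ++ [.l η j π] →
          ex'' j' = some (O (.s s') (some j')) := by
    intro o' s' h1 h2 h3
    subst h2
    obtain ⟨ex', r', h4, h5⟩ := h3
    rw [h1, hpr] at h4
    have h4' := Option.some.inj h4
    rw [Prod.mk.injEq, Prod.mk.injEq] at h4'
    obtain ⟨h6, h7, h8⟩ := h4'
    subst h6 h7
    refine ⟨rfl, _, _, rfl, fun j' h9 => ?_⟩
    by_cases hj : j' = j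
    · subst hj
      rw [Function.update_self, hs2]
    · rw [Function.update_of_ne hj]
      rcases hll _ _ _ h9 with h9 | ⟨-, h10, -⟩
      · exact h5 j' h9
      · exact absurd h10 hj
  refine ⟨fun d h1 h2 => hW d (h.all d h1 h2), h.valA, h.valB, h.keysA, h.keysB, h.itA, h.itB,
    ?_, nice_append h.nice (F3_nice O η j π), ?_, ?_, ?_, ?_, ?_, ?_, ?_⟩
  · intro d
    rw [List.mem_append, List.mem_append, h.pre_mem]
    tauto
  · intro s h1
    exact h.tr1 s ((hs s).1 h1)
  · intro η' e' h1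
    obtain ⟨h2, h3, h4⟩ := h.tr2 η' e' h1
    exact ⟨hW _ h2, h3, h4⟩
  · intro s h1 d hd
    exact hW d (h.itW s ((hs s).1 h1) d hd)
  · intro η' j' π' h1
    rcases hll η' j' π' h1 with h1 | ⟨rfl, rfl, rfl⟩
    · exact hW _ (h.downW _ _ _ h1)
    · exact hW _ hη
  · intro s' h1 h2 h3
    rw [hs] at h2
    rw [hh] at h3
    have h4 := h.prA s' h1 h2 h3
    show ∃ ex' r', Function.update T.pr η (some (o, Function.update ex j (some π), none))
      (O (.s s') none) = some (true, ex', r') ∧ _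
    by_cases he : O (.s s') none = η
    · have h5 : s' = s := hu s' ((h.pre_mem _).2 (Or.inl h1)) he
      have h6 := (hold true s' he h5 h4).2
      have h7 : Function.update T.pr η (some (o, Function.update ex j (some π), none))
          (O (.s s') none) = some (o, Function.update ex j (some π), none) := by
        rw [he, Function.update_self]
      rw [h7]
      exact h6
    · rw [Function.update_of_ne he]
      obtain ⟨ex', r', h5, h6⟩ := h4
      refine ⟨ex', r', h5, fun j' h7 => ?_⟩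
      rcases hll _ _ _ h7 with h7 | ⟨h8, -, -⟩
      · exact h6 j' h7
      · exact absurd h8 he
  · intro s' h1 h2 h3
    rw [hs] at h2
    rw [hh] at h3
    have h4 := h.prB s' h1 h2 h3
    show ∃ ex' r', Function.update T.pr η (some (o, Function.update ex j (some π), none))
      (O (.s s') none) = some (false, ex', r') ∧ _
    by_cases he : O (.s s') none = η
    · have h5 : s' = s := hu s' ((h.pre_mem _).2 (Or.inr (Or.inl h1))) he
      have h6 := (hold false s' he h5 h4).2
      have h7 : Function.update T.pr η (some (o, Function.update ex j (some π), none))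
          (O (.s s') none) = some (o, Function.update ex j (some π), none) := by
        rw [he, Function.update_self]
      rw [h7]
      exact h6
    · rw [Function.update_of_ne he]
      obtain ⟨ex', r', h5, h6⟩ := h4
      refine ⟨ex', r', h5, fun j' h7 => ?_⟩
      rcases hll _ _ _ h7 with h7 | ⟨h8, -, -⟩
      · exact h6 j' h7
      · exact absurd h8 he
  · intro η' o' ex' r' h1
    have h1' : Function.update T.pr η (some (o, Function.update ex j (some π), none)) η' =
      some (o', ex', r') := h1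
    by_cases he : η' = η
    · subst he
      rw [Function.update_self] at h1'
      have h2 := Option.some.inj h1'
      rw [Prod.mk.injEq, Prod.mk.injEq] at h2
      obtain ⟨h3, h4, h5⟩ := h2
      subst h3 h4 h5
      refine ⟨hW _ hη, fun _ => rfl, s, hs1, hs3, ?_, Or.inl rfl⟩
      intro j' π' h6
      by_cases hj : j' = j
      · subst hj
        rw [Function.update_self] at h6
        rw [hs2]
        exact Option.some.inj h6
      · rw [Function.update_of_ne hj] at h6
        exact hs4 j' π' h6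
    · rw [Function.update_of_ne he] at h1'
      obtain ⟨h2, h3, h4⟩ := h.pr1 η' o' ex' r' h1'
      refine ⟨hW _ h2, fun h5 => ?_, h4⟩
      have h6 := h3 h5
      simp at h6

omit [Finite X] [Finite S] [Finite K] [Nonempty K] in
private theorem F3_obs (F : S → Finset J → Comp X K V) (O : Th X S J K → Option J → K) (η : K)
    (j : J) (π : K) (ex : J → Option K) (s : S) (hs1 : O (.s s) none = η)
    (hs4 : mtch ex (O (.s s))) (hu : ∀ s', O (.s s') none = η → s' = s) :
    (obsB η (Function.update ex j (some π)) : Comp (Qry X S J K) (Ans J K V) (Pb Mg V)).run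
      (wd F O) = .bit (decide (O (.s s) (some j) = π)) := by
  show Pb.bit (match wd F O (.ev η (Function.update ex j (some π))) with
    | .res (some _) => true
    | _ => false) = _
  by_cases hj : O (.s s) (some j) = π
  · have hm : mtch (Function.update ex j (some π)) (O (.s s)) := by
      intro j' π' h6
      by_cases hj' : j' = j
      · subst hj'
        rw [Function.update_self] at h6
        rw [hj]
        exact Option.some.inj h6
      · rw [Function.update_of_ne hj'] at h6
        exact hs4 j' π' h6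
    rw [orc_ev_some F O η _ s hs1 hm hu, decide_eq_true hj]
  · rw [orc_ev_none F O η _ ?_, decide_eq_false hj]
    intro s' h1 h2
    have h3 := hu s' h1
    subst h3
    exact hj (h2 j π (Function.update_self _ _ _))

omit [Finite X] [Finite S] [Fintype J] [Finite K] [Nonempty K] in
private theorem F3_own {St : Type} {O : Th X S J K → Option J → K} {q pre : List (Th X S J K)}
    (c : CS St S J K) (hval : ∀ e ∈ c.own, e.2 = O (.s e.1) ∧ .s e.1 ∈ q)
    (hkeys : ∀ s, .s s ∈ q → ∃ e ∈ c.own, e.1 = s) (hq : ∀ d ∈ q, d ∈ pre) (η : K) (j : J)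
    (π : K) (s : S) (hs : .s s ∈ q) (hs1 : O (.s s) none = η)
    (hu : ∀ s', .s s' ∈ pre → O (.s s') none = η → s' = s) :
    ownL η j π c = decide (O (.s s) (some j) = π) := by
  unfold ownL
  cases hk : lkup c.own η with
  | none =>
    exfalso
    obtain ⟨e', he', he1⟩ := hkeys s hs
    refine lkup_none hk e' he' ?_
    rw [(hval e' he').1, he1, hs1]
  | some e' =>
    obtain ⟨h1, h2⟩ := lkup_some hk
    obtain ⟨h3, h4⟩ := hval e' h1
    have h5 : e'.1 = s := hu e'.1 (hq _ h4) (by rw [← h3, h2])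
    show decide (e'.2 (some j) = π) = _
    rw [h3, h5]

private theorem F3_rl_kna (h : w ∈ rl SV e.A e.B e.kn) {d : Th X S J K} {v : Option J → K}
    (hd : w.2.2.1 d = v) : w ∈ rl SV (e.kna d v).A (e.kna d v).B (e.kna d v).kn := by
  rw [mem_rl] at h ⊢
  refine ⟨h.1, h.2.1, ?_⟩
  intro x hx
  rcases List.mem_append.1 hx with hx | hx
  · exact h.2.2 x hx
  · have h2 : x = (d, v) := by simpa using hx
    rw [h2]
    exact hd

private theorem F3_rl_upA (h : w ∈ rl SV e.A e.B e.kn)
    (c : CS StA S J K → Comp (Th X S J K) (Option J → K) (CS StA S J K × Pb Mg V)) :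
    w ∈ rl SV (e.upA c ((c (e.A.s w.1 w.2.2.1)).run w.2.2.1).2).A
      (e.upA c ((c (e.A.s w.1 w.2.2.1)).run w.2.2.1).2).B
      (e.upA c ((c (e.A.s w.1 w.2.2.1)).run w.2.2.1).2).kn := by
  rw [mem_rl] at h ⊢
  exact ⟨⟨h.1, rfl⟩, h.2.1, h.2.2⟩

private theorem F3_rl_upB (h : w ∈ rl SV e.A e.B e.kn)
    (c : CS StB S J K → Comp (Th X S J K) (Option J → K) (CS StB S J K × Pb Mg V)) :
    w ∈ rl SV (e.upB c ((c (e.B.s w.2.1 w.2.2.1)).run w.2.2.1).2).A
      (e.upB c ((c (e.B.s w.2.1 w.2.2.1)).run w.2.2.1).2).B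
      (e.upB c ((c (e.B.s w.2.1 w.2.2.1)).run w.2.2.1).2).kn := by
  rw [mem_rl] at h ⊢
  exact ⟨h.1, ⟨h.2.1, rfl⟩, h.2.2⟩

private theorem F3_fa_learn {ρ : Qry X S J K → Ans J K V} (q : Th X S J K)
    (o : Comp (Qry X S J K) (Ans J K V) (Option J → K))
    (next : (Option J → K) → PT X S J K V Mg StA StB) (h1 : o.run ρ = w.2.2.1 q)
    (h2 : Fa ρ t a b (next (w.2.2.1 q)) (e.kna q (w.2.2.1 q)) w) :
    Fa ρ t a b (.learn q o next) e w :=
  ⟨⟨h1, h2.1⟩, h2.2⟩

private theorem F3_fa_mA {ρ : Qry X S J K → Ans J K V}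
    (o : Comp (Qry X S J K) (Ans J K V) (Pb Mg V))
    (c : CS StA S J K → Comp (Th X S J K) (Option J → K) (CS StA S J K × Pb Mg V))
    (next : Pb Mg V → PT X S J K V Mg StA StB)
    (h1 : o.run ρ = ((c (e.A.s w.1 w.2.2.1)).run w.2.2.1).2)
    (h2 : Fa ρ t a b (next ((c (e.A.s w.1 w.2.2.1)).run w.2.2.1).2)
      (e.upA c ((c (e.A.s w.1 w.2.2.1)).run w.2.2.1).2) w) :
    Fa ρ t a b (.mA (.inr o) c next) e w :=
  ⟨⟨h1, h2.1⟩, h2.2⟩

private theorem F3_fa_mB {ρ : Qry X S J K → Ans J K V}
    (o : Comp (Qry X S J K) (Ans J K V) (Pb Mg V))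
    (c : CS StB S J K → Comp (Th X S J K) (Option J → K) (CS StB S J K × Pb Mg V))
    (next : Pb Mg V → PT X S J K V Mg StA StB)
    (h1 : o.run ρ = ((c (e.B.s w.2.1 w.2.2.1)).run w.2.2.1).2)
    (h2 : Fa ρ t a b (next ((c (e.B.s w.2.1 w.2.2.1)).run w.2.2.1).2)
      (e.upB c ((c (e.B.s w.2.1 w.2.2.1)).run w.2.2.1).2) w) :
    Fa ρ t a b (.mB (.inr o) c next) e w :=
  ⟨⟨h1, h2.1⟩, h2.2⟩

private theorem F3_qt_learn (q : Th X S J K)
    (o : Comp (Qry X S J K) (Ans J K V) (Option J → K))
    (next : (Option J → K) → PT X S J K V Mg StA StB) (h : Qt (.learn q o next) e w pre) :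
    Qt (next (w.2.2.1 q)) (e.kna q (w.2.2.1 q)) w (pre ++ [q]) := by
  refine ⟨h.1, h.2.1, fun hb => h.2.2 ?_⟩
  rw [List.append_assoc] at hb
  exact hb

private theorem F3_qt_mA (o : Comp (Qry X S J K) (Ans J K V) (Pb Mg V))
    (c : CS StA S J K → Comp (Th X S J K) (Option J → K) (CS StA S J K × Pb Mg V))
    (next : Pb Mg V → PT X S J K V Mg StA StB)
    (hc : (c (e.A.s w.1 w.2.2.1)).asked w.2.2.1 = []) (h : Qt (.mA (.inr o) c next) e w pre) :
    Qt (next ((c (e.A.s w.1 w.2.2.1)).run w.2.2.1).2)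
      (e.upA c ((c (e.A.s w.1 w.2.2.1)).run w.2.2.1).2) w pre := by
  refine ⟨(Nat.add_eq_zero_iff.1 h.1).2, h.2.1, fun hb => h.2.2 ?_⟩
  have e1 : (Proc.flat (.mA (.inr o) c next : PT X S J K V Mg StA StB)
      (e.A.s w.1 w.2.2.1) (e.B.s w.2.1 w.2.2.1)).asked w.2.2.1 =
      (c (e.A.s w.1 w.2.2.1)).asked w.2.2.1 ++
      ((next ((c (e.A.s w.1 w.2.2.1)).run w.2.2.1).2).flat
        ((c (e.A.s w.1 w.2.2.1)).run w.2.2.1).1 (e.B.s w.2.1 w.2.2.1)).asked w.2.2.1 := by
    show ((c (e.A.s w.1 w.2.2.1)).bind fun x => (next x.2).flat x.1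
      (e.B.s w.2.1 w.2.2.1)).asked w.2.2.1 = _
    rw [Comp.asked_bind]
  rw [e1, hc, List.nil_append]
  exact hb

private theorem F3_qt_mB (o : Comp (Qry X S J K) (Ans J K V) (Pb Mg V))
    (c : CS StB S J K → Comp (Th X S J K) (Option J → K) (CS StB S J K × Pb Mg V))
    (next : Pb Mg V → PT X S J K V Mg StA StB)
    (hc : (c (e.B.s w.2.1 w.2.2.1)).asked w.2.2.1 = []) (h : Qt (.mB (.inr o) c next) e w pre) :
    Qt (next ((c (e.B.s w.2.1 w.2.2.1)).run w.2.2.1).2)
      (e.upB c ((c (e.B.s w.2.1 w.2.2.1)).run w.2.2.1).2) w pre := by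
  refine ⟨(Nat.add_eq_zero_iff.1 h.1).2, h.2.1, fun hb => h.2.2 ?_⟩
  have e1 : (Proc.flat (.mB (.inr o) c next : PT X S J K V Mg StA StB)
      (e.A.s w.1 w.2.2.1) (e.B.s w.2.1 w.2.2.1)).asked w.2.2.1 =
      (c (e.B.s w.2.1 w.2.2.1)).asked w.2.2.1 ++
      ((next ((c (e.B.s w.2.1 w.2.2.1)).run w.2.2.1).2).flat
        (e.A.s w.1 w.2.2.1) ((c (e.B.s w.2.1 w.2.2.1)).run w.2.2.1).1).asked w.2.2.1 := by
    show ((c (e.B.s w.2.1 w.2.2.1)).bind fun x => (next x.2).flat (e.A.s w.1 w.2.2.1)
      x.1).asked w.2.2.1 = _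
    rw [Comp.asked_bind]
  rw [e1, hc, List.nil_append]
  exact hb

private theorem F3_ownL {St : Type} {c : CS St S J K} {η : K} {j : J} {π : K}
    (h : ownL η j π c = true) :
    ∃ u ∈ c.own, (.l η j π : Th X S J K) ∈ items u.2 := by
  unfold ownL at h
  cases hk : lkup c.own η with
  | none =>
    rw [hk] at h
    exact absurd h (by simp)
  | some u =>
    rw [hk] at h
    obtain ⟨h1, h2⟩ := lkup_some hk
    have h3 : u.2 (some j) = π := of_decide_eq_true h
    refine ⟨u, h1, mem_items.2 (Or.inr ⟨j, ?_⟩)⟩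
    rw [h2, h3]

theorem labelStep_fa (η : K) (j : J) (π : K) (hη : .h η ∈ e.kn.map Prod.fst)
    (hl : .l η j π ∉ e.kn.map Prod.fst) (hp : e.pend = none)
    (cont : Env X S J K V StA StB RA RB → PT X S J K V Mg StA StB) (hg : GI n m e)
    (h : WE F e w pre)
    (hc : ∀ (e' : Env X S J K V StA StB RA RB) pre', GI n m e' → WE F e' w pre' → Sm e e' w →
      Qt (cont e') e' w pre' → Fa (wd F w.2.2.1) t a b (cont e') e' w)
    (hQ : Qt (labelStep e η j π cont) e w pre) :
    Fa (wd F w.2.2.1) t a b (labelStep e η j π cont) e w := by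
  have hbad : ¬ Bad gK w.2.2.1 pre := fun hb => hQ.2.2 (bad_append hb)
  have hv : (cv : Option J → K) = w.2.2.1 (.l η j π) := by
    have h1 := w.2.2.2 (.l η j π)
    have h2 : w.2.2.1 (.l η j π) = cv := by simpa [SV] using h1
    exact h2.symm
  have hηpre : .h η ∈ pre := (h.1.pre_mem _).2 (Or.inr (Or.inr hη))
  have hu : ∀ s, .s s ∈ pre → w.2.2.1 (.s s) none = η →
      ∀ s', w.2.2.1 (.s s') none = η → s' = s :=
    fun s hs h1 s' h2 => uniq hbad h.1.nice (fresh_h hbad hηpre h2) hs (h2.trans h1.symm)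
  have hgi := gi_item hg (.l η j π) (by simp [cel]) (w.2.2.1 (.l η j π))
  have hrl := F3_rl_kna (v := w.2.2.1 (.l η j π)) h.2 (d := .l η j π) rfl
  have hmap : (e.kn ++ [((.l η j π : Th X S J K), w.2.2.1 (.l η j π))]).map Prod.fst =
      e.kn.map Prod.fst ++ [.l η j π] := by
    rw [List.map_append]
    rfl
  have hqA : ∀ d ∈ e.A.q w.1 w.2.2.1, d ∈ pre := fun d hd => (h.1.pre_mem d).2 (Or.inl hd)
  have hqB : ∀ d ∈ e.B.q w.2.1 w.2.2.1, d ∈ pre :=
    fun d hd => (h.1.pre_mem d).2 (Or.inr (Or.inl hd))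
  -- the case without a private key
  have hpub : (labelStep e η j π cont = .learn (.l η j π) (.ret cv)
      fun v => cont (e.kna (.l η j π) v)) →
      (∀ s, (.s s ∈ e.A.q w.1 w.2.2.1 ∨ .s s ∈ e.B.q w.2.1 w.2.2.1) →
        .s s ∉ e.kn.map Prod.fst → w.2.2.1 (.s s) none = η → False) →
      Fa (wd F w.2.2.1) t a b (labelStep e η j π cont) e w := by
    intro hL hC
    rw [hL] at hQ ⊢
    refine F3_fa_learn _ _ _ hv (hc _ _ hgi ⟨?_, hrl⟩ ⟨rfl, rfl⟩ (F3_qt_learn _ _ _ hQ))
    have h1 := F3_wi_same h.1 η j π hη (fun s h2 h3 h4 => (hC s h2 h3 h4).elim)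
    rw [← hmap] at h1
    exact h1
  rcases htr : e.T.tr η with _ | u
  · rcases hpr : e.T.pr η with _ | ⟨o, ex, r⟩
    · refine hpub (by simp only [labelStep, htr, hpr]) ?_
      intro s hs hsW h1
      have h2 : (.h (w.2.2.1 (.s s) none) : Th X S J K) ∈ e.kn.map Prod.fst := by
        rw [h1]; exact hη
      rcases hs with hs | hs
      · obtain ⟨ex, r, h3, -⟩ := h.1.prA s hs hsW h2
        rw [h1, hpr] at h3
        simp at h3
      · obtain ⟨ex, r, h3, -⟩ := h.1.prB s hs hsW h2
        rw [h1, hpr] at h3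
        simp at h3
    · obtain ⟨-, -, s, hs1, hs3, hs4, -⟩ := h.1.pr1 η o ex r hpr
      have hspre : .s s ∈ pre := by
        cases o with
        | true => exact hqA _ (by simpa using hs3)
        | false => exact hqB _ (by simpa using hs3)
      have hus := hu s hspre hs1
      have hobs := F3_obs (Mg := Mg) F w.2.2.1 η j π ex s hs1 hs4 hus
      have hWt : w.2.2.1 (.s s) (some j) = π →
          WI F w.2.2.1 (e.A.s w.1 w.2.2.1).own (e.B.s w.2.1 w.2.2.1).own (e.A.q w.1 w.2.2.1)
            (e.B.q w.2.1 w.2.2.1)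
            ((e.kn ++ [((.l η j π : Th X S J K), w.2.2.1 (.l η j π))]).map Prod.fst)
            (pre ++ [.l η j π])
            { e.T with
              pr := Function.update e.T.pr η
                (some (o, Function.update ex j (some π), none)) } (some η) := by
        intro hj
        have h0 := h.1
        rw [hp] at h0
        have h1 := F3_wi_true h0 η j π hη o ex r hpr s hs1 hj hs3 hs4
          (fun s' _ h2 => hus s' h2)
        rw [← hmap] at h1
        exact h1
      have hWf : w.2.2.1 (.s s) (some j) ≠ π →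
          WI F w.2.2.1 (e.A.s w.1 w.2.2.1).own (e.B.s w.2.1 w.2.2.1).own (e.A.q w.1 w.2.2.1)
            (e.B.q w.2.1 w.2.2.1)
            ((e.kn ++ [((.l η j π : Th X S J K), w.2.2.1 (.l η j π))]).map Prod.fst)
            (pre ++ [.l η j π]) e.T e.pend := by
        intro hj
        have h1 := F3_wi_same h.1 η j π hη (fun s' _ _ h4 => by
          rw [hus s' h4]; exact hj)
        rw [← hmap] at h1
        exact h1
      cases o with
      | true =>
        have hsA : .s s ∈ e.A.q w.1 w.2.2.1 := by simpa using hs3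
        have hbit := F3_own (e.A.s w.1 w.2.2.1) h.1.valA h.1.keysA hqA η j π s hsA hs1
          (fun s' _ h2 => hus s' h2)
        simp only [labelStep, htr, hpr] at hQ ⊢
        have hQ1 := F3_qt_mA _ _ _ rfl (F3_qt_learn _ _ _ hQ)
        refine F3_fa_learn _ _ _ hv (F3_fa_mA _ _ _ ?_ ?_)
        · rw [hobs, ← hbit]
          rfl
        · have hrun : ((bitL η j π ((e.kna (.l η j π) (w.2.2.1 (.l η j π))).A.s w.1 w.2.2.1) :
              Comp (Th X S J K) (Option J → K) (CS StA S J K × Pb Mg V)).run w.2.2.1).2 =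
              .bit (decide (w.2.2.1 (.s s) (some j) = π)) := by
            rw [← hbit]
            rfl
          have hrl1 := F3_rl_upA hrl (bitL η j π : CS StA S J K →
            Comp (Th X S J K) (Option J → K) (CS StA S J K × Pb Mg V))
          rw [hrun] at hQ1 hrl1 ⊢
          by_cases hj : w.2.2.1 (.s s) (some j) = π
          · rw [decide_eq_true hj] at hQ1 hrl1 ⊢
            refine hc _ _ (gi_confA (gi_bitLA hgi η j π (.bit true)) η (.l η j π) _ ?_
              (fun hd => hl (hg.wA _ hd)) hp ?_) ⟨?_, hrl1⟩ ⟨rfl, rfl⟩ hQ1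
            · show _ ∈ (e.kn ++ [((.l η j π : Th X S J K), w.2.2.1 (.l η j π))]).map Prod.fst
              rw [hmap]
              simp
            · intro p hp1
              rw [mem_sup] at hp1
              have h1 : (Pb.bit (ownL η j π (e.A.s p.1 p.2.1)) : Pb Mg V) = .bit true := hp1.1.2
              have h2 : ownL η j π (e.A.s p.1 p.2.1) = true := by
                injection h1
              exact F3_ownL h2
            · have h1 := hWt hj
              show WI F w.2.2.1 _ _ (e.A.q w.1 w.2.2.1 ++ []) _ _ _ _ _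
              rw [List.append_nil]
              exact h1
          · rw [decide_eq_false hj] at hQ1 hrl1 ⊢
            refine hc _ _ (gi_bitLA hgi η j π (.bit false)) ⟨?_, hrl1⟩ ⟨rfl, rfl⟩ hQ1
            have h1 := hWf hj
            show WI F w.2.2.1 _ _ (e.A.q w.1 w.2.2.1 ++ []) _ _ _ _ _
            rw [List.append_nil]
            exact h1
      | false =>
        have hsB : .s s ∈ e.B.q w.2.1 w.2.2.1 := by simpa using hs3
        have hbit := F3_own (e.B.s w.2.1 w.2.2.1) h.1.valB h.1.keysB hqB η j π s hsB hs1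
          (fun s' _ h2 => hus s' h2)
        simp only [labelStep, htr, hpr] at hQ ⊢
        have hQ1 := F3_qt_mB _ _ _ rfl (F3_qt_learn _ _ _ hQ)
        refine F3_fa_learn _ _ _ hv (F3_fa_mB _ _ _ ?_ ?_)
        · rw [hobs, ← hbit]
          rfl
        · have hrun : ((bitL η j π ((e.kna (.l η j π) (w.2.2.1 (.l η j π))).B.s w.2.1 w.2.2.1) :
              Comp (Th X S J K) (Option J → K) (CS StB S J K × Pb Mg V)).run w.2.2.1).2 =
              .bit (decide (w.2.2.1 (.s s) (some j) = π)) := by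
            rw [← hbit]
            rfl
          have hrl1 := F3_rl_upB hrl (bitL η j π : CS StB S J K →
            Comp (Th X S J K) (Option J → K) (CS StB S J K × Pb Mg V))
          rw [hrun] at hQ1 hrl1 ⊢
          by_cases hj : w.2.2.1 (.s s) (some j) = π
          · rw [decide_eq_true hj] at hQ1 hrl1 ⊢
            refine hc _ _ (gi_confB (gi_bitLB hgi η j π (.bit true)) η (.l η j π) _ ?_
              (fun hd => hl (hg.wB _ hd)) hp ?_) ⟨?_, hrl1⟩ ⟨rfl, rfl⟩ hQ1
            · show _ ∈ (e.kn ++ [((.l η j π : Th X S J K), w.2.2.1 (.l η j π))]).map Prod.fst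
              rw [hmap]
              simp
            · intro p hp1
              rw [mem_sup] at hp1
              have h1 : (Pb.bit (ownL η j π (e.B.s p.1 p.2.1)) : Pb Mg V) = .bit true := hp1.1.2
              have h2 : ownL η j π (e.B.s p.1 p.2.1) = true := by
                injection h1
              exact F3_ownL h2
            · have h1 := hWt hj
              show WI F w.2.2.1 _ _ _ (e.B.q w.2.1 w.2.2.1 ++ []) _ _ _ _
              rw [List.append_nil]
              exact h1
          · rw [decide_eq_false hj] at hQ1 hrl1 ⊢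
            refine hc _ _ (gi_bitLB hgi η j π (.bit false)) ⟨?_, hrl1⟩ ⟨rfl, rfl⟩ hQ1
            have h1 := hWf hj
            show WI F w.2.2.1 _ _ _ (e.B.q w.2.1 w.2.2.1 ++ []) _ _ _ _
            rw [List.append_nil]
            exact h1
  · obtain ⟨h1, h2, h3⟩ := h.1.tr2 η u htr
    refine hpub ?_ ?_
    · rcases hpr : e.T.pr η with _ | ⟨o, ex, r⟩
      · simp only [labelStep, htr, hpr]
      · cases o <;> simp only [labelStep, htr, hpr]
    · intro s hs hsW h4
      have h5 : .s s ∈ pre := by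
        rcases hs with hs | hs
        · exact hqA _ hs
        · exact hqB _ hs
      have h6 := hu s h5 h4 u.1 (by rw [← h2, h3])
      rw [h6] at h1
      exact hsW h1

/-! ## Row F4: evaluation by the owner -/

omit [Finite X] [Finite S] [Finite K] [Nonempty K] [Fintype RA] [Fintype RB] in
/-- The new state of the invariant, first party. -/
private theorem F4_wiA {O : Th X S J K → Option J → K} {ownA ownB : Own S J K}
    {qA qB W pre : List (Th X S J K)} {T : Tb S J K V} {η : K} {ex : J → Option K} {r0 : Option V}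
    (h : WI F O ownA ownB qA qB W pre T (some η)) (hT : T.pr η = some (true, ex, r0)) (l : List X)
    (hl : ∀ d ∈ (l.map .x : List (Th X S J K)), d ∈ qB → d ∈ W) (s : S) (hs : O (.s s) none = η)
    (hsA : .s s ∈ qA) (hm : mtch ex (O (.s s))) :
    WI F O ownA ownB (qA ++ l.map .x) qB W (pre ++ l.map .x)
      { T with pr := Function.update T.pr η (some (true, ex,
        some ((F s (dom ex)).run (fO O)))) } none := by
  have hx : ∀ s' : S, .s s' ∉ (l.map .x : List (Th X S J K)) := by
    intro s' hs'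
    obtain ⟨x, _, hx⟩ := List.mem_map.1 hs'
    cases hx
  have hmem : ∀ s' : S, .s s' ∈ qA ++ (l.map .x : List (Th X S J K)) → .s s' ∈ qA := by
    intro s' hs'
    exact (List.mem_append.1 hs').resolve_right (hx s')
  constructor
  · intro d hd hd'
    rcases List.mem_append.1 hd with h1 | h1
    · exact h.all d h1 hd'
    · exact hl d h1 hd'
  · exact fun u hu => ⟨(h.valA u hu).1, List.mem_append_left _ (h.valA u hu).2⟩
  · exact h.valB
  · exact fun s' hs' => h.keysA s' (hmem s' hs')
  · exact h.keysB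
  · exact fun s' hs' d hd => List.mem_append_left _ (h.itA s' (hmem s' hs') d hd)
  · exact h.itB
  · intro d
    rw [List.mem_append, List.mem_append, h.pre_mem]
    tauto
  · refine nice_append h.nice ?_
    intro l1 s' l2 hl2
    exact absurd (hl2 ▸ List.mem_append_right _ List.mem_cons_self) (hx s')
  · exact h.tr1
  · exact h.tr2
  · exact h.itW
  · exact h.downW
  · intro s' hs' hW hη
    obtain ⟨ex', r', h1, h2⟩ := h.prA s' (hmem s' hs') hW hη
    by_cases he : O (.s s') none = η
    · rw [he] at h1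
      rw [hT] at h1
      simp only [Option.some.injEq, Prod.mk.injEq, true_and] at h1
      obtain ⟨rfl, rfl⟩ := h1
      exact ⟨ex, some ((F s (dom ex)).run (fO O)), by simp only [he, Function.update_self], h2⟩
    · exact ⟨ex', r', by simp only [Function.update_of_ne he, h1], h2⟩
  · intro s' hs' hW hη
    obtain ⟨ex', r', h1, h2⟩ := h.prB s' hs' hW hη
    have he : O (.s s') none ≠ η := by
      intro he
      rw [he, hT] at h1
      simp at h1
    exact ⟨ex', r', by simp only [Function.update_of_ne he, h1], h2⟩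
  · intro η' o ex' r' h1
    by_cases he : η' = η
    · subst he
      simp only [Function.update_self, Option.some.injEq, Prod.mk.injEq] at h1
      obtain ⟨rfl, rfl, rfl⟩ := h1
      refine ⟨(h.pr1 _ _ _ _ hT).1, fun h0 => by simp at h0, s, hs, ?_, hm, Or.inr rfl⟩
      simp only [if_true]
      exact List.mem_append_left _ hsA
    · simp only [Function.update_of_ne he] at h1
      obtain ⟨k1, k2, s', k3, k4, k5, k6⟩ := h.pr1 _ _ _ _ h1
      refine ⟨k1, fun h0 => absurd (Option.some.inj (k2 h0)).symm he, s', k3, ?_, k5, k6⟩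
      cases o
      · exact k4
      · exact List.mem_append_left _ k4

omit [Finite X] [Finite S] [Finite K] [Nonempty K] [Fintype RA] [Fintype RB] in
/-- The new state of the invariant, second party. -/
private theorem F4_wiB {O : Th X S J K → Option J → K} {ownA ownB : Own S J K}
    {qA qB W pre : List (Th X S J K)} {T : Tb S J K V} {η : K} {ex : J → Option K} {r0 : Option V}
    (h : WI F O ownA ownB qA qB W pre T (some η)) (hT : T.pr η = some (false, ex, r0)) (l : List X)
    (hl : ∀ d ∈ (l.map .x : List (Th X S J K)), d ∈ qA → d ∈ W) (s : S) (hs : O (.s s) none = η)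
    (hsB : .s s ∈ qB) (hm : mtch ex (O (.s s))) :
    WI F O ownA ownB qA (qB ++ l.map .x) W (pre ++ l.map .x)
      { T with pr := Function.update T.pr η (some (false, ex,
        some ((F s (dom ex)).run (fO O)))) } none := by
  have hx : ∀ s' : S, .s s' ∉ (l.map .x : List (Th X S J K)) := by
    intro s' hs'
    obtain ⟨x, _, hx⟩ := List.mem_map.1 hs'
    cases hx
  have hmem : ∀ s' : S, .s s' ∈ qB ++ (l.map .x : List (Th X S J K)) → .s s' ∈ qB := by
    intro s' hs'
    exact (List.mem_append.1 hs').resolve_right (hx s')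
  constructor
  · intro d hd hd'
    rcases List.mem_append.1 hd' with h1 | h1
    · exact h.all d hd h1
    · exact hl d h1 hd
  · exact h.valA
  · exact fun u hu => ⟨(h.valB u hu).1, List.mem_append_left _ (h.valB u hu).2⟩
  · exact h.keysA
  · exact fun s' hs' => h.keysB s' (hmem s' hs')
  · exact h.itA
  · exact fun s' hs' d hd => List.mem_append_left _ (h.itB s' (hmem s' hs') d hd)
  · intro d
    rw [List.mem_append, List.mem_append, h.pre_mem]
    tauto
  · refine nice_append h.nice ?_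
    intro l1 s' l2 hl2
    exact absurd (hl2 ▸ List.mem_append_right _ List.mem_cons_self) (hx s')
  · exact h.tr1
  · exact h.tr2
  · exact h.itW
  · exact h.downW
  · intro s' hs' hW hη
    obtain ⟨ex', r', h1, h2⟩ := h.prA s' hs' hW hη
    have he : O (.s s') none ≠ η := by
      intro he
      rw [he, hT] at h1
      simp at h1
    exact ⟨ex', r', by simp only [Function.update_of_ne he, h1], h2⟩
  · intro s' hs' hW hη
    obtain ⟨ex', r', h1, h2⟩ := h.prB s' (hmem s' hs') hW hη
    by_cases he : O (.s s') none = η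
    · rw [he] at h1
      rw [hT] at h1
      simp only [Option.some.injEq, Prod.mk.injEq, true_and] at h1
      obtain ⟨rfl, rfl⟩ := h1
      exact ⟨ex, some ((F s (dom ex)).run (fO O)), by simp only [he, Function.update_self], h2⟩
    · exact ⟨ex', r', by simp only [Function.update_of_ne he, h1], h2⟩
  · intro η' o ex' r' h1
    by_cases he : η' = η
    · subst he
      simp only [Function.update_self, Option.some.injEq, Prod.mk.injEq] at h1
      obtain ⟨rfl, rfl, rfl⟩ := h1
      refine ⟨(h.pr1 _ _ _ _ hT).1, fun h0 => by simp at h0, s, hs, ?_, hm, Or.inr rfl⟩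
      simp only [Bool.false_eq_true, if_false]
      exact List.mem_append_left _ hsB
    · simp only [Function.update_of_ne he] at h1
      obtain ⟨k1, k2, s', k3, k4, k5, k6⟩ := h.pr1 _ _ _ _ h1
      refine ⟨k1, fun h0 => absurd (Option.some.inj (k2 h0)).symm he, s', k3, ?_, k5, k6⟩
      cases o
      · exact List.mem_append_left _ k4
      · exact k4

omit [Finite X] [Finite S] [Finite K] [Nonempty K] [Fintype RA] [Fintype RB] in
/-- The computation of the owner, and the evaluation in the real world. -/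
private theorem F4_leak {St : Type} {O : Th X S J K → Option J → K} (c : CS St S J K)
    {pre : List (Th X S J K)} {η : K} {ex : J → Option K} (hb : ¬ Bad gK O pre) (hn : Nice O pre)
    (hval : ∀ u ∈ c.own, u.2 = O (.s u.1) ∧ .s u.1 ∈ pre) (hη : .h η ∈ pre) (s : S)
    (hs : O (.s s) none = η) (hown : ∃ u ∈ c.own, u.1 = s) (hm : mtch ex (O (.s s))) :
    (leakC F η ex c : Comp (Th X S J K) (Option J → K) (CS St S J K × Pb Mg V)).run O =
      (c, .lk (some ((F s (dom ex)).run (fO O)))) ∧
    (leakC F η ex c : Comp (Th X S J K) (Option J → K) (CS St S J K × Pb Mg V)).asked O =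
      ((F s (dom ex)).asked (fO O)).map .x ∧
    (obsL η ex : Comp (Qry X S J K) (Ans J K V) (Pb Mg V)).run (wd F O) =
      .lk (some ((F s (dom ex)).run (fO O))) := by
  have huq : ∀ s', O (.s s') none = η → s' = s := by
    intro s' hs'
    have h1 := fresh_h hb hη hs'
    have h2 := fresh_h hb hη hs
    exact uniq hb hn h1 h2 (hs'.trans hs.symm)
  have hlk : lkup c.own η = some (s, O (.s s)) := by
    cases hk : lkup c.own η with
    | none =>
      obtain ⟨u, hu, rfl⟩ := hown
      have := lkup_none hk u hu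
      rw [(hval u hu).1] at this
      exact absurd hs this
    | some u =>
      obtain ⟨hu, hu'⟩ := lkup_some hk
      obtain ⟨h1, h2⟩ := hval u hu
      have h3 : u.1 = s := huq u.1 (by rw [← h1]; exact hu')
      obtain ⟨u1, u2⟩ := u
      simp only at h1 h3
      rw [h3] at h1
      rw [h3, h1]
  refine ⟨?_, ?_, ?_⟩
  · unfold leakC
    rw [hlk]
    simp only [Comp.run_bind, Comp.run_ret, run_lift]
  · unfold leakC
    rw [hlk]
    simp only [Comp.asked_bind, Comp.asked_ret, List.append_nil, asked_lift]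
  · unfold obsL
    rw [Comp.run_ask, Comp.run_ret, orc_ev_some F O η ex s hs hm huq]

theorem leakStep_fa (hF : ∀ f s A, ((F s A).asked f).length ≤ m) (η : K) (hp : e.pend = some η)
    (cont : Env X S J K V StA StB RA RB → PT X S J K V Mg StA StB) (hg : GI n m e)
    (h : WE F e w pre)
    (hc : ∀ (e' : Env X S J K V StA StB RA RB) pre', GI n m e' → WE F e' w pre' → Sm e e' w →
      Qt (cont e') e' w pre' → Fa (wd F w.2.2.1) t a b (cont e') e' w)
    (hQ : Qt (leakStep F e η cont) e w pre) :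
    Fa (wd F w.2.2.1) t a b (leakStep F e η cont) e w := by
  obtain ⟨hW, hrl⟩ := h
  rw [hp] at hW
  have hb0 : ¬ Bad gK w.2.2.1 pre := fun hB => hQ.2.2 (bad_append hB)
  have hDw : Dw SV cel e.A e.B e.kn w := fun d _ h1 h2 => hW.all d h1 h2
  have hWpre : ∀ d, d ∈ e.kn.map Prod.fst → d ∈ pre := fun d hd => (hW.pre_mem d).2 (Or.inr (Or.inr hd))
  rcases hT : e.T.pr η with _ | ⟨o, ex, r0⟩
  · have e1 : leakStep F e η cont = cont { e with pend := none } := by
      unfold leakStep
      rw [hT]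
    rw [e1] at hQ ⊢
    refine hc { e with pend := none } pre (gi_leak0 hg) ⟨?_, hrl⟩ ⟨rfl, rfl⟩ hQ
    refine { hW with pr1 := ?_ }
    intro η' o ex r h1
    obtain ⟨k1, k2, k3⟩ := hW.pr1 η' o ex r h1
    refine ⟨k1, fun h0 => ?_, k3⟩
    have := Option.some.inj (k2 h0)
    rw [← this, hT] at h1
    exact absurd h1 (by simp)
  obtain ⟨k1, -, s, k3, k4, k5, -⟩ := hW.pr1 η o ex r0 hT
  cases o with
  | true =>
    simp only [if_true] at k4
    have hval : ∀ u ∈ (e.A.s w.1 w.2.2.1).own, u.2 = w.2.2.1 (.s u.1) ∧ .s u.1 ∈ pre := fun u hu =>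
      ⟨(hW.valA u hu).1, (hW.pre_mem _).2 (Or.inl (hW.valA u hu).2)⟩
    obtain ⟨r1, r2, r3⟩ := F4_leak (F := F) (Mg := Mg) (e.A.s w.1 w.2.2.1) hb0 hW.nice hval (hWpre _ k1) s k3
      (hW.keysA s k4) k5
    set v : Option V := some ((F s (dom ex)).run (fO w.2.2.1)) with hv
    have e1 : leakStep F e η cont = .mA (.inr (obsL η ex)) (leakC F η ex) fun m =>
        match m with
        | .lk r => cont { (e.upA (leakC F η ex) m).setPr η true ex r with pend := none }
        | _ => .stop 4 := by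
      unfold leakStep
      rw [hT]
      rfl
    set e' : Env X S J K V StA StB RA RB :=
      { (e.upA (leakC F η ex) (.lk v : Pb Mg V)).setPr η true ex v with pend := none } with he'
    have hrs : Proc.rsA SV (leakC F η ex : CS StA S J K → Comp (Th X S J K) (Option J → K)
        (CS StA S J K × Pb Mg V)) e.A w = .lk v := congrArg Prod.snd r1
    rw [e1] at hQ ⊢
    obtain ⟨q1, q2, q3⟩ := hQ
    simp only [Proc.hits, hrs] at q1
    simp only [Proc.lf, hrs] at q2
    simp only [Proc.flat, Comp.asked_bind, r1] at q3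
    have hst : e'.A.s w.1 w.2.2.1 = e.A.s w.1 w.2.2.1 := congrArg Prod.fst r1
    have hhit : ∀ d ∈ (((F s (dom ex)).asked (fO w.2.2.1)).map .x : List (Th X S J K)),
        d ∈ e.B.q w.2.1 w.2.2.1 → d ∈ e.kn.map Prod.fst := by
      intro d hd hd'
      by_contra hd''
      rw [if_pos ⟨hDw, d, by rw [r2]; exact hd, hd', hd''⟩] at q1
      omega
    have hWI := F4_wiA (F := F) hW hT _ hhit s k3 k4 k5
    have hG := gi_leakA (Mg := Mg) F hF hg η ex r0 v (.lk v) hp hT
    have hrl' : w ∈ rl SV e'.A e'.B e'.kn := by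
      simp only [rl, Finset.mem_filter, Finset.mem_univ, true_and] at hrl ⊢
      exact ⟨⟨hrl.1, congrArg Prod.snd r1⟩, hrl.2⟩
    have hfin := hc e' (pre ++ ((F s (dom ex)).asked (fO w.2.2.1)).map .x) hG ⟨by
        have e2 : e'.A.q w.1 w.2.2.1 = e.A.q w.1 w.2.2.1 ++
            ((F s (dom ex)).asked (fO w.2.2.1)).map .x := by
          rw [← r2]; rfl
        rw [hst, e2]
        exact hWI, hrl'⟩ ⟨hst, rfl⟩ ⟨(Nat.add_eq_zero_iff.1 q1).2, q2, by
          rw [hst, List.append_assoc, ← r2]
          exact q3⟩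
    obtain ⟨f1, f2⟩ := hfin
    refine ⟨?_, ?_⟩
    · simp only [Proc.faith, r1, r3, true_and]
      rw [hst] at f1
      exact f1
    · simp only [Proc.lf, Proc.fin, hrs]
      exact f2
  | false =>
    simp only [Bool.false_eq_true, if_false] at k4
    have hval : ∀ u ∈ (e.B.s w.2.1 w.2.2.1).own, u.2 = w.2.2.1 (.s u.1) ∧ .s u.1 ∈ pre := fun u hu =>
      ⟨(hW.valB u hu).1, (hW.pre_mem _).2 (Or.inr (Or.inl (hW.valB u hu).2))⟩
    obtain ⟨r1, r2, r3⟩ := F4_leak (F := F) (Mg := Mg) (e.B.s w.2.1 w.2.2.1) hb0 hW.nice hval (hWpre _ k1) s k3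
      (hW.keysB s k4) k5
    set v : Option V := some ((F s (dom ex)).run (fO w.2.2.1)) with hv
    have e1 : leakStep F e η cont = .mB (.inr (obsL η ex)) (leakC F η ex) fun m =>
        match m with
        | .lk r => cont { (e.upB (leakC F η ex) m).setPr η false ex r with pend := none }
        | _ => .stop 4 := by
      unfold leakStep
      rw [hT]
      rfl
    set e' : Env X S J K V StA StB RA RB :=
      { (e.upB (leakC F η ex) (.lk v : Pb Mg V)).setPr η false ex v with pend := none } with he'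
    have hrs : Proc.rsB SV (leakC F η ex : CS StB S J K → Comp (Th X S J K) (Option J → K)
        (CS StB S J K × Pb Mg V)) e.B w = .lk v := congrArg Prod.snd r1
    rw [e1] at hQ ⊢
    obtain ⟨q1, q2, q3⟩ := hQ
    simp only [Proc.hits, hrs] at q1
    simp only [Proc.lf, hrs] at q2
    simp only [Proc.flat, Comp.asked_bind, r1] at q3
    have hst : e'.B.s w.2.1 w.2.2.1 = e.B.s w.2.1 w.2.2.1 := congrArg Prod.fst r1
    have hhit : ∀ d ∈ (((F s (dom ex)).asked (fO w.2.2.1)).map .x : List (Th X S J K)),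
        d ∈ e.A.q w.1 w.2.2.1 → d ∈ e.kn.map Prod.fst := by
      intro d hd hd'
      by_contra hd''
      rw [if_pos ⟨hDw, d, by rw [r2]; exact hd, hd', hd''⟩] at q1
      omega
    have hWI := F4_wiB (F := F) hW hT _ hhit s k3 k4 k5
    have hG := gi_leakB (Mg := Mg) F hF hg η ex r0 v (.lk v) hp hT
    have hrl' : w ∈ rl SV e'.A e'.B e'.kn := by
      simp only [rl, Finset.mem_filter, Finset.mem_univ, true_and] at hrl ⊢
      exact ⟨hrl.1, ⟨hrl.2.1, congrArg Prod.snd r1⟩, hrl.2.2⟩
    have hfin := hc e' (pre ++ ((F s (dom ex)).asked (fO w.2.2.1)).map .x) hG ⟨by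
        have e2 : e'.B.q w.2.1 w.2.2.1 = e.B.q w.2.1 w.2.2.1 ++
            ((F s (dom ex)).asked (fO w.2.2.1)).map .x := by
          rw [← r2]; rfl
        rw [hst, e2]
        exact hWI, hrl'⟩ ⟨rfl, hst⟩ ⟨(Nat.add_eq_zero_iff.1 q1).2, q2, by
          rw [hst, List.append_assoc, ← r2]
          exact q3⟩
    obtain ⟨f1, f2⟩ := hfin
    refine ⟨?_, ?_⟩
    · simp only [Proc.faith, r1, r3, true_and]
      rw [hst] at f1
      exact f1
    · simp only [Proc.lf, Proc.fin, hrs]
      exact f2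

/-! ## Row F5: the learning loop.  In a label step the handle is known: otherwise it is heavy, since
by `down` of `GI` who has touched the label has touched the handle. -/

theorem hv_down (hg : GI n m e) (η : K) (j : J) (π : K)
    (h : Hv SV cel L e.A e.B e.kn (.l η j π)) (h' : ¬ Hv SV cel L e.A e.B e.kn (.h η)) :
    .h η ∈ e.kn.map Prod.fst := by
  by_contra hn
  apply h'
  refine ⟨hn, h.2.trans (Nat.mul_le_mul_left L (Nat.add_le_add ?_ ?_))⟩
  · unfold tA
    refine Finset.card_le_card fun z hz => ?_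
    rw [Finset.mem_filter] at hz ⊢
    refine ⟨hz.1, ?_⟩
    have hz1 := hz.1
    simp only [gp, Finset.mem_filter, Finset.mem_product] at hz1
    exact (hg.sA z.1 hz1.1.1).down η j π hz.2
  · unfold tB
    refine Finset.card_le_card fun z hz => ?_
    rw [Finset.mem_filter] at hz ⊢
    refine ⟨hz.1, ?_⟩
    have hz1 := hz.1
    simp only [gp, Finset.mem_filter, Finset.mem_product] at hz1
    exact (hg.sB z.2 hz1.1.2).down η j π hz.2

omit [Finite X] [Finite S] [Fintype RA] [Fintype RB] in
private theorem F5_stop (ρ : Qry X S J K → Ans J K V) (k : ℕ) :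
    Fa ρ t a b (.stop (k + 1) : PT X S J K V Mg StA StB) e w :=
  ⟨trivial, fun h => absurd h (by simp [Proc.lf])⟩

theorem body_fa (hF : ∀ f s A, ((F s A).asked f).length ≤ m)
    (cont : Env X S J K V StA StB RA RB → PT X S J K V Mg StA StB)
    (k : PT X S J K V Mg StA StB) (hg : GI n m e) (h : WE F e w pre)
    (hk : Lgt N L e → Qt k e w pre → Fa (wd F w.2.2.1) t a b k e w)
    (hc : ∀ (e' : Env X S J K V StA StB RA RB) pre', GI n m e' → WE F e' w pre' → Sm e e' w →
      Qt (cont e') e' w pre' → Fa (wd F w.2.2.1) t a b (cont e') e' w)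
    (hQ : Qt (body F N L e cont k) e w pre) :
    Fa (wd F w.2.2.1) t a b (body F N L e cont k) e w := by
  unfold body at hQ ⊢
  by_cases h1 : Lgt N L e
  · rw [if_pos h1] at hQ ⊢
    exact hk h1 hQ
  rw [if_neg h1] at hQ ⊢
  by_cases h2 : ¬ Gd SV cel e.A e.B e.kn
  · rw [if_pos h2] at hQ ⊢
    exact F5_stop _ 1
  rw [if_neg h2] at hQ ⊢
  by_cases h3 : ∃ d, cel d ∧ Hv SV cel N e.A e.B e.kn d
  · rw [dif_pos h3] at hQ ⊢
    exact cellStep_fa _ h3.choose_spec.1 h3.choose_spec.2.1 cont hg h hc hQ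
  rw [dif_neg h3] at hQ ⊢
  cases hp : e.pend with
  | some η =>
    simp only [hp] at hQ ⊢
    exact leakStep_fa hF η hp cont hg h hc hQ
  | none =>
    simp only [hp] at hQ ⊢
    by_cases h4 : ∃ η, Hv SV cel L e.A e.B e.kn (.h η)
    · rw [dif_pos h4] at hQ ⊢
      exact handleStep_fa _ h4.choose_spec.1 hp cont hg h hc hQ
    rw [dif_neg h4] at hQ ⊢
    by_cases h5 : ∃ x : K × J × K, Hv SV cel L e.A e.B e.kn (.l x.1 x.2.1 x.2.2)
    · rw [dif_pos h5] at hQ ⊢
      refine labelStep_fa _ _ _ ?_ h5.choose_spec.1 hp cont hg h hc hQ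
      exact hv_down hg _ _ _ h5.choose_spec fun hh => h4 ⟨_, hh⟩
    · rw [dif_neg h5] at hQ ⊢
      exact F5_stop _ 3

theorem closeT_fa (hF : ∀ f s A, ((F s A).asked f).length ≤ m)
    (k : ℕ → Env X S J K V StA StB RA RB → PT X S J K V Mg StA StB) :
    ∀ j (e : Env X S J K V StA StB RA RB) pre, GI n m e → WE F e w pre →
      (∀ j' (e' : Env X S J K V StA StB RA RB) pre', GI n m e' → WE F e' w pre' → Sm e e' w →
        Lgt N L e' → Qt (k j' e') e' w pre' → Fa (wd F w.2.2.1) t a b (k j' e') e' w) →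
      Qt (closeT F N L k j e) e w pre → Fa (wd F w.2.2.1) t a b (closeT F N L k j e) e w := by
  intro j
  induction j with
  | zero =>
    intro e pre hg h hk hQ
    unfold closeT at hQ ⊢
    by_cases h1 : Lgt N L e
    · rw [if_pos h1] at hQ ⊢
      exact hk 0 e pre hg h ⟨rfl, rfl⟩ h1 hQ
    · rw [if_neg h1] at hQ ⊢
      exact F5_stop _ 0
  | succ j ih =>
    intro e pre hg h hk hQ
    refine body_fa hF (closeT F N L k j) (k (j + 1) e) hg h
      (fun hl hQ' => hk (j + 1) e pre hg h ⟨rfl, rfl⟩ hl hQ') ?_ hQ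
    intro e' pre' hg' h' hs' hQ'
    refine ih e' pre' hg' h' ?_ hQ'
    intro j'' e'' pre'' hg'' h'' hs'' hl'' hQ''
    exact hk j'' e'' pre'' hg'' h'' ⟨hs''.1.trans hs'.1, hs''.2.trans hs'.2⟩ hl'' hQ''

end

section

variable {X S J K V Mg RA RB : Type} [Finite X] [Finite S] [Fintype J] [Finite K]
  [Nonempty K] [Fintype RA] [Fintype RB]

variable {I I' : Type} (A : Party (Qry X S J K) (Ans J K V) Mg I)
  (B : Party (Qry X S J K) (Ans J K V) Mg I')

variable {F : S → Finset J → Comp X K V} {G : V → Finset J → Comp X K V} {n m N L : ℕ}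
  {e : Env X S J K V A.St B.St RA RB}
  {w : RA × RB × Orc (SV : Th X S J K → Finset (Option J → K))} {pre : List (Th X S J K)}

/-! ## Row F6: steps of the protocol.  `WI` gives the context `Rt` for the party which runs
(`pend = none`, so all entries of `pr` have a value), then `cmp_run`; afterwards `WI` again. -/

private theorem F6_own {α : Type} (F : S → Finset J → Comp X K V)
    (G : V → Finset J → Comp X K V) (T : Tb S J K V) (O : Th X S J K → Option J → K)
    (c : Comp (Qry X S J K) (Ans J K V) α) (own : Own S J K) (n : ℕ) (q : List (Th X S J K))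
    (hv : ∀ e ∈ own, e.2 = O (.s e.1) ∧ .s e.1 ∈ q) (hk : ∀ s, .s s ∈ q → ∃ e ∈ own, e.1 = s)
    (hi : ∀ s, .s s ∈ q → ∀ d ∈ items (O (.s s)), d ∈ q) :
      (∀ e ∈ ((cmp F G T c own n).run O).2.1,
        e.2 = O (.s e.1) ∧ .s e.1 ∈ q ++ (cmp F G T c own n).asked O) ∧
      (∀ s, .s s ∈ q ++ (cmp F G T c own n).asked O →
        ∃ e ∈ ((cmp F G T c own n).run O).2.1, e.1 = s) ∧
      (∀ s, .s s ∈ q ++ (cmp F G T c own n).asked O → ∀ d ∈ items (O (.s s)),
        d ∈ q ++ (cmp F G T c own n).asked O) := by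
  set q0 : List (Th X S J K) := own.flatMap fun e => .s e.1 :: items e.2 with hq0
  have mem0 : ∀ d, d ∈ q0 ↔ ∃ e ∈ own, d = .s e.1 ∨ d ∈ (items e.2 : List (Th X S J K)) := by
    intro d
    rw [hq0, List.mem_flatMap]
    simp only [List.mem_cons]
  have key0 : ∀ s, (.s s : Th X S J K) ∈ q0 → ∃ e ∈ own, e.1 = s := by
    intro s hs
    obtain ⟨e, he, h | h⟩ := (mem0 _).1 hs
    · refine ⟨e, he, ?_⟩
      have := (Th.s.injEq (X := X) (S := S) (J := J) (K := K) s e.1).mp h
      exact this.symm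
    · exfalso
      rw [mem_items] at h
      rcases h with h | ⟨j, h⟩
      · cases h
      · cases h
  have sub0 : ∀ d ∈ q0, d ∈ q := by
    intro d hd
    obtain ⟨e, he, h | h⟩ := (mem0 _).1 hd
    · rw [h]; exact (hv e he).2
    · refine hi e.1 (hv e he).2 d ?_
      rw [← (hv e he).1]
      exact h
  have its0 : ∀ s, (.s s : Th X S J K) ∈ q0 → ∀ d ∈ (items (O (.s s)) : List (Th X S J K)),
      d ∈ q0 := by
    intro s hs d hd
    obtain ⟨e, he, rfl⟩ := key0 s hs
    rw [← (hv e he).1] at hd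
    exact (mem0 _).2 ⟨e, he, Or.inr hd⟩
  have down0 : ∀ η j π, (.l η j π : Th X S J K) ∈ q0 → (.h η : Th X S J K) ∈ q0 := by
    intro η j π h
    obtain ⟨e, he, h | h⟩ := (mem0 _).1 h
    · cases h
    · refine (mem0 _).2 ⟨e, he, Or.inr ?_⟩
      rw [mem_items] at h ⊢
      rcases h with h | ⟨j', h⟩
      · cases h
      · left
        have := (Th.l.injEq (X := X) (S := S) (J := J) (K := K) η j π _ _ _).mp h
        rw [this.1]
  obtain ⟨h1, h2, h3, h4, -⟩ := cmp_inv F G T O c own n q0
    (fun e he => ⟨(hv e he).1, (mem0 _).2 ⟨e, he, Or.inl rfl⟩⟩) key0 its0 down0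
  have up : ∀ d, d ∈ q0 ++ (cmp F G T c own n).asked O → d ∈ q ++ (cmp F G T c own n).asked O := by
    intro d hd
    rw [List.mem_append] at hd ⊢
    exact hd.imp (sub0 d) id
  refine ⟨fun e he => ⟨(h2 e he).1, up _ (h2 e he).2⟩, ?_, ?_⟩
  · intro s hs
    rcases List.mem_append.1 hs with h | h
    · obtain ⟨e, he, rfl⟩ := hk s h
      exact ⟨e, h1 e he, rfl⟩
    · exact h3 s (List.mem_append.2 (Or.inr h))
  · intro s hs d hd
    rcases List.mem_append.1 hs with h | h
    · exact List.mem_append.2 (Or.inl (hi s h d hd))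
    · exact up d (h4 s (List.mem_append.2 (Or.inr h)) d hd)

private theorem F6_step {I0 : Type} (P : Party (Qry X S J K) (Ans J K V) Mg I0)
    (F : S → Finset J → Comp X K V) (G : V → Finset J → Comp X K V) (m0 μ : Mg)
    (T : Tb S J K V) (c : CS P.St S J K) (O : Th X S J K → Option J → K) :
    (stepC F G P m0 T μ c).asked O = (cmp F G T (P.step c.st μ) c.own c.fuel).asked O := by
  unfold stepC
  rw [Comp.asked_bind]
  rcases ((cmp F G T (P.step c.st μ) c.own c.fuel).run O).1 with _ | x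
  · simp
  · simp

private theorem F6_run {I0 : Type} (P : Party (Qry X S J K) (Ans J K V) Mg I0)
    (F : S → Finset J → Comp X K V) (G : V → Finset J → Comp X K V) (m0 μ : Mg)
    (T : Tb S J K V) (c : CS P.St S J K) (O : Th X S J K → Option J → K) (x : P.St × Mg)
    (own' : Own S J K) (n' : ℕ)
    (h : (cmp F G T (P.step c.st μ) c.own c.fuel).run O = (some x, own', n')) :
    (stepC F G P m0 T μ c).run O = (⟨x.1, own', n'⟩, .msg x.2) := by
  unfold stepC
  rw [Comp.run_bind, h]
  rfl

theorem wi_rtA (h : WE F e w pre) (hp : e.pend = none) (hb : ¬ Bad gK w.2.2.1 pre) :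
    Rt F w.2.2.1 e.T (e.B.q w.2.1 w.2.2.1) (e.kn.map Prod.fst) (e.A.s w.1 w.2.2.1).own pre := by
  obtain ⟨h, -⟩ := h
  refine ⟨fun u hu => ⟨(h.valA u hu).1, (h.pre_mem _).2 (Or.inl (h.valA u hu).2)⟩, ?_,
    fun d hd => (h.pre_mem d).2 (Or.inr (Or.inl hd)),
    fun d hd => (h.pre_mem d).2 (Or.inr (Or.inr hd)), h.nice, h.itB, h.tr1, h.tr2, ?_, ?_⟩
  · intro s hs
    rcases (h.pre_mem _).1 hs with h1 | h1 | h1
    · exact Or.inl (h.keysA s h1)
    · exact Or.inr (Or.inl h1)
    · exact Or.inr (Or.inr h1)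
  · intro s hs hsW hh
    obtain ⟨ex, r, e1, e2⟩ := h.prB s hs hsW hh
    obtain ⟨-, h2, s', h3, h4, h5, h6⟩ := h.pr1 _ _ _ _ e1
    have h4' : (.s s' : Th X S J K) ∈ e.B.q w.2.1 w.2.2.1 := by simpa using h4
    have hss : s' = s := uniq hb h.nice ((h.pre_mem _).2 (Or.inr (Or.inl h4')))
      ((h.pre_mem _).2 (Or.inr (Or.inl hs))) h3
    subst hss
    have hr : r = some ((F s' (dom ex)).run (fO w.2.2.1)) := by
      rcases h6 with h6 | h6
      · have := h2 h6
        rw [hp] at this
        cases this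
      · exact h6
    exact ⟨false, ex, by rw [e1, hr], h5, e2⟩
  · intro η o ex v e1
    obtain ⟨-, -, s, h3, h4, h5, h6⟩ := h.pr1 _ _ _ _ e1
    refine ⟨s, ?_, h3, h5, ?_⟩
    · rw [h.pre_mem]
      cases o
      · exact Or.inr (Or.inl (by simpa using h4))
      · exact Or.inl (by simpa using h4)
    · rcases h6 with h6 | h6
      · cases h6
      · exact Option.some.inj h6

theorem msgA_fa (hG : ∀ f s A, ∀ B, A ⊆ B → (G ((F s B).run f) A).run f = (F s A).run f)
    (m0 μ : Mg) (h : WE F e w pre) (hp : e.pend = none)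
    (hf : ((A.step (e.A.s w.1 w.2.2.1).st μ).asked (wd F w.2.2.1)).length ≤
      (e.A.s w.1 w.2.2.1).fuel)
    (hb : ¬ Bad gK w.2.2.1
      (pre ++ (stepC F G A m0 e.T μ (e.A.s w.1 w.2.2.1)).asked w.2.2.1))
    (hh : ¬ hitA SV (stepC F G A m0 e.T μ) e.A e.B e.kn w) :
    ∃ own', ((stepC F G A m0 e.T μ (e.A.s w.1 w.2.2.1)).run w.2.2.1) =
      (⟨((A.step (e.A.s w.1 w.2.2.1).st μ).run (wd F w.2.2.1)).1, own',
        (e.A.s w.1 w.2.2.1).fuel -
          ((A.step (e.A.s w.1 w.2.2.1).st μ).asked (wd F w.2.2.1)).length⟩,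
        .msg ((A.step (e.A.s w.1 w.2.2.1).st μ).run (wd F w.2.2.1)).2) ∧
      WE F (e.upA (stepC F G A m0 e.T μ)
        (.msg ((A.step (e.A.s w.1 w.2.2.1).st μ).run (wd F w.2.2.1)).2)) w
        (pre ++ (stepC F G A m0 e.T μ (e.A.s w.1 w.2.2.1)).asked w.2.2.1) := by
  have hbp : ¬ Bad gK w.2.2.1 pre := fun hb' => hb (bad_append hb')
  have hrt := wi_rtA A B h hp hbp
  have hq := F6_step A F G m0 μ e.T (e.A.s w.1 w.2.2.1) w.2.2.1
  have hhit : ∀ d ∈ (stepC F G A m0 e.T μ (e.A.s w.1 w.2.2.1)).asked w.2.2.1,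
      d ∈ e.B.q w.2.1 w.2.2.1 → d ∈ e.kn.map Prod.fst := by
    intro d hd hd'
    by_contra hcon
    exact hh ⟨d, hd, hd', hcon⟩
  obtain ⟨own', hrun, -⟩ := cmp_run F G hG w.2.2.1 e.T (e.B.q w.2.1 w.2.2.1) (e.kn.map Prod.fst)
    (A.step (e.A.s w.1 w.2.2.1).st μ) (e.A.s w.1 w.2.2.1).own pre (e.A.s w.1 w.2.2.1).fuel hrt hf
    (by rw [← hq]; exact hb) (by rw [← hq]; exact hhit)
  have hrun' := F6_run A F G m0 μ e.T (e.A.s w.1 w.2.2.1) w.2.2.1 _ _ _ hrun
  refine ⟨own', hrun', ?_⟩
  obtain ⟨h, hw⟩ := h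
  obtain ⟨o1, o2, o3⟩ := F6_own F G e.T w.2.2.1 (A.step (e.A.s w.1 w.2.2.1).st μ)
    (e.A.s w.1 w.2.2.1).own (e.A.s w.1 w.2.2.1).fuel (e.A.q w.1 w.2.2.1) h.valA h.keysA h.itA
  have hnice : Nice w.2.2.1 ((stepC F G A m0 e.T μ (e.A.s w.1 w.2.2.1)).asked w.2.2.1) := by
    rw [hq]
    exact nice_cmp F G e.T w.2.2.1 _ _ _
  rw [hrun, ← hq] at o1
  rw [hrun, ← hq] at o2
  rw [← hq] at o3
  constructor
  · show WI F w.2.2.1
      (((stepC F G A m0 e.T μ (e.A.s w.1 w.2.2.1)).run w.2.2.1).1).own
      (e.B.s w.2.1 w.2.2.1).own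
      (e.A.q w.1 w.2.2.1 ++ (stepC F G A m0 e.T μ (e.A.s w.1 w.2.2.1)).asked w.2.2.1)
      (e.B.q w.2.1 w.2.2.1) (e.kn.map Prod.fst)
      (pre ++ (stepC F G A m0 e.T μ (e.A.s w.1 w.2.2.1)).asked w.2.2.1) e.T e.pend
    rw [hrun']
    refine ⟨?_, o1, h.valB, o2, h.keysB, o3, h.itB, ?_, nice_append h.nice hnice, h.tr1, h.tr2,
      h.itW, h.downW, ?_, h.prB, ?_⟩
    · intro d hd hd'
      rcases List.mem_append.1 hd with h1 | h1
      · exact h.all d h1 hd'
      · exact hhit d h1 hd'
    · intro d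
      rw [List.mem_append, List.mem_append, h.pre_mem]
      tauto
    · intro s hs hsW hhW
      have hsp : (.s s : Th X S J K) ∈ pre :=
        fresh_h hbp ((h.pre_mem _).2 (Or.inr (Or.inr hhW))) rfl
      refine h.prA s ?_ hsW hhW
      rcases (h.pre_mem _).1 hsp with h1 | h1 | h1
      · exact h1
      · rcases List.mem_append.1 hs with h2 | h2
        · exact h2
        · exact absurd (hhit _ h2 h1) hsW
      · exact absurd h1 hsW
    · intro η o ex r e1
      obtain ⟨h1, h2, s, h3, h4, h5⟩ := h.pr1 _ _ _ _ e1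
      refine ⟨h1, h2, s, h3, ?_, h5⟩
      cases o
      · exact h4
      · exact List.mem_append.2 (Or.inl h4)
  · simp only [rl, Finset.mem_filter, Finset.mem_univ, true_and] at hw ⊢
    refine ⟨⟨hw.1, ?_⟩, hw.2⟩
    show ((stepC F G A m0 e.T μ (e.A.s w.1 w.2.2.1)).run w.2.2.1).2 = _
    rw [hrun']

/-- Row F7 (symmetric). -/
theorem wi_rtB (h : WE F e w pre) (hp : e.pend = none) (hb : ¬ Bad gK w.2.2.1 pre) :
    Rt F w.2.2.1 e.T (e.A.q w.1 w.2.2.1) (e.kn.map Prod.fst) (e.B.s w.2.1 w.2.2.1).own pre := by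
  obtain ⟨h, -⟩ := h
  refine ⟨fun u hu => ⟨(h.valB u hu).1, (h.pre_mem _).2 (Or.inr (Or.inl (h.valB u hu).2))⟩, ?_,
    fun d hd => (h.pre_mem d).2 (Or.inl hd),
    fun d hd => (h.pre_mem d).2 (Or.inr (Or.inr hd)), h.nice, h.itA, h.tr1, h.tr2, ?_, ?_⟩
  · intro s hs
    rcases (h.pre_mem _).1 hs with h1 | h1 | h1
    · exact Or.inr (Or.inl h1)
    · exact Or.inl (h.keysB s h1)
    · exact Or.inr (Or.inr h1)
  · intro s hs hsW hh
    obtain ⟨ex, r, e1, e2⟩ := h.prA s hs hsW hh
    obtain ⟨-, h2, s', h3, h4, h5, h6⟩ := h.pr1 _ _ _ _ e1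
    have h4' : (.s s' : Th X S J K) ∈ e.A.q w.1 w.2.2.1 := by simpa using h4
    have hss : s' = s := uniq hb h.nice ((h.pre_mem _).2 (Or.inl h4'))
      ((h.pre_mem _).2 (Or.inl hs)) h3
    subst hss
    have hr : r = some ((F s' (dom ex)).run (fO w.2.2.1)) := by
      rcases h6 with h6 | h6
      · have := h2 h6
        rw [hp] at this
        cases this
      · exact h6
    exact ⟨true, ex, by rw [e1, hr], h5, e2⟩
  · intro η o ex v e1
    obtain ⟨-, -, s, h3, h4, h5, h6⟩ := h.pr1 _ _ _ _ e1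
    refine ⟨s, ?_, h3, h5, ?_⟩
    · rw [h.pre_mem]
      cases o
      · exact Or.inr (Or.inl (by simpa using h4))
      · exact Or.inl (by simpa using h4)
    · rcases h6 with h6 | h6
      · cases h6
      · exact Option.some.inj h6

theorem msgB_fa (hG : ∀ f s A, ∀ B, A ⊆ B → (G ((F s B).run f) A).run f = (F s A).run f)
    (m0 μ : Mg) (h : WE F e w pre) (hp : e.pend = none)
    (hf : ((B.step (e.B.s w.2.1 w.2.2.1).st μ).asked (wd F w.2.2.1)).length ≤
      (e.B.s w.2.1 w.2.2.1).fuel)
    (hb : ¬ Bad gK w.2.2.1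
      (pre ++ (stepC F G B m0 e.T μ (e.B.s w.2.1 w.2.2.1)).asked w.2.2.1))
    (hh : ¬ hitB SV (stepC F G B m0 e.T μ) e.A e.B e.kn w) :
    ∃ own', ((stepC F G B m0 e.T μ (e.B.s w.2.1 w.2.2.1)).run w.2.2.1) =
      (⟨((B.step (e.B.s w.2.1 w.2.2.1).st μ).run (wd F w.2.2.1)).1, own',
        (e.B.s w.2.1 w.2.2.1).fuel -
          ((B.step (e.B.s w.2.1 w.2.2.1).st μ).asked (wd F w.2.2.1)).length⟩,
        .msg ((B.step (e.B.s w.2.1 w.2.2.1).st μ).run (wd F w.2.2.1)).2) ∧
      WE F (e.upB (stepC F G B m0 e.T μ)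
        (.msg ((B.step (e.B.s w.2.1 w.2.2.1).st μ).run (wd F w.2.2.1)).2)) w
        (pre ++ (stepC F G B m0 e.T μ (e.B.s w.2.1 w.2.2.1)).asked w.2.2.1) := by
  have hbp : ¬ Bad gK w.2.2.1 pre := fun hb' => hb (bad_append hb')
  have hrt := wi_rtB A B h hp hbp
  have hq := F6_step B F G m0 μ e.T (e.B.s w.2.1 w.2.2.1) w.2.2.1
  have hhit : ∀ d ∈ (stepC F G B m0 e.T μ (e.B.s w.2.1 w.2.2.1)).asked w.2.2.1,
      d ∈ e.A.q w.1 w.2.2.1 → d ∈ e.kn.map Prod.fst := by
    intro d hd hd'
    by_contra hcon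
    exact hh ⟨d, hd, hd', hcon⟩
  obtain ⟨own', hrun, -⟩ := cmp_run F G hG w.2.2.1 e.T (e.A.q w.1 w.2.2.1) (e.kn.map Prod.fst)
    (B.step (e.B.s w.2.1 w.2.2.1).st μ) (e.B.s w.2.1 w.2.2.1).own pre (e.B.s w.2.1 w.2.2.1).fuel
    hrt hf (by rw [← hq]; exact hb) (by rw [← hq]; exact hhit)
  have hrun' := F6_run B F G m0 μ e.T (e.B.s w.2.1 w.2.2.1) w.2.2.1 _ _ _ hrun
  refine ⟨own', hrun', ?_⟩
  obtain ⟨h, hw⟩ := h
  obtain ⟨o1, o2, o3⟩ := F6_own F G e.T w.2.2.1 (B.step (e.B.s w.2.1 w.2.2.1).st μ)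
    (e.B.s w.2.1 w.2.2.1).own (e.B.s w.2.1 w.2.2.1).fuel (e.B.q w.2.1 w.2.2.1)
    h.valB h.keysB h.itB
  have hnice : Nice w.2.2.1 ((stepC F G B m0 e.T μ (e.B.s w.2.1 w.2.2.1)).asked w.2.2.1) := by
    rw [hq]
    exact nice_cmp F G e.T w.2.2.1 _ _ _
  rw [hrun, ← hq] at o1
  rw [hrun, ← hq] at o2
  rw [← hq] at o3
  constructor
  · show WI F w.2.2.1 (e.A.s w.1 w.2.2.1).own
      (((stepC F G B m0 e.T μ (e.B.s w.2.1 w.2.2.1)).run w.2.2.1).1).own
      (e.A.q w.1 w.2.2.1)
      (e.B.q w.2.1 w.2.2.1 ++ (stepC F G B m0 e.T μ (e.B.s w.2.1 w.2.2.1)).asked w.2.2.1)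
      (e.kn.map Prod.fst)
      (pre ++ (stepC F G B m0 e.T μ (e.B.s w.2.1 w.2.2.1)).asked w.2.2.1) e.T e.pend
    rw [hrun']
    refine ⟨?_, h.valA, o1, h.keysA, o2, h.itA, o3, ?_, nice_append h.nice hnice, h.tr1, h.tr2,
      h.itW, h.downW, h.prA, ?_, ?_⟩
    · intro d hd' hd
      rcases List.mem_append.1 hd with h1 | h1
      · exact h.all d hd' h1
      · exact hhit d h1 hd'
    · intro d
      rw [List.mem_append, List.mem_append, h.pre_mem]
      tauto
    · intro s hs hsW hhW
      have hsp : (.s s : Th X S J K) ∈ pre :=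
        fresh_h hbp ((h.pre_mem _).2 (Or.inr (Or.inr hhW))) rfl
      refine h.prB s ?_ hsW hhW
      rcases (h.pre_mem _).1 hsp with h1 | h1 | h1
      · rcases List.mem_append.1 hs with h2 | h2
        · exact h2
        · exact absurd (hhit _ h2 h1) hsW
      · exact h1
      · exact absurd h1 hsW
    · intro η o ex r e1
      obtain ⟨h1, h2, s, h3, h4, h5⟩ := h.pr1 _ _ _ _ e1
      refine ⟨h1, h2, s, h3, ?_, h5⟩
      cases o
      · exact List.mem_append.2 (Or.inl h4)
      · exact h4
  · simp only [rl, Finset.mem_filter, Finset.mem_univ, true_and] at hw ⊢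
    refine ⟨hw.1, ⟨hw.2.1, ?_⟩, hw.2.2⟩
    show ((stepC F G B m0 e.T μ (e.B.s w.2.1 w.2.2.1)).run w.2.2.1).2 = _
    rw [hrun']

/-- The messages of a transcript. -/
def flat2 : List (Mg × Mg) → List Mg
  | [] => []
  | (x, y) :: l => x :: y :: flat2 l

end

end Pool.Agent.Nbb
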