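import Pool.Agent.Lib.MP_ae38e0_lc.Nbb.Faith

set_option autoImplicit false

/-!
# The eavesdropper and the compiled parties follow the real execution: row F8
-/

namespace Pool.Agent.Nbb

open Pool.Agent.LinOT Classical

section

variable {X S J K V Mg StA StB RA RB : Type} [Finite X] [Finite S] [Fintype J] [Finite K]
  [Nonempty K] [Fintype RA] [Fintype RB]

variable {F : S → Finset J → Comp X K V} {e : Env X S J K V StA StB RA RB}
  {w : RA × RB × Orc (SV : Th X S J K → Finset (Option J → K))} {pre : List (Th X S J K)}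
  {t : List Mg} {a : StA} {b : StB}

omit [Finite X] [Finite S] [Fintype RA] [Fintype RB] in
private theorem F8_faA (ρ : Qry X S J K → Ans J K V)
    (c : CS StA S J K → Comp (Th X S J K) (Option J → K) (CS StA S J K × Pb Mg V))
    (next : Pb Mg V → PT X S J K V Mg StA StB) (x : Mg)
    (hr : ((c (e.A.s w.1 w.2.2.1)).run w.2.2.1).2 = .msg x)
    (h : Fa ρ t a b (next (.msg x)) (e.upA c (.msg x)) w) :
    Fa ρ (x :: t) a b (.mA (.inl .msg) c next) e w := by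
  have hrs : Proc.rsA SV c e.A w = .msg x := hr
  refine ⟨⟨hr.symm, ?_⟩, ?_⟩
  · rw [hr]
    exact h.1
  · simp only [Proc.lf, Proc.fin, hrs]
    exact h.2

omit [Finite X] [Finite S] [Fintype RA] [Fintype RB] in
private theorem F8_faB (ρ : Qry X S J K → Ans J K V)
    (c : CS StB S J K → Comp (Th X S J K) (Option J → K) (CS StB S J K × Pb Mg V))
    (next : Pb Mg V → PT X S J K V Mg StA StB) (x : Mg)
    (hr : ((c (e.B.s w.2.1 w.2.2.1)).run w.2.2.1).2 = .msg x)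
    (h : Fa ρ t a b (next (.msg x)) (e.upB c (.msg x)) w) :
    Fa ρ (x :: t) a b (.mB (.inl .msg) c next) e w := by
  have hrs : Proc.rsB SV c e.B w = .msg x := hr
  refine ⟨⟨hr.symm, ?_⟩, ?_⟩
  · rw [hr]
    exact h.1
  · simp only [Proc.lf, Proc.fin, hrs]
    exact h.2

private theorem F8_dw (h : WE F e w pre) : Dw SV cel e.A e.B e.kn w :=
  fun c _ h1 h2 => h.1.all c h1 h2

private theorem F8_hitA (h : WE F e w pre)
    (i : (Mg → Pb Mg V) ⊕ Comp (Qry X S J K) (Ans J K V) (Pb Mg V))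
    (c : CS StA S J K → Comp (Th X S J K) (Option J → K) (CS StA S J K × Pb Mg V))
    (next : Pb Mg V → PT X S J K V Mg StA StB) (hQ : Qt (.mA i c next) e w pre) :
    ¬ hitA SV c e.A e.B e.kn w ∧
      ¬ Bad gK w.2.2.1 (pre ++ (c (e.A.s w.1 w.2.2.1)).asked w.2.2.1) := by
  obtain ⟨h1, h2, h3⟩ := hQ
  constructor
  · intro hh
    simp only [Proc.hits] at h1
    rw [if_pos ⟨F8_dw h, hh⟩] at h1
    omega
  · intro hh
    apply h3
    simp only [Proc.flat, Comp.asked_bind]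
    rw [← List.append_assoc]
    exact bad_append hh

omit [Finite X] [Finite S] [Fintype RA] [Fintype RB] in
private theorem F8_qtA (c : CS StA S J K → Comp (Th X S J K) (Option J → K)
      (CS StA S J K × Pb Mg V))
    (i : (Mg → Pb Mg V) ⊕ Comp (Qry X S J K) (Ans J K V) (Pb Mg V))
    (next : Pb Mg V → PT X S J K V Mg StA StB) (x : Mg)
    (hr : ((c (e.A.s w.1 w.2.2.1)).run w.2.2.1).2 = .msg x)
    (hQ : Qt (.mA i c next) e w pre) :
    Qt (next (.msg x)) (e.upA c (.msg x)) w (pre ++ (c (e.A.s w.1 w.2.2.1)).asked w.2.2.1) := by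
  have hrs : Proc.rsA SV c e.A w = .msg x := hr
  obtain ⟨h1, h2, h3⟩ := hQ
  simp only [Proc.hits, hrs] at h1
  simp only [Proc.lf, hrs] at h2
  simp only [Proc.flat, Comp.asked_bind, hr] at h3
  refine ⟨?_, h2, ?_⟩
  · exact (Nat.add_eq_zero_iff.mp h1).2
  · rw [List.append_assoc]
    exact h3

private theorem F8_hitB (h : WE F e w pre)
    (i : (Mg → Pb Mg V) ⊕ Comp (Qry X S J K) (Ans J K V) (Pb Mg V))
    (c : CS StB S J K → Comp (Th X S J K) (Option J → K) (CS StB S J K × Pb Mg V))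
    (next : Pb Mg V → PT X S J K V Mg StA StB) (hQ : Qt (.mB i c next) e w pre) :
    ¬ hitB SV c e.A e.B e.kn w ∧
      ¬ Bad gK w.2.2.1 (pre ++ (c (e.B.s w.2.1 w.2.2.1)).asked w.2.2.1) := by
  obtain ⟨h1, h2, h3⟩ := hQ
  constructor
  · intro hh
    simp only [Proc.hits] at h1
    rw [if_pos ⟨F8_dw h, hh⟩] at h1
    omega
  · intro hh
    apply h3
    simp only [Proc.flat, Comp.asked_bind]
    rw [← List.append_assoc]
    exact bad_append hh

omit [Finite X] [Finite S] [Fintype RA] [Fintype RB] in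
private theorem F8_qtB (c : CS StB S J K → Comp (Th X S J K) (Option J → K)
      (CS StB S J K × Pb Mg V))
    (i : (Mg → Pb Mg V) ⊕ Comp (Qry X S J K) (Ans J K V) (Pb Mg V))
    (next : Pb Mg V → PT X S J K V Mg StA StB) (x : Mg)
    (hr : ((c (e.B.s w.2.1 w.2.2.1)).run w.2.2.1).2 = .msg x)
    (hQ : Qt (.mB i c next) e w pre) :
    Qt (next (.msg x)) (e.upB c (.msg x)) w (pre ++ (c (e.B.s w.2.1 w.2.2.1)).asked w.2.2.1) := by
  have hrs : Proc.rsB SV c e.B w = .msg x := hr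
  obtain ⟨h1, h2, h3⟩ := hQ
  simp only [Proc.hits, hrs] at h1
  simp only [Proc.lf, hrs] at h2
  simp only [Proc.flat, Comp.asked_bind, hr] at h3
  refine ⟨?_, h2, ?_⟩
  · exact (Nat.add_eq_zero_iff.mp h1).2
  · rw [List.append_assoc]
    exact h3

end

section

variable {X S J K V Mg RA RB : Type} [Finite X] [Finite S] [Fintype J] [Finite K]
  [Nonempty K] [Fintype RA] [Fintype RB]

variable {I I' : Type} (A : Party (Qry X S J K) (Ans J K V) Mg I)
  (B : Party (Qry X S J K) (Ans J K V) Mg I')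

variable {F : S → Finset J → Comp X K V} {G : V → Finset J → Comp X K V} {n m N L : ℕ}
  {e : Env X S J K V A.St B.St RA RB}
  {w : RA × RB × Orc (SV : Th X S J K → Finset (Option J → K))} {pre : List (Th X S J K)}

/-- Row F8. -/
theorem build_fa (hF : ∀ f s A, ((F s A).asked f).length ≤ m)
    (hG' : ∀ f v A, ((G v A).asked f).length ≤ m)
    (hG : ∀ f s A, ∀ B, A ⊆ B → (G ((F s B).run f) A).run f = (F s A).run f) (m0 : Mg) :
    ∀ (r : ℕ) (μ : Mg) (j : ℕ) (e : Env X S J K V A.St B.St RA RB) (pre : List (Th X S J K)),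
      GI n m e → WE F e w pre →
      (A.asked (wd F w.2.2.1) (e.A.s w.1 w.2.2.1).st
        (inbox μ (exec A B (wd F w.2.2.1) r (e.A.s w.1 w.2.2.1).st
          (e.B.s w.2.1 w.2.2.1).st μ).1)).length ≤ (e.A.s w.1 w.2.2.1).fuel →
      (B.asked (wd F w.2.2.1) (e.B.s w.2.1 w.2.2.1).st
        (exec A B (wd F w.2.2.1) r (e.A.s w.1 w.2.2.1).st
          (e.B.s w.2.1 w.2.2.1).st μ).1).length ≤ (e.B.s w.2.1 w.2.2.1).fuel →
      Qt (build A B F G m0 N L r μ j e) e w pre →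
      Fa (wd F w.2.2.1)
        (flat2 (exec A B (wd F w.2.2.1) r (e.A.s w.1 w.2.2.1).st (e.B.s w.2.1 w.2.2.1).st μ).1)
        (exec A B (wd F w.2.2.1) r (e.A.s w.1 w.2.2.1).st (e.B.s w.2.1 w.2.2.1).st μ).2.1
        (exec A B (wd F w.2.2.1) r (e.A.s w.1 w.2.2.1).st (e.B.s w.2.1 w.2.2.1).st μ).2.2
        (build A B F G m0 N L r μ j e) e w := by
  intro r
  induction r with
  | zero =>
    intro μ j e pre hg h _ _ hQ
    refine closeT_fa hF (fun _ _ => .stop 0) j e pre hg h ?_ hQ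
    intro j' e' pre' _ _ hs _ _
    refine ⟨trivial, fun _ => ⟨?_, ?_⟩⟩
    · simp only [Proc.fin, exec, hs.1]
    · simp only [Proc.fin, exec, hs.2]
  | succ r ih =>
    intro μ j e pre hg h hfA hfB hQ
    obtain ⟨sA, hsA⟩ : ∃ s, s = e.A.s w.1 w.2.2.1 := ⟨_, rfl⟩
    obtain ⟨sB, hsB⟩ : ∃ s, s = e.B.s w.2.1 w.2.2.1 := ⟨_, rfl⟩
    rw [← hsA, ← hsB] at hfA hfB ⊢
    obtain ⟨p, hp⟩ : ∃ p, p = (A.step sA.st μ).run (wd F w.2.2.1) := ⟨_, rfl⟩
    obtain ⟨q, hq⟩ : ∃ q, q = (B.step sB.st p.2).run (wd F w.2.2.1) := ⟨_, rfl⟩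
    obtain ⟨rr, hrr⟩ : ∃ rr, rr = exec A B (wd F w.2.2.1) r p.1 q.1 q.2 := ⟨_, rfl⟩
    have hex : exec A B (wd F w.2.2.1) (r + 1) sA.st sB.st μ =
        ((p.2, q.2) :: rr.1, rr.2.1, rr.2.2) := by
      rw [hrr, hq, hp]
      rfl
    rw [hex] at hfA hfB ⊢
    simp only [inbox, Party.asked, ← hp, ← hq, List.length_append] at hfA hfB
    simp only [flat2]
    refine closeT_fa hF _ j e pre hg h ?_ hQ
    intro j1 e1 pre1 hg1 h1 hs1 hl1 hQ1
    have hp1 : e1.pend = none := hl1.2.2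
    have hA1 : e1.A.s w.1 w.2.2.1 = sA := by rw [hs1.1, hsA]
    have hB1 : e1.B.s w.2.1 w.2.2.1 = sB := by rw [hs1.2, hsB]
    obtain ⟨hh1, hb1⟩ := F8_hitA h1 _ _ _ hQ1
    obtain ⟨own1, hr1, hw1⟩ := msgA_fa A B hG m0 μ h1 hp1 (by rw [hA1]; omega) hb1 hh1
    rw [hA1, ← hp] at hr1
    rw [hA1, ← hp] at hw1
    have hr1' : ((stepC F G A m0 e1.T μ (e1.A.s w.1 w.2.2.1)).run w.2.2.1).2 = .msg p.2 := by
      rw [hA1, hr1]
    have hQ1' := F8_qtA _ _ _ p.2 hr1' hQ1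
    refine F8_faA _ _ _ p.2 hr1' ?_
    have hg2 := gi_msgA A B F G hF hG' m0 μ e1 hg1 hp1 e1.T (.msg p.2)
    refine closeT_fa hF _ j1 (e1.upA (stepC F G A m0 e1.T μ) (.msg p.2)) _ hg2 hw1 ?_ (by
      rw [hA1] at hQ1'
      exact hQ1')
    intro j3 e3 pre3 hg3 h3 hs3 hl3 hQ3
    have hp3 : e3.pend = none := hl3.2.2
    have hA3 : e3.A.s w.1 w.2.2.1 = ⟨p.1, own1, sA.fuel -
        ((A.step sA.st μ).asked (wd F w.2.2.1)).length⟩ := by
      rw [hs3.1]
      show ((stepC F G A m0 e1.T μ (e1.A.s w.1 w.2.2.1)).run w.2.2.1).1 = _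
      rw [hA1, hr1]
    have hB3 : e3.B.s w.2.1 w.2.2.1 = sB := by
      rw [hs3.2]
      exact hB1
    obtain ⟨hh3, hb3⟩ := F8_hitB h3 _ _ _ hQ3
    obtain ⟨own3, hr3, hw3⟩ := msgB_fa A B hG m0 p.2 h3 hp3 (by rw [hB3]; omega) hb3 hh3
    rw [hB3, ← hq] at hr3
    rw [hB3, ← hq] at hw3
    have hr3' : ((stepC F G B m0 e3.T p.2 (e3.B.s w.2.1 w.2.2.1)).run w.2.2.1).2 =
        .msg q.2 := by
      rw [hB3, hr3]
    have hQ3' := F8_qtB _ _ _ q.2 hr3' hQ3
    refine F8_faB _ _ _ q.2 hr3' ?_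
    have hg4 := gi_msgB A B F G hF hG' m0 p.2 e3 hg3 hp3 e3.T (.msg q.2)
    have hA4 : (e3.upB (stepC F G B m0 e3.T p.2) (.msg q.2)).A.s w.1 w.2.2.1 =
        ⟨p.1, own1, sA.fuel - ((A.step sA.st μ).asked (wd F w.2.2.1)).length⟩ := hA3
    have hB4 : (e3.upB (stepC F G B m0 e3.T p.2) (.msg q.2)).B.s w.2.1 w.2.2.1 =
        ⟨q.1, own3, sB.fuel - ((B.step sB.st p.2).asked (wd F w.2.2.1)).length⟩ := by
      show ((stepC F G B m0 e3.T p.2 (e3.B.s w.2.1 w.2.2.1)).run w.2.2.1).1 = _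
      rw [hB3, hr3]
    have key := ih q.2 j3 (e3.upB (stepC F G B m0 e3.T p.2) (.msg q.2)) _ hg4 hw3
    rw [hA4, hB4] at key
    simp only [← hrr] at key
    refine key ?_ ?_ ?_
    · omega
    · omega
    · rw [hB3] at hQ3'
      exact hQ3'

end

end Pool.Agent.Nbb
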