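import Pool.Agent.Lib.MP_ae38e0_lc.Nbb.World

import Pool.Agent.Lib.MP_ae38e0_lc.Nbb.Fresh

set_option autoImplicit false

/-!
# Local answers are the real ones (rows K0, K1)
-/

namespace Pool.Agent.Nbb

open Pool.Agent.LinOT Classical

variable {X S J K V α : Type} [Fintype J]

/-- The real oracle which belongs to an oracle on the things. -/
noncomputable def wd (F : S → Finset J → Comp X K V) (O : Th X S J K → Option J → K) :
    Qry X S J K → Ans J K V := orc F (fO O) (LO O)

/-- The item `d` matches the value `v` of the key `y`. -/
def gK (d y : Th X S J K) (v : Option J → K) : Prop :=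
  match d, y with
  | .h η, .s _ => v none = η
  | .l _ j π, .s _ => v (some j) = π
  | _, _ => False

/-- Each key of the list is followed by its handle. -/
def Nice (O : Th X S J K → Option J → K) (l : List (Th X S J K)) : Prop :=
  ∀ l1 s l2, l = l1 ++ .s s :: l2 → ∃ l3, l2 = .h (O (.s s) none) :: l3

/-! ## Row K0a: basic facts -/

omit [Fintype J] in
theorem run_lift (O : Th X S J K → Option J → K) (c : Comp X K α) :
    (lift c : Comp (Th X S J K) (Option J → K) α).run O = c.run (fO O) := by
  induction c with
  | ret a => rfl
  | ask x next ih => exact ih (O (.x x) none)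

omit [Fintype J] in
theorem asked_lift (O : Th X S J K → Option J → K) (c : Comp X K α) :
    (lift c : Comp (Th X S J K) (Option J → K) α).asked O = (c.asked (fO O)).map .x := by
  induction c with
  | ret a => rfl
  | ask x next ih =>
    have h := ih (O (.x x) none)
    simp only [lift, Comp.asked_ask, List.map_cons, List.cons.injEq, true_and]
    exact h

omit [Fintype J] in
private theorem K0a_nil (O : Th X S J K → Option J → K) : Nice O [] := by
  intro l1 s l2 h
  simp at h

omit [Fintype J] in
theorem nice_append {O : Th X S J K → Option J → K} {l l' : List (Th X S J K)} (h : Nice O l)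
    (h' : Nice O l') : Nice O (l ++ l') := by
  intro l1 s l2 he
  rcases List.append_eq_append_iff.1 he with ⟨a, -, ha⟩ | ⟨c, hc1, hc2⟩
  · exact h' a s l2 ha
  · cases c with
    | nil => exact h' [] s l2 hc2.symm
    | cons d c =>
      simp only [List.cons_append, List.cons.injEq] at hc2
      obtain ⟨rfl, rfl⟩ := hc2
      obtain ⟨l3, rfl⟩ := h l1 s c hc1
      exact ⟨l3 ++ l', rfl⟩

omit [Fintype J] in
/-- A touched handle is the handle of a key of the list only. -/
theorem fresh_h {O : Th X S J K → Option J → K} {l : List (Th X S J K)}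
    (h : ¬ Bad gK O l) {s : S} {η : K} (hη : .h η ∈ l) (hs : O (.s s) none = η) : .s s ∈ l := by
  by_contra hn
  obtain ⟨i, hi⟩ := List.mem_iff_getElem?.1 hη
  exact h ⟨i, .h η, .s s, hi, hs, fun hm => hn (List.mem_of_mem_take hm)⟩

omit [Fintype J] in
/-- A touched label is a label of keys of the list only. -/
theorem fresh_l {O : Th X S J K → Option J → K} {l : List (Th X S J K)}
    (h : ¬ Bad gK O l) {s : S} {η π : K} {j : J} (hη : .l η j π ∈ l)
    (hs : O (.s s) (some j) = π) : .s s ∈ l := by
  by_contra hn
  obtain ⟨i, hi⟩ := List.mem_iff_getElem?.1 hη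
  exact h ⟨i, .l η j π, .s s, hi, hs, fun hm => hn (List.mem_of_mem_take hm)⟩

omit [Fintype J] in
private theorem K0a_uniq {O : Th X S J K → Option J → K} {l l1 l2 : List (Th X S J K)}
    (h : ¬ Bad gK O l) (hn : Nice O l) {s s' : S} (hl : l = l1 ++ .s s :: l2) (hs' : .s s' ∉ l1)
    (he : O (.s s) none = O (.s s') none) : s = s' := by
  by_contra hne
  obtain ⟨l3, rfl⟩ := hn l1 s l2 hl
  refine h ⟨l1.length + 1, .h (O (.s s) none), .s s', ?_, he.symm, ?_⟩
  · rw [hl, List.getElem?_append_right (by omega)]
    simp
  · rw [hl]
    intro hm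
    rw [List.take_append] at hm
    simp only [List.take_of_length_le (show l1.length ≤ l1.length + 1 by omega),
      Nat.add_sub_cancel_left, List.take_succ_cons, List.take_zero, List.mem_append,
      List.mem_singleton, Th.s.injEq] at hm
    rcases hm with hm | hm
    · exact hs' hm
    · exact hne hm.symm

omit [Fintype J] in
/-- Different keys of the list have different handles. -/
theorem uniq {O : Th X S J K → Option J → K} {l : List (Th X S J K)} (h : ¬ Bad gK O l)
    (hn : Nice O l) {s s' : S} (hs : .s s ∈ l) (hs' : .s s' ∈ l)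
    (he : O (.s s) none = O (.s s') none) : s = s' := by
  obtain ⟨a, b, hab, ha⟩ := List.eq_append_cons_of_mem hs
  by_cases hc : .s s' ∈ a
  · obtain ⟨c, d, rfl⟩ := List.append_of_mem hc
    have hl : l = c ++ .s s' :: (d ++ .s s :: b) := by rw [hab]; simp
    have hsc : .s s ∉ c := fun hm => ha (List.mem_append_left _ hm)
    exact (K0a_uniq h hn hl hsc he.symm).symm
  · exact K0a_uniq h hn hab hc he

omit [Fintype J] in
theorem bad_append {O : Th X S J K → Option J → K} {l l' : List (Th X S J K)}
    (h : Bad gK O l) : Bad gK O (l ++ l') := by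
  obtain ⟨i, d, y, h1, h2, h3⟩ := h
  have hi : i < l.length := by
    by_contra hc
    rw [List.getElem?_eq_none (by omega)] at h1
    exact absurd h1 (by simp)
  refine ⟨i, d, y, ?_, h2, ?_⟩
  · rw [List.getElem?_append_left hi, h1]
  · rw [List.take_append_of_le_length hi.le]
    exact h3

theorem mem_items {v : Option J → K} {d : Th X S J K} :
    d ∈ (items v : List (Th X S J K)) ↔ d = .h (v none) ∨ ∃ j, d = .l (v none) j (v (some j)) := by
  simp only [items, List.mem_cons, List.mem_map, Finset.mem_toList, Finset.mem_univ, true_and]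
  constructor
  · rintro (h | ⟨j, h⟩)
    · exact Or.inl h
    · exact Or.inr ⟨j, h.symm⟩
  · rintro (h | ⟨j, h⟩)
    · exact Or.inl h
    · exact Or.inr ⟨j, h.symm⟩

theorem mem_itev {η : K} {a : J → Option K} {d : Th X S J K} :
    d ∈ (itev η a : List (Th X S J K)) ↔ d = .h η ∨ ∃ j π, a j = some π ∧ d = .l η j π := by
  simp only [itev, List.mem_cons, List.mem_filterMap, Finset.mem_toList, Finset.mem_univ, true_and,
    Option.map_eq_some_iff]
  constructor
  · rintro (h | ⟨j, π, h1, h2⟩)
    · exact Or.inl h
    · exact Or.inr ⟨j, π, h1, h2.symm⟩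
  · rintro (h | ⟨j, π, h1, h2⟩)
    · exact Or.inl h
    · exact Or.inr ⟨j, π, h1, h2.symm⟩

theorem length_items (v : Option J → K) :
    (items v : List (Th X S J K)).length = Fintype.card J + 1 := by
  simp [items, Finset.length_toList, Finset.card_univ]

theorem length_itev (η : K) (a : J → Option K) :
    (itev η a : List (Th X S J K)).length ≤ Fintype.card J + 1 := by
  simp only [itev, List.length_cons]
  refine Nat.succ_le_succ ((List.length_filterMap_le _ _).trans ?_)
  rw [Finset.length_toList, Finset.card_univ]

omit [Fintype J] in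
private theorem K0a_nos {O : Th X S J K → Option J → K} {l : List (Th X S J K)}
    (h : ∀ s, .s s ∉ l) : Nice O l := by
  intro l1 s l2 he
  exact absurd (he ▸ List.mem_append_right _ List.mem_cons_self) (h s)

theorem nice_items (O : Th X S J K → Option J → K) (v : Option J → K) :
    Nice O (items v : List (Th X S J K)) := by
  refine K0a_nos fun s hs => ?_
  rcases mem_items.1 hs with h | ⟨j, h⟩ <;> exact absurd h (by simp)

theorem nice_itev (O : Th X S J K → Option J → K) (η : K) (a : J → Option K) :
    Nice O (itev η a : List (Th X S J K)) := by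
  refine K0a_nos fun s hs => ?_
  rcases mem_itev.1 hs with h | ⟨j, π, -, h⟩ <;> exact absurd h (by simp)

omit [Fintype J] in
theorem lkup_some {own : Own S J K} {η : K} {e : S × (Option J → K)} (h : lkup own η = some e) :
    e ∈ own ∧ e.2 none = η := by
  refine ⟨List.mem_of_find?_eq_some h, ?_⟩
  have := List.find?_some h
  simpa using this

omit [Fintype J] in
theorem lkup_none {own : Own S J K} {η : K} (h : lkup own η = none) :
    ∀ e ∈ own, e.2 none ≠ η := by
  intro e he
  have := List.find?_eq_none.1 h e he
  simpa using this

/-- The local evaluation touches only cells of `f`. -/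
theorem evA_cells (F : S → Finset J → Comp X K V) (G : V → Finset J → Comp X K V)
    (own : Own S J K) (T : Tb S J K V) (η : K) (a : J → Option K)
    (O : Th X S J K → Option J → K) :
    ∀ d ∈ (evA F G own T η a).asked O, ∃ x, d = .x x := by
  intro d hd
  unfold evA at hd
  repeat' split at hd
  all_goals
    simp only [Comp.asked_bind, Comp.asked_ret, List.append_nil, asked_lift, List.mem_map,
      List.not_mem_nil] at hd
  all_goals
    obtain ⟨x, -, hx⟩ := hd
    exact ⟨x, hx.symm⟩

theorem evA_len (F : S → Finset J → Comp X K V) (G : V → Finset J → Comp X K V) (m : ℕ)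
    (hF : ∀ f s A, ((F s A).asked f).length ≤ m) (hG : ∀ f v A, ((G v A).asked f).length ≤ m)
    (own : Own S J K) (T : Tb S J K V) (η : K) (a : J → Option K)
    (O : Th X S J K → Option J → K) : ((evA F G own T η a).asked O).length ≤ m := by
  unfold evA
  repeat' split
  all_goals
    simp only [Comp.asked_bind, Comp.asked_ret, List.append_nil, asked_lift, List.length_map,
      List.length_nil, Nat.zero_le]
  · exact hF _ _ _
  · exact hF _ _ _
  · exact hG _ _ _

omit [Fintype J] in
private theorem K0a_cons {O : Th X S J K → Option J → K} {l : List (Th X S J K)} {s : S}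
    (h : Nice O l) (h1 : ∃ l3, l = .h (O (.s s) none) :: l3) : Nice O (.s s :: l) := by
  intro l1 s' l2 he
  cases l1 with
  | nil =>
    simp only [List.nil_append, List.cons.injEq, Th.s.injEq] at he
    obtain ⟨rfl, rfl⟩ := he
    exact h1
  | cons d l1 =>
    simp only [List.cons_append, List.cons.injEq] at he
    exact h l1 s' l2 he.2

/-- Each computation of the compiled party lists a key followed by its handle. -/
theorem nice_cmp (F : S → Finset J → Comp X K V) (G : V → Finset J → Comp X K V) (T : Tb S J K V)
    (O : Th X S J K → Option J → K) (c : Comp (Qry X S J K) (Ans J K V) α) (own : Own S J K)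
    (n : ℕ) : Nice O ((cmp F G T c own n).asked O) := by
  induction c generalizing own n with
  | ret a => exact K0a_nil O
  | ask q next ih =>
    cases n with
    | zero =>
      cases q <;> exact K0a_nil O
    | succ n =>
      cases q with
      | f x =>
        simp only [cmp, Comp.asked_ask]
        have : Nice O [(.x x : Th X S J K)] := K0a_nos (by intro s; simp)
        exact nice_append this (ih _ _ _)
      | enc s =>
        simp only [cmp, Comp.asked_ask, Comp.asked_bind, Comp.asked_askAll, Comp.run_askAll]
        refine K0a_cons (nice_append (nice_items _ _) (ih _ _ _)) ?_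
        exact ⟨_, rfl⟩
      | ev η a =>
        simp only [cmp, Comp.asked_bind, Comp.asked_askAll, Comp.run_askAll]
        refine nice_append (nice_itev _ _ _) (nice_append (K0a_nos ?_) (ih _ _ _))
        intro s hs
        obtain ⟨x, hx⟩ := evA_cells F G own T η a O _ hs
        exact absurd hx (by simp)

/-! ## The context of a running party -/

/-- What holds when a party with the keys `own` runs: `Yq` are the things touched by the other
party, `W` the known things, `pre` all things touched so far. -/
structure Rt (F : S → Finset J → Comp X K V) (O : Th X S J K → Option J → K) (T : Tb S J K V)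
    (Yq W : List (Th X S J K)) (own : Own S J K) (pre : List (Th X S J K)) : Prop where
  val : ∀ e ∈ own, e.2 = O (.s e.1) ∧ .s e.1 ∈ pre
  keys : ∀ s, .s s ∈ pre → (∃ e ∈ own, e.1 = s) ∨ .s s ∈ Yq ∨ .s s ∈ W
  yp : ∀ d ∈ Yq, d ∈ pre
  wp : ∀ d ∈ W, d ∈ pre
  nice : Nice O pre
  yi : ∀ s, .s s ∈ Yq → ∀ d ∈ items (O (.s s)), d ∈ Yq
  tr1 : ∀ s, .s s ∈ W → T.tr (O (.s s) none) = some (s, O (.s s))
  tr2 : ∀ η e, T.tr η = some e → .s e.1 ∈ W ∧ e.2 = O (.s e.1) ∧ e.2 none = η
  pr1 : ∀ s, .s s ∈ Yq → .s s ∉ W → .h (O (.s s) none) ∈ W → ∃ o ex,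
    T.pr (O (.s s) none) = some (o, ex, some ((F s (dom ex)).run (fO O))) ∧
      mtch ex (O (.s s)) ∧
      ∀ j, .l (O (.s s) none) j (O (.s s) (some j)) ∈ W → ex j = some (O (.s s) (some j))
  pr2 : ∀ η o ex v, T.pr η = some (o, ex, some v) → ∃ s, .s s ∈ pre ∧ O (.s s) none = η ∧
    mtch ex (O (.s s)) ∧ v = (F s (dom ex)).run (fO O)

/-- The evaluation of the real world in terms of unique handles: if all keys with handle `η` are
`s`, it is the evaluation of `s` when the labels match, and fails otherwise. -/
theorem orc_ev_some (F : S → Finset J → Comp X K V) (O : Th X S J K → Option J → K) (η : K)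
    (a : J → Option K) (s : S) (h1 : O (.s s) none = η) (h2 : mtch a (O (.s s)))
    (h3 : ∀ s', O (.s s') none = η → s' = s) :
    wd F O (.ev η a) = .res (some ((F s (dom a)).run (fO O))) := by
  have h : ∃! s, LO O s none = η ∧ mtch a (LO O s) :=
    ⟨s, ⟨h1, h2⟩, fun s' hs' => h3 s' hs'.1⟩
  have hc : h.choose = s := h3 _ h.choose_spec.1.1
  show Ans.res (if h : ∃! s, LO O s none = η ∧ mtch a (LO O s) then
      some ((F h.choose (dom a)).run (fO O)) else none) = _
  rw [dif_pos h, hc]

theorem orc_ev_none (F : S → Finset J → Comp X K V) (O : Th X S J K → Option J → K) (η : K)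
    (a : J → Option K) (h : ∀ s, O (.s s) none = η → ¬ mtch a (O (.s s))) :
    wd F O (.ev η a) = .res none := by
  have h' : ¬ ∃! s, LO O s none = η ∧ mtch a (LO O s) := by
    rintro ⟨s, ⟨h1, h2⟩, -⟩
    exact h s h1 h2
  show Ans.res (if h : ∃! s, LO O s none = η ∧ mtch a (LO O s) then
      some ((F h.choose (dom a)).run (fO O)) else none) = _
  rw [dif_neg h']

/-- Row K0.  The local answer is right.  Let `pre` contain the items of the query.  If some key `s`
has the handle `η` then it is in `pre` (`fresh_h`), and it is the only one (`uniq`).  It is own, or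
known (then `tr1`), or a private key of the other party; then `.h η` is touched by both, so it is in
`W` (`hW`), and `pr1` applies; if the labels match they are touched by both, so in `W` and in `ex`;
then use `hG`.  If no key has the handle `η` then all three lookups fail (`val`, `tr2`, `pr2`). -/
theorem evA_run (F : S → Finset J → Comp X K V) (G : V → Finset J → Comp X K V)
    (hG : ∀ f s A B, A ⊆ B → (G ((F s B).run f) A).run f = (F s A).run f)
    (O : Th X S J K → Option J → K) (T : Tb S J K V) (Yq W : List (Th X S J K))
    (own : Own S J K) (pre : List (Th X S J K)) (h : Rt F O T Yq W own pre)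
    (hb : ¬ Bad gK O pre) (η : K) (a : J → Option K) (hp : ∀ d ∈ itev η a, d ∈ pre)
    (hW : ∀ d ∈ itev η a, d ∈ Yq → d ∈ W) :
    .res ((evA F G own T η a).run O) = wd F O (.ev η a) := by
  have hη : (.h η : Th X S J K) ∈ itev η a := mem_itev.2 (Or.inl rfl)
  have hpre : ∀ s, O (.s s) none = η → (.s s : Th X S J K) ∈ pre := fun s hs =>
    fresh_h hb (hp _ hη) hs
  have huniq : ∀ s s', O (.s s) none = η → O (.s s') none = η → s' = s := fun s s' hs hs' =>
    uniq hb h.nice (hpre s' hs') (hpre s hs) (hs'.trans hs.symm)
  have key : ∀ s : S, O (.s s) none = η →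
      .res ((if mtch a (O (.s s)) then (lift (F s (dom a))).bind fun v => .ret (some v)
        else .ret none : Comp (Th X S J K) (Option J → K) (Option V)).run O) =
        wd F O (.ev η a) := by
    intro s hs
    by_cases hm : mtch a (O (.s s))
    · rw [if_pos hm, orc_ev_some F O η a s hs hm (huniq s · hs), Comp.run_bind, run_lift]
      rfl
    · rw [if_neg hm, orc_ev_none F O η a (fun s' hs' => by rw [huniq s s' hs hs']; exact hm)]
      rfl
  -- a key which is neither own nor known
  have hY : lkup own η = none → T.tr η = none → ∀ s, O (.s s) none = η →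
      (∃ o ex, T.pr η = some (o, ex, some ((F s (dom ex)).run (fO O))) ∧ mtch ex (O (.s s)) ∧
        (mtch a (O (.s s)) → ∀ j π, a j = some π → ex j = some π)) := by
    intro hl ht s hs
    have hnW : (.s s : Th X S J K) ∉ W := by
      intro hsW
      have := h.tr1 s hsW
      rw [hs, ht] at this
      exact absurd this (by simp)
    have hsY : (.s s : Th X S J K) ∈ Yq := by
      rcases h.keys s (hpre s hs) with ⟨e, he, hes⟩ | h1 | h1
      · exfalso
        refine lkup_none hl e he ?_
        rw [(h.val e he).1, hes]
        exact hs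
      · exact h1
      · exact absurd h1 hnW
    have hhW : (.h (O (.s s) none) : Th X S J K) ∈ W := by
      refine hW _ ?_ (h.yi s hsY _ (mem_items.2 (Or.inl rfl)))
      rw [hs]
      exact hη
    obtain ⟨o, ex, h1, h2, h3⟩ := h.pr1 s hsY hnW hhW
    rw [hs] at h1
    refine ⟨o, ex, h1, h2, fun hm j π hj => ?_⟩
    have h4 : O (.s s) (some j) = π := hm j π hj
    rw [← h4]
    refine h3 j (hW _ ?_ (h.yi s hsY _ (mem_items.2 (Or.inr ⟨j, rfl⟩))))
    rw [hs, h4]
    exact mem_itev.2 (Or.inr ⟨j, π, hj, rfl⟩)
  unfold evA
  rcases hl : lkup own η with _ | e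
  · rcases ht : T.tr η with _ | e
    · rcases hr : T.pr η with _ | ⟨o, ex, _ | v⟩
      · dsimp only
        rw [orc_ev_none F O η a (fun s hs => ?_)]
        · rfl
        · obtain ⟨o, ex, h1, -⟩ := hY hl ht s hs
          rw [hr] at h1
          exact absurd h1 (by simp)
      · dsimp only
        rw [orc_ev_none F O η a (fun s hs => ?_)]
        · rfl
        · obtain ⟨o, ex, h1, -⟩ := hY hl ht s hs
          rw [hr] at h1
          exact absurd h1 (by simp)
      · dsimp only
        obtain ⟨s, hsp, hs, hm, hv⟩ := h.pr2 η o ex v hr
        obtain ⟨o', ex', h1, -, h3⟩ := hY hl ht s hs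
        rw [hr] at h1
        have hex : ex' = ex := by
          simp only [Option.some.injEq, Prod.mk.injEq] at h1
          exact h1.2.1.symm
        rw [hex] at h3
        by_cases hc : ∀ j π, a j = some π → ex j = some π
        · rw [if_pos hc, Comp.run_bind, run_lift]
          have hma : mtch a (O (.s s)) := fun j π hj => hm j π (hc j π hj)
          rw [orc_ev_some F O η a s hs hma (huniq s · hs), hv,
            hG (fO O) s (dom a) (dom ex) ?_]
          · rfl
          · intro j hj
            unfold dom at hj ⊢
            rw [Finset.mem_filter] at hj ⊢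
            refine ⟨Finset.mem_univ _, ?_⟩
            obtain ⟨π, hπ⟩ := Option.isSome_iff_exists.1 hj.2
            rw [hc j π hπ]
            rfl
        · rw [if_neg hc, orc_ev_none F O η a (fun s' hs' => ?_)]
          · rfl
          · rw [huniq s s' hs hs']
            exact fun hma => hc (h3 hma)
    · dsimp only
      obtain ⟨-, h2, h3⟩ := h.tr2 η e ht
      rw [h2]
      exact key e.1 (by rw [← h2]; exact h3)
  · dsimp only
    obtain ⟨h1, h2⟩ := lkup_some hl
    have h3 := (h.val e h1).1
    rw [h3]
    exact key e.1 (by rw [← h3]; exact h2)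

omit [Fintype J] in
private theorem K1_nice_of_no {O : Th X S J K → Option J → K} {l : List (Th X S J K)}
    (h : ∀ s, Th.s s ∉ l) : Nice O l := by
  intro l1 s l2 e
  exact absurd (by rw [e]; simp) (h s)

omit [Fintype J] in
private theorem K1_nice_key [Fintype J] (O : Th X S J K → Option J → K) (s : S) :
    Nice O (Th.s s :: items (O (.s s))) := by
  intro l1 s' l2 e
  cases l1 with
  | nil =>
    rw [List.nil_append] at e
    injection e with e1 e2
    injection e1 with e1
    subst e1
    exact ⟨_, e2.symm⟩
  | cons d l1 =>
    rw [List.cons_append] at e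
    injection e with e1 e2
    exact nice_items O _ l1 s' l2 e2

private theorem K1_rt_append {F : S → Finset J → Comp X K V} {O : Th X S J K → Option J → K}
    {T : Tb S J K V} {Yq W : List (Th X S J K)} {own : Own S J K} {pre l : List (Th X S J K)}
    (h : Rt F O T Yq W own pre) (hl : ∀ s, Th.s s ∉ l) : Rt F O T Yq W own (pre ++ l) where
  val := fun e he => ⟨(h.val e he).1, List.mem_append_left _ (h.val e he).2⟩
  keys := fun s hs => by
    rcases List.mem_append.1 hs with hs | hs
    · exact h.keys s hs
    · exact absurd hs (hl s)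
  yp := fun d hd => List.mem_append_left _ (h.yp d hd)
  wp := fun d hd => List.mem_append_left _ (h.wp d hd)
  nice := nice_append h.nice (K1_nice_of_no hl)
  yi := h.yi
  tr1 := h.tr1
  tr2 := h.tr2
  pr1 := h.pr1
  pr2 := fun η o ex v hv => by
    obtain ⟨s, h1, h2⟩ := h.pr2 η o ex v hv
    exact ⟨s, List.mem_append_left _ h1, h2⟩

private theorem K1_no_items (v : Option J → K) (s : S) :
    Th.s s ∉ (items v : List (Th X S J K)) := by
  intro h
  rcases mem_items.1 h with h | ⟨j, h⟩ <;> cases h

private theorem K1_no_itev (η : K) (a : J → Option K) (s : S) :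
    Th.s s ∉ (itev η a : List (Th X S J K)) := by
  intro h
  rcases mem_itev.1 h with h | ⟨j, π, _, h⟩ <;> cases h

private theorem K1_rt_enc {F : S → Finset J → Comp X K V} {O : Th X S J K → Option J → K}
    {T : Tb S J K V} {Yq W : List (Th X S J K)} {own : Own S J K} {pre : List (Th X S J K)}
    (h : Rt F O T Yq W own pre) (s : S) :
    Rt F O T Yq W (own ++ [(s, O (.s s))]) (pre ++ (Th.s s :: items (O (.s s)))) where
  val := fun e he => by
    rcases List.mem_append.1 he with he | he
    · exact ⟨(h.val e he).1, List.mem_append_left _ (h.val e he).2⟩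
    · rw [List.mem_singleton] at he
      subst he
      exact ⟨rfl, List.mem_append_right _ (List.mem_cons_self)⟩
  keys := fun s' hs => by
    rcases List.mem_append.1 hs with hs | hs
    · rcases h.keys s' hs with ⟨e, he, h1⟩ | h1
      · exact Or.inl ⟨e, List.mem_append_left _ he, h1⟩
      · exact Or.inr h1
    · rcases List.mem_cons.1 hs with hs | hs
      · injection hs with hs
        exact Or.inl ⟨(s, O (.s s)), List.mem_append_right _ (List.mem_singleton.2 rfl), hs.symm⟩
      · exact absurd hs (K1_no_items _ s')
  yp := fun d hd => List.mem_append_left _ (h.yp d hd)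
  wp := fun d hd => List.mem_append_left _ (h.wp d hd)
  nice := nice_append h.nice (K1_nice_key O s)
  yi := h.yi
  tr1 := h.tr1
  tr2 := h.tr2
  pr1 := h.pr1
  pr2 := fun η o ex v hv => by
    obtain ⟨s, h1, h2⟩ := h.pr2 η o ex v hv
    exact ⟨s, List.mem_append_left _ h1, h2⟩

/-- Row K1.  Induction on `c`; `l` is the list of the compiled computation. -/
theorem cmp_run (F : S → Finset J → Comp X K V) (G : V → Finset J → Comp X K V)
    (hG : ∀ f s A B, A ⊆ B → (G ((F s B).run f) A).run f = (F s A).run f)
    (O : Th X S J K → Option J → K) (T : Tb S J K V) (Yq W : List (Th X S J K))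
    (c : Comp (Qry X S J K) (Ans J K V) α) : ∀ (own : Own S J K) (pre : List (Th X S J K)) (n : ℕ),
    Rt F O T Yq W own pre → (c.asked (wd F O)).length ≤ n →
    ¬ Bad gK O (pre ++ (cmp F G T c own n).asked O) →
    (∀ d ∈ (cmp F G T c own n).asked O, d ∈ Yq → d ∈ W) →
    ∃ own', (cmp F G T c own n).run O =
        (some (c.run (wd F O)), own', n - (c.asked (wd F O)).length) ∧
      Rt F O T Yq W own' (pre ++ (cmp F G T c own n).asked O) := by
  induction c with
  | ret a =>
    intro own pre n hR hn hb hw
    have e : cmp F G T (.ret a) own n = .ret (some a, own, n) := by rw [cmp]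
    rw [e]
    refine ⟨own, rfl, ?_⟩
    rw [Comp.asked_ret, List.append_nil]
    exact hR
  | ask q next ih =>
    intro own pre n hR hn hb hw
    rw [Comp.asked_ask, List.length_cons] at hn
    cases n with
    | zero => exact absurd hn (Nat.not_succ_le_zero _)
    | succ n =>
      have hn' : ((next (wd F O q)).asked (wd F O)).length ≤ n := Nat.le_of_succ_le_succ hn
      rw [Comp.run_ask, Comp.asked_ask, List.length_cons, Nat.succ_sub_succ]
      cases q with
      | f x =>
        have e : cmp F G T (.ask (.f x) next) own (n + 1) =
            .ask (.x x) fun v => cmp F G T (next (.val (v none))) own n := by rw [cmp]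
        rw [e] at hb hw ⊢
        rw [Comp.asked_ask] at hb hw ⊢
        rw [Comp.run_ask]
        have hw' : wd F O (.f x) = .val (O (.x x) none) := rfl
        rw [hw'] at hn' ⊢
        have hl : ∀ s, Th.s s ∉ ([Th.x x] : List (Th X S J K)) := by
          intro s h
          rw [List.mem_singleton] at h
          cases h
        have e2 : ∀ r : List (Th X S J K), pre ++ (Th.x x :: r) = (pre ++ [Th.x x]) ++ r := by
          intro r; simp
        rw [e2] at hb ⊢
        exact ih _ own (pre ++ [Th.x x]) n (K1_rt_append hR hl) hn' hb
          fun d hd => hw d (List.mem_cons_of_mem _ hd)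
      | enc s =>
        have e : cmp F G T (.ask (.enc s) next) own (n + 1) =
            .ask (.s s) fun v => (Comp.askAll (items v)).bind fun _ =>
              cmp F G T (next (.lab v)) (own ++ [(s, v)]) n := by rw [cmp]
        rw [e] at hb hw ⊢
        rw [Comp.asked_ask, Comp.asked_bind, Comp.asked_askAll] at hb hw ⊢
        rw [Comp.run_ask, Comp.run_bind]
        have hw' : wd F O (.enc s) = .lab (O (.s s)) := rfl
        rw [hw'] at hn' ⊢
        have e2 : ∀ r : List (Th X S J K), pre ++ (Th.s s :: (items (O (.s s)) ++ r)) =
            (pre ++ (Th.s s :: items (O (.s s)))) ++ r := by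
          intro r; simp
        rw [e2] at hb ⊢
        exact ih _ (own ++ [(s, O (.s s))]) _ n (K1_rt_enc hR s) hn' hb
          fun d hd => hw d (List.mem_cons_of_mem _ (List.mem_append_right _ hd))
      | ev η a =>
        have e : cmp F G T (.ask (.ev η a) next) own (n + 1) =
            (Comp.askAll (itev η a)).bind fun _ =>
              (evA F G own T η a).bind fun r => cmp F G T (next (.res r)) own n := by rw [cmp]
        rw [e] at hb hw ⊢
        rw [Comp.asked_bind, Comp.asked_askAll, Comp.asked_bind] at hb hw ⊢
        rw [Comp.run_bind, Comp.run_bind]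
        have hR1 : Rt F O T Yq W own (pre ++ itev η a) := K1_rt_append hR (K1_no_itev η a)
        have hb1 : ¬ Bad gK O (pre ++ itev η a) := by
          intro h
          apply hb
          rw [← List.append_assoc]
          exact bad_append h
        have hres := evA_run F G hG O T Yq W own (pre ++ itev η a) hR1 hb1 η a
          (fun d hd => List.mem_append_right _ hd)
          (fun d hd => hw d (List.mem_append_left _ hd))
        rw [← hres] at hn' ⊢
        have hl : ∀ s, Th.s s ∉ (evA F G own T η a).asked O := by
          intro s h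
          obtain ⟨x, hx⟩ := evA_cells F G own T η a O _ h
          cases hx
        have hR2 := K1_rt_append hR1 hl
        have e2 : ∀ r : List (Th X S J K),
            pre ++ (itev η a ++ ((evA F G own T η a).asked O ++ r)) =
              (pre ++ itev η a ++ (evA F G own T η a).asked O) ++ r := by
          intro r; simp
        rw [e2] at hb ⊢
        exact ih _ own _ n hR2 hn' hb
          fun d hd => hw d (List.mem_append_right _ (List.mem_append_right _ hd))

end Pool.Agent.Nbb
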