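import Pool.Agent.Lib.MP_ae38e0_lc.Nbb.Build

import Pool.Agent.Lib.MP_ae38e0_lc.Nbb.Real

set_option autoImplicit false

/-!
# Invariants of the public state
-/

namespace Pool.Agent.Nbb

open Pool.Agent.LinOT Classical

variable {X S J K V Mg StA StB RA RB : Type}

/-- What holds for a state `c` of a compiled party, whose list is `q`: `pd` says that the party has
still to evaluate once, `p` are the items which it has confirmed. -/
structure SI {St : Type} [Fintype J] (n m : ℕ) (pd : Prop) (p : Finset (Th X S J K))
    (c : CS St S J K) (q : List (Th X S J K)) (O : Th X S J K → Option J → K) : Prop where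
  val : ∀ e ∈ c.own, e.2 = O (.s e.1) ∧ .s e.1 ∈ q
  keys : ∀ s, .s s ∈ q → ∃ e ∈ c.own, e.1 = s
  its : ∀ s, .s s ∈ q → ∀ d ∈ items (O (.s s)), d ∈ q
  down : ∀ η j π, .l η j π ∈ q → .h η ∈ q
  own : c.own.length + c.fuel ≤ n
  len : q.length + (if pd then m else 0) ≤
    (n - c.fuel) * (Fintype.card J + 2 + m) + m * p.card
  pos : ∀ d ∈ p, ∃ e ∈ c.own, d ∈ items e.2

/-- The bound for the lists. -/
def nn (J : Type) [Fintype J] (n m : ℕ) : ℕ := n * (Fintype.card J + 2) * (m + 1)

/-- Row I1.  There are at most `own.length * (card J + 1)` confirmed items. -/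
theorem SI.bound {St : Type} [Fintype J] {n m : ℕ} {pd : Prop} {p : Finset (Th X S J K)}
    {c : CS St S J K} {q : List (Th X S J K)} {O : Th X S J K → Option J → K}
    (h : SI n m pd p c q O) : q.length + (if pd then m else 0) ≤ nn J n m := by
  have h1 : p ⊆ (c.own.flatMap fun e => (items e.2 : List (Th X S J K))).toFinset := by
    intro d hd
    obtain ⟨e, he, hde⟩ := h.pos d hd
    rw [List.mem_toFinset, List.mem_flatMap]
    exact ⟨e, he, hde⟩
  have h2 : p.card ≤ (c.own.flatMap fun e => (items e.2 : List (Th X S J K))).length :=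
    (Finset.card_le_card h1).trans (List.toFinset_card_le _)
  have h3 : (c.own.flatMap fun e => (items e.2 : List (Th X S J K))).length =
      c.own.length * (Fintype.card J + 1) := by
    rw [List.length_flatMap]
    simp only [length_items, List.map_const', List.sum_replicate, smul_eq_mul]
  rw [h3] at h2
  have h4 : c.own.length ≤ n - c.fuel := by
    have := h.own
    omega
  have h5 : p.card ≤ (n - c.fuel) * (Fintype.card J + 1) :=
    h2.trans (Nat.mul_le_mul_right _ h4)
  refine h.len.trans ?_
  calc (n - c.fuel) * (Fintype.card J + 2 + m) + m * p.card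
      ≤ (n - c.fuel) * (Fintype.card J + 2 + m) + m * ((n - c.fuel) * (Fintype.card J + 1)) :=
        Nat.add_le_add_left (Nat.mul_le_mul_left _ h5) _
    _ = (n - c.fuel) * (Fintype.card J + 2) * (m + 1) := by ring
    _ ≤ n * (Fintype.card J + 2) * (m + 1) :=
        Nat.mul_le_mul_right _ (Nat.mul_le_mul_right _ (Nat.sub_le _ _))

private theorem I1_evA [Fintype J] (F : S → Finset J → Comp X K V)
    (G : V → Finset J → Comp X K V) (m : ℕ)
    (hF : ∀ f s A, ((F s A).asked f).length ≤ m) (hG : ∀ f v A, ((G v A).asked f).length ≤ m)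
    (T : Tb S J K V) (O : Th X S J K → Option J → K) (own : Own S J K) (η : K)
    (a : J → Option K) : ((evA F G own T η a).asked O).length ≤ m := by
  unfold evA
  split
  · split
    · simp [Comp.asked_bind, asked_lift, hF]
    · simp
  · split
    · split
      · simp [Comp.asked_bind, asked_lift, hF]
      · simp
    · split
      · split
        · simp [Comp.asked_bind, asked_lift, hG]
        · simp
      · simp

/-- Row I2.  Lengths in a computation of a compiled party. -/
theorem cmp_len {α : Type} [Fintype J] (F : S → Finset J → Comp X K V)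
    (G : V → Finset J → Comp X K V) (m : ℕ)
    (hF : ∀ f s A, ((F s A).asked f).length ≤ m) (hG : ∀ f v A, ((G v A).asked f).length ≤ m)
    (T : Tb S J K V) (O : Th X S J K → Option J → K) (c : Comp (Qry X S J K) (Ans J K V) α) :
    ∀ (own : Own S J K) (n : ℕ),
      ((cmp F G T c own n).run O).2.2 ≤ n ∧
      ((cmp F G T c own n).run O).2.1.length + ((cmp F G T c own n).run O).2.2 ≤
        own.length + n ∧
      ((cmp F G T c own n).asked O).length +
        ((cmp F G T c own n).run O).2.2 * (Fintype.card J + 2 + m) ≤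
        n * (Fintype.card J + 2 + m) := by
  induction c with
  | ret a =>
    intro own n
    simp [cmp]
  | ask q next ih =>
    intro own n
    cases n with
    | zero => simp [cmp]
    | succ n =>
      cases q with
      | f x =>
        obtain ⟨h1, h2, h3⟩ := ih (.val (O (.x x) none)) own n
        simp only [cmp, Comp.run_ask, Comp.asked_ask, List.length_cons]
        refine ⟨by omega, by omega, ?_⟩
        rw [Nat.succ_mul]
        omega
      | enc s =>
        obtain ⟨h1, h2, h3⟩ := ih (.lab (O (.s s))) (own ++ [(s, O (.s s))]) n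
        rw [List.length_append, List.length_singleton] at h2
        simp only [cmp, Comp.run_ask, Comp.asked_ask, Comp.run_bind, Comp.asked_bind,
          Comp.asked_askAll, List.length_cons, List.length_append, length_items]
        refine ⟨by omega, by omega, ?_⟩
        rw [Nat.succ_mul]
        omega
      | ev η a =>
        obtain ⟨h1, h2, h3⟩ := ih (.res ((evA F G own T η a).run O)) own n
        have h4 := length_itev (X := X) (S := S) η a
        have h5 := I1_evA F G m hF hG T O own η a
        simp only [cmp, Comp.run_bind, Comp.asked_bind,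
          Comp.asked_askAll, List.length_append]
        refine ⟨by omega, by omega, ?_⟩
        rw [Nat.succ_mul]
        omega

/-- Row I3.  The list and the keys in a computation of a compiled party. -/
theorem cmp_inv {α : Type} [Fintype J] (F : S → Finset J → Comp X K V)
    (G : V → Finset J → Comp X K V) (T : Tb S J K V) (O : Th X S J K → Option J → K)
    (c : Comp (Qry X S J K) (Ans J K V) α) :
    ∀ (own : Own S J K) (n : ℕ) (q : List (Th X S J K)),
      (∀ e ∈ own, e.2 = O (.s e.1) ∧ .s e.1 ∈ q) → (∀ s, .s s ∈ q → ∃ e ∈ own, e.1 = s) →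
      (∀ s, .s s ∈ q → ∀ d ∈ items (O (.s s)), d ∈ q) → (∀ η j π, .l η j π ∈ q → .h η ∈ q) →
      (∀ e ∈ own, e ∈ ((cmp F G T c own n).run O).2.1) ∧
      (∀ e ∈ ((cmp F G T c own n).run O).2.1,
        e.2 = O (.s e.1) ∧ .s e.1 ∈ q ++ (cmp F G T c own n).asked O) ∧
      (∀ s, .s s ∈ q ++ (cmp F G T c own n).asked O →
        ∃ e ∈ ((cmp F G T c own n).run O).2.1, e.1 = s) ∧
      (∀ s, .s s ∈ q ++ (cmp F G T c own n).asked O → ∀ d ∈ items (O (.s s)),
        d ∈ q ++ (cmp F G T c own n).asked O) ∧
      (∀ η j π, .l η j π ∈ q ++ (cmp F G T c own n).asked O →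
        .h η ∈ q ++ (cmp F G T c own n).asked O) := by
  induction c with
  | ret a =>
    intro own n q h1 h2 h3 h4
    simp only [cmp, Comp.run_ret, Comp.asked_ret, List.append_nil]
    exact ⟨fun e he => he, h1, h2, h3, h4⟩
  | ask u next ih =>
    intro own n q h1 h2 h3 h4
    cases n with
    | zero =>
      simp only [cmp, Comp.run_ret, Comp.asked_ret, List.append_nil]
      exact ⟨fun e he => he, h1, h2, h3, h4⟩
    | succ n =>
      cases u with
      | f x =>
        have hl : ∀ l : List (Th X S J K), q ++ (.x x :: l) = (q ++ [.x x]) ++ l := by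
          intro l; simp
        simp only [cmp, Comp.run_ask, Comp.asked_ask]
        rw [hl]
        refine ih _ own n (q ++ [.x x]) ?_ ?_ ?_ ?_
        · intro e he
          exact ⟨(h1 e he).1, List.mem_append_left _ (h1 e he).2⟩
        · intro s hs
          have hs' : (.s s : Th X S J K) ∈ q := by simpa using hs
          exact h2 s hs'
        · intro s hs d hd
          have hs' : (.s s : Th X S J K) ∈ q := by simpa using hs
          exact List.mem_append_left _ (h3 s hs' d hd)
        · intro η j π hs
          have hs' : (.l η j π : Th X S J K) ∈ q := by simpa using hs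
          exact List.mem_append_left _ (h4 η j π hs')
      | enc s0 =>
        have hl : ∀ l : List (Th X S J K), q ++ (.s s0 :: (items (O (.s s0)) ++ l)) =
            (q ++ (.s s0 :: items (O (.s s0)))) ++ l := by
          intro l; simp
        simp only [cmp, Comp.run_ask, Comp.asked_ask, Comp.run_bind, Comp.asked_bind,
          Comp.asked_askAll]
        rw [hl]
        have key : ∀ d : Th X S J K, d ∈ q ++ (.s s0 :: items (O (.s s0))) ↔
            d ∈ q ∨ d = .s s0 ∨ d ∈ items (O (.s s0)) := by
          intro d; simp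
        have ks : ∀ s : S, (.s s : Th X S J K) ∈ q ++ (.s s0 :: items (O (.s s0))) →
            (.s s : Th X S J K) ∈ q ∨ s = s0 := by
          intro s hs
          rcases (key _).1 hs with h | h | h
          · exact Or.inl h
          · exact Or.inr (by simpa using h)
          · rcases mem_items.1 h with h | ⟨j, h⟩ <;> simp at h
        have hih := ih (.lab (O (.s s0))) (own ++ [(s0, O (.s s0))]) n
          (q ++ (.s s0 :: items (O (.s s0)))) ?_ ?_ ?_ ?_
        · refine ⟨fun e he => hih.1 e (List.mem_append_left _ he), hih.2⟩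
        · intro e he
          rcases List.mem_append.1 he with he | he
          · exact ⟨(h1 e he).1, (key _).2 (Or.inl (h1 e he).2)⟩
          · obtain rfl : e = (s0, O (.s s0)) := by simpa using he
            exact ⟨rfl, (key _).2 (Or.inr (Or.inl rfl))⟩
        · intro s hs
          rcases ks s hs with h | rfl
          · obtain ⟨e, he, hes⟩ := h2 s h
            exact ⟨e, List.mem_append_left _ he, hes⟩
          · exact ⟨(s, O (.s s)), by simp, rfl⟩
        · intro s hs d hd
          rcases ks s hs with h | rfl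
          · exact (key _).2 (Or.inl (h3 s h d hd))
          · exact (key _).2 (Or.inr (Or.inr hd))
        · intro η j π hs
          rcases (key _).1 hs with h | h | h
          · exact (key _).2 (Or.inl (h4 η j π h))
          · simp at h
          · rcases mem_items.1 h with h | ⟨j', h⟩
            · simp at h
            · have hη : η = O (.s s0) none := by
                have := h
                simp only [Th.l.injEq] at this
                exact this.1
              exact (key _).2 (Or.inr (Or.inr (mem_items.2 (Or.inl (by rw [hη])))))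
      | ev η0 a =>
        have hl : ∀ l l' : List (Th X S J K), q ++ (itev η0 a ++ (l ++ l')) =
            (q ++ (itev η0 a ++ l)) ++ l' := by
          intro l l'; simp
        simp only [cmp, Comp.run_bind, Comp.asked_bind, Comp.asked_askAll]
        rw [hl]
        have hc := evA_cells F G own T η0 a O
        have key : ∀ d : Th X S J K, d ∈ q ++ (itev η0 a ++ (evA F G own T η0 a).asked O) ↔
            d ∈ q ∨ d ∈ itev η0 a ∨ d ∈ (evA F G own T η0 a).asked O := by
          intro d; simp
        have ks : ∀ s : S, (.s s : Th X S J K) ∈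
            q ++ (itev η0 a ++ (evA F G own T η0 a).asked O) → (.s s : Th X S J K) ∈ q := by
          intro s hs
          rcases (key _).1 hs with h | h | h
          · exact h
          · rcases mem_itev.1 h with h | ⟨j, π, _, h⟩ <;> simp at h
          · obtain ⟨x, hx⟩ := hc _ h
            simp at hx
        refine ih _ own n (q ++ (itev η0 a ++ (evA F G own T η0 a).asked O)) ?_ ?_ ?_ ?_
        · intro e he
          exact ⟨(h1 e he).1, (key _).2 (Or.inl (h1 e he).2)⟩
        · intro s hs
          exact h2 s (ks s hs)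
        · intro s hs d hd
          exact (key _).2 (Or.inl (h3 s (ks s hs) d hd))
        · intro η j π hs
          rcases (key _).1 hs with h | h | h
          · exact (key _).2 (Or.inl (h4 η j π h))
          · rcases mem_itev.1 h with h | ⟨j', π', _, h⟩
            · simp at h
            · have hη : η = η0 := by
                have := h
                simp only [Th.l.injEq] at this
                exact this.1
              exact (key _).2 (Or.inr (Or.inl (mem_itev.2 (Or.inl (by rw [hη])))))
          · obtain ⟨x, hx⟩ := hc _ h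
            simp at hx

/-- The owner of the pending handle is the first (`true`) or second party. -/
def pd (o : Bool) (e : Env X S J K V StA StB RA RB) : Prop :=
  ∃ η ex r, e.pend = some η ∧ e.T.pr η = some (o, ex, r)

section GI

variable [Finite X] [Finite S] [Fintype J] [Finite K] [Nonempty K] [Fintype RA] [Fintype RB]

/-- The invariants of the public state. -/
structure GI (n m : ℕ) (e : Env X S J K V StA StB RA RB) : Prop where
  lA : e.A.Loc
  lB : e.B.Loc
  sA : ∀ p ∈ sup SV e.A e.kn,
    SI n m (pd true e) e.pA (e.A.s p.1 p.2.1) (e.A.q p.1 p.2.1) p.2.1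
  sB : ∀ p ∈ sup SV e.B e.kn,
    SI n m (pd false e) e.pB (e.B.s p.1 p.2.1) (e.B.q p.1 p.2.1) p.2.1
  wA : ∀ d ∈ e.pA, d ∈ e.kn.map Prod.fst
  wB : ∀ d ∈ e.pB, d ∈ e.kn.map Prod.fst
  kh : ∀ s v, (.s s, v) ∈ e.kn → .h (v none) ∈ e.kn.map Prod.fst

/-- Several things are learned. -/
def Env.knas (e : Env X S J K V StA StB RA RB) (l : List (Th X S J K × (Option J → K))) :
    Env X S J K V StA StB RA RB := { e with kn := e.kn ++ l }

variable {n m : ℕ} {e : Env X S J K V StA StB RA RB}

/-! ## Row I4: learning -/

omit [Fintype J] in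
theorem gi_sup_kna (Z : Sd (Th X S J K) (Option J → K) (CS StA S J K) RA) [Finite J]
    (kn l : List (Th X S J K × (Option J → K))) : sup SV Z (kn ++ l) ⊆ sup SV Z kn := by
  intro p hp
  rw [mem_sup] at hp ⊢
  exact ⟨hp.1, fun w hw => hp.2 w (List.mem_append_left _ hw)⟩

/-- learning a list of things, with a new table of the known keys -/
private theorem I4_kn (h : GI n m e) (l : List (Th X S J K × (Option J → K)))
    (t : K → Option (S × (Option J → K)))
    (hl : ∀ (s : S) (v : Option J → K), ((Th.s s : Th X S J K), v) ∈ l →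
      (Th.h (v none) : Th X S J K) ∈ l.map Prod.fst) :
    GI n m { e with kn := e.kn ++ l, T := { e.T with tr := t } } := by
  have hA : sup SV e.A (e.kn ++ l) ⊆ sup SV e.A e.kn := gi_sup_kna e.A e.kn l
  have hB : sup SV e.B (e.kn ++ l) ⊆ sup SV e.B e.kn := by
    intro p hp
    rw [mem_sup] at hp ⊢
    exact ⟨hp.1, fun w hw => hp.2 w (List.mem_append_left _ hw)⟩
  have hw : ∀ d, d ∈ e.kn.map Prod.fst → d ∈ (e.kn ++ l).map Prod.fst := by
    intro d hd
    rw [List.map_append]
    exact List.mem_append_left _ hd
  constructor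
  · exact h.lA
  · exact h.lB
  · intro p hp
    exact h.sA p (hA hp)
  · intro p hp
    exact h.sB p (hB hp)
  · intro d hd
    exact hw d (h.wA d hd)
  · intro d hd
    exact hw d (h.wB d hd)
  · intro s u hu
    rcases List.mem_append.1 hu with h1 | h1
    · exact hw _ (h.kh s u h1)
    · have h2 := hl s u h1
      change _ ∈ (e.kn ++ l).map Prod.fst
      rw [List.map_append]
      exact List.mem_append_right _ h2

theorem gi_x (h : GI n m e) (x : X) (v : Option J → K) : GI n m (e.kna (.x x) v) := by
  refine I4_kn h [(Th.x x, v)] e.T.tr ?_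
  intro s u hu
  have h1 := congrArg Prod.fst (List.mem_singleton.1 hu)
  exact absurd h1 (by simp)

theorem gi_s (h : GI n m e) (s : S) (v : Option J → K)
    (l : List (Th X S J K × (Option J → K))) (hl : l.map Prod.fst = items v) :
    GI n m (((e.kna (.s s) v).setTr s v).knas l) := by
  have h0 : ((e.kna (.s s) v).setTr s v).knas l =
      { e with kn := e.kn ++ ((Th.s s, v) :: l),
               T := { e.T with tr := Function.update e.T.tr (v none) (some (s, v)) } } := by
    unfold Env.knas Env.setTr Env.kna
    rw [List.append_assoc, List.singleton_append]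
  rw [h0]
  refine I4_kn h ((Th.s s, v) :: l) _ ?_
  intro s' u hu
  rw [List.map_cons, hl]
  rcases List.mem_cons.1 hu with h1 | h1
  · have h3 : u = v := congrArg Prod.snd h1
    rw [h3]
    exact List.mem_cons_of_mem _ List.mem_cons_self
  · exfalso
    have h2 : (Th.s s' : Th X S J K) ∈ l.map Prod.fst := List.mem_map.2 ⟨_, h1, rfl⟩
    rw [hl] at h2
    unfold items at h2
    rcases List.mem_cons.1 h2 with h3 | h3
    · exact absurd h3 (by simp)
    · obtain ⟨j, -, hj⟩ := List.mem_map.1 h3
      exact absurd hj (by simp)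

theorem gi_item (h : GI n m e) (d : Th X S J K) (hd : ¬ cel d) (v : Option J → K) :
    GI n m (e.kna d v) := by
  refine I4_kn h [(d, v)] e.T.tr ?_
  intro s u hu
  have h1 : (Th.s s : Th X S J K) = d := congrArg Prod.fst (List.mem_singleton.1 hu)
  rw [← h1] at hd
  exact absurd trivial hd

/-! ## Row I5: handles and labels -/

/-- a step of the first party without queries and without change of the state -/
private theorem I4_retA (h : GI n m e) (c : CS StA S J K → Comp (Th X S J K) (Option J → K)
    (CS StA S J K × Pb Mg V)) (hc : ∀ st O, ((c st).run O).1 = st)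
    (hc' : ∀ st O, (c st).asked O = []) (b : Pb Mg V) : GI n m (e.upA c b) where
  lA := upd_loc h.lA c b
  lB := h.lB
  sA := fun p hp => by
    have hp' : p ∈ sup SV e.A e.kn := by
      rw [mem_sup] at hp ⊢
      exact ⟨hp.1.1, hp.2⟩
    have h1 := h.sA p hp'
    have e1 : (e.upA c b).A.s p.1 p.2.1 = e.A.s p.1 p.2.1 := hc _ _
    have e2 : (e.upA c b).A.q p.1 p.2.1 = e.A.q p.1 p.2.1 := by
      change e.A.q p.1 p.2.1 ++ (c (e.A.s p.1 p.2.1)).asked p.2.1 = _
      rw [hc', List.append_nil]
    rw [e1, e2]
    exact h1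
  sB := h.sB
  wA := h.wA
  wB := h.wB
  kh := h.kh

/-- a step of the second party without queries and without change of the state -/
private theorem I4_retB (h : GI n m e) (c : CS StB S J K → Comp (Th X S J K) (Option J → K)
    (CS StB S J K × Pb Mg V)) (hc : ∀ st O, ((c st).run O).1 = st)
    (hc' : ∀ st O, (c st).asked O = []) (b : Pb Mg V) : GI n m (e.upB c b) where
  lA := h.lA
  lB := upd_loc h.lB c b
  sA := h.sA
  sB := fun p hp => by
    have hp' : p ∈ sup SV e.B e.kn := by
      rw [mem_sup] at hp ⊢
      exact ⟨hp.1.1, hp.2⟩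
    have h1 := h.sB p hp'
    have e1 : (e.upB c b).B.s p.1 p.2.1 = e.B.s p.1 p.2.1 := hc _ _
    have e2 : (e.upB c b).B.q p.1 p.2.1 = e.B.q p.1 p.2.1 := by
      change e.B.q p.1 p.2.1 ++ (c (e.B.s p.1 p.2.1)).asked p.2.1 = _
      rw [hc', List.append_nil]
    rw [e1, e2]
    exact h1
  wA := h.wA
  wB := h.wB
  kh := h.kh

theorem gi_bitA (h : GI n m e) (η : K) (b : Pb Mg V) : GI n m (e.upA (bitH η) b) :=
  I4_retA h _ (fun _ _ => rfl) (fun _ _ => rfl) b

theorem gi_bitB (h : GI n m e) (η : K) (b : Pb Mg V) : GI n m (e.upB (bitH η) b) :=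
  I4_retB h _ (fun _ _ => rfl) (fun _ _ => rfl) b

theorem gi_bitLA (h : GI n m e) (η : K) (j : J) (π : K) (b : Pb Mg V) :
    GI n m (e.upA (bitL η j π) b) :=
  I4_retA h _ (fun _ _ => rfl) (fun _ _ => rfl) b

theorem gi_bitLB (h : GI n m e) (η : K) (j : J) (π : K) (b : Pb Mg V) :
    GI n m (e.upB (bitL η j π) b) :=
  I4_retB h _ (fun _ _ => rfl) (fun _ _ => rfl) b

omit [Finite X] [Finite S] [Finite K] [Nonempty K] in
/-- the side which confirms an item -/
private theorem I4_conf {St : Type} {P P' : Prop} {p : Finset (Th X S J K)} {c : CS St S J K}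
    {q : List (Th X S J K)} {O : Th X S J K → Option J → K} (h : SI n m P p c q O) (hP : ¬ P)
    (d : Th X S J K) (hd : d ∉ p) (hs : ∃ u ∈ c.own, d ∈ items u.2) :
    SI n m P' (insert d p) c q O where
  val := h.val
  keys := h.keys
  its := h.its
  down := h.down
  own := h.own
  len := by
    have h1 := h.len
    rw [if_neg hP] at h1
    rw [Finset.card_insert_of_notMem hd]
    have h2 : (if P' then m else 0) ≤ m := by split_ifs <;> omega
    have h3 : m * (p.card + 1) = m * p.card + m := by ring
    omega
  pos := by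
    intro d' hd'
    rcases Finset.mem_insert.1 hd' with h1 | h1
    · rw [h1]
      exact hs
    · exact h.pos d' h1

omit [Finite X] [Finite S] [Finite K] [Nonempty K] in
/-- the other side -/
private theorem I4_same {St : Type} {P P' : Prop} {p : Finset (Th X S J K)} {c : CS St S J K}
    {q : List (Th X S J K)} {O : Th X S J K → Option J → K} (h : SI n m P p c q O)
    (hP' : ¬ P') : SI n m P' p c q O where
  val := h.val
  keys := h.keys
  its := h.its
  down := h.down
  own := h.own
  len := by
    have h1 := h.len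
    rw [if_neg hP']
    omega
  pos := h.pos

/-- The first party confirms the item `d`: all its consistent states have `d` among the items of
their keys, and `d` was not confirmed before. -/
theorem gi_confA (h : GI n m e) (η : K) (d : Th X S J K) (ex : J → Option K)
    (hd : d ∈ e.kn.map Prod.fst) (hd' : d ∉ e.pA) (hp : e.pend = none)
    (hs : ∀ p ∈ sup SV e.A e.kn, ∃ u ∈ (e.A.s p.1 p.2.1).own, d ∈ items u.2) :
    GI n m ((e.setPr η true ex none).conf η true d) where
  lA := h.lA
  lB := h.lB
  sA := fun p hpp => by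
    refine I4_conf (h.sA p hpp) ?_ d hd' (hs p hpp)
    rintro ⟨η', ex', r, h1, -⟩
    rw [hp] at h1
    exact absurd h1 (by simp)
  sB := fun p hpp => by
    refine I4_same (h.sB p hpp) ?_
    rintro ⟨η', ex', r, h1, h2⟩
    have h1' : some η = some η' := h1
    have h3 : η = η' := Option.some.inj h1'
    subst h3
    have h2' : Function.update e.T.pr η (some (true, ex, none)) η = some (false, ex', r) := h2
    rw [Function.update_self] at h2'
    have h4 := congrArg Prod.fst (Option.some.inj h2')
    exact absurd h4 (by simp)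
  wA := fun d' hd' => by
    have h1 : d' ∈ insert d e.pA := hd'
    rcases Finset.mem_insert.1 h1 with h2 | h2
    · rw [h2]
      exact hd
    · exact h.wA d' h2
  wB := fun d' hd' => h.wB d' hd'
  kh := h.kh

theorem gi_confB (h : GI n m e) (η : K) (d : Th X S J K) (ex : J → Option K)
    (hd : d ∈ e.kn.map Prod.fst) (hd' : d ∉ e.pB) (hp : e.pend = none)
    (hs : ∀ p ∈ sup SV e.B e.kn, ∃ u ∈ (e.B.s p.1 p.2.1).own, d ∈ items u.2) :
    GI n m ((e.setPr η false ex none).conf η false d) where
  lA := h.lA
  lB := h.lB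
  sA := fun p hpp => by
    refine I4_same (h.sA p hpp) ?_
    rintro ⟨η', ex', r, h1, h2⟩
    have h1' : some η = some η' := h1
    have h3 : η = η' := Option.some.inj h1'
    subst h3
    have h2' : Function.update e.T.pr η (some (false, ex, none)) η = some (true, ex', r) := h2
    rw [Function.update_self] at h2'
    have h4 := congrArg Prod.fst (Option.some.inj h2')
    exact absurd h4 (by simp)
  sB := fun p hpp => by
    refine I4_conf (h.sB p hpp) ?_ d hd' (hs p hpp)
    rintro ⟨η', ex', r, h1, -⟩
    rw [hp] at h1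
    exact absurd h1 (by simp)
  wA := fun d' hd' => h.wA d' hd'
  wB := fun d' hd' => by
    have h1 : d' ∈ insert d e.pB := hd'
    rcases Finset.mem_insert.1 h1 with h2 | h2
    · rw [h2]
      exact hd
    · exact h.wB d' h2
  kh := h.kh

/-! ## Row I6: evaluation by the owner -/

private theorem I6_leak {St : Type} {P P' : Prop} {p : Finset (Th X S J K)}
    {c : CS St S J K} {q : List (Th X S J K)} {O : Th X S J K → Option J → K}
    (F : S → Finset J → Comp X K V) (hF : ∀ f s A, ((F s A).asked f).length ≤ m)
    (h : SI n m P p c q O) (hP : P) (hP' : ¬ P') (η : K) (ex : J → Option K) :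
    SI n m P' p ((leakC F η ex c : Comp _ _ (CS St S J K × Pb Mg V)).run O).1
      (q ++ (leakC F η ex c : Comp _ _ (CS St S J K × Pb Mg V)).asked O) O := by
  obtain ⟨l, hl, hc, hq⟩ : ∃ l : List X, l.length ≤ m ∧
      ((leakC F η ex c : Comp _ _ (CS St S J K × Pb Mg V)).run O).1 = c ∧
      (leakC F η ex c : Comp _ _ (CS St S J K × Pb Mg V)).asked O = l.map .x := by
    unfold leakC
    split
    · rename_i e1 _
      refine ⟨(F e1.1 (dom ex)).asked (fO O), hF _ _ _, ?_, ?_⟩
      · rw [Comp.run_bind]
        rfl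
      · rw [Comp.asked_bind, asked_lift]
        exact List.append_nil _
    · exact ⟨[], Nat.zero_le _, rfl, rfl⟩
  rw [hc, hq]
  have hx : ∀ d ∈ l.map (Th.x : X → Th X S J K), ∃ x, d = .x x := by
    intro d hd
    obtain ⟨x, _, hx⟩ := List.mem_map.1 hd
    exact ⟨x, hx.symm⟩
  have hs : ∀ s : S, .s s ∈ q ++ l.map (Th.x : X → Th X S J K) → .s s ∈ q := by
    intro s hs
    rcases List.mem_append.1 hs with h1 | h1
    · exact h1
    · obtain ⟨x, hx'⟩ := hx _ h1
      cases hx'
  have hh : ∀ (η : K) (j : J) (π : K), .l η j π ∈ q ++ l.map (Th.x : X → Th X S J K) →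
      .l η j π ∈ q := by
    intro η j π hs
    rcases List.mem_append.1 hs with h1 | h1
    · exact h1
    · obtain ⟨x, hx'⟩ := hx _ h1
      cases hx'
  refine ⟨fun e he => ⟨(h.val e he).1, List.mem_append_left _ (h.val e he).2⟩,
    fun s h1 => h.keys s (hs s h1),
    fun s h1 d hd => List.mem_append_left _ (h.its s (hs s h1) d hd),
    fun η j π h1 => List.mem_append_left _ (h.down η j π (hh η j π h1)), h.own, ?_, h.pos⟩
  have h1 := h.len
  rw [if_pos hP] at h1
  rw [if_neg hP', List.length_append, List.length_map]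
  omega

private theorem I6_none {St : Type} {P P' : Prop} {p : Finset (Th X S J K)}
    {c : CS St S J K} {q : List (Th X S J K)} {O : Th X S J K → Option J → K}
    (h : SI n m P p c q O) (hP' : ¬ P') : SI n m P' p c q O := by
  refine ⟨h.val, h.keys, h.its, h.down, h.own, ?_, h.pos⟩
  have h1 := h.len
  rw [if_neg hP']
  omega

private theorem I6_cmp {α St' St : Type} {P P' : Prop} {p : Finset (Th X S J K)}
    {c : CS St S J K} {q : List (Th X S J K)} {O : Th X S J K → Option J → K}
    (F : S → Finset J → Comp X K V) (G : V → Finset J → Comp X K V)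
    (hF : ∀ f s A, ((F s A).asked f).length ≤ m) (hG : ∀ f v A, ((G v A).asked f).length ≤ m)
    (T : Tb S J K V) (a : Comp (Qry X S J K) (Ans J K V) α) (st : St')
    (h : SI n m P p c q O) (hP' : ¬ P') :
    SI n m P' p (⟨st, ((cmp F G T a c.own c.fuel).run O).2.1,
        ((cmp F G T a c.own c.fuel).run O).2.2⟩ : CS St' S J K)
      (q ++ (cmp F G T a c.own c.fuel).asked O) O := by
  obtain ⟨a1, a2, a3, a4, a5⟩ := cmp_inv F G T O a c.own c.fuel q h.val h.keys h.its h.down
  obtain ⟨b1, b2, b3⟩ := cmp_len F G m hF hG T O a c.own c.fuel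
  refine ⟨a2, a3, a4, a5, ?_, ?_, ?_⟩
  · have h1 := h.own
    show ((cmp F G T a c.own c.fuel).run O).2.1.length +
      ((cmp F G T a c.own c.fuel).run O).2.2 ≤ n
    omega
  · have h1 := h.len
    have h2 := h.own
    rw [if_neg hP', List.length_append]
    show q.length + ((cmp F G T a c.own c.fuel).asked O).length + 0 ≤
      (n - ((cmp F G T a c.own c.fuel).run O).2.2) * (Fintype.card J + 2 + m) + m * p.card
    obtain ⟨u, hu⟩ : ∃ u, c.fuel = ((cmp F G T a c.own c.fuel).run O).2.2 + u :=
      Nat.exists_eq_add_of_le b1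
    obtain ⟨w, hw⟩ : ∃ w, n = c.fuel + w := Nat.exists_eq_add_of_le (by omega)
    set f' := ((cmp F G T a c.own c.fuel).run O).2.2 with hf'
    set g := Fintype.card J + 2 + m with hg
    have e1 : n - c.fuel = w := by omega
    have e2 : n - f' = u + w := by omega
    rw [e1] at h1
    rw [e2]
    have e3 : c.fuel * g = f' * g + u * g := by rw [← add_mul, ← hu]
    rw [e3] at b3
    rw [add_mul]
    have h3 : q.length ≤ w * g + m * p.card := le_trans (Nat.le_add_right _ _) h1
    omega
  · intro d hd
    obtain ⟨e, he, he'⟩ := h.pos d hd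
    exact ⟨e, a1 e he, he'⟩

theorem gi_leakA (F : S → Finset J → Comp X K V)
    (hF : ∀ f s A, ((F s A).asked f).length ≤ m) (h : GI n m e) (η : K) (ex : J → Option K)
    (r0 r : Option V) (b : Pb Mg V) (hp : e.pend = some η) (hT : e.T.pr η = some (true, ex, r0)) :
    GI n m { (e.upA (leakC F η ex) b).setPr η true ex r with pend := none } := by
  have hpd : pd true e := ⟨η, ex, r0, hp, hT⟩
  have hpd' : ¬ pd false e := by
    rintro ⟨η', ex', r', h1, h2⟩
    rw [hp, Option.some_inj] at h1
    rw [← h1, hT, Option.some_inj, Prod.mk.injEq] at h2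
    exact absurd h2.1 (by decide)
  refine ⟨upd_loc h.lA _ _, h.lB, fun p hp' => ?_, fun p hp' => ?_, h.wA, h.wB, h.kh⟩
  · have hm : p ∈ sup SV e.A e.kn := by
      have h1 := (mem_sup SV).1 hp'
      exact (mem_sup SV).2 ⟨h1.1.1, h1.2⟩
    exact I6_leak F hF (h.sA p hm) hpd (fun hh => by
      obtain ⟨_, _, _, h1, _⟩ := hh
      exact absurd h1 (by simp)) η ex
  · exact I6_none (h.sB p hp') (fun hh => by
      obtain ⟨_, _, _, h1, _⟩ := hh
      exact absurd h1 (by simp))

theorem gi_leakB (F : S → Finset J → Comp X K V)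
    (hF : ∀ f s A, ((F s A).asked f).length ≤ m) (h : GI n m e) (η : K) (ex : J → Option K)
    (r0 r : Option V) (b : Pb Mg V) (hp : e.pend = some η)
    (hT : e.T.pr η = some (false, ex, r0)) :
    GI n m { (e.upB (leakC F η ex) b).setPr η false ex r with pend := none } := by
  have hpd : pd false e := ⟨η, ex, r0, hp, hT⟩
  refine ⟨h.lA, upd_loc h.lB _ _, fun p hp' => ?_, fun p hp' => ?_, h.wA, h.wB, h.kh⟩
  · exact I6_none (h.sA p hp') (fun hh => by
      obtain ⟨_, _, _, h1, _⟩ := hh
      exact absurd h1 (by simp))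
  · have hm : p ∈ sup SV e.B e.kn := by
      have h1 := (mem_sup SV).1 hp'
      exact (mem_sup SV).2 ⟨h1.1.1, h1.2⟩
    exact I6_leak F hF (h.sB p hm) hpd (fun hh => by
      obtain ⟨_, _, _, h1, _⟩ := hh
      exact absurd h1 (by simp)) η ex

theorem gi_leak0 (h : GI n m e) : GI n m { e with pend := none } := by
  refine ⟨h.lA, h.lB, fun p hp' => ?_, fun p hp' => ?_, h.wA, h.wB, h.kh⟩
  · exact I6_none (h.sA p hp') (fun hh => by
      obtain ⟨_, _, _, h1, _⟩ := hh
      exact absurd h1 (by simp))
  · exact I6_none (h.sB p hp') (fun hh => by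
      obtain ⟨_, _, _, h1, _⟩ := hh
      exact absurd h1 (by simp))

/-! ## Row I7: steps of the protocol -/

variable {I I' : Type} (A : Party (Qry X S J K) (Ans J K V) Mg I)
  (B : Party (Qry X S J K) (Ans J K V) Mg I')

private theorem I6_step {Mg' I : Type} {P P' : Prop} {p : Finset (Th X S J K)}
    (F : S → Finset J → Comp X K V) (G : V → Finset J → Comp X K V)
    (hF : ∀ f s A, ((F s A).asked f).length ≤ m) (hG : ∀ f v A, ((G v A).asked f).length ≤ m)
    (A : Party (Qry X S J K) (Ans J K V) Mg' I) {c : CS A.St S J K} {q : List (Th X S J K)}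
    {O : Th X S J K → Option J → K} (m0 μ : Mg') (T : Tb S J K V)
    (h : SI n m P p c q O) (hP' : ¬ P') :
    SI n m P' p ((stepC F G A m0 T μ c).run O).1 (q ++ (stepC F G A m0 T μ c).asked O) O := by
  have h1 : (stepC F G A m0 T μ c).asked O =
      (cmp F G T (A.step c.st μ) c.own c.fuel).asked O := by
    unfold stepC
    rw [Comp.asked_bind]
    split <;> exact List.append_nil _
  have h2 : ∃ st, ((stepC F G A m0 T μ c).run O).1 =
      ⟨st, ((cmp F G T (A.step c.st μ) c.own c.fuel).run O).2.1,
        ((cmp F G T (A.step c.st μ) c.own c.fuel).run O).2.2⟩ := by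
    unfold stepC
    rw [Comp.run_bind]
    split <;> exact ⟨_, rfl⟩
  obtain ⟨st, h2⟩ := h2
  rw [h1, h2]
  exact I6_cmp F G hF hG T (A.step c.st μ) st h hP'

theorem gi_msgA (F : S → Finset J → Comp X K V) (G : V → Finset J → Comp X K V)
    (hF : ∀ f s A, ((F s A).asked f).length ≤ m) (hG : ∀ f v A, ((G v A).asked f).length ≤ m)
    (m0 μ : Mg) (e : Env X S J K V A.St B.St RA RB) (h : GI n m e) (hp : e.pend = none)
    (T : Tb S J K V) (b : Pb Mg V) : GI n m (e.upA (stepC F G A m0 T μ) b) := by
  have hpd : ∀ o, ¬ pd o (e.upA (stepC F G A m0 T μ) b) := by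
    rintro o ⟨η', ex', r', h1, h2⟩
    have h3 : e.pend = some η' := h1
    rw [hp] at h3
    exact absurd h3 (by simp)
  refine ⟨upd_loc h.lA _ _, h.lB, fun p hp' => ?_, fun p hp' => ?_, h.wA, h.wB, h.kh⟩
  · have hm : p ∈ sup SV e.A e.kn := by
      have h1 := (mem_sup SV).1 hp'
      exact (mem_sup SV).2 ⟨h1.1.1, h1.2⟩
    exact I6_step F G hF hG A m0 μ T (h.sA p hm) (hpd true)
  · exact I6_none (h.sB p hp') (hpd false)

theorem gi_msgB (F : S → Finset J → Comp X K V) (G : V → Finset J → Comp X K V)
    (hF : ∀ f s A, ((F s A).asked f).length ≤ m) (hG : ∀ f v A, ((G v A).asked f).length ≤ m)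
    (m0 μ : Mg) (e : Env X S J K V A.St B.St RA RB) (h : GI n m e) (hp : e.pend = none)
    (T : Tb S J K V) (b : Pb Mg V) : GI n m (e.upB (stepC F G B m0 T μ) b) := by
  have hpd : ∀ o, ¬ pd o (e.upB (stepC F G B m0 T μ) b) := by
    rintro o ⟨η', ex', r', h1, h2⟩
    have h3 : e.pend = some η' := h1
    rw [hp] at h3
    exact absurd h3 (by simp)
  refine ⟨h.lA, upd_loc h.lB _ _, fun p hp' => ?_, fun p hp' => ?_, h.wA, h.wB, h.kh⟩
  · exact I6_none (h.sA p hp') (hpd true)
  · have hm : p ∈ sup SV e.B e.kn := by
      have h1 := (mem_sup SV).1 hp'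
      exact (mem_sup SV).2 ⟨h1.1.1, h1.2⟩
    exact I6_step F G hF hG B m0 μ T (h.sB p hm) (hpd false)

theorem gi_env0 (iA : RA → A.St) (iB : RB → B.St) :
    GI n m (env0 A B n iA iB : Env X S J K V A.St B.St RA RB) := by
  have hpd : ∀ o, ¬ pd o (env0 A B n iA iB : Env X S J K V A.St B.St RA RB) := by
    rintro o ⟨η', ex', r', h1, h2⟩
    have h3 : (none : Option K) = some η' := h1
    exact absurd h3 (by simp)
  have hs : ∀ (St : Type) (P : Prop) (st : St) (O : Th X S J K → Option J → K), ¬ P →
      SI n m P ∅ (⟨st, [], n⟩ : CS St S J K) [] O := by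
    intro St P st O hP
    refine ⟨fun e he => absurd he List.not_mem_nil, fun s h => absurd h List.not_mem_nil,
      fun s h => absurd h List.not_mem_nil, fun _ _ _ h => absurd h List.not_mem_nil, ?_, ?_,
      fun d h => absurd h (Finset.notMem_empty d)⟩
    · show 0 + n ≤ n
      omega
    · rw [if_neg hP]
      exact Nat.zero_le _
  refine ⟨⟨fun _ _ _ _ => rfl, fun _ _ _ _ => rfl, fun _ _ _ _ => rfl⟩,
    ⟨fun _ _ _ _ => rfl, fun _ _ _ _ => rfl, fun _ _ _ _ => rfl⟩,
    fun p _ => hs _ _ _ _ (hpd true), fun p _ => hs _ _ _ _ (hpd false),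
    fun d h => absurd h (Finset.notMem_empty d), fun d h => absurd h (Finset.notMem_empty d),
    fun s v h => absurd h List.not_mem_nil⟩

/-! ## Row I8: the lists are short -/

/-- The number of confirmed items. -/
private theorem I8_card {St : Type} [Fintype J] {n m : ℕ} {pd : Prop} {p : Finset (Th X S J K)}
    {c : CS St S J K} {q : List (Th X S J K)} {O : Th X S J K → Option J → K}
    (h : SI n m pd p c q O) : p.card ≤ c.own.length * (Fintype.card J + 1) := by
  have h1 : p ⊆ (c.own.flatMap fun e => (items e.2 : List (Th X S J K))).toFinset := by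
    intro d hd
    obtain ⟨e, he, hde⟩ := h.pos d hd
    rw [List.mem_toFinset, List.mem_flatMap]
    exact ⟨e, he, hde⟩
  refine (Finset.card_le_card h1).trans ((List.toFinset_card_le _).trans ?_)
  rw [List.length_flatMap]
  have h2 : (List.map (fun e => (items e.2 : List (Th X S J K)).length) c.own) =
      List.map (fun _ => Fintype.card J + 1) c.own := by
    apply List.map_congr_left
    intro e _
    exact length_items e.2
  rw [h2, List.map_const', List.sum_replicate, smul_eq_mul]

/-- The arithmetic of a protocol step. -/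
private theorem I8_arith {n m J1 q a f f' o p : ℕ} (hf : o + f ≤ n)
    (hq : q ≤ (n - f) * (J1 + 2 + m) + m * p) (hp : p ≤ o * (J1 + 1))
    (ha : a + f' * (J1 + 2 + m) ≤ f * (J1 + 2 + m)) : q + a ≤ n * (J1 + 2) * (m + 1) := by
  have h1 : (n - f) * (J1 + 2 + m) + f * (J1 + 2 + m) = n * (J1 + 2 + m) := by
    rw [← Nat.add_mul, Nat.sub_add_cancel (by omega)]
  have h2 : m * p ≤ m * (n * (J1 + 1)) :=
    Nat.mul_le_mul_left _ (hp.trans (Nat.mul_le_mul_right _ (by omega)))
  have h3 : a ≤ f * (J1 + 2 + m) := (Nat.le_add_right _ _).trans ha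
  calc q + a ≤ (n - f) * (J1 + 2 + m) + m * p + f * (J1 + 2 + m) := Nat.add_le_add hq h3
    _ = n * (J1 + 2 + m) + m * p := by rw [← h1]; ring
    _ ≤ n * (J1 + 2 + m) + m * (n * (J1 + 1)) := Nat.add_le_add_left h2 _
    _ = n * (J1 + 2) * (m + 1) := by ring

/-- A protocol step for one party. -/
private theorem I8_step {Mg I : Type} [Fintype J] (P : Party (Qry X S J K) (Ans J K V) Mg I)
    (F : S → Finset J → Comp X K V) (G : V → Finset J → Comp X K V) {n m : ℕ}
    (hF : ∀ f s A, ((F s A).asked f).length ≤ m) (hG : ∀ f v A, ((G v A).asked f).length ≤ m)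
    (m0 μ : Mg) (T : Tb S J K V) {pd : Prop} {p : Finset (Th X S J K)}
    {c : CS P.St S J K} {q : List (Th X S J K)} {O : Th X S J K → Option J → K}
    (h : SI n m pd p c q O) :
    (q ++ (stepC F G P m0 T μ c).asked O).length ≤ nn J n m := by
  rw [List.length_append]
  have hl := (cmp_len F G m hF hG T O (P.step c.st μ) c.own c.fuel).2.2
  have ha : (stepC F G P m0 T μ c).asked O =
      (cmp F G T (P.step c.st μ) c.own c.fuel).asked O := by
    unfold stepC
    rw [Comp.asked_bind]
    rcases (cmp F G T (P.step c.st μ) c.own c.fuel).run O with ⟨r1, r2, r3⟩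
    cases r1 <;> simp
  rw [ha]
  exact I8_arith h.own ((Nat.le_add_right _ _).trans h.len) (I8_card h) hl

/-- An evaluation by the owner. -/
private theorem I8_leak {St Mg : Type} [Fintype J] (F : S → Finset J → Comp X K V) {n m : ℕ}
    (hF : ∀ f s A, ((F s A).asked f).length ≤ m) (η : K) (ex : J → Option K)
    {pd : Prop} (hp : pd) {p : Finset (Th X S J K)}
    {c : CS St S J K} {q : List (Th X S J K)} {O : Th X S J K → Option J → K}
    (h : SI n m pd p c q O) :
    (q ++ (leakC F η ex c : Comp _ _ (_ × Pb Mg V)).asked O).length ≤ nn J n m := by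
  rw [List.length_append]
  have hb := h.bound
  rw [if_pos hp] at hb
  have ha : ((leakC F η ex c : Comp _ _ (_ × Pb Mg V)).asked O).length ≤ m := by
    unfold leakC
    cases lkup c.own η with
    | none => exact Nat.zero_le _
    | some e =>
      rw [Comp.asked_bind, Comp.asked_ret, List.append_nil, asked_lift, List.length_map]
      exact hF _ _ _
  exact (Nat.add_le_add_left ha _).trans hb

theorem gi_bdA (h : GI n m e) : Bd SV (nn J n m) e.A e.kn := by
  intro p hp
  exact (Nat.le_add_right _ _).trans (h.sA p hp).bound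

theorem gi_bdB (h : GI n m e) : Bd SV (nn J n m) e.B e.kn := by
  intro p hp
  exact (Nat.le_add_right _ _).trans (h.sB p hp).bound

theorem gi_bd_leakA (F : S → Finset J → Comp X K V)
    (hF : ∀ f s A, ((F s A).asked f).length ≤ m) (h : GI n m e) (η : K) (ex : J → Option K)
    (hp : pd true e) :
    Bd SV (nn J n m) (e.A.ext (leakC F η ex : _ → Comp _ _ (_ × Pb Mg V))) e.kn := by
  intro p hp'
  exact I8_leak (Mg := Mg) F hF η ex hp (h.sA p hp')

theorem gi_bd_leakB (F : S → Finset J → Comp X K V)
    (hF : ∀ f s A, ((F s A).asked f).length ≤ m) (h : GI n m e) (η : K) (ex : J → Option K)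
    (hp : pd false e) :
    Bd SV (nn J n m) (e.B.ext (leakC F η ex : _ → Comp _ _ (_ × Pb Mg V))) e.kn := by
  intro p hp'
  exact I8_leak (Mg := Mg) F hF η ex hp (h.sB p hp')

theorem gi_bd_msgA (F : S → Finset J → Comp X K V) (G : V → Finset J → Comp X K V)
    (hF : ∀ f s A, ((F s A).asked f).length ≤ m) (hG : ∀ f v A, ((G v A).asked f).length ≤ m)
    (m0 μ : Mg) (e : Env X S J K V A.St B.St RA RB) (h : GI n m e) (T : Tb S J K V) :
    Bd SV (nn J n m) (e.A.ext (stepC F G A m0 T μ)) e.kn := by
  intro p hp
  exact I8_step A F G hF hG m0 μ T (h.sA p hp)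

theorem gi_bd_msgB (F : S → Finset J → Comp X K V) (G : V → Finset J → Comp X K V)
    (hF : ∀ f s A, ((F s A).asked f).length ≤ m) (hG : ∀ f v A, ((G v A).asked f).length ≤ m)
    (m0 μ : Mg) (e : Env X S J K V A.St B.St RA RB) (h : GI n m e) (T : Tb S J K V) :
    Bd SV (nn J n m) (e.B.ext (stepC F G B m0 T μ)) e.kn := by
  intro p hp
  exact I8_step B F G hF hG m0 μ T (h.sB p hp)

end GI

end Pool.Agent.Nbb
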