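import Pool.Agent.Lib.MP_ae38e0_lc.Nbb.Real

import Pool.Agent.Lib.MP_ae38e0_lc.Nbb.Game

import Pool.Agent.Lib.MP_ae38e0_lc.Nbb.Swap

import Pool.Agent.Lib.MP_ae38e0_lc.Nbb.Inv

set_option autoImplicit false

/-!
# The encodings hide (rows H1 - H3)
-/

namespace Pool.Agent.Nbb

open Pool.Agent.LinOT Classical

section one

variable {X S J K V : Type} [Fintype X] [Fintype S] [Fintype J] [Fintype K] [Nonempty K]

/-- The possible values of a thing when the function is `f`. -/
noncomputable def SVf (f : X → K) (t : Th X S J K) : Finset (Option J → K) :=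
  match t with
  | .x x => {fun _ => f x}
  | .s _ => Finset.univ
  | .h _ => {cv}
  | .l _ _ _ => {cv}

/-- The oracles on the things whose function is `f` are the encodings. -/
noncomputable def orcF (f : X → K) :
    Orc (SVf f : Th X S J K → Finset (Option J → K)) ≃ (S → Option J → K) where
  toFun O := LO O.1
  invFun w := ⟨fun t => match t with
    | .x x => fun _ => f x
    | .s s => w s
    | .h _ => cv
    | .l _ _ _ => cv, by
      intro t
      cases t <;> simp [SVf]⟩
  left_inv := by
    rintro ⟨O, hO⟩
    apply Subtype.ext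
    funext t
    have h := hO t
    cases t with
    | x x =>
      simp only [SVf, Finset.mem_singleton] at h
      exact h.symm
    | s s => rfl
    | h η =>
      simp only [SVf, Finset.mem_singleton] at h
      exact h.symm
    | l η j π =>
      simp only [SVf, Finset.mem_singleton] at h
      exact h.symm
  right_inv := fun w => rfl

/-- The function of such an oracle. -/
theorem fO_orcF (f : X → K) (O : Orc (SVf f : Th X S J K → Finset (Option J → K))) :
    fO O.1 = f := by
  funext x
  have h := O.2 (.x x)
  simp only [SVf, Finset.mem_singleton] at h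
  unfold fO
  rw [h]

/-- The table with one entry. -/
noncomputable def tb1 (η : K) (a : J → Option K) (v : V) : Tb S J K V :=
  ⟨fun _ => none, Function.update (fun _ => none) η (some (true, a, some v))⟩

variable (F : S → Finset J → Comp X K V) (G : V → Finset J → Comp X K V) (A : Finset J)
  (D : K → (J → Option K) → Comp (Qry X S J K) (Ans J K V) Bool) (v : V) (q : ℕ)

/-- The distinguisher with local answers; `u` is the encoding, of which it gets the handle and the
labels in `A`, and `v` is the result of the evaluation for these labels. -/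
noncomputable def disC (u : Option J → K) : Comp (Th X S J K) (Option J → K) (Option Bool) :=
  (cmp F G (tb1 (u none) (vis A u) v) (D (u none) (vis A u)) [] q).bind fun r => .ret r.1

/-- The same after asking for the encoding of `s`. -/
noncomputable def disK (s : S) : Comp (Th X S J K) (Option J → K) (Option Bool) :=
  .ask (.s s) fun u => (Comp.askAll (items u)).bind fun _ => disC F G A D v q u

/-! ## Row H1 -/

theorem H1_dom (u : Option J → K) : dom (vis A u) = A := by
  ext j
  simp only [dom, vis, Finset.mem_filter, Finset.mem_univ, true_and]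
  by_cases hj : j ∈ A <;> simp [hj]

theorem H1_mtch (u : Option J → K) : mtch (vis A u) u := by
  intro j π h
  unfold vis at h
  by_cases hj : j ∈ A
  · rw [if_pos hj] at h
    exact Option.some.inj h
  · rw [if_neg hj] at h
    exact absurd h (by simp)

theorem H1_asked (O : Th X S J K → Option J → K) (u : Option J → K) :
    (disC F G A D v q u).asked O =
      (cmp F G (tb1 (u none) (vis A u) v) (D (u none) (vis A u)) [] q).asked O := by
  simp [disC]

theorem disC_len (m : ℕ) (hF : ∀ f s A, ((F s A).asked f).length ≤ m)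
    (hG : ∀ f v A, ((G v A).asked f).length ≤ m) (O : Th X S J K → Option J → K)
    (u : Option J → K) :
    ((disC F G A D v q u).asked O).length ≤ q * (Fintype.card J + 2 + m) := by
  rw [H1_asked]
  have h := (cmp_len F G m hF hG (tb1 (u none) (vis A u) v) O (D (u none) (vis A u)) [] q).2.2
  exact le_trans (Nat.le_add_right _ _) h

/-- The distinguisher uses only the handle and the labels in `A`. -/
theorem disC_congr (u u' : Option J → K) (h : u none = u' none)
    (h' : ∀ j ∈ A, u (some j) = u' (some j)) : disC F G A D v q u = disC F G A D v q u' := by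
  have h1 : vis A u = vis A u' := by
    funext j
    unfold vis
    by_cases hj : j ∈ A
    · rw [if_pos hj, if_pos hj, h' j hj]
    · rw [if_neg hj, if_neg hj]
  unfold disC
  rw [h, h1]

theorem disK_asked (O : Th X S J K → Option J → K) (s : S) :
    (disK F G A D v q s).asked O =
      .s s :: (items (O (.s s)) ++ (disC F G A D v q (O (.s s))).asked O) := by
  simp [disK]

omit [Fintype X] [Fintype S] [Fintype K] [Nonempty K] in
theorem H1_not_mem {v : Option J → K} {s : S} : .s s ∉ (items v : List (Th X S J K)) := by
  rw [mem_items]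
  rintro (h | ⟨j, h⟩)
  · exact absurd h (by simp)
  · exact absurd h (by simp)

/-- `cmp_run` with `Yq = pre = .s s :: items (O (.s s))`, `W` the handle and the labels in `A`. -/
theorem disC_run
    (mono : ∀ f s A B, A ⊆ B → (G ((F s B).run f) A).run f = (F s A).run f)
    (hq : ∀ η a ρ, ((D η a).asked ρ).length ≤ q) (O : Th X S J K → Option J → K) (s : S)
    (hv : (F s A).run (fO O) = v) (hb : ¬ Bad gK O ((disK F G A D v q s).asked O))
    (h1 : .s s ∉ (disC F G A D v q (O (.s s))).asked O)
    (h2 : ∀ j ∉ A, .l (O (.s s) none) j (O (.s s) (some j)) ∉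
      (disC F G A D v q (O (.s s))).asked O) :
    (disC F G A D v q (O (.s s))).run O =
      some ((D (O (.s s) none) (vis A (O (.s s)))).run (wd F O)) := by
  rw [disK_asked, H1_asked] at hb
  rw [H1_asked] at h1 h2
  obtain ⟨u, hu⟩ : ∃ u, u = O (.s s) := ⟨_, rfl⟩
  rw [← hu] at hb h1 h2 ⊢
  have hpre : ∀ s', .s s' ∈ (Th.s s :: items u : List (Th X S J K)) → s' = s := by
    intro s' h
    rw [List.mem_cons] at h
    rcases h with h | h
    · exact Th.s.inj h
    · exact absurd h H1_not_mem
  have hW : ∀ d : Th X S J K, d ∈ (Th.h (u none) :: A.toList.map fun j => Th.l (u none) j (u (some j))) ↔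
      d = .h (u none) ∨ ∃ j ∈ A, d = .l (u none) j (u (some j)) := by
    intro d
    rw [List.mem_cons, List.mem_map]
    constructor
    · rintro (h | ⟨j, hj, h⟩)
      · exact Or.inl h
      · exact Or.inr ⟨j, Finset.mem_toList.1 hj, h.symm⟩
    · rintro (h | ⟨j, hj, h⟩)
      · exact Or.inl h
      · exact Or.inr ⟨j, Finset.mem_toList.2 hj, h.symm⟩
  have hWs : ∀ s' : S, Th.s s' ∉
      (Th.h (u none) :: A.toList.map fun j => Th.l (u none) j (u (some j)) : List (Th X S J K)) := by
    intro s' h
    rw [hW] at h
    rcases h with h | ⟨j, -, h⟩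
    · exact absurd h (by simp)
    · exact absurd h (by simp)
  have hrt : Rt F O (tb1 (u none) (vis A u) v) (Th.s s :: items u)
      (Th.h (u none) :: A.toList.map fun j => Th.l (u none) j (u (some j))) []
      (Th.s s :: items u) := by
    refine ⟨fun e he => ?_, fun s' h => Or.inr (Or.inl h), fun d h => h, fun d h => ?_, ?_,
      fun s' h d hd => ?_, fun s' h => absurd h (hWs s'), fun η e h => ?_,
      fun s' h _ _ => ?_, fun η o ex w h => ?_⟩
    · exact absurd he (by simp)
    · rw [hW] at h
      refine List.mem_cons_of_mem _ (mem_items.2 ?_)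
      rcases h with h | ⟨j, -, h⟩
      · exact Or.inl h
      · exact Or.inr ⟨j, h⟩
    · intro l1 s' l2 h
      cases l1 with
      | nil =>
        rw [List.nil_append, List.cons.injEq] at h
        obtain ⟨h3, h4⟩ := h
        have h5 := Th.s.inj h3
        subst h5
        rw [← hu]
        exact ⟨_, h4.symm⟩
      | cons a l1 =>
        rw [List.cons_append, List.cons.injEq] at h
        exact nice_items O u l1 s' l2 h.2
    · have h3 := hpre s' h
      subst h3
      rw [← hu] at hd
      exact List.mem_cons_of_mem _ hd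
    · exact absurd h (by simp [tb1])
    · have h3 := hpre s' h
      subst h3
      rw [← hu]
      refine ⟨true, vis A u, ?_, H1_mtch A u, fun j hj => ?_⟩
      · rw [H1_dom, hv]
        simp [tb1]
      · rw [hW] at hj
        rcases hj with hj | ⟨j', hj', h4⟩
        · exact absurd hj (by simp)
        · rw [Th.l.injEq] at h4
          obtain ⟨-, rfl, -⟩ := h4
          unfold vis
          rw [if_pos hj']
    · by_cases hη : η = u none
      · subst hη
        simp only [tb1, Function.update_self, Option.some.injEq, Prod.mk.injEq] at h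
        obtain ⟨-, rfl, rfl⟩ := h
        refine ⟨s, List.mem_cons_self, by rw [← hu], ?_, ?_⟩
        · rw [← hu]
          exact H1_mtch A u
        · rw [H1_dom, hv]
      · simp only [tb1, Function.update_of_ne hη] at h
        exact absurd h (by simp)
  obtain ⟨own', h3, -⟩ := cmp_run F G mono O (tb1 (u none) (vis A u) v) (Th.s s :: items u)
    (Th.h (u none) :: A.toList.map fun j => Th.l (u none) j (u (some j))) (D (u none) (vis A u)) []
    (Th.s s :: items u) q hrt (hq _ _ _) hb (fun d hd hy => by
      rw [hW]
      rw [List.mem_cons] at hy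
      rcases hy with rfl | hy
      · exact absurd hd h1
      · rcases mem_items.1 hy with rfl | ⟨j, rfl⟩
        · exact Or.inl rfl
        · by_cases hj : j ∈ A
          · exact Or.inr ⟨j, hj, rfl⟩
          · exact absurd hd (h2 j hj))
  unfold disC
  rw [Comp.run_bind, h3]
  rfl

/-! ## Row H2: the bad events -/

/-- The pair of a label with the handle `η`. -/
private noncomputable def H2_pair (η : K) (t : Th X S J K) : Option (J × K) :=
  match t with
  | .l η' j π => if η' = η then some (j, π) else none
  | _ => none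

omit [Fintype X] [Fintype S] [Fintype J] [Fintype K] [Nonempty K] in
private theorem H2_mem (η : K) (L : List (Th X S J K)) (j : J) (π : K) :
    (j, π) ∈ L.filterMap (H2_pair η) ↔ .l η j π ∈ L := by
  rw [List.mem_filterMap]
  constructor
  · rintro ⟨t, ht, h⟩
    cases t with
    | x x => exact absurd h (by simp [H2_pair])
    | s s => exact absurd h (by simp [H2_pair])
    | h η' => exact absurd h (by simp [H2_pair])
    | l η' j' π' =>
      simp only [H2_pair] at h
      split_ifs at h with h1
      simp only [Option.some.injEq, Prod.mk.injEq] at h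
      rw [← h1, ← h.1, ← h.2]
      exact ht
  · intro h
    exact ⟨_, h, by simp [H2_pair]⟩

/-- `hid_card`: `l u` is the list of the pairs `(j, π)` with `.l (u none) j π` asked. -/
theorem hid_count (m : ℕ) (hF : ∀ f s A, ((F s A).asked f).length ≤ m)
    (hG : ∀ f v A, ((G v A).asked f).length ≤ m) (O : Th X S J K → Option J → K) :
    Fintype.card K * (Finset.univ.filter fun u : Option J → K =>
      ∃ j ∉ A, .l (u none) j (u (some j)) ∈ (disC F G A D v q u).asked O).card ≤
      q * (Fintype.card J + 2 + m) * Fintype.card (Option J → K) := by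
  have h1 := hid_card A (fun u : Option J → K =>
    ((disC F G A D v q u).asked O).filterMap (H2_pair (u none))) (q * (Fintype.card J + 2 + m))
    (fun u => (List.length_filterMap_le _ _).trans (disC_len F G A D v q m hF hG O u))
    (fun u u' h h' => by
      rw [disC_congr F G A D v q u u' h h', h])
  have h2 : (Finset.univ.filter fun u : Option J → K =>
      ∃ j ∉ A, .l (u none) j (u (some j)) ∈ (disC F G A D v q u).asked O) =
      Finset.univ.filter fun u : Option J → K => ∃ j ∉ A, (j, u (some j)) ∈
        ((disC F G A D v q u).asked O).filterMap (H2_pair (u none)) := by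
    refine Finset.filter_congr fun u _ => ?_
    simp only [H2_mem]
  rw [h2]
  exact h1

omit [Fintype X] [Fintype S] [Nonempty K] in
private theorem H2_half (o : Option J) (π : K) :
    Fintype.card K * (Finset.univ.filter fun v : Option J → K => v o = π).card ≤
      (Finset.univ : Finset (Option J → K)).card := by
  have h1 : ((Finset.univ : Finset K) ×ˢ
      (Finset.univ.filter fun v : Option J → K => v o = π)).card ≤
      (Finset.univ : Finset (Option J → K)).card := by
    refine Finset.card_le_card_of_injOn (fun z => Function.update z.2 o z.1)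
      (fun _ _ => Finset.mem_coe.2 (Finset.mem_univ _)) ?_
    rintro ⟨z, v⟩ hz ⟨z', v'⟩ hz' h
    simp only [Finset.coe_product, Finset.coe_univ, Finset.coe_filter, Finset.mem_univ, true_and,
      Set.mem_prod, Set.mem_univ, Set.mem_ofPred_eq] at hz hz'
    simp only at h
    have h2 : z = z' := by
      have := congrFun h o
      simpa using this
    have h3 : v = v' := by
      funext x
      rcases eq_or_ne x o with rfl | hx
      · rw [hz, hz']
      · have := congrFun h x
        simpa [hx] using this
    rw [h2, h3]
  rwa [Finset.card_product, Finset.card_univ] at h1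

/-- `bad_le` for the computation `disK`. -/
theorem badK_count (m : ℕ) (hF : ∀ f s A, ((F s A).asked f).length ≤ m)
    (hG : ∀ f v A, ((G v A).asked f).length ≤ m) (f : X → K) (s : S) :
    Fintype.card K * (Finset.univ.filter fun O :
      Orc (SVf f : Th X S J K → Finset (Option J → K)) =>
        Bad gK O.1 ((disK F G A D v q s).asked O.1)).card ≤
      (q + 1) * (Fintype.card J + 2 + m) * Fintype.card S *
        Fintype.card (Orc (SVf f : Th X S J K → Finset (Option J → K))) := by
  have h1 := bad_le (SVf f : Th X S J K → Finset (Option J → K)) gK (Fintype.card K)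
    ((q + 1) * (Fintype.card J + 2 + m)) (Finset.univ.image fun s : S => (.s s : Th X S J K))
    (fun d y v h => by
      cases d <;> cases y <;> simp_all [gK])
    (fun d y => by
      by_cases hd : ∃ (o : Option J) (π : K) (s : S), y = .s s ∧
          ∀ v, gK d y v → v o = π
      · obtain ⟨o, π, s, rfl, h⟩ := hd
        refine le_trans (Nat.mul_le_mul_left _ (Finset.card_le_card ?_)) (H2_half o π)
        intro v hv
        rw [Finset.mem_filter] at hv ⊢
        exact ⟨Finset.mem_univ _, h v hv.2⟩
      · have h2 : (Finset.filter (fun v => gK d y v) (SVf f y)) = ∅ := by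
          rw [Finset.filter_eq_empty_iff]
          intro v _ h
          apply hd
          cases d <;> cases y
          all_goals first
            | exact ⟨none, _, _, rfl, fun v h => h⟩
            | exact ⟨some _, _, _, rfl, fun v h => h⟩
            | exact False.elim h
        rw [h2]
        simp)
    (disK F G A D v q s) (fun O => by
      rw [disK_asked]
      have h3 := disC_len F G A D v q m hF hG O.1 (O.1 (.s s))
      have h4 : (items (O.1 (.s s)) : List (Th X S J K)).length = Fintype.card J + 1 := by
        simp [items]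
      rw [List.length_cons, List.length_append, h4]
      calc Fintype.card J + 1 + ((disC F G A D v q (O.1 (.s s))).asked O.1).length + 1 ≤
          Fintype.card J + 1 + q * (Fintype.card J + 2 + m) + 1 := by omega
        _ ≤ (q + 1) * (Fintype.card J + 2 + m) := by
          rw [add_mul, one_mul]
          omega)
  have h5 : (Finset.univ.image fun s : S => (.s s : Th X S J K)).card = Fintype.card S := by
    rw [Finset.card_image_of_injective _ (fun a b h => by simpa using h), Finset.card_univ]
  rw [h5] at h1
  exact h1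

end one

/-! ## Row H3.  The triples `(O, r, u)`: an oracle, the second part of the key `(t, r)`, a value.
In the real experiment for `t` the distinguisher gets the encoding of `(t, r)`; in the ideal
experiment it gets `u`, independent of the oracle, and this does not depend on `t`. -/

section two

variable {X T U J K V : Type} [Fintype X] [Fintype T] [Fintype U] [Fintype J] [Fintype K]
  [Nonempty K] [Nonempty T] [Nonempty U]

/-- The number of the real executions in which the distinguisher says `true`. -/
noncomputable def realN (F : T → Finset J → Comp X K V) (f : X → K) (A : Finset J)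
    (D : K → (J → Option K) → Comp (Qry X (T × U) J K) (Ans J K V) Bool) (t : T) : ℕ :=
  (Finset.univ.filter fun z : Orc (SVf f : Th X (T × U) J K → Finset (Option J → K)) × U =>
    (D (z.1.1 (.s (t, z.2)) none) (vis A (z.1.1 (.s (t, z.2))))).run
      (wd (fun s : T × U => F s.1) z.1.1) = true).card

/-- The number of the ideal executions in which the distinguisher says `true`. -/
noncomputable def idealN (F : T → Finset J → Comp X K V) (G : V → Finset J → Comp X K V)
    (f : X → K) (A : Finset J)
    (D : K → (J → Option K) → Comp (Qry X (T × U) J K) (Ans J K V) Bool) (v : V) (q : ℕ) : ℕ :=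
  (Finset.univ.filter fun z : Orc (SVf f : Th X (T × U) J K → Finset (Option J → K)) × U ×
      {u : Option J → K // u ∈ (Finset.univ : Finset (Option J → K))} =>
    (disC (fun s : T × U => F s.1) G A D v q z.2.2.1).run z.1.1 = some true).card

private theorem H3_prod {α β γ : Type} [Fintype α] [Fintype β] [Fintype γ] (P : α × β → Prop)
    [DecidablePred P] [DecidablePred fun z : α × β × γ => P (z.1, z.2.1)] :
    (Finset.univ.filter fun z : α × β × γ => P (z.1, z.2.1)).card =
      (Finset.univ.filter P).card * Fintype.card γ := by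
  rw [← Finset.card_univ (α := γ), ← Finset.card_product]
  refine Finset.card_bij (fun z _ => ((z.1, z.2.1), z.2.2)) ?_ ?_ ?_
  · intro z hz
    rw [Finset.mem_product, Finset.mem_filter]
    exact ⟨⟨Finset.mem_univ _, (Finset.mem_filter.1 hz).2⟩, Finset.mem_univ _⟩
  · rintro ⟨a, b, c⟩ _ ⟨a', b', c'⟩ _ h
    simp only [Prod.mk.injEq] at h
    obtain ⟨⟨h1, h2⟩, h3⟩ := h
    rw [h1, h2, h3]
  · rintro ⟨⟨a, b⟩, c⟩ h
    rw [Finset.mem_product, Finset.mem_filter] at h
    exact ⟨(a, b, c), Finset.mem_filter.2 ⟨Finset.mem_univ _, h.1.2⟩, rfl⟩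

private theorem H3_inst {α : Type} [Fintype α] (P Q : α → Prop) {dP : DecidablePred P}
    {dQ : DecidablePred Q} (h : ∀ a, P a ↔ Q a) :
    (@Finset.filter α P dP Finset.univ).card = (@Finset.filter α Q dQ Finset.univ).card := by
  congr 1
  ext a
  rw [Finset.mem_filter, Finset.mem_filter, h]

private theorem H3_fib {α β : Type} [Fintype α] [Fintype β] (k c : ℕ) (Φ : α → β → Prop)
    [DecidablePred fun z : α × β => Φ z.1 z.2] [∀ b, DecidablePred fun a => Φ a b]
    (h : ∀ b, k * (Finset.univ.filter fun a => Φ a b).card ≤ c) :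
    k * (Finset.univ.filter fun z : α × β => Φ z.1 z.2).card ≤ c * Fintype.card β := by
  have h1 : (Finset.univ.filter fun z : α × β => Φ z.1 z.2).card =
      ∑ b : β, (Finset.univ.filter fun a => Φ a b).card := by
    rw [Finset.card_eq_sum_card_fiberwise (f := Prod.snd) (t := Finset.univ)
      (fun z _ => Finset.mem_univ _)]
    refine Finset.sum_congr rfl fun b _ => ?_
    refine Finset.card_bij (fun z _ => z.1) ?_ ?_ ?_
    · intro z hz
      rw [Finset.mem_filter, Finset.mem_filter] at hz
      rw [Finset.mem_filter]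
      refine ⟨Finset.mem_univ _, ?_⟩
      have h2 := hz.1.2
      rw [hz.2] at h2
      exact h2
    · rintro ⟨a, b1⟩ h1 ⟨a', b2⟩ h2 hab
      rw [Finset.mem_filter] at h1 h2
      have e1 : b1 = b := h1.2
      have e2 : b2 = b := h2.2
      have e3 : a = a' := hab
      rw [e1, e2, e3]
    · intro a ha
      refine ⟨(a, b), ?_, rfl⟩
      rw [Finset.mem_filter, Finset.mem_filter]
      exact ⟨⟨Finset.mem_univ _, (Finset.mem_filter.1 ha).2⟩, rfl⟩
  rw [h1, Finset.mul_sum]
  calc ∑ b : β, k * (Finset.univ.filter fun a => Φ a b).card ≤ ∑ _b : β, c :=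
        Finset.sum_le_sum fun b _ => h b
    _ = c * Fintype.card β := by
        rw [Finset.sum_const, Finset.card_univ, smul_eq_mul, mul_comm]

private theorem H3_fib3 {α β γ : Type} [Fintype α] [Fintype β] [Fintype γ] (k c : ℕ)
    (Φ : α → β → γ → Prop) [DecidablePred fun z : α × β × γ => Φ z.1 z.2.1 z.2.2]
    [∀ a b, DecidablePred fun u => Φ a b u]
    (h : ∀ a b, k * (Finset.univ.filter fun u => Φ a b u).card ≤ c) :
    k * (Finset.univ.filter fun z : α × β × γ => Φ z.1 z.2.1 z.2.2).card ≤
      c * (Fintype.card α * Fintype.card β) := by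
  have h1 := H3_fib (α := γ) (β := α × β) k c (fun u z => Φ z.1 z.2 u) (fun z => h z.1 z.2)
  rw [Fintype.card_prod] at h1
  refine le_trans (le_of_eq ?_) h1
  congr 1
  refine Finset.card_bij (fun z _ => (z.2.2, (z.1, z.2.1))) ?_ ?_ ?_
  · intro z hz
    rw [Finset.mem_filter]
    exact ⟨Finset.mem_univ _, (Finset.mem_filter.1 hz).2⟩
  · rintro ⟨a, b, c⟩ _ ⟨a', b', c'⟩ _ h
    simp only [Prod.mk.injEq] at h
    obtain ⟨h3, h1, h2⟩ := h
    rw [h1, h2, h3]
  · rintro ⟨c, a, b⟩ h
    exact ⟨(a, b, c), Finset.mem_filter.2 ⟨Finset.mem_univ _, (Finset.mem_filter.1 h).2⟩, rfl⟩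

private theorem H3_real {R I e1 e2 e3 i0 i3 O U V K : ℝ} (hU : 0 < U) (hK : 0 < K)
    (h1 : R ≤ I + (e1 + e2 + e3)) (h2 : I ≤ R + (e1 + e2 + e3))
    (he1 : e1 ≤ i0 * O * V) (he2 : K * e2 ≤ i0 * V * (O * U)) (he3 : K * e3 ≤ i3 * O * U * V) :
    |R - I| ≤ (i0 / U + i0 / K + i3 / K) * (O * U * V) := by
  have a1 : i0 / U * (O * U * V) = i0 * O * V := by
    field_simp
  have a2 : e2 ≤ i0 / K * (O * U * V) := by
    rw [div_mul_eq_mul_div, le_div_iff₀ hK]
    nlinarith [he2]
  have a3 : e3 ≤ i3 / K * (O * U * V) := by
    rw [div_mul_eq_mul_div, le_div_iff₀ hK]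
    nlinarith [he3]
  have a4 : (i0 / U + i0 / K + i3 / K) * (O * U * V) =
      i0 / U * (O * U * V) + i0 / K * (O * U * V) + i3 / K * (O * U * V) := by ring
  rw [a4, a1, abs_le]
  constructor
  · linarith
  · linarith

/-- By `swap_card` (with `q r = .s (t, r)`) `idealN` is the number of the triples `(O, r, u)` such
that `disC .. (O (.s (t, r)))`, run with the oracle `O` changed to `u` at `.s (t, r)`, gives `true`.
If `.s (t, r)` is not asked then `run_update`; `disC_run` up to the events: `.s (t, r)` is asked
(`hit_card`), a hidden label is asked (`hid_count`, by `swap_card` again, where the lists are the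
same since `.s (t, r)` is not asked), `Bad` (`badK_count`). -/
theorem dist_one (F : T → Finset J → Comp X K V) (G : V → Finset J → Comp X K V) (m : ℕ)
    (hF : ∀ f t A, ((F t A).asked f).length ≤ m) (hG : ∀ f v A, ((G v A).asked f).length ≤ m)
    (mono : ∀ f t A B, A ⊆ B → (G ((F t B).run f) A).run f = (F t A).run f) (f : X → K) (t : T)
    (A : Finset J) (v : V) (hv : (F t A).run f = v)
    (D : K → (J → Option K) → Comp (Qry X (T × U) J K) (Ans J K V) Bool) (q : ℕ)
    (hq : ∀ η a ρ, ((D η a).asked ρ).length ≤ q) :
    |(realN F f A D t : ℝ) * Fintype.card (Option J → K) - idealN F G f A D v q| ≤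
      (((q : ℝ) * (Fintype.card J + 2 + m)) / Fintype.card U +
        ((q : ℝ) * (Fintype.card J + 2 + m)) / Fintype.card K +
        ((q : ℝ) + 1) * (Fintype.card J + 2 + m) * Fintype.card (T × U) / Fintype.card K) *
      ((Fintype.card (Orc (SVf f : Th X (T × U) J K → Finset (Option J → K))) : ℝ) *
        Fintype.card U * Fintype.card (Option J → K)) := by
  have hK0 : (0 : ℝ) < Fintype.card K := by exact_mod_cast Fintype.card_pos
  have hU0 : (0 : ℝ) < Fintype.card U := by exact_mod_cast Fintype.card_pos
  have hW : Fintype.card {u : Option J → K // u ∈ (Finset.univ : Finset (Option J → K))} =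
      Fintype.card (Option J → K) :=
    Fintype.card_congr (Equiv.subtypeUnivEquiv fun u => Finset.mem_univ u)
  have hSV : ∀ r : U, SVf f (.s (t, r) : Th X (T × U) J K) = Finset.univ := fun r => rfl
  have hinj : Function.Injective fun r : U => (.s (t, r) : Th X (T × U) J K) := by
    intro r r' h
    have h1 := Th.s.inj h
    exact congrArg Prod.snd h1
  have hI : ∀ (O : Th X (T × U) J K → Option J → K) (u : Option J → K),
      ((disC (fun s : T × U => F s.1) G A D v q u).asked O).length ≤
        q * (Fintype.card J + 2 + m) := fun O u =>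
    disC_len (fun s : T × U => F s.1) G A D v q m (fun f s A => hF f s.1 A) hG O u
  -- the sets of triples
  let Or := Orc (SVf f : Th X (T × U) J K → Finset (Option J → K))
  let W := {u : Option J → K // u ∈ (Finset.univ : Finset (Option J → K))}
  let Rs : Finset (Or × U × W) := Finset.univ.filter fun z =>
    (D (z.1.1 (.s (t, z.2.1)) none) (vis A (z.1.1 (.s (t, z.2.1))))).run
      (wd (fun s : T × U => F s.1) z.1.1) = true
  let Is : Finset (Or × U × W) := Finset.univ.filter fun z =>
    (disC (fun s : T × U => F s.1) G A D v q (z.1.1 (.s (t, z.2.1)))).run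
      (Function.update z.1.1 (.s (t, z.2.1)) z.2.2.1) = some true
  let E1 : Finset (Or × U × W) := Finset.univ.filter fun z =>
    .s (t, z.2.1) ∈
      (disC (fun s : T × U => F s.1) G A D v q (z.1.1 (.s (t, z.2.1)))).asked z.1.1
  let E2 : Finset (Or × U × W) := Finset.univ.filter fun z =>
    ∃ j ∉ A, .l (z.1.1 (.s (t, z.2.1)) none) j (z.1.1 (.s (t, z.2.1)) (some j)) ∈
      (disC (fun s : T × U => F s.1) G A D v q (z.1.1 (.s (t, z.2.1)))).asked
        (Function.update z.1.1 (.s (t, z.2.1)) z.2.2.1)
  let E3 : Finset (Or × U × W) := Finset.univ.filter fun z =>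
    Bad gK z.1.1 ((disK (fun s : T × U => F s.1) G A D v q (t, z.2.1)).asked z.1.1)
  have hRs : Rs.card = realN F f A D t * Fintype.card (Option J → K) := by
    unfold realN
    rw [← hW]
    exact H3_prod (α := Or) (β := U) (γ := W) (fun z : Or × U =>
      (D (z.1.1 (.s (t, z.2)) none) (vis A (z.1.1 (.s (t, z.2))))).run
        (wd (fun s : T × U => F s.1) z.1.1) = true)
  have hIs : Is.card = idealN F G f A D v q := by
    have h := swap_card (SVf f : Th X (T × U) J K → Finset (Option J → K))
      (fun r : U => (.s (t, r) : Th X (T × U) J K)) Finset.univ hSV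
      (fun O _ u => (disC (fun s : T × U => F s.1) G A D v q u).run O = some true)
    unfold idealN
    exact (H3_inst _ _ fun z => Iff.rfl).trans (h.trans (H3_inst _ _ fun z => Iff.rfl))
  have hE1 : E1.card ≤ q * (Fintype.card J + 2 + m) * Fintype.card Or *
      Fintype.card (Option J → K) := by
    have h := hit_card (SVf f : Th X (T × U) J K → Finset (Option J → K))
      (fun r : U => (.s (t, r) : Th X (T × U) J K)) hinj Finset.univ hSV Finset.univ_nonempty
      (disC (fun s : T × U => F s.1) G A D v q) (q * (Fintype.card J + 2 + m))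
      (fun O u => hI O.1 u)
    have h2 : E1.card = (Finset.univ.filter fun z : Or × U =>
        (.s (t, z.2) : Th X (T × U) J K) ∈
          (disC (fun s : T × U => F s.1) G A D v q (z.1.1 (.s (t, z.2)))).asked z.1.1).card *
        Fintype.card W :=
      H3_prod (α := Or) (β := U) (γ := W) (fun z : Or × U =>
        (.s (t, z.2) : Th X (T × U) J K) ∈
          (disC (fun s : T × U => F s.1) G A D v q (z.1.1 (.s (t, z.2)))).asked z.1.1)
    rw [h2, ← hW]
    exact Nat.mul_le_mul_right _ h
  have hE2 : Fintype.card K * E2.card ≤ q * (Fintype.card J + 2 + m) *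
      Fintype.card (Option J → K) * (Fintype.card Or * Fintype.card U) := by
    have h := swap_card (SVf f : Th X (T × U) J K → Finset (Option J → K))
      (fun r : U => (.s (t, r) : Th X (T × U) J K)) Finset.univ hSV
      (fun O _ u => ∃ j ∉ A, .l (u none) j (u (some j)) ∈
        (disC (fun s : T × U => F s.1) G A D v q u).asked O)
    have h2 : E2.card = (Finset.univ.filter fun z : Or × U × W =>
        ∃ j ∉ A, .l (z.2.2.1 none) j (z.2.2.1 (some j)) ∈
        (disC (fun s : T × U => F s.1) G A D v q z.2.2.1).asked z.1.1).card :=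
      (H3_inst _ _ fun z => Iff.rfl).trans (h.trans (H3_inst _ _ fun z => Iff.rfl))
    rw [h2]
    refine H3_fib3 (α := Or) (β := U) (γ := W) _ _ (fun O _ u =>
      ∃ j ∉ A, .l (u.1 none) j (u.1 (some j)) ∈
        (disC (fun s : T × U => F s.1) G A D v q u.1).asked O.1) ?_
    intro O _
    refine le_trans (Nat.mul_le_mul_left _ ?_) (hid_count (fun s : T × U => F s.1) G A D v q m
      (fun f s A => hF f s.1 A) hG O.1)
    refine Finset.card_le_card_of_injOn Subtype.val ?_ (Subtype.val_injective.injOn)
    intro u hu
    have h3 := (Finset.mem_filter.1 (Finset.mem_coe.1 hu)).2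
    exact Finset.mem_coe.2 (Finset.mem_filter.2 ⟨Finset.mem_univ _, h3⟩)
  have hE3 : Fintype.card K * E3.card ≤ (q + 1) * (Fintype.card J + 2 + m) *
      Fintype.card (T × U) * Fintype.card Or * (Fintype.card U * Fintype.card W) := by
    rw [← Fintype.card_prod]
    refine H3_fib (α := Or) (β := U × W) _ _ (fun O z =>
      Bad gK O.1 ((disK (fun s : T × U => F s.1) G A D v q (t, z.1)).asked O.1)) ?_
    intro z
    exact badK_count (fun s : T × U => F s.1) G A D v q m (fun f s A => hF f s.1 A) hG f (t, z.1)
  have hiff : ∀ z, z ∉ E1 → z ∉ E2 → z ∉ E3 → (z ∈ Rs ↔ z ∈ Is) := by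
    intro z h1 h2 h3
    have h1' : (.s (t, z.2.1) : Th X (T × U) J K) ∉
        (disC (fun s : T × U => F s.1) G A D v q (z.1.1 (.s (t, z.2.1)))).asked z.1.1 :=
      fun h => h1 (Finset.mem_filter.2 ⟨Finset.mem_univ _, h⟩)
    have h3' : ¬ Bad gK z.1.1
        ((disK (fun s : T × U => F s.1) G A D v q (t, z.2.1)).asked z.1.1) :=
      fun h => h3 (Finset.mem_filter.2 ⟨Finset.mem_univ _, h⟩)
    obtain ⟨hr, ha⟩ := run_update
      (disC (fun s : T × U => F s.1) G A D v q (z.1.1 (.s (t, z.2.1)))) z.1.1
      (.s (t, z.2.1)) z.2.2.1 h1'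
    have h2' : ∀ j ∉ A, .l (z.1.1 (.s (t, z.2.1)) none) j (z.1.1 (.s (t, z.2.1)) (some j)) ∉
        (disC (fun s : T × U => F s.1) G A D v q (z.1.1 (.s (t, z.2.1)))).asked z.1.1 := by
      intro j hj h
      refine h2 (Finset.mem_filter.2 ⟨Finset.mem_univ _, j, hj, ?_⟩)
      rw [ha]
      exact h
    have hrun := disC_run (fun s : T × U => F s.1) G A D v q
      (fun f s A B => mono f s.1 A B) hq z.1.1 (t, z.2.1)
      (by rw [fO_orcF]; exact hv) h3' h1' h2'
    have e1 : z ∈ Rs ↔ (D (z.1.1 (.s (t, z.2.1)) none)
        (vis A (z.1.1 (.s (t, z.2.1))))).run (wd (fun s : T × U => F s.1) z.1.1) = true := by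
      rw [Finset.mem_filter]
      exact ⟨fun h => h.2, fun h => ⟨Finset.mem_univ _, h⟩⟩
    have e2 : z ∈ Is ↔ (disC (fun s : T × U => F s.1) G A D v q
        (z.1.1 (.s (t, z.2.1)))).run
        (Function.update z.1.1 (.s (t, z.2.1)) z.2.2.1) = some true := by
      rw [Finset.mem_filter]
      exact ⟨fun h => h.2, fun h => ⟨Finset.mem_univ _, h⟩⟩
    rw [e1, e2, hr, hrun, Option.some.injEq]
  have hsub : ∀ P Q : Finset (Or × U × W),
      (∀ z, z ∉ E1 → z ∉ E2 → z ∉ E3 → (z ∈ P ↔ z ∈ Q)) →
      P.card ≤ Q.card + (E1.card + E2.card + E3.card) := by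
    intro P Q h
    have h1 : P ⊆ Q ∪ (E1 ∪ E2 ∪ E3) := by
      intro z hz
      by_cases a1 : z ∈ E1
      · exact Finset.mem_union_right _ (Finset.mem_union_left _ (Finset.mem_union_left _ a1))
      by_cases a2 : z ∈ E2
      · exact Finset.mem_union_right _ (Finset.mem_union_left _ (Finset.mem_union_right _ a2))
      by_cases a3 : z ∈ E3
      · exact Finset.mem_union_right _ (Finset.mem_union_right _ a3)
      exact Finset.mem_union_left _ ((h z a1 a2 a3).1 hz)
    refine le_trans (Finset.card_le_card h1) (le_trans (Finset.card_union_le _ _) ?_)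
    refine Nat.add_le_add_left (le_trans (Finset.card_union_le _ _) ?_) _
    exact Nat.add_le_add_right (Finset.card_union_le _ _) _
  have hA1 := hsub Rs Is hiff
  have hA2 := hsub Is Rs fun z a b c => (hiff z a b c).symm
  rw [hRs, hIs] at hA1 hA2
  rw [hW] at hE3
  have c1 : (realN F f A D t : ℝ) * Fintype.card (Option J → K) ≤ (idealN F G f A D v q : ℝ) +
      ((E1.card : ℝ) + E2.card + E3.card) := by exact_mod_cast hA1
  have c2 : (idealN F G f A D v q : ℝ) ≤ (realN F f A D t : ℝ) * Fintype.card (Option J → K) +
      ((E1.card : ℝ) + E2.card + E3.card) := by exact_mod_cast hA2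
  have c3 : (E1.card : ℝ) ≤ (q : ℝ) * (Fintype.card J + 2 + m) * (Fintype.card Or : ℝ) *
      Fintype.card (Option J → K) := by exact_mod_cast hE1
  have c4 : (Fintype.card K : ℝ) * E2.card ≤ (q : ℝ) * (Fintype.card J + 2 + m) *
      Fintype.card (Option J → K) * ((Fintype.card Or : ℝ) * Fintype.card U) := by
    exact_mod_cast hE2
  have c5 : (Fintype.card K : ℝ) * E3.card ≤ ((q : ℝ) + 1) * (Fintype.card J + 2 + m) *
      Fintype.card (T × U) * (Fintype.card Or : ℝ) * Fintype.card U *
        Fintype.card (Option J → K) := by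
    have h : (Fintype.card K : ℝ) * E3.card ≤ ((q : ℝ) + 1) * (Fintype.card J + 2 + m) *
      Fintype.card (T × U) * (Fintype.card Or : ℝ) *
        ((Fintype.card U : ℝ) * Fintype.card (Option J → K)) := by exact_mod_cast hE3
    rw [← mul_assoc] at h
    exact h
  exact H3_real hU0 hK0 c1 c2 c3 c4 c5

private theorem H4_prob (F : T → Finset J → Comp X K V) (f : X → K) (A : Finset J)
    (D : K → (J → Option K) → Comp (Qry X (T × U) J K) (Ans J K V) Bool) (t : T) :
    prob (fun p : (T × U → Option J → K) × U =>
        (D (p.1 (t, p.2) none) (vis A (p.1 (t, p.2)))).run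
          (orc (fun s : T × U => F s.1) f p.1) = true) =
      (realN F f A D t : ℝ) /
        ((Fintype.card (Orc (SVf f : Th X (T × U) J K → Finset (Option J → K))) : ℝ) *
          Fintype.card U) := by
  have e : Orc (SVf f : Th X (T × U) J K → Finset (Option J → K)) × U ≃
      (T × U → Option J → K) × U := Equiv.prodCongr (orcF f) (Equiv.refl U)
  have h1 : Nat.card {p : (T × U → Option J → K) × U //
      (D (p.1 (t, p.2) none) (vis A (p.1 (t, p.2)))).run
        (orc (fun s : T × U => F s.1) f p.1) = true} = realN F f A D t := by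
    unfold realN
    rw [← Fintype.card_subtype, ← Nat.card_eq_fintype_card]
    refine (Nat.card_congr (Equiv.subtypeEquiv
      (Equiv.prodCongr (orcF f) (Equiv.refl U)) fun z => ?_)).symm
    have h2 : wd (fun s : T × U => F s.1) z.1.1 =
        orc (fun s : T × U => F s.1) f (orcF f z.1) := by
      unfold wd
      rw [fO_orcF]
      rfl
    rw [h2]
    rfl
  have h3 : (Nat.card ((T × U → Option J → K) × U) : ℝ) =
      (Fintype.card (Orc (SVf f : Th X (T × U) J K → Finset (Option J → K))) : ℝ) *
          Fintype.card U := by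
    rw [← Nat.card_congr e, Nat.card_prod, Nat.card_eq_fintype_card, Nat.card_eq_fintype_card,
      Nat.cast_mul]
  unfold prob
  rw [h1, h3]

private theorem H4_real (a b c N M E B : ℝ) (hN : 0 < N) (hM : 0 < M)
    (h0 : |a * M - c| ≤ E * (N * M)) (h1 : |b * M - c| ≤ E * (N * M)) (hE : 2 * E ≤ B) :
    |a / N - b / N| ≤ B := by
  have h2 : |a - b| * M ≤ 2 * E * N * M := by
    have h3 : (a - b) * M = (a * M - c) - (b * M - c) := by ring
    rw [← abs_of_pos hM, ← abs_mul, abs_of_pos hM, h3]
    have h4 := abs_sub (a * M - c) (b * M - c)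
    linarith
  have h5 : |a - b| ≤ 2 * E * N := le_of_mul_le_mul_right h2 hM
  rw [← sub_div, abs_div, abs_of_pos hN, div_le_iff₀ hN]
  exact h5.trans (mul_le_mul_of_nonneg_right hE hN.le)

private theorem H4_num (q w u k c : ℝ) (hq : 0 ≤ q) (hw : 0 ≤ w) (hu : 0 < u) (hk : 0 < k)
    (hc : 1 ≤ c) :
    2 * ((q * w) / u + (q * w) / k + (q + 1) * w * c / k) ≤
      2 * ((q + 1) * w) / u + 4 * ((q + 1) * w) * c / k := by
  have h1 : q * w ≤ (q + 1) * w := by nlinarith
  have h2 : (q * w) / u ≤ ((q + 1) * w) / u := div_le_div_of_nonneg_right h1 hu.le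
  have h3 : (q * w) / k ≤ ((q + 1) * w * c) / k := by
    apply div_le_div_of_nonneg_right _ hk.le
    have h4 : 0 ≤ (q + 1) * w := by positivity
    nlinarith
  have h5 : 2 * ((q + 1) * w) / u = 2 * (((q + 1) * w) / u) := by ring
  have h6 : 4 * ((q + 1) * w) * c / k = 4 * ((q + 1) * w * c / k) := by ring
  rw [h5, h6]
  linarith

/-- Row H4: both keys are compared with the ideal experiment; then `orcF`. -/
theorem hide_nbb (F : T → Finset J → Comp X K V) (G : V → Finset J → Comp X K V) (m : ℕ)
    (hF : ∀ f t A, ((F t A).asked f).length ≤ m) (hG : ∀ f v A, ((G v A).asked f).length ≤ m)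
    (mono : ∀ f t A B, A ⊆ B → (G ((F t B).run f) A).run f = (F t A).run f) (f : X → K)
    (t0 t1 : T) (A : Finset J) (hl : (F t0 A).run f = (F t1 A).run f)
    (D : K → (J → Option K) → Comp (Qry X (T × U) J K) (Ans J K V) Bool) (q : ℕ)
    (hq : ∀ η a ρ, ((D η a).asked ρ).length ≤ q) :
    |prob (fun p : (T × U → Option J → K) × U =>
        (D (p.1 (t0, p.2) none) (vis A (p.1 (t0, p.2)))).run
          (orc (fun s : T × U => F s.1) f p.1) = true) -
      prob (fun p : (T × U → Option J → K) × U =>
        (D (p.1 (t1, p.2) none) (vis A (p.1 (t1, p.2)))).run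
          (orc (fun s : T × U => F s.1) f p.1) = true)| ≤
      2 * (((q : ℝ) + 1) * (Fintype.card J + m + 2)) / Fintype.card U +
      4 * (((q : ℝ) + 1) * (Fintype.card J + m + 2)) * (Fintype.card T * Fintype.card U) /
        Fintype.card K := by
  have hK : 0 < Fintype.card K := Fintype.card_pos
  have hU : 0 < Fintype.card U := Fintype.card_pos
  have hT : 0 < Fintype.card T := Fintype.card_pos
  have hV : 0 < Fintype.card (Option J → K) := Fintype.card_pos
  have hO : 0 < Fintype.card (Orc (SVf f : Th X (T × U) J K → Finset (Option J → K))) := by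
    have hne : Nonempty (Orc (SVf f : Th X (T × U) J K → Finset (Option J → K))) :=
      ⟨(orcF f).symm fun _ => cv⟩
    exact Fintype.card_pos
  have h0 := dist_one F G m hF hG mono f t0 A ((F t0 A).run f) rfl D q hq
  have h1 := dist_one F G m hF hG mono f t1 A ((F t0 A).run f) hl.symm D q hq
  rw [H4_prob, H4_prob]
  refine H4_real _ _ _ _ (Fintype.card (Option J → K) : ℝ) _ _ ?_ ?_ h0 h1 ?_
  · exact mul_pos (Nat.cast_pos.2 hO) (Nat.cast_pos.2 hU)
  · exact Nat.cast_pos.2 hV
  · have h2 : (Fintype.card (T × U) : ℝ) = Fintype.card T * Fintype.card U := by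
      rw [Fintype.card_prod, Nat.cast_mul]
    have h3 : (1 : ℝ) ≤ Fintype.card T * Fintype.card U := by
      have h4 : 1 ≤ Fintype.card T * Fintype.card U := Nat.mul_pos hT hU
      exact_mod_cast h4
    have h5 : (Fintype.card J + 2 + m : ℝ) = Fintype.card J + m + 2 := by ring
    rw [h2, h5]
    exact H4_num (q : ℝ) (Fintype.card J + m + 2) (Fintype.card U) (Fintype.card K)
      (Fintype.card T * Fintype.card U) (Nat.cast_nonneg q) (by positivity)
      (Nat.cast_pos.2 hU) (Nat.cast_pos.2 hK) h3

end two

end Pool.Agent.Nbb
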