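import Pool.Agent.Lib.MP_ae38e0_lc.Nbb.OTN

import Pool.Agent.Lib.MP_ae38e0_lc.Nbb.OneW

import Pool.Agent.Lib.MP_ae38e0_lc.Nbb.Hide

set_option autoImplicit false

/-!
# The barrier
-/

namespace Pool.Agent.Nbb

open Pool.Agent.LinOT Classical

theorem barrier (T J K V M : Type) [Fintype T] [Nonempty T] [Fintype J] [Fintype K] [Nonempty K]
    (k m N n h : ℕ) (F : T → Finset J → Comp (Fin (2 ^ k)) K V)
    (G : V → Finset J → Comp (Fin (2 ^ k)) K V)
    (R : Party (Qry (Fin (2 ^ k)) (T × Fin (2 ^ k)) J K) (Ans J K V) M Bool)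
    (D : Party (Qry (Fin (2 ^ k)) (T × Fin (2 ^ k)) J K) (Ans J K V) M (Bool × Bool))
    [Fintype R.Tape] [Fintype D.Tape] [Nonempty R.Tape] [Nonempty D.Tape]
    (out : R.St → Option Bool) (m0 : M)
    (hF : ∀ f t A, ((F t A).asked f).length ≤ m) (hG : ∀ f v A, ((G v A).asked f).length ≤ m)
    (mono : ∀ f t A A', A ⊆ A' → (G ((F t A').run f) A).run f = (F t A).run f)
    (hn : 0 < n) (hh : 0 < h) (hR : limited (fun s => F s.1) R false N n)
    (hD : ∀ b, limited (fun s => F s.1) D b N n) (δ : ℝ) (b1 : Bool)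
    (hδ : ∀ b0, err (fun s => F s.1) R D out N m0 false b0 b1 ≤ δ) (B : ℕ)
    (hB : B = 27648 * (n * (Fintype.card J + 2) * (m + 1)) ^ 5 * h ^ 3) :
    ∃ E : List (M × M) → Comp (Qry (Fin (2 ^ k)) (T × Fin (2 ^ k)) J K) (Ans J K V) Bool,
      (∀ t O, ((E t).asked O).length ≤ B) ∧
      1 - 2 * δ - 6 / h - (B : ℝ) ^ 4 * (2 ^ k * Fintype.card T) / Fintype.card K ≤
        advSum (fun s => F s.1) R D N m0 E b1 ∧
      ∀ (q : ℕ) (I : ℝ), I = (B * q + 1) * (Fintype.card J + m + 2) →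
        (∀ Iv : K → Comp (Qry (Fin (2 ^ k)) (T × Fin (2 ^ k)) J K ⊕ List (M × M))
            (Ans J K V ⊕ Bool) (Fin (2 ^ k)),
          (∀ y O, ((Iv y).asked (withAdv O E)).length ≤ q) →
          prob (fun p : World (Fin (2 ^ k)) (T × Fin (2 ^ k)) J K × Fin (2 ^ k) =>
            p.1.1 ((Iv (p.1.1 p.2)).run (withAdv (ora (fun s => F s.1) p.1) E)) = p.1.1 p.2) ≤
            I / 2 ^ k + (I * (2 ^ k * Fintype.card T) + 2 ^ k) / Fintype.card K) ∧
        (∀ (f : Fin (2 ^ k) → K) (t0 t1 : T) (A : Finset J) (C : K → (J → Option K) →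
            Comp (Qry (Fin (2 ^ k)) (T × Fin (2 ^ k)) J K ⊕ List (M × M))
              (Ans J K V ⊕ Bool) Bool),
          (∀ η a O, ((C η a).asked (withAdv O E)).length ≤ q) →
          (F t0 A).run f = (F t1 A).run f →
          |prob (fun p : (T × Fin (2 ^ k) → Option J → K) × Fin (2 ^ k) =>
              (C (p.1 (t0, p.2) none) (vis A (p.1 (t0, p.2)))).run
                (withAdv (ora (fun s => F s.1) (f, p.1)) E) = true) -
            prob (fun p : (T × Fin (2 ^ k) → Option J → K) × Fin (2 ^ k) =>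
              (C (p.1 (t1, p.2) none) (vis A (p.1 (t1, p.2)))).run
                (withAdv (ora (fun s => F s.1) (f, p.1)) E) = true)| ≤
            2 * I / 2 ^ k + 4 * I * (2 ^ k * Fintype.card T) / Fintype.card K) := by
  have hX : Nonempty (Fin (2 ^ k)) := ⟨⟨0, by positivity⟩⟩
  have hnn : nn J n m = n * (Fintype.card J + 2) * (m + 1) := rfl
  have hB' : 27648 * nn J n m ^ 5 * h ^ 3 = B := by rw [hnn, hB]
  have hnn0 : 0 < nn J n m := by rw [hnn]; positivity
  have hB1 : 1 ≤ B := by rw [← hB']; exact Nat.succ_le_of_lt (by positivity)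
  have hcX : (Fintype.card (Fin (2 ^ k)) : ℝ) = 2 ^ k := by rw [Fintype.card_fin]; push_cast; rfl
  have hcS : (Fintype.card (T × Fin (2 ^ k)) : ℝ) = 2 ^ k * Fintype.card T := by
    rw [Fintype.card_prod, Nat.cast_mul, hcX]; ring
  obtain ⟨E, hE1, hE2⟩ := ot_nbb (X := Fin (2 ^ k)) (S := T × Fin (2 ^ k)) (fun s => F s.1) G R D
    out m0 N n m h hn hh (fun f s A => hF f s.1 A) hG (fun f s A A' hA => mono f s.1 A A' hA) hR
    hD δ b1 hδ
  have hE1' : ∀ t O, ((E t).asked O).length ≤ B := fun t O => by rw [← hB']; exact hE1 t O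
  refine ⟨E, hE1', ?_, ?_⟩
  · have e1 : (27648 * (nn J n m : ℝ) ^ 5 * h ^ 3) = B := by rw [← hB']; push_cast; rfl
    rw [e1, hcS] at hE2
    exact hE2
  · intro q I hI
    have hq : ∀ x : ℕ, x ≤ q → B * x ≤ B * q := fun x hx => Nat.mul_le_mul_left B hx
    constructor
    · intro Iv hIv
      have h1 := oneway_nbb (X := Fin (2 ^ k)) (S := T × Fin (2 ^ k)) (fun s => F s.1) G m
        (fun f s A => hF f s.1 A) hG (fun f s A A' hA => mono f s.1 A A' hA)
        (fun y => sim E (Iv y)) (B * q)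
        (fun y ρ => (asked_sim E ρ B hB1 (fun t => hE1' t ρ) (Iv y)).trans (hq _ (hIv y ρ)))
      simp only [run_sim] at h1
      rw [hcX, hcS] at h1
      refine h1.trans (le_of_eq ?_)
      rw [hI]
      push_cast
      ring
    · intro f t0 t1 A C hC hl
      have h1 := hide_nbb (X := Fin (2 ^ k)) (U := Fin (2 ^ k)) F G m hF hG mono f t0 t1 A hl
        (fun η a => sim E (C η a)) (B * q)
        (fun η a ρ => (asked_sim E ρ B hB1 (fun t => hE1' t ρ) (C η a)).trans (hq _ (hC η a ρ)))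
      simp only [run_sim] at h1
      rw [hcX] at h1
      refine h1.trans (le_of_eq ?_)
      rw [hI]
      push_cast
      ring

end Pool.Agent.Nbb
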