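import Pool.Agent.Lib.MP_ae38e0_lc.Model

set_option autoImplicit false

/-!
# Two sides of a public state: definitions

`Q` is the set of all things which can be touched: cells of the oracle (`cel q`) and items (which
have only one possible value, `S q` being the set of the possible values).
-/

namespace Pool.Agent.Nbb

open Pool.Agent.LinOT Classical

/-- The oracles whose value at `q` lies in `S q`. -/
abbrev Orc {Q K : Type} (S : Q → Finset K) := {O : Q → K // ∀ q, O q ∈ S q}

noncomputable instance {Q K : Type} [Finite Q] [Finite K] (S : Q → Finset K) : Fintype (Orc S) :=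
  Fintype.ofFinite _

/-- What is known about one party at some point of the execution, as functions of its tape and the
oracle: its state, the things touched so far, and whether it is compatible with the public state. -/
structure Sd (Q K St R : Type) where
  s : R → (Q → K) → St
  q : R → (Q → K) → List Q
  P : R → (Q → K) → Prop

section defs

variable {Q K St R δ : Type}

/-- `d` depends only on the values of the oracle at `l`. -/
def Lc (l : R → (Q → K) → List Q) (d : R → (Q → K) → δ) : Prop :=
  ∀ r O O', (∀ x ∈ l r O, O x = O' x) → d r O = d r O'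

/-- The data of the side depend only on the answers to its queries. -/
def Sd.Loc (X : Sd Q K St R) : Prop :=
  Lc X.q X.s ∧ Lc X.q X.q ∧ Lc X.q X.P

/-- The oracle gives the known answers. -/
def Kn (kn : List (Q × K)) (O : Q → K) : Prop := ∀ w ∈ kn, O w.1 = w.2

/-- The side after the party has run the computation `c`, with public result `m`. -/
def Sd.upd {M : Type} (X : Sd Q K St R) (c : St → Comp Q K (St × M)) (m : M) : Sd Q K St R where
  s := fun r O => ((c (X.s r O)).run O).1
  q := fun r O => X.q r O ++ (c (X.s r O)).asked O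
  P := fun r O => X.P r O ∧ ((c (X.s r O)).run O).2 = m

/-- The side after the party has run the computation `c`, the result being still unknown. -/
def Sd.ext {M : Type} (X : Sd Q K St R) (c : St → Comp Q K (St × M)) : Sd Q K St R where
  s := X.s
  q := fun r O => X.q r O ++ (c (X.s r O)).asked O
  P := X.P

/-- The cells in both lists are known. -/
def Dj (cel : Q → Prop) (W l l' : List Q) : Prop := ∀ c, cel c → c ∈ l → c ∈ l' → c ∈ W

/-- The number of things of the list which are not known. -/
noncomputable def unl (l W : List Q) : ℕ := (l.toFinset \ W.toFinset).card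

end defs

section counts

variable {Q K StA StB RA RB : Type} [Finite Q] [Finite K] [Fintype RA] [Fintype RB]

variable (S : Q → Finset K) (cel : Q → Prop)

/-- The pairs of a tape and an oracle compatible with the public state. -/
noncomputable def sup (X : Sd Q K StA RA) (kn : List (Q × K)) : Finset (RA × Orc S) :=
  Finset.univ.filter fun p => X.P p.1 p.2.1 ∧ Kn kn p.2.1

/-- The pairs of consistent parties which have no unknown cell in common. -/
noncomputable def gp (X : Sd Q K StA RA) (Y : Sd Q K StB RB) (kn : List (Q × K)) :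
    Finset ((RA × Orc S) × (RB × Orc S)) :=
  (sup S X kn ×ˢ sup S Y kn).filter fun z =>
    Dj cel (kn.map Prod.fst) (X.q z.1.1 z.1.2.1) (Y.q z.2.1 z.2.2.1)

/-- The real executions. -/
noncomputable def rl (X : Sd Q K StA RA) (Y : Sd Q K StB RB) (kn : List (Q × K)) :
    Finset (RA × RB × Orc S) :=
  Finset.univ.filter fun w => X.P w.1 w.2.2.1 ∧ Y.P w.2.1 w.2.2.1 ∧ Kn kn w.2.2.1

/-- In the execution `w` the parties have no unknown cell in common. -/
def Dw (X : Sd Q K StA RA) (Y : Sd Q K StB RB) (kn : List (Q × K)) (w : RA × RB × Orc S) : Prop :=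
  Dj cel (kn.map Prod.fst) (X.q w.1 w.2.2.1) (Y.q w.2.1 w.2.2.1)

/-- The real executions in which the parties have no unknown cell in common. -/
noncomputable def gr (X : Sd Q K StA RA) (Y : Sd Q K StB RB) (kn : List (Q × K)) :
    Finset (RA × RB × Orc S) :=
  (rl S X Y kn).filter fun w => Dw S cel X Y kn w

/-- The number of oracles compatible with the public state. -/
noncomputable def kap (kn : List (Q × K)) : ℕ :=
  (Finset.univ.filter fun O : Orc S => Kn kn O.1).card

/-- The lists of consistent parties have at most `n` elements. -/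
def Bd (n : ℕ) (X : Sd Q K StA RA) (kn : List (Q × K)) : Prop :=
  ∀ p ∈ sup S X kn, (X.q p.1 p.2.1).length ≤ n

/-- The number of good pairs in which the first party has touched `d`. -/
noncomputable def tA (X : Sd Q K StA RA) (Y : Sd Q K StB RB) (kn : List (Q × K)) (d : Q) : ℕ :=
  ((gp S cel X Y kn).filter fun z => d ∈ X.q z.1.1 z.1.2.1).card

/-- The number of good pairs in which the second party has touched `d`. -/
noncomputable def tB (X : Sd Q K StA RA) (Y : Sd Q K StB RB) (kn : List (Q × K)) (d : Q) : ℕ :=
  ((gp S cel X Y kn).filter fun z => d ∈ Y.q z.2.1 z.2.2.1).card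

/-- `d` is unknown, and touched with probability at least `1 / N`. -/
def Hv (N : ℕ) (X : Sd Q K StA RA) (Y : Sd Q K StB RB) (kn : List (Q × K)) (d : Q) : Prop :=
  d ∉ kn.map Prod.fst ∧ (gp S cel X Y kn).card ≤ N * (tA S cel X Y kn d + tB S cel X Y kn d)

/-- No thing `d` with `D d` is heavy. -/
def Lt (N : ℕ) (D : Q → Prop) (X : Sd Q K StA RA) (Y : Sd Q K StB RB) (kn : List (Q × K)) : Prop :=
  ∀ d, D d → d ∉ kn.map Prod.fst →
    N * tA S cel X Y kn d ≤ (gp S cel X Y kn).card ∧ N * tB S cel X Y kn d ≤ (gp S cel X Y kn).card

/-- Most of the real executions are good. -/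
def Gd (X : Sd Q K StA RA) (Y : Sd Q K StB RB) (kn : List (Q × K)) : Prop :=
  (rl S X Y kn).card ≤ 2 * (gr S cel X Y kn).card

/-- The number of queries which are still free. -/
noncomputable def qp (n : ℕ) (X : Sd Q K StA RA) (Y : Sd Q K StB RB) (kn : List (Q × K)) : ℝ :=
  ∑ w ∈ rl S X Y kn,
    (2 * (n : ℝ) - ((X.q w.1 w.2.2.1).length : ℝ) - ((Y.q w.2.1 w.2.2.1).length : ℝ))

/-- The potential which pays for the learning steps. -/
noncomputable def pot (n : ℕ) (X : Sd Q K StA RA) (Y : Sd Q K StB RB) (kn : List (Q × K)) : ℝ :=
  ∑ w ∈ rl S X Y kn,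
    (2 * (n : ℝ) - ((X.q w.1 w.2.2.1).length : ℝ) - ((Y.q w.2.1 w.2.2.1).length : ℝ) +
      (unl (X.q w.1 w.2.2.1) (kn.map Prod.fst) : ℝ) +
      (unl (Y.q w.2.1 w.2.2.1) (kn.map Prod.fst) : ℝ))

end counts

end Pool.Agent.Nbb
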