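import Pool.Agent.Lib.MP_ae38e0_lc.Nbb.Light

set_option autoImplicit false

/-! Row P3: the loss in a step of a party. -/

namespace Pool.Agent.Nbb

open Pool.Agent.LinOT Classical

variable {Q K StA StB RA RB M : Type} [Finite Q] [Finite K] [Fintype RA] [Fintype RB]

variable (S : Q → Finset K) (cel : Q → Prop)

/-- The computation asks something. -/
def asksC {α : Type} : Comp Q K α → Prop
  | .ret _ => False
  | .ask _ _ => True

/-- A thing newly touched by the first party is an unknown thing touched by the second one. -/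
def hitA (c : StA → Comp Q K (StA × M)) (X : Sd Q K StA RA) (Y : Sd Q K StB RB)
    (kn : List (Q × K)) (w : RA × RB × Orc S) : Prop :=
  ∃ q ∈ (c (X.s w.1 w.2.2.1)).asked w.2.2.1, q ∈ Y.q w.2.1 w.2.2.1 ∧ q ∉ kn.map Prod.fst

/-- A thing newly touched by the second party is an unknown thing touched by the first one. -/
def hitB (c : StB → Comp Q K (StB × M)) (X : Sd Q K StA RA) (Y : Sd Q K StB RB)
    (kn : List (Q × K)) (w : RA × RB × Orc S) : Prop :=
  ∃ q ∈ (c (Y.s w.2.1 w.2.2.1)).asked w.2.2.1, q ∈ X.q w.1 w.2.2.1 ∧ q ∉ kn.map Prod.fst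

private theorem P3a_congr {X : Sd Q K StA RA} (hX : X.Loc) (c : StA → Comp Q K (StA × M))
    (r : RA) (O O' : Q → K) (h : ∀ x ∈ X.q r O ++ (c (X.s r O)).asked O, O x = O' x) :
    X.s r O = X.s r O' ∧ X.q r O = X.q r O' ∧ X.P r O = X.P r O' ∧
      (c (X.s r O)).run O = (c (X.s r O')).run O' ∧
        (c (X.s r O)).asked O = (c (X.s r O')).asked O' := by
  have h1 : ∀ x ∈ X.q r O, O x = O' x := fun x hx => h x (List.mem_append_left _ hx)
  have h2 : ∀ x ∈ (c (X.s r O)).asked O, O x = O' x := fun x hx =>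
    h x (List.mem_append_right _ hx)
  have e1 := hX.1 r O O' h1
  have e2 := hX.2.1 r O O' h1
  have e3 := hX.2.2 r O O' h1
  have e4 := Comp.run_congr (c (X.s r O)) h2
  refine ⟨e1, e2, e3, ?_, ?_⟩
  · rw [← e1]
    exact e4.1
  · rw [← e1]
    exact e4.2

theorem ext_loc {X : Sd Q K StA RA} (hX : X.Loc) (c : StA → Comp Q K (StA × M)) :
    (X.ext c).Loc := by
  refine ⟨fun r O O' h => ?_, fun r O O' h => ?_, fun r O O' h => ?_⟩
  · exact (P3a_congr hX c r O O' h).1
  · obtain ⟨-, e2, -, -, e5⟩ := P3a_congr hX c r O O' h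
    show X.q r O ++ (c (X.s r O)).asked O = X.q r O' ++ (c (X.s r O')).asked O'
    rw [e2, e5]
  · exact (P3a_congr hX c r O O' h).2.2.1

theorem upd_loc {X : Sd Q K StA RA} (hX : X.Loc) (c : StA → Comp Q K (StA × M)) (m : M) :
    (X.upd c m).Loc := by
  refine ⟨fun r O O' h => ?_, fun r O O' h => ?_, fun r O O' h => ?_⟩
  · obtain ⟨-, -, -, e4, -⟩ := P3a_congr hX c r O O' h
    show ((c (X.s r O)).run O).1 = ((c (X.s r O')).run O').1
    rw [e4]
  · obtain ⟨-, e2, -, -, e5⟩ := P3a_congr hX c r O O' h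
    show X.q r O ++ (c (X.s r O)).asked O = X.q r O' ++ (c (X.s r O')).asked O'
    rw [e2, e5]
  · obtain ⟨-, -, e3, e4, -⟩ := P3a_congr hX c r O O' h
    show (X.P r O ∧ ((c (X.s r O)).run O).2 = m) = (X.P r O' ∧ ((c (X.s r O')).run O').2 = m)
    rw [e3, e4]

private theorem P3a_card {α β : Type} (s : Finset α) (t : Finset β) (P : α × β → Prop)
    (R : α → β → Prop) [DecidablePred P] [∀ a, DecidablePred (R a)] (h : ∀ a b, P (a, b) ↔ R a b) :
    ((s ×ˢ t).filter P).card = ∑ a ∈ s, (t.filter (R a)).card := by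
  rw [Finset.card_filter, Finset.sum_product]
  refine Finset.sum_congr rfl fun a _ => ?_
  rw [Finset.card_filter]
  exact Finset.sum_congr rfl fun b _ => if_congr (h a b) rfl rfl

private theorem P3a_split {α : Type} (s : Finset α) (P R : α → Prop) (h : ∀ a, R a ↔ ¬ P a) :
    (s.filter P).card + (s.filter R).card = s.card := by
  have h1 := Finset.card_filter_add_card_filter_not (s := s) P
  rw [← h1]
  congr 2
  exact Finset.filter_congr fun a _ => h a

private theorem P3a_dj (W l a l' : List Q) (h : ¬ ∃ q ∈ a, q ∈ l' ∧ q ∉ W) :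
    Dj cel W (l ++ a) l' ↔ Dj cel W l l' := by
  constructor
  · intro h1 x hx hl hl'
    exact h1 x hx (List.mem_append_left _ hl) hl'
  · intro h1 x hx hl hl'
    rcases List.mem_append.1 hl with h2 | h2
    · exact h1 x hx h2 hl'
    · by_contra h3
      exact h ⟨x, h2, hl', h3⟩

/-- Proof: `#{w in gr : no hit} * kap = #{z in gp : no hit}` by `pair_eq` for the sides `X.ext c`
and `Y` (data: both lists; `Φ`: the new things of the list of `Y` are known), so
`#{w in gr : hit} * kap = #{z in gp : hit}`.  Each hit of `z = (p, p')` is at one of the at most `n`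
new things `q` of `p` outside `W`, and `3 M #{p' : q touched} <= 4 |sup Y| <= 6 nbA p` (`touchB`,
`nbA_big`); the sum of `nbA p` over the `p` which ask is `#{z in gp : p asks}`, that is
`#{w in gr : asks} * kap` (`pair_eq`, the state is local). -/
theorem hitA_le (hcel : ∀ q, ¬ cel q → (S q).card ≤ 1) (N n L : ℕ) (hN : 4 * n ≤ N) (hL0 : 0 < L)
    (hLN : L ≤ N) (X : Sd Q K StA RA) (Y : Sd Q K StB RB) (hX : X.Loc) (hY : Y.Loc)
    (kn : List (Q × K)) (c : StA → Comp Q K (StA × M)) (hL : Lt S cel N cel X Y kn)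
    (hX' : Bd S n (X.ext c) kn) (hY' : Bd S n Y kn)
    (hM : Lt S cel L (fun q => ¬ cel q) X Y kn ∨ ∀ st O, ∀ q ∈ (c st).asked O, cel q) :
    L * ((gr S cel X Y kn).filter fun w => hitA S c X Y kn w).card ≤
      2 * n * ((gr S cel X Y kn).filter fun w => asksC (c (X.s w.1 w.2.2.1))).card := by
  set W := kn.map Prod.fst with hW
  have hN0 : 0 < N := lt_of_lt_of_le hL0 hLN
  -- the list of new things
  let dA : RA → (Q → K) → List Q := fun r O => (c (X.s r O)).asked O
  have hdA : Lc (X.ext c).q dA := fun r O O' h => (P3a_congr hX c r O O' h).2.2.2.2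
  obtain ⟨Hit, hHit⟩ : ∃ Hit : List Q → List Q → Prop,
      ∀ l l', Hit l l' ↔ ∃ q ∈ l, q ∈ l' ∧ q ∉ W :=
    ⟨fun l l' => ∃ q ∈ l, q ∈ l' ∧ q ∉ W, fun _ _ => Iff.rfl⟩
  obtain ⟨NH, hNH⟩ : ∃ NH : List Q → List Q → Prop, ∀ l l', NH l l' ↔ ¬ Hit l l' :=
    ⟨fun l l' => ¬ Hit l l', fun _ _ => Iff.rfl⟩
  have hpair := pair_eq S cel hcel (X.ext c) Y (ext_loc hX c) hY kn dA hdA Y.q hY.2.1
    NH
  have hgpno : (gp S cel (X.ext c) Y kn).filter
      (fun z => NH (dA z.1.1 z.1.2.1) (Y.q z.2.1 z.2.2.1)) =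
      (gp S cel X Y kn).filter (fun z => NH (dA z.1.1 z.1.2.1) (Y.q z.2.1 z.2.2.1)) := by
    ext z
    simp only [Finset.mem_filter, gp]
    constructor
    · rintro ⟨⟨h1, h2⟩, h3⟩
      exact ⟨⟨h1, (P3a_dj cel W _ _ _ fun h => (hNH _ _).1 h3 ((hHit _ _).2 h)).1 h2⟩, h3⟩
    · rintro ⟨⟨h1, h2⟩, h3⟩
      exact ⟨⟨h1, (P3a_dj cel W _ _ _ fun h => (hNH _ _).1 h3 ((hHit _ _).2 h)).2 h2⟩, h3⟩
  have hgrno : (gr S cel (X.ext c) Y kn).filter
      (fun w => NH (dA w.1 w.2.2.1) (Y.q w.2.1 w.2.2.1)) =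
      (gr S cel X Y kn).filter (fun w => NH (dA w.1 w.2.2.1) (Y.q w.2.1 w.2.2.1)) := by
    ext w
    simp only [Finset.mem_filter, gr, Dw]
    constructor
    · rintro ⟨⟨h1, h2⟩, h3⟩
      exact ⟨⟨h1, (P3a_dj cel W _ _ _ fun h => (hNH _ _).1 h3 ((hHit _ _).2 h)).1 h2⟩, h3⟩
    · rintro ⟨⟨h1, h2⟩, h3⟩
      exact ⟨⟨h1, (P3a_dj cel W _ _ _ fun h => (hNH _ _).1 h3 ((hHit _ _).2 h)).2 h2⟩, h3⟩
  rw [hgpno, hgrno] at hpair
  have hall := gp_card S cel hcel X Y hX hY kn
  have hsplit1 := P3a_split (gp S cel X Y kn)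
    (fun z => Hit (dA z.1.1 z.1.2.1) (Y.q z.2.1 z.2.2.1))
    (fun z => NH (dA z.1.1 z.1.2.1) (Y.q z.2.1 z.2.2.1)) (fun _ => hNH _ _)
  have hsplit2 := P3a_split (gr S cel X Y kn)
    (fun w => Hit (dA w.1 w.2.2.1) (Y.q w.2.1 w.2.2.1))
    (fun w => NH (dA w.1 w.2.2.1) (Y.q w.2.1 w.2.2.1)) (fun _ => hNH _ _)
  have hhit : ((gp S cel X Y kn).filter
      (fun z => Hit (dA z.1.1 z.1.2.1) (Y.q z.2.1 z.2.2.1))).card =
      ((gr S cel X Y kn).filter (fun w => Hit (dA w.1 w.2.2.1) (Y.q w.2.1 w.2.2.1))).card *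
        kap S kn := by
    have h1 : ((gr S cel X Y kn).filter
        (fun w => Hit (dA w.1 w.2.2.1) (Y.q w.2.1 w.2.2.1))).card * kap S kn +
        ((gr S cel X Y kn).filter
          (fun w => NH (dA w.1 w.2.2.1) (Y.q w.2.1 w.2.2.1))).card * kap S kn =
        (gr S cel X Y kn).card * kap S kn := by
      rw [← add_mul, hsplit2]
    omega
  have hask := pair_eq S cel hcel X Y hX hY kn X.s hX.1 (fun _ _ => ())
    (fun _ _ _ _ => rfl) (fun st _ => asksC (c st))
  have hhitA : (gr S cel X Y kn).filter (fun w => hitA S c X Y kn w) =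
      (gr S cel X Y kn).filter (fun w => Hit (dA w.1 w.2.2.1) (Y.q w.2.1 w.2.2.1)) :=
    Finset.filter_congr fun w _ => (hHit _ _).symm
  rw [hhitA]
  -- the count of the pairs
  have hmain : L * ((gp S cel X Y kn).filter
      (fun z => Hit (dA z.1.1 z.1.2.1) (Y.q z.2.1 z.2.2.1))).card ≤
      2 * n * ((gp S cel X Y kn).filter (fun z => asksC (c (X.s z.1.1 z.1.2.1)))).card := by
    rcases Nat.eq_zero_or_pos (gp S cel X Y kn).card with h0 | hg
    · have h1 : ((gp S cel X Y kn).filter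
          (fun z => Hit (dA z.1.1 z.1.2.1) (Y.q z.2.1 z.2.2.1))).card = 0 := by
        have := Finset.card_filter_le (gp S cel X Y kn)
          (fun z => Hit (dA z.1.1 z.1.2.1) (Y.q z.2.1 z.2.2.1))
        omega
      rw [h1, mul_zero]
      exact Nat.zero_le _
    · have hBX : Bd S n X kn := by
        intro p hp
        have h1 := hX' p hp
        have h2 : ((X.ext c).q p.1 p.2.1).length =
            (X.q p.1 p.2.1).length + (dA p.1 p.2.1).length := List.length_append
        omega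
      have e1 : ((gp S cel X Y kn).filter
          (fun z => Hit (dA z.1.1 z.1.2.1) (Y.q z.2.1 z.2.2.1))).card =
          ∑ p ∈ sup S X kn, ((sup S Y kn).filter fun p' =>
            Dj cel W (X.q p.1 p.2.1) (Y.q p'.1 p'.2.1) ∧
              Hit (dA p.1 p.2.1) (Y.q p'.1 p'.2.1)).card := by
        unfold gp
        rw [Finset.filter_filter]
        exact P3a_card _ _ _ _ fun _ _ => Iff.rfl
      have e2 : ((gp S cel X Y kn).filter (fun z => asksC (c (X.s z.1.1 z.1.2.1)))).card =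
          ∑ p ∈ sup S X kn, ((sup S Y kn).filter fun p' =>
            Dj cel W (X.q p.1 p.2.1) (Y.q p'.1 p'.2.1) ∧ asksC (c (X.s p.1 p.2.1))).card := by
        unfold gp
        rw [Finset.filter_filter]
        exact P3a_card _ _ _ _ fun _ _ => Iff.rfl
      rw [e1, e2, Finset.mul_sum, Finset.mul_sum]
      refine Finset.sum_le_sum fun p hp => ?_
      by_cases ha : asksC (c (X.s p.1 p.2.1))
      · have e3 : ((sup S Y kn).filter fun p' =>
            Dj cel W (X.q p.1 p.2.1) (Y.q p'.1 p'.2.1) ∧ asksC (c (X.s p.1 p.2.1))) =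
            (sup S Y kn).filter fun p' => Dj cel W (X.q p.1 p.2.1) (Y.q p'.1 p'.2.1) := by
          ext p'
          simp only [Finset.mem_filter, ha, and_true]
        rw [e3]
        have hbig := nbA_big S cel N n hN hN0 X Y kn hL hBX hY' hg p hp
        have hnb : ((sup S Y kn).filter fun p' =>
            Dj cel W (X.q p.1 p.2.1) (Y.q p'.1 p'.2.1)).card = nbA S cel X Y kn p := rfl
        rw [hnb]
        set T : Finset Q := (dA p.1 p.2.1).toFinset.filter fun q => q ∉ W with hT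
        have hTn : T.card ≤ n := by
          have h1 := hX' p hp
          have h2 : ((X.ext c).q p.1 p.2.1).length =
              (X.q p.1 p.2.1).length + (dA p.1 p.2.1).length := List.length_append
          have h3 : T.card ≤ (dA p.1 p.2.1).toFinset.card := Finset.card_filter_le _ _
          have h4 := List.toFinset_card_le (dA p.1 p.2.1)
          omega
        have hsub : ((sup S Y kn).filter fun p' =>
            Dj cel W (X.q p.1 p.2.1) (Y.q p'.1 p'.2.1) ∧
              Hit (dA p.1 p.2.1) (Y.q p'.1 p'.2.1)) ⊆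
            T.biUnion fun q => (sup S Y kn).filter fun p' => q ∈ Y.q p'.1 p'.2.1 := by
          intro p' hp'
          rw [Finset.mem_filter] at hp'
          obtain ⟨h1, -, h5⟩ := hp'
          obtain ⟨q, h2, h3, h4⟩ := (hHit _ _).1 h5
          rw [Finset.mem_biUnion]
          refine ⟨q, ?_, ?_⟩
          · rw [hT, Finset.mem_filter, List.mem_toFinset]
            exact ⟨h2, h4⟩
          · rw [Finset.mem_filter]
            exact ⟨h1, h3⟩
        have hq : ∀ q ∈ T, 3 * L * ((sup S Y kn).filter fun p' => q ∈ Y.q p'.1 p'.2.1).card ≤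
            4 * (sup S Y kn).card := by
          intro q hq
          rw [hT, Finset.mem_filter, List.mem_toFinset] at hq
          apply touchB S cel N n L hN hN0 X Y kn hL hY' hg q
          by_cases hc : cel q
          · have h1 := (hL q hc hq.2).2
            exact (Nat.mul_le_mul_right _ hLN).trans h1
          · rcases hM with hM | hM
            · exact (hM q hc hq.2).2
            · exact absurd (hM _ _ q hq.1) hc
        have hcard : 3 * L * ((sup S Y kn).filter fun p' =>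
            Dj cel W (X.q p.1 p.2.1) (Y.q p'.1 p'.2.1) ∧
              Hit (dA p.1 p.2.1) (Y.q p'.1 p'.2.1)).card ≤ 4 * n * (sup S Y kn).card := by
          calc _ ≤ 3 * L * ∑ q ∈ T, ((sup S Y kn).filter fun p' => q ∈ Y.q p'.1 p'.2.1).card :=
                Nat.mul_le_mul_left _ ((Finset.card_le_card hsub).trans Finset.card_biUnion_le)
            _ = ∑ q ∈ T, 3 * L * ((sup S Y kn).filter fun p' => q ∈ Y.q p'.1 p'.2.1).card := by
                rw [Finset.mul_sum]
            _ ≤ ∑ q ∈ T, 4 * (sup S Y kn).card := Finset.sum_le_sum hq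
            _ = T.card * (4 * (sup S Y kn).card) := by rw [Finset.sum_const, smul_eq_mul]
            _ ≤ n * (4 * (sup S Y kn).card) := Nat.mul_le_mul_right _ hTn
            _ = 4 * n * (sup S Y kn).card := by ring
        have hfin : 3 * (L * ((sup S Y kn).filter fun p' =>
            Dj cel W (X.q p.1 p.2.1) (Y.q p'.1 p'.2.1) ∧
              Hit (dA p.1 p.2.1) (Y.q p'.1 p'.2.1)).card) ≤ 3 * (2 * n * nbA S cel X Y kn p) := by
          calc _ = 3 * L * ((sup S Y kn).filter fun p' =>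
                Dj cel W (X.q p.1 p.2.1) (Y.q p'.1 p'.2.1) ∧
                  Hit (dA p.1 p.2.1) (Y.q p'.1 p'.2.1)).card := by ring
            _ ≤ 4 * n * (sup S Y kn).card := hcard
            _ = 2 * n * (2 * (sup S Y kn).card) := by ring
            _ ≤ 2 * n * (3 * nbA S cel X Y kn p) := Nat.mul_le_mul_left _ hbig
            _ = _ := by ring
        exact Nat.le_of_mul_le_mul_left hfin (by norm_num)
      · have e4 : ((sup S Y kn).filter fun p' =>
            Dj cel W (X.q p.1 p.2.1) (Y.q p'.1 p'.2.1) ∧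
              Hit (dA p.1 p.2.1) (Y.q p'.1 p'.2.1)) = ∅ := by
          rw [Finset.filter_eq_empty_iff]
          rintro p' - ⟨-, h5⟩
          obtain ⟨q, hq, -⟩ := (hHit _ _).1 h5
          have : dA p.1 p.2.1 = [] := by
            show (c (X.s p.1 p.2.1)).asked p.2.1 = []
            revert ha
            cases c (X.s p.1 p.2.1) with
            | ret a => intro _; rfl
            | ask q next => intro h; exact absurd trivial h
          rw [this] at hq
          exact absurd hq (List.not_mem_nil)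
        rw [e4, Finset.card_empty, mul_zero]
        exact Nat.zero_le _
  -- conclusion
  rcases Nat.eq_zero_or_pos (kap S kn) with hk | hk
  · have hrl : (rl S X Y kn).card = 0 := by
      by_contra h
      have := kap_pos S X Y kn (Nat.pos_of_ne_zero h)
      omega
    have hgr : (gr S cel X Y kn).card = 0 := by
      have h1 : (gr S cel X Y kn).card ≤ (rl S X Y kn).card := Finset.card_filter_le _ _
      omega
    have h2 : ((gr S cel X Y kn).filter
        (fun w => Hit (dA w.1 w.2.2.1) (Y.q w.2.1 w.2.2.1))).card = 0 := by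
      have := Finset.card_filter_le (gr S cel X Y kn)
        (fun w => Hit (dA w.1 w.2.2.1) (Y.q w.2.1 w.2.2.1))
      omega
    rw [h2, mul_zero]
    exact Nat.zero_le _
  · rw [hhit, hask] at hmain
    refine Nat.le_of_mul_le_mul_right ?_ hk
    calc _ = L * (((gr S cel X Y kn).filter
          (fun w => Hit (dA w.1 w.2.2.1) (Y.q w.2.1 w.2.2.1))).card * kap S kn) := by ring
      _ ≤ _ := hmain
      _ = _ := by ring

private theorem P3b_lt (N : ℕ) (D : Q → Prop) (X : Sd Q K StA RA) (Y : Sd Q K StB RB)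
    (kn : List (Q × K)) (h : Lt S cel N D X Y kn) : Lt S cel N D Y X kn := by
  obtain ⟨h1, h2, h3⟩ := gp_swap S cel X Y kn
  intro d hd hk
  obtain ⟨h4, h5⟩ := h d hd hk
  rw [h1, h2, h3]
  exact ⟨h5, h4⟩

private theorem P3b_gr (X : Sd Q K StA RA) (Y : Sd Q K StB RB) (kn : List (Q × K))
    (φ : RA × RB × Orc S → Prop) (ψ : RB × RA × Orc S → Prop)
    (h : ∀ r r' O, φ (r, r', O) ↔ ψ (r', r, O)) :
    ((gr S cel X Y kn).filter fun w => φ w).card = ((gr S cel Y X kn).filter fun w => ψ w).card := by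
  refine Finset.card_bij (fun w _ => (w.2.1, w.1, w.2.2)) ?_ ?_ ?_
  · rintro ⟨r, r', O⟩ hw
    simp only [gr, rl, Finset.mem_filter, Finset.mem_univ, true_and] at hw ⊢
    obtain ⟨⟨⟨h1, h2, h3⟩, h4⟩, h5⟩ := hw
    exact ⟨⟨⟨h2, h1, h3⟩, fun c hc h6 h7 => h4 c hc h7 h6⟩, (h r r' O).1 h5⟩
  · rintro ⟨r, r', O⟩ _ ⟨s, s', O'⟩ _ he
    simp only [Prod.mk.injEq] at he ⊢
    exact ⟨he.2.1, he.1, he.2.2⟩
  · rintro ⟨r', r, O⟩ hw
    simp only [gr, rl, Finset.mem_filter, Finset.mem_univ, true_and] at hw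
    obtain ⟨⟨⟨h2, h1, h3⟩, h4⟩, h5⟩ := hw
    refine ⟨(r, r', O), ?_, rfl⟩
    simp only [gr, rl, Finset.mem_filter, Finset.mem_univ, true_and]
    exact ⟨⟨⟨h1, h2, h3⟩, fun c hc h6 h7 => h4 c hc h7 h6⟩, (h r r' O).2 h5⟩

theorem hitB_le (hcel : ∀ q, ¬ cel q → (S q).card ≤ 1) (N n L : ℕ) (hN : 4 * n ≤ N) (hL0 : 0 < L)
    (hLN : L ≤ N) (X : Sd Q K StA RA) (Y : Sd Q K StB RB) (hX : X.Loc) (hY : Y.Loc)
    (kn : List (Q × K)) (c : StB → Comp Q K (StB × M)) (hL : Lt S cel N cel X Y kn)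
    (hX' : Bd S n X kn) (hY' : Bd S n (Y.ext c) kn)
    (hM : Lt S cel L (fun q => ¬ cel q) X Y kn ∨ ∀ st O, ∀ q ∈ (c st).asked O, cel q) :
    L * ((gr S cel X Y kn).filter fun w => hitB S c X Y kn w).card ≤
      2 * n * ((gr S cel X Y kn).filter fun w => asksC (c (Y.s w.2.1 w.2.2.1))).card := by
  rw [P3b_gr S cel X Y kn (fun w => hitB S c X Y kn w) (fun w => hitA S c Y X kn w)
      (fun _ _ _ => Iff.rfl),
    P3b_gr S cel X Y kn (fun w => asksC (c (Y.s w.2.1 w.2.2.1)))
      (fun w => asksC (c (Y.s w.1 w.2.2.1))) (fun _ _ _ => Iff.rfl)]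
  exact hitA_le S cel hcel N n L hN hL0 hLN Y X hY hX kn c (P3b_lt S cel N cel X Y kn hL) hY' hX'
    (hM.imp (fun h => P3b_lt S cel L _ X Y kn h) id)

end Pool.Agent.Nbb
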