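import Pool.Agent.Lib.MP_ae38e0_lc.Nbb.Pair

set_option autoImplicit false

/-! Row P2: consequences of lightness (counting, all by double counting of `gp`). -/

namespace Pool.Agent.Nbb

open Pool.Agent.LinOT Classical

variable {Q K StA StB RA RB : Type} [Finite Q] [Finite K] [Fintype RA] [Fintype RB]

variable (S : Q → Finset K) (cel : Q → Prop)

/-- The partners of a state of the first party. -/
noncomputable def nbA (X : Sd Q K StA RA) (Y : Sd Q K StB RB) (kn : List (Q × K))
    (p : RA × Orc S) : ℕ :=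
  ((sup S Y kn).filter fun p' => Dj cel (kn.map Prod.fst) (X.q p.1 p.2.1) (Y.q p'.1 p'.2.1)).card

/-- The partners of a state of the second party. -/
noncomputable def nbB (X : Sd Q K StA RA) (Y : Sd Q K StB RB) (kn : List (Q × K))
    (p' : RB × Orc S) : ℕ :=
  ((sup S X kn).filter fun p => Dj cel (kn.map Prod.fst) (X.q p.1 p.2.1) (Y.q p'.1 p'.2.1)).card

private theorem P2a_mem {X : Sd Q K StA RA} {Y : Sd Q K StB RB} {kn : List (Q × K)}
    {z : (RA × Orc S) × (RB × Orc S)} :
    z ∈ gp S cel X Y kn ↔ (z.1 ∈ sup S X kn ∧ z.2 ∈ sup S Y kn) ∧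
      Dj cel (kn.map Prod.fst) (X.q z.1.1 z.1.2.1) (Y.q z.2.1 z.2.2.1) := by
  rw [gp, Finset.mem_filter, Finset.mem_product]

private theorem P2a_swap {X : Sd Q K StA RA} {Y : Sd Q K StB RB} {kn : List (Q × K)}
    {z : (RB × Orc S) × (RA × Orc S)} :
    z ∈ gp S cel Y X kn ↔ z.swap ∈ gp S cel X Y kn := by
  rw [P2a_mem, P2a_mem]
  constructor
  · rintro ⟨⟨h1, h2⟩, h3⟩
    exact ⟨⟨h2, h1⟩, fun c hc h4 h5 => h3 c hc h5 h4⟩
  · rintro ⟨⟨h1, h2⟩, h3⟩
    exact ⟨⟨h2, h1⟩, fun c hc h4 h5 => h3 c hc h5 h4⟩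

/-- Exchange of the parties. -/
theorem gp_swap (X : Sd Q K StA RA) (Y : Sd Q K StB RB) (kn : List (Q × K)) :
    (gp S cel Y X kn).card = (gp S cel X Y kn).card ∧
    (∀ d, tA S cel Y X kn d = tB S cel X Y kn d) ∧ ∀ d, tB S cel Y X kn d = tA S cel X Y kn d := by
  refine ⟨?_, fun d => ?_, fun d => ?_⟩
  · refine Finset.card_bij (fun z _ => z.swap) ?_ ?_ ?_
    · intro z hz
      exact (P2a_swap S cel).1 hz
    · intro z _ z' _ h
      exact Prod.swap_injective h
    · intro z hz
      exact ⟨z.swap, (P2a_swap S cel).2 (by rwa [Prod.swap_swap]), Prod.swap_swap z⟩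
  · rw [tA, tB]
    refine Finset.card_bij (fun z _ => z.swap) ?_ ?_ ?_
    · intro z hz
      rw [Finset.mem_filter] at hz ⊢
      exact ⟨(P2a_swap S cel).1 hz.1, hz.2⟩
    · intro z _ z' _ h
      exact Prod.swap_injective h
    · intro z hz
      rw [Finset.mem_filter] at hz
      refine ⟨z.swap, ?_, Prod.swap_swap z⟩
      rw [Finset.mem_filter]
      exact ⟨(P2a_swap S cel).2 (by rw [Prod.swap_swap]; exact hz.1), hz.2⟩
  · rw [tA, tB]
    refine Finset.card_bij (fun z _ => z.swap) ?_ ?_ ?_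
    · intro z hz
      rw [Finset.mem_filter] at hz ⊢
      exact ⟨(P2a_swap S cel).1 hz.1, hz.2⟩
    · intro z _ z' _ h
      exact Prod.swap_injective h
    · intro z hz
      rw [Finset.mem_filter] at hz
      refine ⟨z.swap, ?_, Prod.swap_swap z⟩
      rw [Finset.mem_filter]
      exact ⟨(P2a_swap S cel).2 (by rw [Prod.swap_swap]; exact hz.1), hz.2⟩

/-- `sum of the degrees of the partners of p' >= (1 - n / N) gp >= 3/4 gp`: a state `p` which is
not a partner shares with `p'` a cell `c` outside `W` of the list of `p'` (at most `n` of them),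
and the sum of the degrees of the `p` with `c` in the list is `tA c <= gp / N`. -/
theorem nbB_ge (N n : ℕ) (hN : 4 * n ≤ N) (hN0 : 0 < N) (X : Sd Q K StA RA) (Y : Sd Q K StB RB)
    (kn : List (Q × K)) (hL : Lt S cel N cel X Y kn) (hY : Bd S n Y kn) (p' : RB × Orc S)
    (hp : p' ∈ sup S Y kn) :
    3 * (gp S cel X Y kn).card ≤ 4 * nbB S cel X Y kn p' * (sup S Y kn).card := by
  set G := gp S cel X Y kn with hG
  set F : (RA × Orc S) × (RB × Orc S) → Prop := fun z =>
    Dj cel (kn.map Prod.fst) (X.q z.1.1 z.1.2.1) (Y.q p'.1 p'.2.1) with hF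
  have hsplit : G.card = (G.filter F).card + (G.filter fun z => ¬ F z).card :=
    (Finset.card_filter_add_card_filter_not F).symm
  have h1 : (G.filter F).card ≤ nbB S cel X Y kn p' * (sup S Y kn).card := by
    rw [nbB, ← Finset.card_product]
    refine Finset.card_le_card ?_
    intro z hz
    rw [Finset.mem_filter, hG, P2a_mem] at hz
    rw [Finset.mem_product, Finset.mem_filter]
    exact ⟨⟨hz.1.1.1, hz.2⟩, hz.1.1.2⟩
  set T : Finset Q := (Y.q p'.1 p'.2.1).toFinset.filter fun c => cel c ∧ c ∉ kn.map Prod.fst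
    with hT
  have h2 : (G.filter fun z => ¬ F z).card ≤ ∑ c ∈ T, tA S cel X Y kn c := by
    have hsub : (G.filter fun z => ¬ F z) ⊆
        T.biUnion fun c => (gp S cel X Y kn).filter fun z => c ∈ X.q z.1.1 z.1.2.1 := by
      intro z hz
      rw [Finset.mem_filter] at hz
      obtain ⟨hz1, hz2⟩ := hz
      have : ∃ c, cel c ∧ c ∈ X.q z.1.1 z.1.2.1 ∧ c ∈ Y.q p'.1 p'.2.1 ∧
          c ∉ kn.map Prod.fst := by
        by_contra hcon
        apply hz2
        intro c hc h3 h4
        by_contra h5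
        exact hcon ⟨c, hc, h3, h4, h5⟩
      obtain ⟨c, hc, h3, h4, h5⟩ := this
      rw [Finset.mem_biUnion]
      refine ⟨c, ?_, ?_⟩
      · rw [hT, Finset.mem_filter, List.mem_toFinset]
        exact ⟨h4, hc, h5⟩
      · rw [Finset.mem_filter]
        exact ⟨hz1, h3⟩
    exact (Finset.card_le_card hsub).trans Finset.card_biUnion_le
  have h3 : N * (G.filter fun z => ¬ F z).card ≤ n * G.card := by
    calc N * (G.filter fun z => ¬ F z).card ≤ N * ∑ c ∈ T, tA S cel X Y kn c :=
          Nat.mul_le_mul_left _ h2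
      _ = ∑ c ∈ T, N * tA S cel X Y kn c := Finset.mul_sum _ _ _
      _ ≤ ∑ _c ∈ T, G.card := by
          refine Finset.sum_le_sum fun c hc => ?_
          rw [hT, Finset.mem_filter] at hc
          exact (hL c hc.2.1 hc.2.2).1
      _ = T.card * G.card := by rw [Finset.sum_const, smul_eq_mul]
      _ ≤ n * G.card := by
          refine Nat.mul_le_mul_right _ ?_
          calc T.card ≤ (Y.q p'.1 p'.2.1).toFinset.card := Finset.card_filter_le _ _
            _ ≤ (Y.q p'.1 p'.2.1).length := List.toFinset_card_le _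
            _ ≤ n := hY p' hp
  have h4 : 4 * (G.filter fun z => ¬ F z).card ≤ G.card := by
    have h5 : N * (4 * (G.filter fun z => ¬ F z).card) ≤ N * G.card := by
      calc N * (4 * (G.filter fun z => ¬ F z).card)
          = 4 * (N * (G.filter fun z => ¬ F z).card) := by ring
        _ ≤ 4 * (n * G.card) := Nat.mul_le_mul_left _ h3
        _ = 4 * n * G.card := by ring
        _ ≤ N * G.card := Nat.mul_le_mul_right _ hN
    exact Nat.le_of_mul_le_mul_left h5 hN0
  have h6 : 4 * nbB S cel X Y kn p' * (sup S Y kn).card =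
      4 * (nbB S cel X Y kn p' * (sup S Y kn).card) := by ring
  rw [h6]
  omega

private theorem P2b_tB (X : Sd Q K StA RA) (Y : Sd Q K StB RB) (kn : List (Q × K)) (d : Q) :
    tB S cel X Y kn d =
      ∑ p' ∈ (sup S Y kn).filter (fun p' => d ∈ Y.q p'.1 p'.2.1), nbB S cel X Y kn p' := by
  simp only [tB, gp, nbB, Finset.card_filter, Finset.filter_filter, Finset.sum_product_right,
    Finset.sum_filter]
  refine Finset.sum_congr rfl fun p' _ => ?_
  by_cases h : d ∈ Y.q p'.1 p'.2.1
  · simp [h]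
  · simp [h]

private theorem P2b_gp (X : Sd Q K StA RA) (Y : Sd Q K StB RB) (kn : List (Q × K)) :
    (gp S cel X Y kn).card = ∑ p ∈ sup S X kn, nbA S cel X Y kn p := by
  simp only [gp, nbA, Finset.card_filter, Finset.sum_product]

/-- A thing which is light for the pairs is light for the consistent parties. -/
theorem touchB (N n M : ℕ) (hN : 4 * n ≤ N) (hN0 : 0 < N) (X : Sd Q K StA RA) (Y : Sd Q K StB RB)
    (kn : List (Q × K)) (hL : Lt S cel N cel X Y kn) (hY : Bd S n Y kn)
    (hg : 0 < (gp S cel X Y kn).card) (d : Q)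
    (hd : M * tB S cel X Y kn d ≤ (gp S cel X Y kn).card) :
    3 * M * ((sup S Y kn).filter fun p' => d ∈ Y.q p'.1 p'.2.1).card ≤ 4 * (sup S Y kn).card := by
  have h1 : 3 * (gp S cel X Y kn).card *
      ((sup S Y kn).filter fun p' => d ∈ Y.q p'.1 p'.2.1).card ≤
      4 * (sup S Y kn).card * tB S cel X Y kn d := by
    rw [P2b_tB, Finset.mul_sum, mul_comm (3 * (gp S cel X Y kn).card), ← smul_eq_mul,
      ← Finset.sum_const]
    refine Finset.sum_le_sum fun p' hp' => ?_
    have h := nbB_ge S cel N n hN hN0 X Y kn hL hY p' (Finset.mem_filter.mp hp').1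
    calc _ ≤ _ := h
      _ = _ := by ring
  refine Nat.le_of_mul_le_mul_left ?_ hg
  calc (gp S cel X Y kn).card *
        (3 * M * ((sup S Y kn).filter fun p' => d ∈ Y.q p'.1 p'.2.1).card)
      = M * (3 * (gp S cel X Y kn).card *
        ((sup S Y kn).filter fun p' => d ∈ Y.q p'.1 p'.2.1).card) := by ring
    _ ≤ M * (4 * (sup S Y kn).card * tB S cel X Y kn d) := Nat.mul_le_mul_left _ h1
    _ = 4 * (sup S Y kn).card * (M * tB S cel X Y kn d) := by ring
    _ ≤ 4 * (sup S Y kn).card * (gp S cel X Y kn).card := Nat.mul_le_mul_left _ hd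
    _ = (gp S cel X Y kn).card * (4 * (sup S Y kn).card) := by ring

private theorem P2b_non (N n : ℕ) (hN : 4 * n ≤ N) (hN0 : 0 < N) (X : Sd Q K StA RA)
    (Y : Sd Q K StB RB) (kn : List (Q × K)) (hL : Lt S cel N cel X Y kn) (hX : Bd S n X kn)
    (hY : Bd S n Y kn) (hg : 0 < (gp S cel X Y kn).card) (p : RA × Orc S)
    (hp : p ∈ sup S X kn) :
    3 * N * (sup S Y kn).card ≤ 3 * N * nbA S cel X Y kn p + 4 * n * (sup S Y kn).card := by
  set W := kn.map Prod.fst with hW
  set C := (X.q p.1 p.2.1).toFinset.filter (fun c => cel c ∧ c ∉ W) with hC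
  have hCn : C.card ≤ n := by
    refine le_trans (Finset.card_filter_le _ _) ?_
    exact le_trans (List.toFinset_card_le _) (hX p hp)
  set bad := (sup S Y kn).filter
    (fun p' => ¬ Dj cel W (X.q p.1 p.2.1) (Y.q p'.1 p'.2.1)) with hbad
  have hsplit : (sup S Y kn).card = nbA S cel X Y kn p + bad.card := by
    rw [hbad, nbA, ← hW]
    exact (Finset.card_filter_add_card_filter_not _).symm
  have hsub : bad ⊆ C.biUnion fun c => (sup S Y kn).filter fun p' => c ∈ Y.q p'.1 p'.2.1 := by
    intro p' hp'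
    simp only [hbad, Finset.mem_filter, Dj, not_forall] at hp'
    obtain ⟨h1, c, hc1, hc2, hc3, hc4⟩ := hp'
    simp only [Finset.mem_biUnion, hC, Finset.mem_filter, List.mem_toFinset]
    exact ⟨c, ⟨hc2, hc1, hc4⟩, h1, hc3⟩
  have h3 : 3 * N * bad.card ≤ 4 * n * (sup S Y kn).card := by
    calc 3 * N * bad.card ≤ 3 * N *
          (C.biUnion fun c => (sup S Y kn).filter fun p' => c ∈ Y.q p'.1 p'.2.1).card :=
          Nat.mul_le_mul_left _ (Finset.card_le_card hsub)
      _ ≤ 3 * N * ∑ c ∈ C, ((sup S Y kn).filter fun p' => c ∈ Y.q p'.1 p'.2.1).card :=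
          Nat.mul_le_mul_left _ Finset.card_biUnion_le
      _ = ∑ c ∈ C, 3 * N * ((sup S Y kn).filter fun p' => c ∈ Y.q p'.1 p'.2.1).card :=
          Finset.mul_sum _ _ _
      _ ≤ ∑ _c ∈ C, 4 * (sup S Y kn).card := by
          refine Finset.sum_le_sum fun c hc => ?_
          simp only [hC, Finset.mem_filter] at hc
          exact touchB S cel N n N hN hN0 X Y kn hL hY hg c (hL c hc.2.1 hc.2.2).2
      _ = C.card * (4 * (sup S Y kn).card) := by rw [Finset.sum_const, smul_eq_mul]
      _ ≤ n * (4 * (sup S Y kn).card) := Nat.mul_le_mul_right _ hCn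
      _ = 4 * n * (sup S Y kn).card := by ring
  calc 3 * N * (sup S Y kn).card = 3 * N * nbA S cel X Y kn p + 3 * N * bad.card := by
        rw [hsplit]; ring
    _ ≤ _ := Nat.add_le_add_left h3 _

theorem nbA_big (N n : ℕ) (hN : 4 * n ≤ N) (hN0 : 0 < N) (X : Sd Q K StA RA) (Y : Sd Q K StB RB)
    (kn : List (Q × K)) (hL : Lt S cel N cel X Y kn) (hX : Bd S n X kn) (hY : Bd S n Y kn)
    (hg : 0 < (gp S cel X Y kn).card) (p : RA × Orc S) (hp : p ∈ sup S X kn) :
    2 * (sup S Y kn).card ≤ 3 * nbA S cel X Y kn p := by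
  have h := P2b_non S cel N n hN hN0 X Y kn hL hX hY hg p hp
  have h2 : 4 * n * (sup S Y kn).card ≤ N * (sup S Y kn).card := Nat.mul_le_mul_right _ hN
  refine Nat.le_of_mul_le_mul_left (c := N) ?_ hN0
  have h3 : 3 * N * (sup S Y kn).card ≤ 3 * N * nbA S cel X Y kn p + N * (sup S Y kn).card :=
    le_trans h (Nat.add_le_add_left h2 _)
  have e1 : 3 * N * (sup S Y kn).card = N * (2 * (sup S Y kn).card) + N * (sup S Y kn).card := by
    ring
  have e2 : 3 * N * nbA S cel X Y kn p = N * (3 * nbA S cel X Y kn p) := by ring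
  omega

/-- Few pairs are not good. -/
theorem prod_le (N n : ℕ) (hN : 4 * n ≤ N) (hN0 : 0 < N) (X : Sd Q K StA RA) (Y : Sd Q K StB RB)
    (kn : List (Q × K)) (hL : Lt S cel N cel X Y kn) (hX : Bd S n X kn) (hY : Bd S n Y kn)
    (hg : 0 < (gp S cel X Y kn).card) :
    3 * N * ((sup S X kn).card * (sup S Y kn).card) ≤
      3 * N * (gp S cel X Y kn).card + 4 * n * ((sup S X kn).card * (sup S Y kn).card) := by
  calc 3 * N * ((sup S X kn).card * (sup S Y kn).card)
      = ∑ _p ∈ sup S X kn, 3 * N * (sup S Y kn).card := by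
        rw [Finset.sum_const, smul_eq_mul]; ring
    _ ≤ ∑ p ∈ sup S X kn, (3 * N * nbA S cel X Y kn p + 4 * n * (sup S Y kn).card) :=
        Finset.sum_le_sum fun p hp => P2b_non S cel N n hN hN0 X Y kn hL hX hY hg p hp
    _ = 3 * N * (gp S cel X Y kn).card + 4 * n * ((sup S X kn).card * (sup S Y kn).card) := by
        rw [Finset.sum_add_distrib, ← Finset.mul_sum, ← P2b_gp, Finset.sum_const, smul_eq_mul]
        ring

end Pool.Agent.Nbb
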