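import Pool.Agent.Lib.MP_ae38e0_lc.Nbb.Build

import Pool.Agent.Lib.MP_ae38e0_lc.Nbb.Inv

set_option autoImplicit false

/-!
# Each key of the list of the process is followed by its handle (row N1)
-/

namespace Pool.Agent.Nbb

open Pool.Agent.LinOT Classical

variable {X S J K V Mg StA StB RA RB : Type} [Finite X] [Finite S] [Fintype J] [Finite K]
  [Nonempty K] [Fintype RA] [Fintype RB]

omit [Finite X] [Finite S] [Fintype J] [Finite K] [Fintype RA] [Fintype RB] in
theorem knowL_flat (O : Th X S J K → Option J → K) (l : List (Th X S J K))
    (cont : Env X S J K V StA StB RA RB → PT X S J K V Mg StA StB) :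
    ∀ (e : Env X S J K V StA StB RA RB) a b, ((knowL l e cont).flat a b).asked O =
      l ++ ((cont (e.knas (l.map fun d => (d, O d)))).flat a b).asked O := by
  induction l with
  | nil =>
    intro e a b
    have h : e.knas (([] : List (Th X S J K)).map fun d => (d, O d)) = e := by
      simp [Env.knas]
    rw [h]
    rfl
  | cons d l ih =>
    intro e a b
    have h : e.knas ((d :: l).map fun d => (d, O d)) =
        (e.kna d (O d)).knas (l.map fun d => (d, O d)) := by
      simp [Env.knas, Env.kna]
    rw [h]
    show d :: ((knowL l (e.kna d (O d)) cont).flat a b).asked O = _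
    rw [ih]
    rfl

variable {I I' : Type} (A : Party (Qry X S J K) (Ans J K V) Mg I)
  (B : Party (Qry X S J K) (Ans J K V) Mg I')

set_option linter.unusedSectionVars false

omit [Finite X] [Finite S] [Fintype J] [Finite K] [Nonempty K] in
private theorem N1_nil (O : Th X S J K → Option J → K) : Nice O ([] : List (Th X S J K)) := by
  intro l1 s l2 h
  exact absurd h (by simp)

omit [Finite X] [Finite S] [Fintype J] [Finite K] [Nonempty K] in
private theorem N1_cons {O : Th X S J K → Option J → K} {l : List (Th X S J K)}
    {d : Th X S J K} (hd : ∀ s, d ≠ .s s) (h : Nice O l) : Nice O (d :: l) := by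
  intro l1 s l2 he
  cases l1 with
  | nil =>
    rw [List.nil_append, List.cons.injEq] at he
    exact absurd he.1 (hd s)
  | cons x l1 =>
    rw [List.cons_append, List.cons.injEq] at he
    exact h l1 s l2 he.2

omit [Finite X] [Finite S] [Fintype J] [Finite K] [Nonempty K] in
private theorem N1_map (O : Th X S J K → Option J → K) (l : List X) :
    Nice O (l.map .x : List (Th X S J K)) := by
  induction l with
  | nil => exact N1_nil O
  | cons x l ih =>
    rw [List.map_cons]
    exact N1_cons (fun s h => by simp at h) ih

/-- all lists of the process are nice -/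
private def N1_P (O : Th X S J K → Option J → K) (p : PT X S J K V Mg StA StB) : Prop :=
  ∀ a b, Nice O ((p.flat a b).asked O)

omit [Finite X] [Finite S] [Fintype J] [Finite K] [Nonempty K] in
private theorem N1_stop (O : Th X S J K → Option J → K) (k : ℕ) :
    N1_P O (.stop k : PT X S J K V Mg StA StB) := fun _ _ => N1_nil O

omit [Finite X] [Finite S] [Fintype J] [Finite K] [Nonempty K] in
private theorem N1_learn {O : Th X S J K → Option J → K} {q : Th X S J K}
    (hq : ∀ s, q ≠ .s s) (o : Comp (Qry X S J K) (Ans J K V) (Option J → K))
    {next : (Option J → K) → PT X S J K V Mg StA StB} (h : ∀ v, N1_P O (next v)) :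
    N1_P O (.learn q o next) := by
  intro a b
  exact N1_cons hq (h (O q) a b)

omit [Finite X] [Finite S] [Finite K] [Nonempty K] in
private theorem N1_mA {O : Th X S J K → Option J → K}
    (o : (Mg → Pb Mg V) ⊕ Comp (Qry X S J K) (Ans J K V) (Pb Mg V))
    {c : CS StA S J K → Comp (Th X S J K) (Option J → K) (CS StA S J K × Pb Mg V)}
    {next : Pb Mg V → PT X S J K V Mg StA StB} (hc : ∀ a, Nice O ((c a).asked O))
    (h : ∀ m, N1_P O (next m)) : N1_P O (.mA o c next) := by
  intro a b
  show Nice O (((c a).bind fun x => (next x.2).flat x.1 b).asked O)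
  rw [Comp.asked_bind]
  exact nice_append (hc a) (h _ _ _)

omit [Finite X] [Finite S] [Finite K] [Nonempty K] in
private theorem N1_mB {O : Th X S J K → Option J → K}
    (o : (Mg → Pb Mg V) ⊕ Comp (Qry X S J K) (Ans J K V) (Pb Mg V))
    {c : CS StB S J K → Comp (Th X S J K) (Option J → K) (CS StB S J K × Pb Mg V)}
    {next : Pb Mg V → PT X S J K V Mg StA StB} (hc : ∀ a, Nice O ((c a).asked O))
    (h : ∀ m, N1_P O (next m)) : N1_P O (.mB o c next) := by
  intro a b
  show Nice O (((c b).bind fun x => (next x.2).flat a x.1).asked O)
  rw [Comp.asked_bind]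
  exact nice_append (hc b) (h _ _ _)

omit [Finite X] [Finite S] [Finite K] [Nonempty K] in
private theorem N1_leak {St : Type} (O : Th X S J K → Option J → K)
    (F : S → Finset J → Comp X K V) (η : K) (ex : J → Option K) (c : CS St S J K) :
    Nice O ((leakC (Mg := Mg) F η ex c).asked O) := by
  unfold leakC
  split
  · rw [Comp.asked_bind, asked_lift]
    exact nice_append (N1_map O _) (N1_nil O)
  · exact N1_nil O

omit [Finite X] [Finite S] [Finite K] [Nonempty K] in
private theorem N1_step {I : Type} (O : Th X S J K → Option J → K)
    (F : S → Finset J → Comp X K V) (G : V → Finset J → Comp X K V)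
    (P : Party (Qry X S J K) (Ans J K V) Mg I) (m0 : Mg) (T : Tb S J K V) (μ : Mg)
    (c : CS P.St S J K) : Nice O ((stepC F G P m0 T μ c).asked O) := by
  unfold stepC
  rw [Comp.asked_bind]
  refine nice_append (nice_cmp F G T O _ _ _) ?_
  split
  · exact N1_nil O
  · exact N1_nil O

private theorem N1_cell {O : Th X S J K → Option J → K} (e : Env X S J K V StA StB RA RB)
    (q : Th X S J K) {cont : Env X S J K V StA StB RA RB → PT X S J K V Mg StA StB}
    (h : ∀ e, N1_P O (cont e)) : N1_P O (cellStep e q cont) := by
  unfold cellStep
  split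
  · exact N1_learn (fun s h => by simp at h) _ (fun v => h _)
  · rename_i s
    intro a b
    show Nice O (.s s :: ((knowL (items (O (.s s))) ((e.kna (.s s) (O (.s s))).setTr s (O (.s s)))
      cont).flat a b).asked O)
    rw [knowL_flat]
    intro l1 s' l2 he
    cases l1 with
    | nil =>
      rw [List.nil_append, List.cons.injEq] at he
      obtain ⟨he1, he2⟩ := he
      have hs : s = s' := by
        have := he1
        simpa using this
      subst hs
      rw [← he2]
      exact ⟨_, rfl⟩
    | cons x l1 =>
      rw [List.cons_append, List.cons.injEq] at he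
      exact nice_append (nice_items O _) (h _ a b) l1 s' l2 he.2
  · exact N1_stop O 4

private theorem N1_handle {O : Th X S J K → Option J → K} (e : Env X S J K V StA StB RA RB)
    (η : K) {cont : Env X S J K V StA StB RA RB → PT X S J K V Mg StA StB}
    (h : ∀ e, N1_P O (cont e)) : N1_P O (handleStep e η cont) := by
  unfold handleStep
  refine N1_learn (fun s h => by simp at h) _ (fun v => ?_)
  refine N1_mA _ (fun a => N1_nil O) (fun m1 => ?_)
  refine N1_mB _ (fun a => N1_nil O) (fun m2 => ?_)
  split
  · exact h _
  · split
    · exact h _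
    · exact N1_stop O 3
  · split
    · exact N1_stop O 3
    · exact h _
  · exact N1_stop O 3
  · exact N1_stop O 4

private theorem N1_label {O : Th X S J K → Option J → K} (e : Env X S J K V StA StB RA RB)
    (η : K) (j : J) (π : K) {cont : Env X S J K V StA StB RA RB → PT X S J K V Mg StA StB}
    (h : ∀ e, N1_P O (cont e)) : N1_P O (labelStep e η j π cont) := by
  unfold labelStep
  refine N1_learn (fun s h => by simp at h) _ (fun v => ?_)
  split
  · refine N1_mA _ (fun a => N1_nil O) (fun m => ?_)
    split
    · exact h _
    · exact h _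
    · exact N1_stop O 4
  · refine N1_mB _ (fun a => N1_nil O) (fun m => ?_)
    split
    · exact h _
    · exact h _
    · exact N1_stop O 4
  · exact h _

private theorem N1_leakStep {O : Th X S J K → Option J → K} (F : S → Finset J → Comp X K V)
    (e : Env X S J K V StA StB RA RB) (η : K)
    {cont : Env X S J K V StA StB RA RB → PT X S J K V Mg StA StB}
    (h : ∀ e, N1_P O (cont e)) : N1_P O (leakStep F e η cont) := by
  unfold leakStep
  split
  · refine N1_mA _ (fun a => N1_leak O F η _ a) (fun m => ?_)
    split
    · exact h _
    · exact N1_stop O 4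
  · refine N1_mB _ (fun a => N1_leak O F η _ a) (fun m => ?_)
    split
    · exact h _
    · exact N1_stop O 4
  · exact h _

private theorem N1_body {O : Th X S J K → Option J → K} (F : S → Finset J → Comp X K V)
    (N L : ℕ) (e : Env X S J K V StA StB RA RB)
    {cont : Env X S J K V StA StB RA RB → PT X S J K V Mg StA StB}
    {k : PT X S J K V Mg StA StB} (h : ∀ e, N1_P O (cont e)) (hk : N1_P O k) :
    N1_P O (body F N L e cont k) := by
  unfold body
  split
  · exact hk
  · split
    · exact N1_stop O 2
    · split
      · exact N1_cell e _ h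
      · split
        · exact N1_leakStep F e _ h
        · split
          · exact N1_handle e _ h
          · split
            · exact N1_label e _ _ _ h
            · exact N1_stop O 4

private theorem N1_close {O : Th X S J K → Option J → K} (F : S → Finset J → Comp X K V)
    (N L : ℕ) {k : ℕ → Env X S J K V StA StB RA RB → PT X S J K V Mg StA StB}
    (hk : ∀ j e, N1_P O (k j e)) (j : ℕ) :
    ∀ e : Env X S J K V StA StB RA RB, N1_P O (closeT F N L k j e) := by
  induction j with
  | zero =>
    intro e
    unfold closeT
    split
    · exact hk _ _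
    · exact N1_stop O 1
  | succ j ih =>
    intro e
    unfold closeT
    exact N1_body F N L e ih (hk _ _)

theorem build_nice (F : S → Finset J → Comp X K V) (G : V → Finset J → Comp X K V)
    (m0 : Mg) (N L : ℕ) (O : Th X S J K → Option J → K) :
    ∀ (r : ℕ) (μ : Mg) (j : ℕ) (e : Env X S J K V A.St B.St RA RB) a b,
      Nice O (((build A B F G m0 N L r μ j e).flat a b).asked O) := by
  intro r
  induction r with
  | zero =>
    intro μ j e
    unfold build
    exact N1_close F N L (fun _ _ => N1_stop O 0) j e
  | succ r ih =>
    intro μ j e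
    unfold build
    refine N1_close F N L (fun j e => ?_) j e
    refine N1_mA _ (fun a => N1_step O F G A m0 e.T μ a) (fun m => ?_)
    cases m with
    | msg x =>
      refine N1_close F N L (fun j e' => ?_) j _
      refine N1_mB _ (fun a => N1_step O F G B m0 e'.T x a) (fun m' => ?_)
      cases m' with
      | msg y => exact ih y j _
      | bit _ => exact N1_stop O 4
      | lk _ => exact N1_stop O 4
    | bit _ => exact N1_stop O 4
    | lk _ => exact N1_stop O 4

end Pool.Agent.Nbb
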