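import Pool.Agent.Lib.MP_ae38e0_lc.Nbb.Inv

set_option autoImplicit false

/-!
# Wrong guesses of the owner (rows C1 - C3)
-/

namespace Pool.Agent.Nbb

open Pool.Agent.LinOT Classical

section generic

variable {Q K StA StB RA RB M RQ RK Mg : Type} [Finite Q] [Finite K] [Fintype RA] [Fintype RB]

variable (S : Q → Finset K) (cel : Q → Prop)

/-- All things touched so far or later in the process are in the list `FL w`. -/
def Sb (FL : RA × RB × Orc S → List Q) (p : Proc Q K StA StB M RQ RK Mg) (X : Sd Q K StA RA)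
    (Y : Sd Q K StB RB) (kn : List (Q × K)) : Prop :=
  ∀ w ∈ rl S X Y kn, (∀ d ∈ X.q w.1 w.2.2.1, d ∈ FL w) ∧ (∀ d ∈ Y.q w.2.1 w.2.2.1, d ∈ FL w) ∧
    ∀ d ∈ (p.flat (X.s w.1 w.2.2.1) (Y.s w.2.1 w.2.2.1)).asked w.2.2.1, d ∈ FL w

/-- The bound for the executions with a wrong guess of the owner; `BS` is the set of the bad
executions. -/
def T3 (FL : RA × RB × Orc S → List Q) (BS : RA × RB × Orc S → Prop) (N3 L j : ℕ)
    (p : Proc Q K StA StB M RQ RK Mg) (X : Sd Q K StA RA) (Y : Sd Q K StB RB)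
    (kn : List (Q × K)) : Prop :=
  Sb S FL p X Y kn →
    (N3 : ℝ) * ((gr S cel X Y kn).filter fun w =>
      p.lf S X Y kn w = 3 ∧ p.hits S cel X Y kn w = 0).card ≤
    2 * ∑ w ∈ rl S X Y kn, (p.cnt S cel L (fun d => ¬ cel d) X Y kn w : ℝ) +
      2 * (N3 : ℝ) ^ 2 * j * ((rl S X Y kn).filter fun w => BS w).card

variable {FL : RA × RB × Orc S → List Q} {BS : RA × RB × Orc S → Prop} {N3 L : ℕ}

/-! ## Row C1 -/

variable (BS N3 L) in
/-- The contribution of an execution. -/
private noncomputable def C1_f (j : ℕ) (p : Proc Q K StA StB M RQ RK Mg) (X : Sd Q K StA RA)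
    (Y : Sd Q K StB RB) (kn : List (Q × K)) (w : RA × RB × Orc S) : ℝ :=
  (N3 : ℝ) * (if Dw S cel X Y kn w ∧ p.lf S X Y kn w = 3 ∧ p.hits S cel X Y kn w = 0 then 1 else 0)
    - 2 * (p.cnt S cel L (fun d => ¬ cel d) X Y kn w : ℝ)
    - 2 * (N3 : ℝ) ^ 2 * j * (if BS w then 1 else 0)

private theorem C1_iff (j : ℕ) (p : Proc Q K StA StB M RQ RK Mg) (X : Sd Q K StA RA)
    (Y : Sd Q K StB RB) (kn : List (Q × K)) : T3 S cel FL BS N3 L j p X Y kn ↔
      (Sb S FL p X Y kn → ∑ w ∈ rl S X Y kn, C1_f S cel BS N3 L j p X Y kn w ≤ 0) := by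
  unfold T3
  refine imp_congr_right fun _ => ?_
  have h1 : ∑ w ∈ rl S X Y kn, C1_f S cel BS N3 L j p X Y kn w =
      (N3 : ℝ) * ((gr S cel X Y kn).filter fun w =>
        p.lf S X Y kn w = 3 ∧ p.hits S cel X Y kn w = 0).card -
      2 * ∑ w ∈ rl S X Y kn, (p.cnt S cel L (fun d => ¬ cel d) X Y kn w : ℝ) -
      2 * (N3 : ℝ) ^ 2 * j * ((rl S X Y kn).filter fun w => BS w).card := by
    simp only [C1_f]
    rw [Finset.sum_sub_distrib, Finset.sum_sub_distrib, ← Finset.mul_sum, ← Finset.mul_sum,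
      ← Finset.mul_sum, Finset.sum_boole, Finset.sum_boole, gr, Finset.filter_filter]
  rw [h1]
  constructor <;> intro h <;> linarith

theorem t3_stop (j k : ℕ) (hk : k ≠ 3) (X : Sd Q K StA RA) (Y : Sd Q K StB RB)
    (kn : List (Q × K)) :
    T3 S cel FL BS N3 L j (.stop k : Proc Q K StA StB M RQ RK Mg) X Y kn := by
  rw [C1_iff]
  intro _
  refine Finset.sum_nonpos fun w _ => ?_
  have h1 : ¬ (Dw S cel X Y kn w ∧
      (Proc.stop k : Proc Q K StA StB M RQ RK Mg).lf S X Y kn w = 3 ∧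
      (Proc.stop k : Proc Q K StA StB M RQ RK Mg).hits S cel X Y kn w = 0) := by
    rintro ⟨_, h, _⟩
    exact hk h
  rw [C1_f, if_neg h1, mul_zero]
  have h2 : (0 : ℝ) ≤ 2 * (N3 : ℝ) ^ 2 * j * (if BS w then 1 else 0) := by
    split_ifs <;> positivity
  have h3 : (0 : ℝ) ≤ 2 * ((Proc.stop k : Proc Q K StA StB M RQ RK Mg).cnt S cel L
    (fun d => ¬ cel d) X Y kn w : ℝ) := by positivity
  linarith

theorem t3_mono {j j' : ℕ} (hj : j ≤ j') (p : Proc Q K StA StB M RQ RK Mg) (X : Sd Q K StA RA)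
    (Y : Sd Q K StB RB) (kn : List (Q × K)) (h : T3 S cel FL BS N3 L j p X Y kn) :
    T3 S cel FL BS N3 L j' p X Y kn := by
  intro hS
  refine (h hS).trans ?_
  have h1 : (j : ℝ) ≤ j' := by exact_mod_cast hj
  gcongr

theorem t3_learn (j : ℕ) (q : Q) (o : Comp RQ RK K) (next : K → Proc Q K StA StB M RQ RK Mg)
    (X : Sd Q K StA RA) (Y : Sd Q K StB RB) (kn : List (Q × K))
    (h : ∀ v ∈ S q, T3 S cel FL BS N3 L j (next v) X Y (kn ++ [(q, v)])) :
    T3 S cel FL BS N3 L j (.learn q o next) X Y kn := by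
  rw [C1_iff]
  intro hS
  rw [← sum_learn S X Y kn q]
  refine Finset.sum_nonpos fun v hv => ?_
  have h1 := (C1_iff S cel j (next v) X Y (kn ++ [(q, v)])).1 (h v hv) (fun w hw => by
    obtain ⟨hw1, hw2⟩ := (mem_rl_learn S X Y kn q v w).1 hw
    obtain ⟨h3, h4, h5⟩ := hS w hw1
    refine ⟨h3, h4, fun d hd => h5 d ?_⟩
    rw [Proc.flat, Comp.asked_ask, hw2]
    exact List.mem_cons_of_mem _ hd)
  refine le_trans (Finset.sum_le_sum fun w hw => ?_) h1
  obtain ⟨hw1, hw2⟩ := (mem_rl_learn S X Y kn q v w).1 hw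
  have h6 : (if Dw S cel X Y kn w ∧ (Proc.learn q o next).lf S X Y kn w = 3 ∧
      (Proc.learn q o next).hits S cel X Y kn w = 0 then (1 : ℝ) else 0) ≤
      (if Dw S cel X Y (kn ++ [(q, v)]) w ∧ (next v).lf S X Y (kn ++ [(q, v)]) w = 3 ∧
      (next v).hits S cel X Y (kn ++ [(q, v)]) w = 0 then (1 : ℝ) else 0) := by
    by_cases hc : Dw S cel X Y kn w ∧ (Proc.learn q o next).lf S X Y kn w = 3 ∧
      (Proc.learn q o next).hits S cel X Y kn w = 0
    · rw [if_pos hc, if_pos]
      obtain ⟨h7, h8, h9⟩ := hc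
      rw [Proc.lf, hw2] at h8
      rw [Proc.hits, hw2] at h9
      exact ⟨dw_learn S cel X Y kn q v w h7, h8, h9⟩
    · rw [if_neg hc]
      split_ifs <;> norm_num
  have h7 : ((next v).cnt S cel L (fun d => ¬ cel d) X Y (kn ++ [(q, v)]) w : ℝ) ≤
      ((Proc.learn q o next).cnt S cel L (fun d => ¬ cel d) X Y kn w : ℝ) := by
    rw [Proc.cnt, hw2]
    push_cast
    split_ifs <;> simp
  unfold C1_f
  have h8 : (0 : ℝ) ≤ N3 := Nat.cast_nonneg _
  have h9 := mul_le_mul_of_nonneg_left h6 h8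
  linarith

theorem t3_mA (j : ℕ) (i : (Mg → M) ⊕ Comp RQ RK M) (c : StA → Comp Q K (StA × M))
    (next : M → Proc Q K StA StB M RQ RK Mg) (X : Sd Q K StA RA) (Y : Sd Q K StB RB)
    (kn : List (Q × K)) (h : ∀ m, T3 S cel FL BS N3 L j (next m) (X.upd c m) Y kn) :
    T3 S cel FL BS N3 L j (.mA i c next) X Y kn := by
  rw [C1_iff]
  intro hS
  rw [← sum_mA S X Y kn c]
  refine Finset.sum_nonpos fun m _ => ?_
  have h1 := (C1_iff S cel j (next m) (X.upd c m) Y kn).1 (h m) (fun w hw => by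
    obtain ⟨hw1, hw2⟩ := (mem_rl_updA S X Y kn c m w).1 hw
    obtain ⟨h3, h4, h5⟩ := hS w hw1
    rw [Proc.rsA] at hw2
    refine ⟨fun d hd => ?_, h4, fun d hd => h5 d ?_⟩
    · rcases List.mem_append.1 hd with hd | hd
      · exact h3 d hd
      · refine h5 d ?_
        rw [Proc.flat, Comp.asked_bind]
        exact List.mem_append_left _ hd
    · rw [Proc.flat, Comp.asked_bind, hw2]
      exact List.mem_append_right _ hd)
  refine le_trans (Finset.sum_le_sum fun w hw => ?_) h1
  obtain ⟨hw1, hw2⟩ := (mem_rl_updA S X Y kn c m w).1 hw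
  have h6 : (if Dw S cel X Y kn w ∧ (Proc.mA i c next).lf S X Y kn w = 3 ∧
      (Proc.mA i c next).hits S cel X Y kn w = 0 then (1 : ℝ) else 0) ≤
      (if Dw S cel (X.upd c m) Y kn w ∧ (next m).lf S (X.upd c m) Y kn w = 3 ∧
      (next m).hits S cel (X.upd c m) Y kn w = 0 then (1 : ℝ) else 0) := by
    by_cases hc : Dw S cel X Y kn w ∧ (Proc.mA i c next).lf S X Y kn w = 3 ∧
      (Proc.mA i c next).hits S cel X Y kn w = 0
    · rw [if_pos hc, if_pos]
      obtain ⟨h7, h8, h9⟩ := hc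
      rw [Proc.lf, hw2] at h8
      rw [Proc.hits, hw2, Nat.add_eq_zero_iff] at h9
      have h10 : ¬ hitA S c X Y kn w := fun h11 => by
        have h12 := h9.1
        rw [if_pos ⟨h7, h11⟩] at h12
        exact one_ne_zero h12
      exact ⟨dw_updA S cel X Y kn c m w h7 h10, h8, h9.2⟩
    · rw [if_neg hc]
      split_ifs <;> norm_num
  have h7 : (Proc.mA i c next).cnt S cel L (fun d => ¬ cel d) X Y kn w =
      (next m).cnt S cel L (fun d => ¬ cel d) (X.upd c m) Y kn w := by
    rw [Proc.cnt, hw2]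
  unfold C1_f
  rw [h7]
  have h8 : (0 : ℝ) ≤ N3 := Nat.cast_nonneg _
  have h9 := mul_le_mul_of_nonneg_left h6 h8
  linarith

theorem t3_mB (j : ℕ) (i : (Mg → M) ⊕ Comp RQ RK M) (c : StB → Comp Q K (StB × M))
    (next : M → Proc Q K StA StB M RQ RK Mg) (X : Sd Q K StA RA) (Y : Sd Q K StB RB)
    (kn : List (Q × K)) (h : ∀ m, T3 S cel FL BS N3 L j (next m) X (Y.upd c m) kn) :
    T3 S cel FL BS N3 L j (.mB i c next) X Y kn := by
  rw [C1_iff]
  intro hS
  rw [← sum_mB S X Y kn c]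
  refine Finset.sum_nonpos fun m _ => ?_
  have h1 := (C1_iff S cel j (next m) X (Y.upd c m) kn).1 (h m) (fun w hw => by
    obtain ⟨hw1, hw2⟩ := (mem_rl_updB S X Y kn c m w).1 hw
    obtain ⟨h3, h4, h5⟩ := hS w hw1
    rw [Proc.rsB] at hw2
    refine ⟨h3, fun d hd => ?_, fun d hd => h5 d ?_⟩
    · rcases List.mem_append.1 hd with hd | hd
      · exact h4 d hd
      · refine h5 d ?_
        rw [Proc.flat, Comp.asked_bind]
        exact List.mem_append_left _ hd
    · rw [Proc.flat, Comp.asked_bind, hw2]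
      exact List.mem_append_right _ hd)
  refine le_trans (Finset.sum_le_sum fun w hw => ?_) h1
  obtain ⟨hw1, hw2⟩ := (mem_rl_updB S X Y kn c m w).1 hw
  have h6 : (if Dw S cel X Y kn w ∧ (Proc.mB i c next).lf S X Y kn w = 3 ∧
      (Proc.mB i c next).hits S cel X Y kn w = 0 then (1 : ℝ) else 0) ≤
      (if Dw S cel X (Y.upd c m) kn w ∧ (next m).lf S X (Y.upd c m) kn w = 3 ∧
      (next m).hits S cel X (Y.upd c m) kn w = 0 then (1 : ℝ) else 0) := by
    by_cases hc : Dw S cel X Y kn w ∧ (Proc.mB i c next).lf S X Y kn w = 3 ∧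
      (Proc.mB i c next).hits S cel X Y kn w = 0
    · rw [if_pos hc, if_pos]
      obtain ⟨h7, h8, h9⟩ := hc
      rw [Proc.lf, hw2] at h8
      rw [Proc.hits, hw2, Nat.add_eq_zero_iff] at h9
      have h10 : ¬ hitB S c X Y kn w := fun h11 => by
        have h12 := h9.1
        rw [if_pos ⟨h7, h11⟩] at h12
        exact one_ne_zero h12
      exact ⟨dw_updB S cel X Y kn c m w h7 h10, h8, h9.2⟩
    · rw [if_neg hc]
      split_ifs <;> norm_num
  have h7 : (Proc.mB i c next).cnt S cel L (fun d => ¬ cel d) X Y kn w =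
      (next m).cnt S cel L (fun d => ¬ cel d) X (Y.upd c m) kn w := by
    rw [Proc.cnt, hw2]
  unfold C1_f
  rw [h7]
  have h8 : (0 : ℝ) ≤ N3 := Nat.cast_nonneg _
  have h9 := mul_le_mul_of_nonneg_left h6 h8
  linarith

private theorem C2_rl (X : Sd Q K StA RA) (Y : Sd Q K StB RB) (kn : List (Q × K)) (q : Q) (v0 : K)
    (hq : S q = {v0}) (β : Bool → M) (hβ : Function.Injective β) (oA : StA → Bool)
    (oB : StB → Bool) (b1 b2 : Bool) (w : RA × RB × Orc S) :
    w ∈ rl S (X.upd (fun st => (.ret (st, β (oA st)) : Comp Q K (StA × M))) (β b1))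
      (Y.upd (fun st => (.ret (st, β (oB st)) : Comp Q K (StB × M))) (β b2)) (kn ++ [(q, v0)]) ↔
    w ∈ rl S X Y kn ∧ (oA (X.s w.1 w.2.2.1), oB (Y.s w.2.1 w.2.2.1)) = (b1, b2) := by
  have hv : w.2.2.1 q = v0 := by
    have := w.2.2.2 q
    rw [hq, Finset.mem_singleton] at this
    exact this
  rw [mem_rl, mem_rl, Prod.mk.injEq]
  simp only [Sd.upd, Comp.run_ret, Kn, List.mem_append, List.mem_singleton, hβ.eq_iff]
  constructor
  · rintro ⟨⟨h1, h2⟩, ⟨h3, h4⟩, h5⟩
    exact ⟨⟨h1, h3, fun u hu => h5 u (Or.inl hu)⟩, h2, h4⟩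
  · rintro ⟨⟨h1, h3, h5⟩, h2, h4⟩
    refine ⟨⟨h1, h2⟩, ⟨h3, h4⟩, ?_⟩
    rintro u (hu | rfl)
    · exact h5 u hu
    · exact hv

private theorem C2_core (X : Sd Q K StA RA) (Y : Sd Q K StB RB) (kn : List (Q × K)) (q : Q)
    (v0 : K) (hq : S q = {v0}) (hcq : ¬ cel q) (β : Bool → M) (hβ : Function.Injective β)
    (oA : StA → Bool) (oB : StB → Bool) (o : Comp RQ RK K) (i i' : (Mg → M) ⊕ Comp RQ RK M)
    (next : K → M → M → Proc Q K StA StB M RQ RK Mg) (j : ℕ) (wr : Bool → Bool → Prop)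
    (hη : Hv S cel L X Y kn q) (hg : Gd S cel X Y kn)
    (h1 : ∀ b1 b2, ¬ wr b1 b2 → T3 S cel FL BS N3 L j (next v0 (β b1) (β b2))
      (X.upd (fun st => (.ret (st, β (oA st)) : Comp Q K (StA × M))) (β b1))
      (Y.upd (fun st => (.ret (st, β (oB st)) : Comp Q K (StB × M))) (β b2)) (kn ++ [(q, v0)]))
    (h3 : (∀ w ∈ rl S X Y kn, (∀ d ∈ X.q w.1 w.2.2.1, d ∈ FL w) ∧
        ∀ d ∈ Y.q w.2.1 w.2.2.1, d ∈ FL w) →
      (N3 : ℝ) * ((gr S cel X Y kn).filter fun w =>
        wr (oA (X.s w.1 w.2.2.1)) (oB (Y.s w.2.1 w.2.2.1))).card ≤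
      2 * (gr S cel X Y kn).card + 2 * (N3 : ℝ) ^ 2 * ((rl S X Y kn).filter fun w => BS w).card) :
    T3 S cel FL BS N3 L (j + 1) (.learn q o fun v =>
      .mA i (fun st => (.ret (st, β (oA st)) : Comp Q K (StA × M))) fun m1 =>
        .mB i' (fun st => (.ret (st, β (oB st)) : Comp Q K (StB × M))) fun m2 =>
          next v m1 m2) X Y kn := by
  intro hSb
  set cA : StA → Comp Q K (StA × M) := fun st => .ret (st, β (oA st)) with hcA
  set cB : StB → Comp Q K (StB × M) := fun st => .ret (st, β (oB st)) with hcB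
  let ab : RA × RB × Orc S → Bool × Bool := fun w =>
    (oA (X.s w.1 w.2.2.1), oB (Y.s w.2.1 w.2.2.1))
  have hv : ∀ w : RA × RB × Orc S, w.2.2.1 q = v0 := by
    intro w
    have := w.2.2.2 q
    rw [hq, Finset.mem_singleton] at this
    exact this
  have hrl : ∀ b : Bool × Bool, rl S (X.upd cA (β b.1)) (Y.upd cB (β b.2)) (kn ++ [(q, v0)]) =
      (rl S X Y kn).filter fun w => ab w = b := by
    intro b
    ext w
    rw [Finset.mem_filter]
    exact C2_rl S X Y kn q v0 hq β hβ oA oB b.1 b.2 w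
  -- the outcome
  have hlf : ∀ w, (Proc.learn q o fun v => .mA i cA fun m1 => .mB i' cB fun m2 =>
      next v m1 m2 : Proc Q K StA StB M RQ RK Mg).lf S X Y kn w =
      (next v0 (β (ab w).1) (β (ab w).2)).lf S (X.upd cA (β (ab w).1)) (Y.upd cB (β (ab w).2))
        (kn ++ [(q, v0)]) w := by
    intro w
    simp only [Proc.lf, Proc.rsA, Proc.rsB, hv w, hcA, hcB, Comp.run_ret, ab]
  have hhits : ∀ w, (Proc.learn q o fun v => .mA i cA fun m1 => .mB i' cB fun m2 =>
      next v m1 m2 : Proc Q K StA StB M RQ RK Mg).hits S cel X Y kn w =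
      (next v0 (β (ab w).1) (β (ab w).2)).hits S cel (X.upd cA (β (ab w).1))
        (Y.upd cB (β (ab w).2)) (kn ++ [(q, v0)]) w := by
    intro w
    simp only [Proc.hits, Proc.rsA, Proc.rsB, hv w, hcA, hcB, Comp.run_ret, ab, hitA, hitB,
      Comp.asked_ret, List.not_mem_nil, false_and, exists_false, and_false, if_false, zero_add]
  have hcnt : ∀ w, (Proc.learn q o fun v => .mA i cA fun m1 => .mB i' cB fun m2 =>
      next v m1 m2 : Proc Q K StA StB M RQ RK Mg).cnt S cel L (fun d => ¬ cel d) X Y kn w =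
      1 + (next v0 (β (ab w).1) (β (ab w).2)).cnt S cel L (fun d => ¬ cel d)
        (X.upd cA (β (ab w).1)) (Y.upd cB (β (ab w).2)) (kn ++ [(q, v0)]) w := by
    intro w
    have hc : (fun d => ¬ cel d) q ∧ Hv S cel L X Y kn q ∧ Gd S cel X Y kn := ⟨hcq, hη, hg⟩
    simp only [Proc.cnt, Proc.rsA, Proc.rsB, hv w, hcA, hcB, Comp.run_ret, ab]
    rw [if_pos hc]
  have hflat : ∀ w : RA × RB × Orc S, ∀ d ∈ ((next v0 (β (ab w).1) (β (ab w).2)).flat
      (X.s w.1 w.2.2.1) (Y.s w.2.1 w.2.2.1)).asked w.2.2.1,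
      d ∈ ((Proc.learn q o fun v => .mA i cA fun m1 => .mB i' cB fun m2 =>
        next v m1 m2 : Proc Q K StA StB M RQ RK Mg).flat
        (X.s w.1 w.2.2.1) (Y.s w.2.1 w.2.2.1)).asked w.2.2.1 := by
    intro w d hd
    simp only [Proc.flat, Comp.asked_ask, hv w, hcA, hcB, Comp.bind]
    exact List.mem_cons_of_mem _ hd
  -- abbreviations
  let Xb : Bool × Bool → Sd Q K StA RA := fun b => X.upd cA (β b.1)
  let Yb : Bool × Bool → Sd Q K StB RB := fun b => Y.upd cB (β b.2)
  let R : Bool × Bool → Proc Q K StA StB M RQ RK Mg := fun b => next v0 (β b.1) (β b.2)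
  let kn' := kn ++ [(q, v0)]
  let Gs : Bool × Bool → Finset (RA × RB × Orc S) := fun b =>
    (gr S cel (Xb b) (Yb b) kn').filter fun w =>
      (R b).lf S (Xb b) (Yb b) kn' w = 3 ∧ (R b).hits S cel (Xb b) (Yb b) kn' w = 0
  let cn : RA × RB × Orc S → ℝ := fun w =>
    ((R (ab w)).cnt S cel L (fun d => ¬ cel d) (Xb (ab w)) (Yb (ab w)) kn' w : ℝ)
  have hsub : ((gr S cel X Y kn).filter fun w =>
      (Proc.learn q o fun v => .mA i cA fun m1 => .mB i' cB fun m2 =>
        next v m1 m2 : Proc Q K StA StB M RQ RK Mg).lf S X Y kn w = 3 ∧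
      (Proc.learn q o fun v => .mA i cA fun m1 => .mB i' cB fun m2 =>
        next v m1 m2 : Proc Q K StA StB M RQ RK Mg).hits S cel X Y kn w = 0) ⊆
      ((gr S cel X Y kn).filter fun w =>
        wr (oA (X.s w.1 w.2.2.1)) (oB (Y.s w.2.1 w.2.2.1))) ∪
      (Finset.univ.filter fun b : Bool × Bool => ¬ wr b.1 b.2).biUnion Gs := by
    intro w hw
    rw [Finset.mem_filter] at hw
    obtain ⟨hwg, hw3, hw0⟩ := hw
    rw [Finset.mem_union]
    by_cases hwr : wr (oA (X.s w.1 w.2.2.1)) (oB (Y.s w.2.1 w.2.2.1))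
    · exact Or.inl (Finset.mem_filter.2 ⟨hwg, hwr⟩)
    · refine Or.inr (Finset.mem_biUnion.2 ⟨ab w, Finset.mem_filter.2 ⟨Finset.mem_univ _, hwr⟩, ?_⟩)
      refine Finset.mem_filter.2 ⟨?_, ?_, ?_⟩
      · have hwg' := hwg
        unfold gr at hwg' ⊢
        rw [Finset.mem_filter] at hwg' ⊢
        refine ⟨?_, ?_⟩
        · have h4 : w ∈ (rl S X Y kn).filter fun w' => ab w' = ab w :=
            Finset.mem_filter.2 ⟨hwg'.1, rfl⟩
          rw [← hrl] at h4
          exact h4
        · intro c hc hcx hcy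
          have hcx' : c ∈ X.q w.1 w.2.2.1 := by
            simpa only [Xb, Sd.upd, hcA, Comp.asked_ret, List.append_nil] using hcx
          have hcy' : c ∈ Y.q w.2.1 w.2.2.1 := by
            simpa only [Yb, Sd.upd, hcB, Comp.asked_ret, List.append_nil] using hcy
          have h5 := hwg'.2 c hc hcx' hcy'
          simp only [kn', List.map_append, List.mem_append]
          exact Or.inl h5
      · rw [← hw3]
        exact (hlf w).symm
      · rw [← hw0]
        exact (hhits w).symm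
  have hT : ∀ b : Bool × Bool, ¬ wr b.1 b.2 → (N3 : ℝ) * (Gs b).card ≤
      ∑ w ∈ (rl S X Y kn).filter (fun w => ab w = b),
        (2 * cn w + 2 * (N3 : ℝ) ^ 2 * j * (if BS w then 1 else 0)) := by
    intro b hb
    have h5 := h1 b.1 b.2 hb (by
      intro w hw
      have hw' := (C2_rl S X Y kn q v0 hq β hβ oA oB b.1 b.2 w).1 hw
      have h6 := hSb w hw'.1
      refine ⟨?_, ?_, ?_⟩
      · intro d hd
        refine h6.1 d ?_
        simpa only [Sd.upd, hcA, Comp.asked_ret, List.append_nil] using hd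
      · intro d hd
        refine h6.2.1 d ?_
        simpa only [Sd.upd, hcB, Comp.asked_ret, List.append_nil] using hd
      · intro d hd
        refine h6.2.2 d (hflat w d ?_)
        have h7 : ab w = b := hw'.2
        rw [h7]
        exact hd)
    refine h5.trans (le_of_eq ?_)
    rw [Finset.sum_add_distrib, ← Finset.mul_sum, ← Finset.mul_sum]
    have e1 : ∑ w ∈ rl S (Xb b) (Yb b) kn',
        ((R b).cnt S cel L (fun d => ¬ cel d) (Xb b) (Yb b) kn' w : ℝ) =
        ∑ w ∈ (rl S X Y kn).filter (fun w => ab w = b), cn w := by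
      rw [← hrl b]
      refine Finset.sum_congr rfl ?_
      intro w hw
      have hw' : w ∈ (rl S X Y kn).filter fun w => ab w = b := by
        rw [← hrl b]
        exact hw
      have h7 : ab w = b := (Finset.mem_filter.1 hw').2
      simp only [cn]
      rw [h7]
    have e2 : (((rl S (Xb b) (Yb b) kn').filter fun w => BS w).card : ℝ) =
        ∑ w ∈ (rl S X Y kn).filter (fun w => ab w = b), (if BS w then (1 : ℝ) else 0) := by
      rw [← hrl b, Finset.card_filter]
      push_cast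
      rfl
    exact congrArg₂ (· + ·) (congrArg (2 * ·) e1) (congrArg (2 * (N3 : ℝ) ^ 2 * j * ·) e2)
  have hX := h3 (fun w hw => ⟨(hSb w hw).1, (hSb w hw).2.1⟩)
  have hgr : ((gr S cel X Y kn).card : ℝ) ≤ (rl S X Y kn).card := by
    exact_mod_cast Finset.card_le_card (Finset.filter_subset _ _)
  have hsum : ∑ b ∈ Finset.univ.filter (fun b : Bool × Bool => ¬ wr b.1 b.2),
      (N3 : ℝ) * (Gs b).card ≤
      ∑ w ∈ rl S X Y kn, (2 * cn w + 2 * (N3 : ℝ) ^ 2 * j * (if BS w then 1 else 0)) := by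
    rw [← Finset.sum_fiberwise (rl S X Y kn) ab]
    refine (Finset.sum_le_sum fun b hb => hT b (Finset.mem_filter.1 hb).2).trans ?_
    refine Finset.sum_le_sum_of_subset_of_nonneg (Finset.filter_subset _ _) ?_
    intro b _ _
    refine Finset.sum_nonneg fun w _ => ?_
    have h8 : (0 : ℝ) ≤ cn w := Nat.cast_nonneg _
    have h9 : (0 : ℝ) ≤ if BS w then (1 : ℝ) else 0 := by split_ifs <;> norm_num
    have h10 : (0 : ℝ) ≤ 2 * (N3 : ℝ) ^ 2 * j := by positivity
    have := mul_nonneg h10 h9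
    linarith
  have hcard := Finset.card_le_card hsub
  have hcard' : (((gr S cel X Y kn).filter fun w =>
      (Proc.learn q o fun v => .mA i cA fun m1 => .mB i' cB fun m2 =>
        next v m1 m2 : Proc Q K StA StB M RQ RK Mg).lf S X Y kn w = 3 ∧
      (Proc.learn q o fun v => .mA i cA fun m1 => .mB i' cB fun m2 =>
        next v m1 m2 : Proc Q K StA StB M RQ RK Mg).hits S cel X Y kn w = 0).card : ℝ) ≤
      ((gr S cel X Y kn).filter fun w =>
        wr (oA (X.s w.1 w.2.2.1)) (oB (Y.s w.2.1 w.2.2.1))).card +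
      ∑ b ∈ Finset.univ.filter (fun b : Bool × Bool => ¬ wr b.1 b.2), ((Gs b).card : ℝ) := by
    have h11 := hcard.trans ((Finset.card_union_le _ _).trans
      (Nat.add_le_add_left Finset.card_biUnion_le _))
    exact_mod_cast h11
  have hmul := mul_le_mul_of_nonneg_left hcard' (Nat.cast_nonneg (α := ℝ) N3)
  rw [mul_add, Finset.mul_sum] at hmul
  have hS2 : ∑ w ∈ rl S X Y kn, (2 * cn w + 2 * (N3 : ℝ) ^ 2 * j * (if BS w then 1 else 0)) =
      2 * ∑ w ∈ rl S X Y kn, cn w +
        2 * (N3 : ℝ) ^ 2 * j * ((rl S X Y kn).filter fun w => BS w).card := by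
    rw [Finset.sum_add_distrib, ← Finset.mul_sum, ← Finset.mul_sum, Finset.card_filter]
    push_cast
    rfl
  have hcs : ∑ w ∈ rl S X Y kn, ((Proc.learn q o fun v => .mA i cA fun m1 => .mB i' cB fun m2 =>
      next v m1 m2 : Proc Q K StA StB M RQ RK Mg).cnt S cel L (fun d => ¬ cel d) X Y kn w : ℝ) =
      (rl S X Y kn).card + ∑ w ∈ rl S X Y kn, cn w := by
    rw [Finset.card_eq_sum_ones]
    push_cast
    rw [← Finset.sum_add_distrib]
    refine Finset.sum_congr rfl fun w _ => ?_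
    rw [hcnt w]
    push_cast
    rfl
  rw [hcs]
  push_cast
  rw [hS2] at hsum
  nlinarith [hmul, hsum, hX, hgr]

end generic

variable {X S J K V Mg StA StB RA RB : Type} [Finite X] [Finite S] [Fintype J] [Finite K]
  [Nonempty K] [Fintype RA] [Fintype RB]

/-- `T3` for a state; the bad executions are those with `Bad`. -/
def T3E (FL : RA × RB × Orc (SV : Th X S J K → Finset (Option J → K)) → List (Th X S J K))
    (N3 L j : ℕ) (p : PT X S J K V Mg StA StB) (e : Env X S J K V StA StB RA RB) : Prop :=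
  T3 SV cel FL (fun w => Bad gK w.2.2.1 (FL w)) N3 L j p e.A e.B e.kn

variable {FL : RA × RB × Orc (SV : Th X S J K → Finset (Option J → K)) → List (Th X S J K)}
  {N N3 L n m : ℕ} {e : Env X S J K V StA StB RA RB}

private theorem C2_card {α : Type} (s : Finset α) (p : α → Prop) (d1 d2 : DecidablePred p) :
    (@Finset.filter α p d1 s).card = (@Finset.filter α p d2 s).card := by
  rw [Subsingleton.elim d1 d2]

omit [Finite X] [Finite S] in
private theorem C2_hcel (q : Th X S J K) (hq : ¬ cel q) : (SV q).card ≤ 1 := by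
  cases q with
  | x _ => exact absurd trivial hq
  | s _ => exact absurd trivial hq
  | h _ => exact (Finset.card_singleton _).le
  | l _ _ _ => exact (Finset.card_singleton _).le

/-- In a good execution in which both parties own `η` the handle was guessed. -/
private theorem C2_both (h : GI n m e) (η : K) (hη : .h η ∉ e.kn.map Prod.fst)
    (w : RA × RB × Orc (SV : Th X S J K → Finset (Option J → K)))
    (hw : w ∈ gr SV cel e.A e.B e.kn) (hn : Nice w.2.2.1 (FL w))
    (hA : ownH η (e.A.s w.1 w.2.2.1) = true) (hB : ownH η (e.B.s w.2.1 w.2.2.1) = true)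
    (hXf : ∀ d ∈ e.A.q w.1 w.2.2.1, d ∈ FL w) (hYf : ∀ d ∈ e.B.q w.2.1 w.2.2.1, d ∈ FL w) :
    Bad gK w.2.2.1 (FL w) := by
  by_contra hbad
  unfold gr at hw
  rw [Finset.mem_filter] at hw
  obtain ⟨hrl, hdw⟩ := hw
  rw [mem_rl] at hrl
  obtain ⟨hPA, hPB, hK⟩ := hrl
  have sA := h.sA (w.1, w.2.2) ((mem_sup SV).2 ⟨hPA, hK⟩)
  have sB := h.sB (w.2.1, w.2.2) ((mem_sup SV).2 ⟨hPB, hK⟩)
  obtain ⟨eA, hA'⟩ := Option.isSome_iff_exists.1 hA
  obtain ⟨eB, hB'⟩ := Option.isSome_iff_exists.1 hB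
  obtain ⟨a1, a2⟩ := lkup_some hA'
  obtain ⟨b1, b2⟩ := lkup_some hB'
  obtain ⟨a3, a4⟩ := sA.val eA a1
  obtain ⟨b3, b4⟩ := sB.val eB b1
  have hae : w.2.2.1 (.s eA.1) none = η := by
    rw [← a2]
    exact (congrFun a3 none).symm
  have hbe : w.2.2.1 (.s eB.1) none = η := by
    rw [← b2]
    exact (congrFun b3 none).symm
  have hee : eA.1 = eB.1 := uniq hbad hn (hXf _ a4) (hYf _ b4) (hae.trans hbe.symm)
  have hmem : (.s eA.1 : Th X S J K) ∈ e.kn.map Prod.fst := by
    refine hdw (.s eA.1) trivial a4 ?_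
    rw [hee]
    exact b4
  obtain ⟨⟨t, v⟩, hv, ht⟩ := List.mem_map.1 hmem
  have ht' : t = .s eA.1 := ht
  subst ht'
  have h5 := h.kh eA.1 v hv
  have h6 : w.2.2.1 (.s eA.1) = v := hK _ hv
  rw [← h6, hae] at h5
  exact hη h5

private theorem C2_sup (η : K) (Z : Sd (Th X S J K) (Option J → K) (CS StA S J K) RA)
    (kn : List (Th X S J K × (Option J → K)))
    (p : RA × Orc (SV : Th X S J K → Finset (Option J → K)))
    (hp : p ∈ sup SV (Z.upd (bitH η : _ → Comp _ _ (_ × Pb Mg V)) (.bit true)) kn) :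
    ∃ u ∈ (Z.s p.1 p.2.1).own, (.h η : Th X S J K) ∈ items u.2 := by
  rw [mem_sup] at hp
  have h1 : (Pb.bit (ownH η (Z.s p.1 p.2.1)) : Pb Mg V) = .bit true := hp.1.2
  have h2 : ownH η (Z.s p.1 p.2.1) = true := by
    injection h1
  obtain ⟨u, hu⟩ := Option.isSome_iff_exists.1 h2
  obtain ⟨a1, a2⟩ := lkup_some hu
  exact ⟨u, a1, mem_items.2 (Or.inl (by rw [a2]))⟩

private theorem C2_supB (η : K) (Z : Sd (Th X S J K) (Option J → K) (CS StB S J K) RB)
    (kn : List (Th X S J K × (Option J → K)))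
    (p : RB × Orc (SV : Th X S J K → Finset (Option J → K)))
    (hp : p ∈ sup SV (Z.upd (bitH η : _ → Comp _ _ (_ × Pb Mg V)) (.bit true)) kn) :
    ∃ u ∈ (Z.s p.1 p.2.1).own, (.h η : Th X S J K) ∈ items u.2 := C2_sup η Z kn p hp

/-- Row C2.  The wrong guesses at the handle `η`: by `own_le` or `own_le'` (with `oA r O :=
ownH η (e.A.s r O) = true`), `N3 #{w in gr : wrong or both} <= 2 gr + 2 N3^2 #{w in gr : both}`
(if `des e η` these are the `w` with `oB`, otherwise those with `oA`), the node is counted in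
`cnt` (so `2 gr <= 2 rl` is paid), and `both` implies `Bad`: own keys `s`, `s'` with handle `η`; they
are different, since otherwise `s` is a common cell, so it is known, and then `.h η` is known
(`kh`), and then `uniq`.  The other outcomes: `t3_mA`, `t3_mB` as in row C1. -/
theorem handleStep_t3 (η : K) (j : ℕ)
    (cont : Env X S J K V StA StB RA RB → PT X S J K V Mg StA StB) (h : GI n m e)
    (hnice : ∀ w, Nice w.2.2.1 (FL w)) (hN : 4 * nn J n m ≤ N) (hN0 : 0 < N) (hN3 : 0 < N3)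
    (hN3' : 8 * nn J n m * N3 ≤ 3 * N) (hL : Lt SV cel N cel e.A e.B e.kn)
    (hη : Hv SV cel L e.A e.B e.kn (.h η)) (hg : Gd SV cel e.A e.B e.kn) (hp : e.pend = none)
    (hc : ∀ e' : Env X S J K V StA StB RA RB, GI n m e' → T3E FL N3 L j (cont e') e') :
    T3E FL N3 L (j + 1) (handleStep e η cont) e := by
  have hcl : ¬ cel (.h η : Th X S J K) := fun h => h
  have hβ : Function.Injective (Pb.bit : Bool → Pb Mg V) := by
    intro a b hab
    injection hab
  have hoA : Lc e.A.q (fun r O => ownH η (e.A.s r O) = true) := by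
    intro r O O' hO
    exact congrArg (fun st => ownH η st = true) (h.lA.1 r O O' hO)
  have hoB : Lc e.B.q (fun r O => ownH η (e.B.s r O) = true) := by
    intro r O O' hO
    exact congrArg (fun st => ownH η st = true) (h.lB.1 r O O' hO)
  have hboth : (∀ w ∈ rl SV e.A e.B e.kn, (∀ d ∈ e.A.q w.1 w.2.2.1, d ∈ FL w) ∧
        ∀ d ∈ e.B.q w.2.1 w.2.2.1, d ∈ FL w) →
      ((gr SV cel e.A e.B e.kn).filter fun w => ownH η (e.A.s w.1 w.2.2.1) = true ∧
        ownH η (e.B.s w.2.1 w.2.2.1) = true).card ≤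
      ((rl SV e.A e.B e.kn).filter fun w => Bad gK w.2.2.1 (FL w)).card := by
    intro hf
    refine Finset.card_le_card ?_
    intro w hw
    rw [Finset.mem_filter] at hw ⊢
    have hrl : w ∈ rl SV e.A e.B e.kn := Finset.filter_subset _ _ hw.1
    exact ⟨hrl, C2_both h η hη.1 w hw.1 (hnice w) hw.2.1 hw.2.2 (hf w hrl).1 (hf w hrl).2⟩
  have g0 : GI n m (e.kna (.h η) cv) := gi_item h _ hcl cv
  have g2 : ∀ b1 b2 : Bool, GI n m (((e.kna (.h η) cv).upA (bitH η) (.bit b1 : Pb Mg V)).upB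
      (bitH η) (.bit b2 : Pb Mg V)) := fun b1 b2 => gi_bitB (gi_bitA g0 η _) η _
  have hkn : (.h η : Th X S J K) ∈ (e.kn ++ [((.h η : Th X S J K), (cv : Option J → K))]).map
      Prod.fst := by
    rw [List.map_append]
    exact List.mem_append_right _ (List.mem_singleton.2 rfl)
  have hcA : (bitH η : CS StA S J K → Comp (Th X S J K) (Option J → K) (CS StA S J K × Pb Mg V)) =
      fun st => .ret (st, .bit (ownH η st)) := rfl
  have hcB : (bitH η : CS StB S J K → Comp (Th X S J K) (Option J → K) (CS StB S J K × Pb Mg V)) =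
      fun st => .ret (st, .bit (ownH η st)) := rfl
  by_cases hd : des e η
  · refine C2_core SV cel e.A e.B e.kn (.h η) cv rfl hcl Pb.bit hβ (ownH η) (ownH η) _ _ _ _ j
      (fun _ b2 => b2 = true) hη hg ?_ ?_
    · intro b1 b2 hb
      have hb2 : b2 = false := by
        cases b2
        · rfl
        · exact absurd rfl hb
      subst hb2
      cases b1
      · exact hc _ (g2 false false)
      · simp only [if_pos hd]
        refine hc (((((e.kna (.h η) cv).upA (bitH η) (.bit true : Pb Mg V)).upB (bitH η)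
          (.bit false : Pb Mg V)).setPr η true (fun _ => none) none).conf η true (.h η)) ?_
        refine gi_confA (g2 true false) η (.h η) (fun _ => none) hkn ?_ hp ?_
        · intro hm
          exact hη.1 (h.wA _ hm)
        · intro p hp'
          exact C2_sup (Mg := Mg) (V := V) η e.A _ p hp'
    · intro hf
      have h1 := own_le SV cel C2_hcel N (nn J n m) N3 hN hN0 hN3 hN3' e.A e.B h.lA h.lB e.kn hL
        (gi_bdA h) (gi_bdB h) _ _ hoA hoB
        ((le_of_eq (congrArg (· * (sup SV e.A e.kn).card) (C2_card _ _ _ _))).trans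
          (le_trans hd (le_of_eq (congrArg (· * (sup SV e.B e.kn).card) (C2_card _ _ _ _)))))
      have h2 := hboth hf
      have h3 : N3 * ((gr SV cel e.A e.B e.kn).filter fun w =>
          ownH η (e.B.s w.2.1 w.2.2.1) = true).card ≤ 2 * (gr SV cel e.A e.B e.kn).card +
          2 * N3 ^ 2 * ((rl SV e.A e.B e.kn).filter fun w => Bad gK w.2.2.1 (FL w)).card :=
        (le_of_eq (congrArg (N3 * ·) (C2_card _ _ _ _))).trans (h1.trans
          (Nat.add_le_add_left (Nat.mul_le_mul_left _ ((le_of_eq (C2_card _ _ _ _)).trans h2)) _))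
      have h4 : (N3 : ℝ) * ((gr SV cel e.A e.B e.kn).filter fun w =>
          ownH η (e.B.s w.2.1 w.2.2.1) = true).card ≤ 2 * (gr SV cel e.A e.B e.kn).card +
          2 * (N3 : ℝ) ^ 2 * ((rl SV e.A e.B e.kn).filter fun w => Bad gK w.2.2.1 (FL w)).card := by
        exact_mod_cast h3
      exact (le_of_eq (congrArg (fun x : ℕ => (N3 : ℝ) * (x : ℝ)) (C2_card _ _ _ _))).trans h4
  · refine C2_core SV cel e.A e.B e.kn (.h η) cv rfl hcl Pb.bit hβ (ownH η) (ownH η) _ _ _ _ j
      (fun b1 _ => b1 = true) hη hg ?_ ?_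
    · intro b1 b2 hb
      have hb1 : b1 = false := by
        cases b1
        · rfl
        · exact absurd rfl hb
      subst hb1
      cases b2
      · exact hc _ (g2 false false)
      · simp only [if_neg hd]
        refine hc (((((e.kna (.h η) cv).upA (bitH η) (.bit false : Pb Mg V)).upB (bitH η)
          (.bit true : Pb Mg V)).setPr η false (fun _ => none) none).conf η false (.h η)) ?_
        refine gi_confB (g2 false true) η (.h η) (fun _ => none) hkn ?_ hp ?_
        · intro hm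
          exact hη.1 (h.wB _ hm)
        · intro p hp'
          exact C2_supB (Mg := Mg) (V := V) η e.B _ p hp'
    · intro hf
      have hd' : ((sup SV e.A e.kn).filter fun p => ownH η (e.A.s p.1 p.2.1) = true).card *
          (sup SV e.B e.kn).card ≤
          ((sup SV e.B e.kn).filter fun p => ownH η (e.B.s p.1 p.2.1) = true).card *
          (sup SV e.A e.kn).card := (not_le.1 hd).le
      have h1 := own_le' SV cel C2_hcel N (nn J n m) N3 hN hN0 hN3 hN3' e.A e.B h.lA h.lB e.kn hL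
        (gi_bdA h) (gi_bdB h) _ _ hoA hoB
        ((le_of_eq (congrArg (· * (sup SV e.B e.kn).card) (C2_card _ _ _ _))).trans
          (le_trans hd' (le_of_eq (congrArg (· * (sup SV e.A e.kn).card) (C2_card _ _ _ _)))))
      have h2 := hboth hf
      have h3 : N3 * ((gr SV cel e.A e.B e.kn).filter fun w =>
          ownH η (e.A.s w.1 w.2.2.1) = true).card ≤ 2 * (gr SV cel e.A e.B e.kn).card +
          2 * N3 ^ 2 * ((rl SV e.A e.B e.kn).filter fun w => Bad gK w.2.2.1 (FL w)).card :=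
        (le_of_eq (congrArg (N3 * ·) (C2_card _ _ _ _))).trans (h1.trans
          (Nat.add_le_add_left (Nat.mul_le_mul_left _ ((le_of_eq (C2_card _ _ _ _)).trans h2)) _))
      have h4 : (N3 : ℝ) * ((gr SV cel e.A e.B e.kn).filter fun w =>
          ownH η (e.A.s w.1 w.2.2.1) = true).card ≤ 2 * (gr SV cel e.A e.B e.kn).card +
          2 * (N3 : ℝ) ^ 2 * ((rl SV e.A e.B e.kn).filter fun w => Bad gK w.2.2.1 (FL w)).card := by
        exact_mod_cast h3
      exact (le_of_eq (congrArg (fun x : ℕ => (N3 : ℝ) * (x : ℝ)) (C2_card _ _ _ _))).trans h4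

/-! ## Row C3 -/

private theorem C3_lt (N : ℕ) (h : ¬ ∃ d, cel d ∧ Hv SV cel N e.A e.B e.kn d) :
    Lt SV cel N cel e.A e.B e.kn := by
  intro d hD hd
  have h1 : ¬ ((gp SV cel e.A e.B e.kn).card ≤
      N * (tA SV cel e.A e.B e.kn d + tB SV cel e.A e.B e.kn d)) :=
    fun hh => h ⟨d, hD, hd, hh⟩
  rw [not_le, Nat.mul_add] at h1
  constructor <;> omega

private theorem C3_know (j : ℕ) (l : List (Th X S J K))
    (cont : Env X S J K V StA StB RA RB → PT X S J K V Mg StA StB) :
    ∀ e : Env X S J K V StA StB RA RB,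
      (∀ l', l'.map Prod.fst = l → T3E FL N3 L j (cont (e.knas l')) (e.knas l')) →
      T3E FL N3 L j (knowL l e cont) e := by
  induction l with
  | nil =>
    intro e hc
    have h1 := hc [] rfl
    have h2 : e.knas [] = e := by
      unfold Env.knas
      rw [List.append_nil]
    rw [h2] at h1
    exact h1
  | cons d l ih =>
    intro e hc
    refine t3_learn SV cel j _ _ _ _ _ _ (fun v _ => ?_)
    refine ih (e.kna d v) ?_
    intro l' hl'
    have h1 := hc ((d, v) :: l') (by rw [List.map_cons, hl'])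
    have h2 : (e.kna d v).knas l' = e.knas ((d, v) :: l') := by
      unfold Env.knas Env.kna
      rw [List.append_assoc, List.singleton_append]
    rw [h2]
    exact h1

private theorem C3_cell (j : ℕ) (q : Th X S J K) (hq : cel q)
    (cont : Env X S J K V StA StB RA RB → PT X S J K V Mg StA StB) (h : GI n m e)
    (hc : ∀ e' : Env X S J K V StA StB RA RB, GI n m e' → T3E FL N3 L j (cont e') e') :
    T3E FL N3 L j (cellStep e q cont) e := by
  cases q with
  | x x =>
    refine t3_learn SV cel j _ _ _ _ _ _ (fun v _ => ?_)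
    exact hc (e.kna (.x x) v) (gi_x h x v)
  | s s =>
    refine t3_learn SV cel j _ _ _ _ _ _ (fun v _ => ?_)
    exact C3_know j (items v) cont ((e.kna (.s s) v).setTr s v)
      (fun l hl => hc _ (gi_s h s v l hl))
  | h η => exact absurd hq (fun hh => hh)
  | l η j π => exact absurd hq (fun hh => hh)

private theorem C3_leak (F : S → Finset J → Comp X K V)
    (hF : ∀ f s A, ((F s A).asked f).length ≤ m) (j : ℕ) (η : K)
    (cont : Env X S J K V StA StB RA RB → PT X S J K V Mg StA StB) (h : GI n m e)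
    (hp : e.pend = some η)
    (hc : ∀ e' : Env X S J K V StA StB RA RB, GI n m e' → T3E FL N3 L j (cont e') e') :
    T3E FL N3 L j (leakStep F e η cont) e := by
  unfold leakStep
  split
  · next ex r0 hT =>
    refine t3_mA SV cel j _ _ _ _ _ _ (fun b => ?_)
    match b with
    | .lk r => exact hc _ (gi_leakA F hF h η ex r0 r (.lk r) hp hT)
    | .msg x => exact t3_stop SV cel j 4 (by decide) _ _ _
    | .bit x => exact t3_stop SV cel j 4 (by decide) _ _ _
  · next ex r0 hT =>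
    refine t3_mB SV cel j _ _ _ _ _ _ (fun b => ?_)
    match b with
    | .lk r => exact hc _ (gi_leakB F hF h η ex r0 r (.lk r) hp hT)
    | .msg x => exact t3_stop SV cel j 4 (by decide) _ _ _
    | .bit x => exact t3_stop SV cel j 4 (by decide) _ _ _
  · exact hc _ (gi_leak0 h)

omit [Finite X] [Finite S] [Finite K] [Nonempty K] in
/-- a party which owns a label has it among its items -/
private theorem C3_own {St : Type} {η : K} {j : J} {π : K} {c : CS St S J K}
    (h : ownL η j π c = true) : ∃ u ∈ c.own, (Th.l η j π : Th X S J K) ∈ items u.2 := by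
  unfold ownL at h
  split at h
  · next u hu =>
    have h1 := lkup_some hu
    have h2 : u.2 (some j) = π := of_decide_eq_true h
    refine ⟨u, h1.1, mem_items.2 (Or.inr ⟨j, ?_⟩)⟩
    rw [h1.2, h2]
  · exact absurd h (by simp)

private theorem C3_label (i : ℕ) (η : K) (j : J) (π : K)
    (cont : Env X S J K V StA StB RA RB → PT X S J K V Mg StA StB) (h : GI n m e)
    (hp : e.pend = none) (hη : Th.l η j π ∉ e.kn.map Prod.fst)
    (hc : ∀ e' : Env X S J K V StA StB RA RB, GI n m e' → T3E FL N3 L i (cont e') e') :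
    T3E FL N3 L i (labelStep e η j π cont) e := by
  refine t3_learn SV cel i _ _ _ _ _ _ (fun v _ => ?_)
  have hd : ¬ cel (Th.l η j π : Th X S J K) := fun hh => hh
  have h1 : GI n m (e.kna (.l η j π) v) := gi_item h _ hd v
  have hmem : Th.l η j π ∈ (e.kna (.l η j π) v).kn.map Prod.fst := by
    change _ ∈ (e.kn ++ [_]).map Prod.fst
    rw [List.map_append]
    exact List.mem_append_right _ (List.mem_singleton.2 rfl)
  split
  · next ex r0 hT1 hT2 =>
    refine t3_mA SV cel i _ _ _ _ _ _ (fun b => ?_)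
    have h2 : GI n m ((e.kna (.l η j π) v).upA (bitL η j π) b) := gi_bitLA h1 η j π b
    match b, h2 with
    | .bit true, h2 =>
      refine hc _ (gi_confA h2 η (.l η j π) _ hmem (fun hh => hη (h.wA _ hh)) hp ?_)
      intro p hp'
      rw [mem_sup] at hp'
      have h3 : (Pb.bit (ownL η j π (e.A.s p.1 p.2.1)) : Pb Mg V) = .bit true := hp'.1.2
      have h4 : ownL η j π (e.A.s p.1 p.2.1) = true := Pb.bit.inj h3
      exact C3_own h4
    | .bit false, h2 => exact hc _ h2
    | .msg x, _ => exact t3_stop SV cel i 4 (by decide) _ _ _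
    | .lk x, _ => exact t3_stop SV cel i 4 (by decide) _ _ _
  · next ex r0 hT1 hT2 =>
    refine t3_mB SV cel i _ _ _ _ _ _ (fun b => ?_)
    have h2 : GI n m ((e.kna (.l η j π) v).upB (bitL η j π) b) := gi_bitLB h1 η j π b
    match b, h2 with
    | .bit true, h2 =>
      refine hc _ (gi_confB h2 η (.l η j π) _ hmem (fun hh => hη (h.wB _ hh)) hp ?_)
      intro p hp'
      rw [mem_sup] at hp'
      have h3 : (Pb.bit (ownL η j π (e.B.s p.1 p.2.1)) : Pb Mg V) = .bit true := hp'.1.2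
      have h4 : ownL η j π (e.B.s p.1 p.2.1) = true := Pb.bit.inj h3
      exact C3_own h4
    | .bit false, h2 => exact hc _ h2
    | .msg x, _ => exact t3_stop SV cel i 4 (by decide) _ _ _
    | .lk x, _ => exact t3_stop SV cel i 4 (by decide) _ _ _
  · exact hc _ h1

theorem body_t3 (F : S → Finset J → Comp X K V)
    (hF : ∀ f s A, ((F s A).asked f).length ≤ m) (j : ℕ)
    (cont : Env X S J K V StA StB RA RB → PT X S J K V Mg StA StB)
    (k : PT X S J K V Mg StA StB) (h : GI n m e)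
    (hnice : ∀ w, Nice w.2.2.1 (FL w)) (hN : 4 * nn J n m ≤ N) (hN0 : 0 < N) (hN3 : 0 < N3)
    (hN3' : 8 * nn J n m * N3 ≤ 3 * N) (hk : Lgt N L e → T3E FL N3 L (j + 1) k e)
    (hc : ∀ e' : Env X S J K V StA StB RA RB, GI n m e' → T3E FL N3 L j (cont e') e') :
    T3E FL N3 L (j + 1) (body F N L e cont k) e := by
  unfold body
  by_cases g1 : Lgt N L e
  · rw [if_pos g1]
    exact hk g1
  rw [if_neg g1]
  by_cases g2 : Gd SV cel e.A e.B e.kn
  swap
  · rw [if_pos g2]
    exact t3_stop SV cel (j + 1) 2 (by decide) _ _ _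
  rw [if_neg (not_not.2 g2)]
  by_cases g3 : ∃ d, cel d ∧ Hv SV cel N e.A e.B e.kn d
  · rw [dif_pos g3]
    exact t3_mono SV cel (Nat.le_succ j) _ _ _ _
      (C3_cell j _ g3.choose_spec.1 cont h hc)
  rw [dif_neg g3]
  split
  · next η hp =>
    exact t3_mono SV cel (Nat.le_succ j) _ _ _ _ (C3_leak F hF j η cont h hp hc)
  · next hp =>
    by_cases g4 : ∃ η, Hv SV cel L e.A e.B e.kn (.h η)
    · rw [dif_pos g4]
      exact handleStep_t3 _ j cont h hnice hN hN0 hN3 hN3' (C3_lt N g3) g4.choose_spec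
        g2 hp hc
    rw [dif_neg g4]
    by_cases g5 : ∃ x : K × J × K, Hv SV cel L e.A e.B e.kn (.l x.1 x.2.1 x.2.2)
    · rw [dif_pos g5]
      exact t3_mono SV cel (Nat.le_succ j) _ _ _ _
        (C3_label j _ _ _ cont h hp g5.choose_spec.1 hc)
    · rw [dif_neg g5]
      exact t3_stop SV cel (j + 1) 4 (by decide) _ _ _

theorem closeT_t3 (F : S → Finset J → Comp X K V)
    (hF : ∀ f s A, ((F s A).asked f).length ≤ m)
    (hnice : ∀ w, Nice w.2.2.1 (FL w)) (hN : 4 * nn J n m ≤ N) (hN0 : 0 < N) (hN3 : 0 < N3)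
    (hN3' : 8 * nn J n m * N3 ≤ 3 * N)
    (k : ℕ → Env X S J K V StA StB RA RB → PT X S J K V Mg StA StB)
    (hk : ∀ j e, GI n m e → Lgt N L e → T3E FL N3 L j (k j e) e) :
    ∀ j (e : Env X S J K V StA StB RA RB), GI n m e → T3E FL N3 L j (closeT F N L k j e) e := by
  intro j
  induction j with
  | zero =>
    intro e h
    unfold closeT
    split_ifs with g
    · exact hk 0 e h g
    · exact t3_stop SV cel 0 1 (by decide) _ _ _
  | succ j ih =>
    intro e h
    unfold closeT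
    exact body_t3 F hF j _ _ h hnice hN hN0 hN3 hN3' (fun g => hk (j + 1) e h g) ih

variable {I I' : Type} (A : Party (Qry X S J K) (Ans J K V) Mg I)
  (B : Party (Qry X S J K) (Ans J K V) Mg I')

theorem build_t3 (F : S → Finset J → Comp X K V) (G : V → Finset J → Comp X K V)
    (hF : ∀ f s A, ((F s A).asked f).length ≤ m) (hG : ∀ f v A, ((G v A).asked f).length ≤ m)
    (hnice : ∀ w, Nice w.2.2.1 (FL w)) (hN : 4 * nn J n m ≤ N) (hN0 : 0 < N) (hN3 : 0 < N3)
    (hN3' : 8 * nn J n m * N3 ≤ 3 * N) (m0 : Mg) :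
    ∀ (r : ℕ) (μ : Mg) (j : ℕ) (e : Env X S J K V A.St B.St RA RB), GI n m e →
      T3E FL N3 L j (build A B F G m0 N L r μ j e) e := by
  intro r
  induction r with
  | zero =>
    intro μ j e h
    unfold build
    exact closeT_t3 F hF hnice hN hN0 hN3 hN3' _
      (fun j e _ _ => t3_stop SV cel j 0 (by decide) _ _ _) j e h
  | succ r ih =>
    intro μ j e h
    unfold build
    refine closeT_t3 F hF hnice hN hN0 hN3 hN3' _ (fun j e he hl => ?_) j e h
    refine t3_mA SV cel j _ _ _ _ _ _ (fun b => ?_)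
    match b with
    | .msg x =>
      refine closeT_t3 F hF hnice hN hN0 hN3 hN3' _ (fun j e' he' hl' => ?_) j
        (e.upA (stepC F G A m0 e.T μ) (.msg x))
        (gi_msgA A B F G hF hG m0 μ e he hl.2.2 e.T (.msg x))
      refine t3_mB SV cel j _ _ _ _ _ _ (fun b' => ?_)
      match b' with
      | .msg y =>
        exact ih y j (e'.upB (stepC F G B m0 e'.T x) (.msg y))
          (gi_msgB A B F G hF hG m0 x e' he' hl'.2.2 e'.T (.msg y))
      | .bit _ => exact t3_stop SV cel j 4 (by decide) _ _ _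
      | .lk _ => exact t3_stop SV cel j 4 (by decide) _ _ _
    | .bit _ => exact t3_stop SV cel j 4 (by decide) _ _ _
    | .lk _ => exact t3_stop SV cel j 4 (by decide) _ _ _

end Pool.Agent.Nbb
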