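import Pool.Agent.Lib.MP_ae38e0_lc.Nbb.OkB

import Pool.Agent.Lib.MP_ae38e0_lc.Nbb.CntB

import Pool.Agent.Lib.MP_ae38e0_lc.Nbb.OwnB

import Pool.Agent.Lib.MP_ae38e0_lc.Nbb.FaithB

import Pool.Agent.Lib.MP_ae38e0_lc.Nbb.NiceB

set_option autoImplicit false

/-!
# The attack (rows M1 - M6)
-/

namespace Pool.Agent.Nbb

open Pool.Agent.LinOT Classical

/-- The data of the attack: two parties, their initial states and outputs, the numbers. -/
structure Cf (X S J K V Mg RA RB I I' : Type) where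
  A : Party (Qry X S J K) (Ans J K V) Mg I
  B : Party (Qry X S J K) (Ans J K V) Mg I'
  F : S → Finset J → Comp X K V
  G : V → Finset J → Comp X K V
  m0 : Mg
  iA : RA → A.St
  iB : RB → B.St
  outA : RA → A.St → Option Bool
  outB : RB → B.St → Bool
  n : ℕ
  m : ℕ
  N3 : ℕ
  N : ℕ
  L : ℕ
  j : ℕ
  r : ℕ

namespace Cf

variable {X S J K V Mg RA RB I I' : Type} [Fintype X] [Fintype S] [Fintype J] [Fintype K]
  [Nonempty K] [Fintype RA] [Fintype RB]

/-- The executions. -/
abbrev Om (X S J K RA RB : Type) [Finite J] [Finite K] [Nonempty K] : Type :=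
  RA × RB × Orc (SV : Th X S J K → Finset (Option J → K))

/-- The conditions on the data. -/
structure Gd (c : Cf X S J K V Mg RA RB I I') : Prop where
  hF : ∀ f s A, ((c.F s A).asked f).length ≤ c.m
  hG : ∀ f v A, ((c.G v A).asked f).length ≤ c.m
  mono : ∀ f s A B, A ⊆ B → (c.G ((c.F s B).run f) A).run f = (c.F s A).run f
  hA : ∀ (O : Th X S J K → Option J → K) (ra : RA) (l : List (Mg × Mg)), l.length = c.r →
    (c.A.asked (wd c.F O) (c.iA ra) l).length ≤ c.n
  hB : ∀ (O : Th X S J K → Option J → K) (rb : RB) (l : List (Mg × Mg)), l.length = c.r →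
    (c.B.asked (wd c.F O) (c.iB rb) l).length ≤ c.n
  hN : 4 * nn J c.n c.m ≤ c.N
  hL0 : 0 < c.L
  hLN : c.L ≤ c.N
  hN3 : 0 < c.N3
  hN3' : 8 * nn J c.n c.m * c.N3 ≤ 3 * c.N

variable (c : Cf X S J K V Mg RA RB I I')

/-- The initial state. -/
noncomputable def e0 : Env X S J K V c.A.St c.B.St RA RB := env0 c.A c.B c.n c.iA c.iB

/-- The process. -/
noncomputable def p : PT X S J K V Mg c.A.St c.B.St :=
  build c.A c.B c.F c.G c.m0 c.N c.L c.r c.m0 c.j c.e0

noncomputable def hits (w : Om X S J K RA RB) : ℕ := c.p.hits SV cel c.e0.A c.e0.B c.e0.kn w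

noncomputable def lf (w : Om X S J K RA RB) : ℕ := c.p.lf SV c.e0.A c.e0.B c.e0.kn w

noncomputable def fin (w : Om X S J K RA RB) : CS c.A.St S J K × CS c.B.St S J K :=
  c.p.fin SV c.e0.A c.e0.B c.e0.kn w

/-- The output of the second party in a compiled state. -/
def oB (r : RB) (s : CS c.B.St S J K) : Bool := c.outB r s.st

noncomputable def lg (w : Om X S J K RA RB) : Bool :=
  c.p.lg SV c.oB c.e0.A c.e0.B c.e0.kn w

/-- All things touched in the execution `w`. -/
noncomputable def FL (w : Om X S J K RA RB) : List (Th X S J K) :=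
  (c.p.flat ⟨c.iA w.1, [], c.n⟩ ⟨c.iB w.2.1, [], c.n⟩).asked w.2.2.1

/-- Something bad happens. -/
def bad (w : Om X S J K RA RB) : Prop := Bad gK w.2.2.1 (c.FL w)

/-- The real execution. -/
noncomputable def ex (w : Om X S J K RA RB) : List (Mg × Mg) × c.A.St × c.B.St :=
  exec c.A c.B (wd c.F w.2.2.1) c.r (c.iA w.1) (c.iB w.2.1) c.m0

/-- The eavesdropper. -/
noncomputable def E (t : List (Mg × Mg)) : Comp (Qry X S J K) (Ans J K V) Bool :=
  c.p.eve SV c.oB c.e0.A c.e0.B c.e0.kn (flat2 t)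

/-- The sum of all hits. -/
noncomputable def H : ℝ := ∑ w : Om X S J K RA RB, (c.hits w : ℝ)

variable {c}

/-! ## Row M1.  At the root `rl` and `gr` are everything (`P` is `True`, the lists are empty), and
`qp = pot = 2 nn |Ω|`. -/

private theorem M1_mem (w : Om X S J K RA RB) : w ∈ rl SV c.e0.A c.e0.B c.e0.kn := by
  rw [mem_rl]
  refine ⟨trivial, trivial, ?_⟩
  intro x hx
  exact absurd hx List.not_mem_nil

theorem rl_root : rl SV c.e0.A c.e0.B c.e0.kn = (Finset.univ : Finset (Om X S J K RA RB)) :=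
  Finset.eq_univ_iff_forall.mpr fun w => M1_mem w

theorem gr_root : gr SV cel c.e0.A c.e0.B c.e0.kn = (Finset.univ : Finset (Om X S J K RA RB)) := by
  refine Finset.eq_univ_iff_forall.mpr fun w => ?_
  unfold gr
  rw [Finset.mem_filter]
  refine ⟨M1_mem w, ?_⟩
  intro d _ hd _
  exact absurd hd List.not_mem_nil

private theorem M1_gi : GI c.n c.m (c.e0 : Env X S J K V c.A.St c.B.St RA RB) :=
  gi_env0 c.A c.B c.iA c.iB

private theorem M1_cel (q : Th X S J K) (hq : ¬ cel q) : (SV q).card ≤ 1 := by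
  cases q with
  | x x => exact absurd trivial hq
  | s s => exact absurd trivial hq
  | h η => exact (Finset.card_singleton _).le
  | l η j π => exact (Finset.card_singleton _).le

theorem ok_root (h : c.Gd) :
    c.p.Ok SV cel c.N c.L (nn J c.n c.m) c.e0.A c.e0.B c.e0.kn :=
  build_ok c.A c.B c.F c.G h.hF h.hG c.m0 c.r c.m0 c.j c.e0 M1_gi

private theorem M1_qp (n : ℕ) : qp SV n c.e0.A c.e0.B c.e0.kn =
    2 * n * Fintype.card (Om X S J K RA RB) := by
  unfold qp
  rw [rl_root]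
  have h1 : ∀ w : Om X S J K RA RB, (2 * (n : ℝ) - ((c.e0.A.q w.1 w.2.2.1).length : ℝ) -
      ((c.e0.B.q w.2.1 w.2.2.1).length : ℝ)) = 2 * n := by
    intro w
    have h2 : c.e0.A.q w.1 w.2.2.1 = [] := rfl
    have h3 : c.e0.B.q w.2.1 w.2.2.1 = [] := rfl
    rw [h2, h3]
    simp
  rw [Finset.sum_congr rfl fun w _ => h1 w, Finset.sum_const, Finset.card_univ, nsmul_eq_mul,
    mul_comm]

private theorem M1_pot (n : ℕ) : pot SV n c.e0.A c.e0.B c.e0.kn =
    2 * n * Fintype.card (Om X S J K RA RB) := by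
  unfold pot
  rw [rl_root]
  have h1 : ∀ w : Om X S J K RA RB, (2 * (n : ℝ) - ((c.e0.A.q w.1 w.2.2.1).length : ℝ) -
      ((c.e0.B.q w.2.1 w.2.2.1).length : ℝ) +
      (unl (c.e0.A.q w.1 w.2.2.1) (c.e0.kn.map Prod.fst) : ℝ) +
      (unl (c.e0.B.q w.2.1 w.2.2.1) (c.e0.kn.map Prod.fst) : ℝ)) = 2 * n := by
    intro w
    have h2 : c.e0.A.q w.1 w.2.2.1 = [] := rfl
    have h3 : c.e0.B.q w.2.1 w.2.2.1 = [] := rfl
    rw [h2, h3]
    simp [unl]
  rw [Finset.sum_congr rfl fun w _ => h1 w, Finset.sum_const, Finset.card_univ, nsmul_eq_mul,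
    mul_comm]

theorem hits_root (h : c.Gd) :
    (c.L : ℝ) * c.H ≤ 4 * (nn J c.n c.m : ℝ) ^ 2 * Fintype.card (Om X S J K RA RB) := by
  have h1 := hits_le SV cel M1_cel c.N c.L (nn J c.n c.m) h.hN h.hL0 h.hLN c.p c.e0.A c.e0.B
    c.e0.kn M1_gi.lA M1_gi.lB (ok_root h)
  rw [M1_qp, rl_root] at h1
  have h2 : c.H = ∑ w : Om X S J K RA RB, (c.p.hits SV cel c.e0.A c.e0.B c.e0.kn w : ℝ) := rfl
  rw [h2]
  refine h1.trans (le_of_eq ?_)
  ring

theorem code1_root (h : c.Gd) :
    (c.j : ℝ) * (Finset.univ.filter fun w : Om X S J K RA RB => c.lf w = 1).card ≤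
      8 * c.N * nn J c.n c.m * Fintype.card (Om X S J K RA RB) := by
  have hN : 0 < c.N := lt_of_lt_of_le h.hL0 h.hLN
  have h1 := cnt_le SV cel M1_cel c.N c.N c.L (nn J c.n c.m) (fun _ => True) hN c.p c.e0.A c.e0.B
    c.e0.kn M1_gi.lA M1_gi.lB (ok_root h)
  rw [M1_pot, rl_root] at h1
  have h2 : ∀ w : Om X S J K RA RB, c.lf w = 1 →
      (c.j : ℝ) ≤ 2 * (c.p.cnt SV cel c.N (fun _ => True) c.e0.A c.e0.B c.e0.kn w : ℝ) := by
    intro w hw
    have h3 := build_code1 c.A c.B c.F c.G c.N c.L h.hLN c.m0 c.r c.m0 c.j c.e0 w rfl hw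
    exact_mod_cast h3
  calc (c.j : ℝ) * (Finset.univ.filter fun w : Om X S J K RA RB => c.lf w = 1).card
      = ∑ w ∈ Finset.univ.filter fun w : Om X S J K RA RB => c.lf w = 1, (c.j : ℝ) := by
        rw [Finset.sum_const, nsmul_eq_mul, mul_comm]
    _ ≤ ∑ w ∈ Finset.univ.filter fun w : Om X S J K RA RB => c.lf w = 1,
          2 * (c.p.cnt SV cel c.N (fun _ => True) c.e0.A c.e0.B c.e0.kn w : ℝ) :=
        Finset.sum_le_sum fun w hw => h2 w (Finset.mem_filter.mp hw).2
    _ ≤ ∑ w : Om X S J K RA RB,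
          2 * (c.p.cnt SV cel c.N (fun _ => True) c.e0.A c.e0.B c.e0.kn w : ℝ) :=
        Finset.sum_le_sum_of_subset_of_nonneg (Finset.filter_subset _ _)
          fun w _ _ => by positivity
    _ = 2 * ∑ w : Om X S J K RA RB,
          (c.p.cnt SV cel c.N (fun _ => True) c.e0.A c.e0.B c.e0.kn w : ℝ) := by
        rw [Finset.mul_sum]
    _ ≤ 2 * (2 * c.N * (2 * (nn J c.n c.m : ℕ) * Fintype.card (Om X S J K RA RB))) :=
        mul_le_mul_of_nonneg_left h1 (by norm_num)
    _ = _ := by ring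

theorem code2_root (h : c.Gd) :
    ((Finset.univ.filter fun w : Om X S J K RA RB => c.lf w = 2).card : ℝ) ≤ 2 * c.H := by
  have h1 := code2_le SV cel c.N c.L (nn J c.n c.m) c.p c.e0.A c.e0.B c.e0.kn (ok_root h)
  rw [gr_root, rl_root, sub_self, zero_add] at h1
  exact h1

theorem code4_root (h : c.Gd) (w : Om X S J K RA RB) : c.lf w ≤ 3 := by
  have h1 := lf_le SV cel c.N c.L (nn J c.n c.m) c.p c.e0.A c.e0.B c.e0.kn (ok_root h) w
  have h2 := code4 SV cel c.N c.L (nn J c.n c.m) c.p c.e0.A c.e0.B c.e0.kn (ok_root h) w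
    (M1_mem w)
  unfold lf
  omega

theorem pay_root (h : c.Gd) :
    ((Finset.univ.filter fun w : Om X S J K RA RB => c.lf w = 0 ∧
        c.outA w.1 (c.fin w).1.st = some (c.outB w.2.1 (c.fin w).2.st)).card : ℝ) ≤
      (Finset.univ.filter fun w : Om X S J K RA RB => c.lf w = 0 ∧
        c.lg w = c.outB w.2.1 (c.fin w).2.st).card +
      c.H + 2 * nn J c.n c.m / c.N * Fintype.card (Om X S J K RA RB) := by
  have hN : 0 < c.N := lt_of_lt_of_le h.hL0 h.hLN
  have h1 := pay_le SV cel M1_cel c.N c.L (nn J c.n c.m) h.hN hN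
    (fun r (s : CS c.A.St S J K) => c.outA r s.st) c.oB c.p c.e0.A c.e0.B
    c.e0.kn M1_gi.lA M1_gi.lB (ok_root h)
  rw [gr_root, rl_root, sub_self, add_zero, Finset.card_univ] at h1
  exact h1

/-! ## Row M2 -/

omit [Fintype X] [Fintype S] in
private theorem M2_hcel (q : Th X S J K) (hq : ¬ cel q) : (SV q).card ≤ 1 := by
  cases q with
  | x x => exact absurd trivial hq
  | s s => exact absurd trivial hq
  | h η => simp [SV]
  | l η j π => simp [SV]

private theorem M2_pot :
    pot SV (nn J c.n c.m) c.e0.A c.e0.B c.e0.kn =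
      2 * (nn J c.n c.m : ℝ) * Fintype.card (Om X S J K RA RB) := by
  have h1 : ∀ w : Om X S J K RA RB,
      (2 * ((nn J c.n c.m : ℕ) : ℝ) - ((c.e0.A.q w.1 w.2.2.1).length : ℝ) -
        ((c.e0.B.q w.2.1 w.2.2.1).length : ℝ) +
      (unl (c.e0.A.q w.1 w.2.2.1) (c.e0.kn.map Prod.fst) : ℝ) +
      (unl (c.e0.B.q w.2.1 w.2.2.1) (c.e0.kn.map Prod.fst) : ℝ)) =
        2 * (nn J c.n c.m : ℝ) := by
    intro w
    simp [e0, env0, unl]
  unfold pot
  rw [Finset.sum_congr rfl fun w _ => h1 w, rl_root, Finset.sum_const, nsmul_eq_mul,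
    Finset.card_univ, mul_comm]

theorem code3_root (h : c.Gd) :
    (c.N3 : ℝ) * (Finset.univ.filter fun w : Om X S J K RA RB => c.lf w = 3 ∧ c.hits w = 0).card ≤
      8 * c.L * nn J c.n c.m * Fintype.card (Om X S J K RA RB) +
      2 * (c.N3 : ℝ) ^ 2 * c.j * (Finset.univ.filter fun w => c.bad w).card := by
  have hN0 : 0 < c.N := lt_of_lt_of_le h.hL0 h.hLN
  have hgi : GI c.n c.m c.e0 := gi_env0 c.A c.B c.iA c.iB
  have h3 := build_t3 (FL := c.FL) (L := c.L) (n := c.n) (m := c.m) c.A c.B c.F c.G h.hF h.hG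
    (fun w => build_nice c.A c.B c.F c.G c.m0 c.N c.L w.2.2.1 c.r c.m0 c.j c.e0 _ _)
    h.hN hN0 h.hN3 h.hN3' c.m0 c.r c.m0 c.j c.e0 hgi
  have hsb : Sb SV c.FL c.p c.e0.A c.e0.B c.e0.kn := by
    intro w _
    refine ⟨?_, ?_, ?_⟩
    · intro d hd
      exact absurd hd (by simp [e0, env0])
    · intro d hd
      exact absurd hd (by simp [e0, env0])
    · intro d hd
      exact hd
  have h4 := h3 hsb
  have h5 := cnt_le SV cel M2_hcel c.N c.L c.L (nn J c.n c.m) (fun d => ¬ cel d) h.hL0 c.p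
    c.e0.A c.e0.B c.e0.kn hgi.lA hgi.lB (ok_root h)
  rw [M2_pot] at h5
  rw [gr_root, rl_root] at h4
  rw [rl_root] at h5
  have h6 : (c.N3 : ℝ) *
      (Finset.univ.filter fun w : Om X S J K RA RB => c.lf w = 3 ∧ c.hits w = 0).card ≤
      2 * ∑ w : Om X S J K RA RB,
        (c.p.cnt SV cel c.L (fun d => ¬ cel d) c.e0.A c.e0.B c.e0.kn w : ℝ) +
      2 * (c.N3 : ℝ) ^ 2 * c.j * (Finset.univ.filter fun w => c.bad w).card := h4
  nlinarith [h5, h6]

/-! ## Row M3.  `bad_le` for each pair of tapes, with `Y` the set of all `.s s` and `k = |K|`; the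
length of `FL` is bounded by `flat_len` and `build_nl`. -/

omit [Fintype X] [Fintype S] in
private theorem M3_upd (s : S) (i : Option J) (u : K) :
    Fintype.card K * ((SV (.s s : Th X S J K)).filter fun v => v i = u).card ≤
      (SV (.s s : Th X S J K)).card := by
  have hall : ∀ v : Option J → K, v ∈ SV (.s s : Th X S J K) := by
    intro v
    simp [SV]
  rw [← Finset.card_univ, ← Finset.card_product]
  refine Finset.card_le_card_of_injOn (fun x => Function.update x.2 i x.1)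
    (fun x _ => hall _) ?_
  intro x hx y hy hxy
  rw [Finset.mem_coe, Finset.mem_product, Finset.mem_filter] at hx hy
  have h1 : Function.update x.2 i x.1 = Function.update y.2 i y.1 := hxy
  have h2 : x.1 = y.1 := by
    have h3 := congrFun h1 i
    rwa [Function.update_self, Function.update_self] at h3
  refine Prod.ext h2 ?_
  funext k
  by_cases hk : k = i
  · rw [hk, hx.2.2, hy.2.2]
  · have h3 := congrFun h1 k
    rwa [Function.update_of_ne hk, Function.update_of_ne hk] at h3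

theorem gK_card (d y : Th X S J K) :
    Fintype.card K * ((SV y).filter fun v => gK d y v).card ≤ (SV y).card := by
  have hempty : (∀ v, ¬ gK d y v) →
      Fintype.card K * ((SV y).filter fun v => gK d y v).card ≤ (SV y).card := by
    intro h
    rw [Finset.filter_false_of_mem (fun v _ => h v), Finset.card_empty, mul_zero]
    exact Nat.zero_le _
  cases y with
  | x x => exact hempty (fun v => by cases d <;> simp [gK])
  | h η => exact hempty (fun v => by cases d <;> simp [gK])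
  | l η j π => exact hempty (fun v => by cases d <;> simp [gK])
  | s s =>
    cases d with
    | x x => exact hempty (fun v => by simp [gK])
    | s s' => exact hempty (fun v => by simp [gK])
    | h η => exact M3_upd s none η
    | l η j π => exact M3_upd s (some j) π

private theorem M3_len (h : c.Gd) (ra : RA) (rb : RB)
    (O : Orc (SV : Th X S J K → Finset (Option J → K))) :
    ((c.p.flat ⟨c.iA ra, [], c.n⟩ ⟨c.iB rb, [], c.n⟩).asked O.1).length ≤
      2 * nn J c.n c.m + c.j * (Fintype.card J + 2) := by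
  have h1 := flat_len SV cel c.N c.L (nn J c.n c.m) c.p c.e0.A c.e0.B c.e0.kn (ok_root h)
    (ra, rb, O) (by rw [rl_root]; exact Finset.mem_univ _)
  have h2 := build_nl c.A c.B c.F c.G c.N c.L c.m0 c.r c.m0 c.j c.e0 (ra, rb, O)
  have h3 : ((c.p.flat ⟨c.iA ra, [], c.n⟩ ⟨c.iB rb, [], c.n⟩).asked O.1).length + 0 + 0 ≤
      2 * nn J c.n c.m + c.p.nl SV c.e0.A c.e0.B c.e0.kn (ra, rb, O) := h1
  have h4 : c.p.nl SV c.e0.A c.e0.B c.e0.kn (ra, rb, O) ≤ c.j * (Fintype.card J + 2) := h2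
  omega

private theorem M3_pair (h : c.Gd) (ra : RA) (rb : RB) :
    Fintype.card K * (Finset.univ.filter fun O : Orc (SV : Th X S J K → Finset (Option J → K)) =>
      c.bad (ra, rb, O)).card ≤
      (2 * nn J c.n c.m + c.j * (Fintype.card J + 2)) * Fintype.card S *
        Fintype.card (Orc (SV : Th X S J K → Finset (Option J → K))) := by
  have hinj : Function.Injective (Th.s : S → Th X S J K) := by
    intro a b hab
    injection hab
  have hcard : ((Finset.univ : Finset S).image (Th.s : S → Th X S J K)).card =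
      Fintype.card S := by
    rw [Finset.card_image_of_injective _ hinj, Finset.card_univ]
  have hY : ∀ (d y : Th X S J K) (v : Option J → K), gK d y v →
      y ∈ (Finset.univ : Finset S).image (Th.s : S → Th X S J K) := by
    intro d y v hg
    cases y with
    | s s => exact Finset.mem_image.2 ⟨s, Finset.mem_univ _, rfl⟩
    | x x => exact absurd hg (by cases d <;> simp [gK])
    | h η => exact absurd hg (by cases d <;> simp [gK])
    | l η j π => exact absurd hg (by cases d <;> simp [gK])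
  have h1 := bad_le (SV : Th X S J K → Finset (Option J → K)) gK (Fintype.card K)
    (2 * nn J c.n c.m + c.j * (Fintype.card J + 2)) _ hY gK_card
    (c.p.flat ⟨c.iA ra, [], c.n⟩ ⟨c.iB rb, [], c.n⟩) (M3_len h ra rb)
  rw [hcard] at h1
  exact h1

theorem bad_root (h : c.Gd) :
    (Fintype.card K : ℝ) * (Finset.univ.filter fun w : Om X S J K RA RB => c.bad w).card ≤
      (2 * nn J c.n c.m + c.j * (Fintype.card J + 2)) * Fintype.card S *
        Fintype.card (Om X S J K RA RB) := by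
  have h1 : (Finset.univ.filter fun w : Om X S J K RA RB => c.bad w).card =
      ∑ ra : RA, ∑ rb : RB, (Finset.univ.filter fun
        O : Orc (SV : Th X S J K → Finset (Option J → K)) => c.bad (ra, rb, O)).card := by
    rw [Finset.card_filter, Fintype.sum_prod_type]
    refine Finset.sum_congr rfl fun ra _ => ?_
    rw [Fintype.sum_prod_type]
    refine Finset.sum_congr rfl fun rb _ => ?_
    rw [Finset.card_filter]
  have h2 : Fintype.card K * (Finset.univ.filter fun w : Om X S J K RA RB => c.bad w).card ≤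
      (2 * nn J c.n c.m + c.j * (Fintype.card J + 2)) * Fintype.card S *
        Fintype.card (Om X S J K RA RB) := by
    rw [h1, Finset.mul_sum]
    calc ∑ ra : RA, Fintype.card K * ∑ rb : RB, (Finset.univ.filter fun
          O : Orc (SV : Th X S J K → Finset (Option J → K)) => c.bad (ra, rb, O)).card
        ≤ ∑ _ra : RA, ∑ _rb : RB, (2 * nn J c.n c.m + c.j * (Fintype.card J + 2)) *
            Fintype.card S *
            Fintype.card (Orc (SV : Th X S J K → Finset (Option J → K))) := by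
          refine Finset.sum_le_sum fun ra _ => ?_
          rw [Finset.mul_sum]
          exact Finset.sum_le_sum fun rb _ => M3_pair h ra rb
      _ = _ := by
          rw [Finset.sum_const, Finset.sum_const, Finset.card_univ, Finset.card_univ,
            Fintype.card_prod, Fintype.card_prod, smul_eq_mul, smul_eq_mul]
          ring
  exact_mod_cast h2

/-! ## Row M4.  The invariant `WE` holds at the root; `build_fa` and `eve_run`. -/

/-- The invariant holds at the root. -/
private theorem M4_we (w : Om X S J K RA RB) : WE c.F c.e0 w [] := by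
  refine ⟨?_, ?_⟩
  · constructor
    · intro d hd; exact absurd hd List.not_mem_nil
    · intro e he; exact absurd he List.not_mem_nil
    · intro e he; exact absurd he List.not_mem_nil
    · intro s hs; exact absurd hs List.not_mem_nil
    · intro s hs; exact absurd hs List.not_mem_nil
    · intro s hs; exact absurd hs List.not_mem_nil
    · intro s hs; exact absurd hs List.not_mem_nil
    · intro d
      constructor
      · intro hd; exact absurd hd List.not_mem_nil
      · rintro (hd | hd | hd)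
        · exact absurd hd List.not_mem_nil
        · exact absurd hd List.not_mem_nil
        · exact absurd hd List.not_mem_nil
    · intro l1 s l2 hl
      have := congrArg List.length hl
      simp at this
    · intro s hs; exact absurd hs List.not_mem_nil
    · intro η e he; exact absurd he (by simp [e0, env0])
    · intro s hs; exact absurd hs List.not_mem_nil
    · intro η j π hs; exact absurd hs List.not_mem_nil
    · intro s hs; exact absurd hs List.not_mem_nil
    · intro s hs; exact absurd hs List.not_mem_nil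
    · intro η o ex r hr; exact absurd hr (by simp [e0, env0])
  · unfold rl
    rw [Finset.mem_filter]
    refine ⟨Finset.mem_univ _, trivial, trivial, ?_⟩
    intro x hx
    exact absurd hx List.not_mem_nil

theorem fa_root (h : c.Gd) (w : Om X S J K RA RB) (h1 : c.hits w = 0) (h2 : c.lf w ≠ 3)
    (h3 : ¬ c.bad w) :
    (c.E (c.ex w).1).run (wd c.F w.2.2.1) = c.lg w ∧
    (c.lf w = 0 → (c.fin w).1.st = (c.ex w).2.1 ∧ (c.fin w).2.st = (c.ex w).2.2) := by
  have hs := exec_spec c.A c.B (wd c.F w.2.2.1) c.r (c.iA w.1) (c.iB w.2.1) c.m0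
  have hA : (c.A.asked (wd c.F w.2.2.1) (c.iA w.1)
      (inbox c.m0 (exec c.A c.B (wd c.F w.2.2.1) c.r (c.iA w.1) (c.iB w.2.1) c.m0).1)).length ≤
      c.n := by
    apply h.hA
    rw [inbox_length, hs.1]
  have hB : (c.B.asked (wd c.F w.2.2.1) (c.iB w.2.1)
      (exec c.A c.B (wd c.F w.2.2.1) c.r (c.iA w.1) (c.iB w.2.1) c.m0).1).length ≤ c.n := by
    apply h.hB
    exact hs.1
  have hQ : Qt c.p c.e0 w [] := ⟨h1, h2, h3⟩
  have hfa := build_fa (N := c.N) (L := c.L) c.A c.B h.hF h.hG h.mono c.m0 c.r c.m0 c.j c.e0 []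
    (gi_env0 c.A c.B c.iA c.iB) (M4_we w) hA hB hQ
  refine ⟨?_, hfa.2⟩
  exact eve_run SV c.oB (wd c.F w.2.2.1) c.p c.e0.A c.e0.B c.e0.kn _ w hfa.1

theorem asked_root (t : List (Mg × Mg)) (ρ : Qry X S J K → Ans J K V) :
    ((c.E t).asked ρ).length ≤ c.j :=
  build_asked c.A c.B c.F c.G c.N c.L c.m0 c.oB ρ c.r c.m0 c.j c.e0 (flat2 t)

/-! ## Row M5.  Let `Exc` be the set of the `w` with `hits w > 0`, or `lf w = 1, 2`, or `lf w = 3`
and `hits w = 0`, or `bad w`.  Outside of `Exc` `lf w = 0` and `fa_root` applies; so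
`#agree ≤ #{lf = 0, agreement at the leaf} + #Exc` and
`#{lf = 0, lg right} ≤ #win + #Exc`. -/

/-- The exceptional executions. -/
private noncomputable def M5_exc (c : Cf X S J K V Mg RA RB I I') : Finset (Om X S J K RA RB) :=
  ((((Finset.univ.filter fun w => 0 < c.hits w) ∪ Finset.univ.filter fun w => c.lf w = 1) ∪
    Finset.univ.filter fun w => c.lf w = 2) ∪
    Finset.univ.filter fun w => c.lf w = 3 ∧ c.hits w = 0) ∪ Finset.univ.filter fun w => c.bad w

private theorem M5_card (c : Cf X S J K V Mg RA RB I I') :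
    ((M5_exc c).card : ℝ) ≤ c.H +
      (Finset.univ.filter fun w : Om X S J K RA RB => c.lf w = 1).card +
      (Finset.univ.filter fun w : Om X S J K RA RB => c.lf w = 2).card +
      (Finset.univ.filter fun w : Om X S J K RA RB => c.lf w = 3 ∧ c.hits w = 0).card +
      (Finset.univ.filter fun w : Om X S J K RA RB => c.bad w).card := by
  have h1 : (((Finset.univ.filter fun w : Om X S J K RA RB => 0 < c.hits w).card : ℕ) : ℝ) ≤
      c.H := by
    rw [Finset.card_filter, Nat.cast_sum, H]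
    refine Finset.sum_le_sum fun w _ => ?_
    split_ifs with hw
    · exact_mod_cast hw
    · simp
  have h2 : ((M5_exc c).card : ℝ) ≤
      (Finset.univ.filter fun w : Om X S J K RA RB => 0 < c.hits w).card +
      (Finset.univ.filter fun w : Om X S J K RA RB => c.lf w = 1).card +
      (Finset.univ.filter fun w : Om X S J K RA RB => c.lf w = 2).card +
      (Finset.univ.filter fun w : Om X S J K RA RB => c.lf w = 3 ∧ c.hits w = 0).card +
      (Finset.univ.filter fun w : Om X S J K RA RB => c.bad w).card := by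
    have h3 : (M5_exc c).card ≤
        (Finset.univ.filter fun w : Om X S J K RA RB => 0 < c.hits w).card +
        (Finset.univ.filter fun w : Om X S J K RA RB => c.lf w = 1).card +
        (Finset.univ.filter fun w : Om X S J K RA RB => c.lf w = 2).card +
        (Finset.univ.filter fun w : Om X S J K RA RB => c.lf w = 3 ∧ c.hits w = 0).card +
        (Finset.univ.filter fun w : Om X S J K RA RB => c.bad w).card := by
      unfold M5_exc
      refine (Finset.card_union_le _ _).trans (Nat.add_le_add_right ?_ _)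
      refine (Finset.card_union_le _ _).trans (Nat.add_le_add_right ?_ _)
      refine (Finset.card_union_le _ _).trans (Nat.add_le_add_right ?_ _)
      exact Finset.card_union_le _ _
    exact_mod_cast h3
  linarith

private theorem M5_not {c : Cf X S J K V Mg RA RB I I'} (h : c.Gd) {w : Om X S J K RA RB}
    (hw : w ∉ M5_exc c) : c.hits w = 0 ∧ c.lf w = 0 ∧ ¬ c.bad w := by
  simp only [M5_exc, Finset.mem_union, Finset.mem_filter, Finset.mem_univ, true_and,
    not_or, not_and] at hw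
  obtain ⟨⟨⟨⟨h1, h2⟩, h3⟩, h4⟩, h5⟩ := hw
  have h0 : c.hits w = 0 := by omega
  have h6 := code4_root h w
  have h7 : c.lf w ≠ 3 := fun h8 => h4 h8 h0
  exact ⟨h0, by omega, h5⟩

private theorem M5_sub {α : Type} (s t u : Finset α) (h : ∀ w ∈ s, w ∉ u → w ∈ t) :
    ((s.card : ℕ) : ℝ) ≤ t.card + u.card := by
  have h1 : s ⊆ t ∪ u := by
    intro w hw
    by_cases hu : w ∈ u
    · exact Finset.mem_union_right _ hu
    · exact Finset.mem_union_left _ (h w hw hu)
  have h2 := (Finset.card_le_card h1).trans (Finset.card_union_le _ _)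
  exact_mod_cast h2

theorem attack_cf (h : c.Gd) :
    ((Finset.univ.filter fun w : Om X S J K RA RB => c.outA w.1 (c.ex w).2.1 =
        some (c.outB w.2.1 (c.ex w).2.2)).card : ℝ) ≤
      (Finset.univ.filter fun w : Om X S J K RA RB =>
        (c.E (c.ex w).1).run (wd c.F w.2.2.1) = c.outB w.2.1 (c.ex w).2.2).card +
      3 * c.H + 2 * nn J c.n c.m / c.N * Fintype.card (Om X S J K RA RB) +
      2 * (Finset.univ.filter fun w : Om X S J K RA RB => c.lf w = 1).card +
      2 * (Finset.univ.filter fun w : Om X S J K RA RB => c.lf w = 2).card +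
      2 * (Finset.univ.filter fun w : Om X S J K RA RB => c.lf w = 3 ∧ c.hits w = 0).card +
      2 * (Finset.univ.filter fun w : Om X S J K RA RB => c.bad w).card := by
  have h1 := M5_card c
  have h2 := pay_root h
  have h3 := M5_sub (Finset.univ.filter fun w : Om X S J K RA RB => c.outA w.1 (c.ex w).2.1 =
        some (c.outB w.2.1 (c.ex w).2.2))
      (Finset.univ.filter fun w : Om X S J K RA RB => c.lf w = 0 ∧
        c.outA w.1 (c.fin w).1.st = some (c.outB w.2.1 (c.fin w).2.st)) (M5_exc c) (by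
    intro w hw hu
    obtain ⟨h4, h5, h6⟩ := M5_not h hu
    obtain ⟨-, h7⟩ := fa_root h w h4 (by omega) h6
    obtain ⟨h8, h9⟩ := h7 h5
    simp only [Finset.mem_filter, Finset.mem_univ, true_and] at hw ⊢
    exact ⟨h5, by rw [h8, h9]; exact hw⟩)
  have h4 := M5_sub (Finset.univ.filter fun w : Om X S J K RA RB => c.lf w = 0 ∧
        c.lg w = c.outB w.2.1 (c.fin w).2.st)
      (Finset.univ.filter fun w : Om X S J K RA RB =>
        (c.E (c.ex w).1).run (wd c.F w.2.2.1) = c.outB w.2.1 (c.ex w).2.2) (M5_exc c) (by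
    intro w hw hu
    obtain ⟨h4, h5, h6⟩ := M5_not h hu
    obtain ⟨h10, h7⟩ := fa_root h w h4 (by omega) h6
    obtain ⟨h8, h9⟩ := h7 h5
    simp only [Finset.mem_filter, Finset.mem_univ, true_and] at hw ⊢
    rw [h10, hw.2, h9])
  linarith

end Cf

/-! ## Row M6.  The numbers: `n' = nn J n m`, `L = 36 n'^2 h`, `N3 = 16 L n' h`, `N = 3 n' N3`,
`j = 16 N n' h = 27648 n'^5 h^3`. -/

variable {X S J K V Mg RA RB I I' : Type} [Fintype X] [Fintype S] [Fintype J] [Fintype K]
  [Nonempty K] [Fintype RA] [Fintype RB]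

private theorem M6_num (ν h Om H c1 c2 c3 bd Jc Sc Kc L N3 N q : ℝ) (hν : 1 ≤ ν) (hJ : Jc + 2 ≤ ν)
    (hJ0 : 0 ≤ Jc) (hh : 1 ≤ h) (hOm : 0 ≤ Om) (hbd : 0 ≤ bd)
    (hS : 0 ≤ Sc) (hK : 1 ≤ Kc) (hL : L = 36 * ν ^ 2 * h) (hN3 : N3 = 16 * L * ν * h)
    (hN : N = 3 * ν * N3) (hq : q = 16 * N * ν * h) (hH : L * H ≤ 4 * ν ^ 2 * Om)
    (h1 : q * c1 ≤ 8 * N * ν * Om) (h2 : c2 ≤ 2 * H)
    (h3 : N3 * c3 ≤ 8 * L * ν * Om + 2 * N3 ^ 2 * q * bd)
    (hb : Kc * bd ≤ (2 * ν + q * (Jc + 2)) * Sc * Om) :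
    3 * H + 2 * ν / N * Om + 2 * c1 + 2 * c2 + 2 * c3 + 2 * bd ≤
      (3 / h + (27648 * ν ^ 5 * h ^ 3) ^ 4 * Sc / (2 * Kc)) * Om := by
  have hν0 : 0 < ν := by linarith
  have hh0 : 0 < h := by linarith
  have hK0 : 0 < Kc := by linarith
  have hLpos : 0 < L := by rw [hL]; positivity
  have hN3pos : 0 < N3 := by rw [hN3]; positivity
  have hNpos : 0 < N := by rw [hN]; positivity
  have hqpos : 0 < q := by rw [hq]; positivity
  have hqe : q = 27648 * ν ^ 5 * h ^ 3 := by rw [hq, hN, hN3, hL]; ring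
  have hNe : N = 1728 * ν ^ 4 * h ^ 2 := by rw [hN, hN3, hL]; ring
  have hN3e : N3 = 576 * ν ^ 3 * h ^ 2 := by rw [hN3, hL]; ring
  have a1 : H ≤ Om / (9 * h) := by
    rw [le_div_iff₀ (by positivity)]
    have : (4 * ν ^ 2) * (H * (9 * h)) ≤ (4 * ν ^ 2) * Om := by
      rw [hL] at hH; nlinarith [hH]
    exact le_of_mul_le_mul_left this (by positivity)
  have a2 : c1 ≤ Om / (2 * h) := by
    rw [le_div_iff₀ (by positivity)]
    have : (8 * N * ν) * (c1 * (2 * h)) ≤ (8 * N * ν) * Om := by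
      rw [hq] at h1; nlinarith [h1]
    exact le_of_mul_le_mul_left this (by positivity)
  have a3 : c3 ≤ Om / (2 * h) + 2 * N3 * q * bd := by
    have : N3 * c3 ≤ N3 * (Om / (2 * h) + 2 * N3 * q * bd) := by
      have e : N3 * (Om / (2 * h) + 2 * N3 * q * bd) = 8 * L * ν * Om + 2 * N3 ^ 2 * q * bd := by
        have e2 : N3 * (Om / (2 * h)) = 8 * L * ν * Om := by
          rw [hN3]; field_simp; ring
        rw [mul_add, e2]; ring
      rw [e]; exact h3
    exact le_of_mul_le_mul_left this hN3pos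
  have p1 : 1 ≤ ν ^ 3 * h := one_le_mul_of_one_le_of_one_le (one_le_pow₀ hν) hh
  have a4 : 2 * ν / N * Om ≤ Om / (864 * h) := by
    have : 2 * ν / N ≤ 1 / (864 * h) := by
      rw [div_le_div_iff₀ hNpos (by positivity), hNe]
      have e : 1 * (1728 * ν ^ 4 * h ^ 2) - 2 * ν * (864 * h) = 1728 * ν * h * (ν ^ 3 * h - 1) := by
        ring
      have : 0 ≤ 1728 * ν * h * (ν ^ 3 * h - 1) :=
        mul_nonneg (by positivity) (by linarith)
      linarith
    calc 2 * ν / N * Om ≤ 1 / (864 * h) * Om := mul_le_mul_of_nonneg_right this hOm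
      _ = Om / (864 * h) := by ring
  have b1 : ν ≤ q / 27648 := by
    rw [hqe]
    have : 1 ≤ ν ^ 4 * h ^ 3 := one_le_mul_of_one_le_of_one_le (one_le_pow₀ hν) (one_le_pow₀ hh)
    have e : 27648 * ν ^ 5 * h ^ 3 / 27648 = ν * (ν ^ 4 * h ^ 3) := by ring
    rw [e]
    exact le_mul_of_one_le_right hν0.le this
  have b2 : N3 ≤ q / 48 := by
    rw [hqe, hN3e]
    have : 1 ≤ ν ^ 2 * h := one_le_mul_of_one_le_of_one_le (one_le_pow₀ hν) hh
    have e : 27648 * ν ^ 5 * h ^ 3 / 48 = 576 * ν ^ 3 * h ^ 2 * (ν ^ 2 * h) := by ring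
    rw [e]
    exact le_mul_of_one_le_right (by positivity) this
  have b3 : 1 ≤ q := by
    have : (27648 : ℝ) * 1 ≤ q := by
      have := mul_le_mul_of_nonneg_left (hν.trans b1) (by norm_num : (0 : ℝ) ≤ 27648)
      linarith
    linarith
  have b4 : 4 * N3 * q + 2 ≤ 3 * q ^ 2 := by
    have c1 : 4 * N3 * q ≤ 4 * (q / 48) * q := by
      apply mul_le_mul_of_nonneg_right _ hqpos.le
      linarith
    nlinarith [one_le_pow₀ b3 (n := 2)]
  have b5 : 2 * ν + q * (Jc + 2) ≤ q ^ 2 / 6 := by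
    have c1 : q * (Jc + 2) ≤ q * (q / 27648) :=
      mul_le_mul_of_nonneg_left (hJ.trans b1) hqpos.le
    have c2 : 2 * ν ≤ 2 * (q / 27648) := by linarith
    have c3 : q ≤ q ^ 2 := by nlinarith
    nlinarith
  have b6 : bd ≤ q ^ 2 / 6 * Sc * Om / Kc := by
    rw [le_div_iff₀ hK0, mul_comm]
    refine hb.trans ?_
    exact mul_le_mul_of_nonneg_right (mul_le_mul_of_nonneg_right b5 hS) hOm
  have b7 : (4 * N3 * q + 2) * bd ≤ q ^ 4 * Sc / (2 * Kc) * Om := by
    calc (4 * N3 * q + 2) * bd ≤ (3 * q ^ 2) * (q ^ 2 / 6 * Sc * Om / Kc) :=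
          mul_le_mul b4 b6 hbd (by positivity)
      _ = q ^ 4 * Sc / (2 * Kc) * Om := by field_simp; ring
  have a5 : 3 * H + 2 * ν / N * Om + 2 * c1 + 2 * c2 + 2 * c3 + 2 * bd ≤
      (3 * (Om / (9 * h)) + Om / (864 * h) + 2 * (Om / (2 * h)) + 4 * (Om / (9 * h)) +
        2 * (Om / (2 * h))) + (4 * N3 * q + 2) * bd := by
    linarith
  have a6 : 3 * (Om / (9 * h)) + Om / (864 * h) + 2 * (Om / (2 * h)) + 4 * (Om / (9 * h)) +
        2 * (Om / (2 * h)) ≤ 3 / h * Om := by
    have e : 3 / h * Om - (3 * (Om / (9 * h)) + Om / (864 * h) + 2 * (Om / (2 * h)) +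
        4 * (Om / (9 * h)) + 2 * (Om / (2 * h))) = (191 / 864) * (Om / h) := by
      field_simp; ring
    have : 0 ≤ (191 / 864) * (Om / h) := by positivity
    linarith
  rw [← hqe]
  calc _ ≤ _ := a5
    _ ≤ 3 / h * Om + q ^ 4 * Sc / (2 * Kc) * Om := add_le_add a6 b7
    _ = _ := by ring

theorem attack_nbb (A : Party (Qry X S J K) (Ans J K V) Mg I)
    (B : Party (Qry X S J K) (Ans J K V) Mg I') (F : S → Finset J → Comp X K V)
    (G : V → Finset J → Comp X K V) (m0 : Mg) (iA : RA → A.St) (iB : RB → B.St)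
    (outA : RA → A.St → Option Bool) (outB : RB → B.St → Bool) (n m h r : ℕ) (hn : 0 < n)
    (hh : 0 < h) (hF : ∀ f s A, ((F s A).asked f).length ≤ m)
    (hG : ∀ f v A, ((G v A).asked f).length ≤ m)
    (mono : ∀ f s A B, A ⊆ B → (G ((F s B).run f) A).run f = (F s A).run f)
    (hA : ∀ (O : Th X S J K → Option J → K) (ra : RA) (l : List (Mg × Mg)), l.length = r →
      (A.asked (wd F O) (iA ra) l).length ≤ n)
    (hB : ∀ (O : Th X S J K → Option J → K) (rb : RB) (l : List (Mg × Mg)), l.length = r →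
      (B.asked (wd F O) (iB rb) l).length ≤ n) :
    ∃ E : List (Mg × Mg) → Comp (Qry X S J K) (Ans J K V) Bool,
      (∀ t ρ, ((E t).asked ρ).length ≤ 27648 * nn J n m ^ 5 * h ^ 3) ∧
      ((Finset.univ.filter fun w : Cf.Om X S J K RA RB =>
          outA w.1 (exec A B (wd F w.2.2.1) r (iA w.1) (iB w.2.1) m0).2.1 =
          some (outB w.2.1 (exec A B (wd F w.2.2.1) r (iA w.1) (iB w.2.1) m0).2.2)).card : ℝ) ≤
        (Finset.univ.filter fun w : Cf.Om X S J K RA RB =>
          (E (exec A B (wd F w.2.2.1) r (iA w.1) (iB w.2.1) m0).1).run (wd F w.2.2.1) =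
          outB w.2.1 (exec A B (wd F w.2.2.1) r (iA w.1) (iB w.2.1) m0).2.2).card +
        (3 / h + (27648 * (nn J n m : ℝ) ^ 5 * h ^ 3) ^ 4 * Fintype.card S /
          (2 * Fintype.card K)) * Fintype.card (Cf.Om X S J K RA RB) := by
  have hn1 : 1 ≤ nn J n m := by
    unfold nn
    exact Nat.one_le_iff_ne_zero.2 (by positivity)
  have hJn : Fintype.card J + 2 ≤ nn J n m := by
    unfold nn
    calc Fintype.card J + 2 = 1 * (Fintype.card J + 2) * 1 := by ring
      _ ≤ n * (Fintype.card J + 2) * (m + 1) :=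
        Nat.mul_le_mul (Nat.mul_le_mul_right _ hn) (by omega)
  obtain ⟨ν, hνe⟩ : ∃ ν, ν = nn J n m := ⟨_, rfl⟩
  rw [← hνe] at hn1 hJn
  obtain ⟨L, hL⟩ : ∃ L, L = 36 * ν ^ 2 * h := ⟨_, rfl⟩
  obtain ⟨N3, hN3⟩ : ∃ N3, N3 = 16 * L * ν * h := ⟨_, rfl⟩
  obtain ⟨N, hN⟩ : ∃ N, N = 3 * ν * N3 := ⟨_, rfl⟩
  obtain ⟨j, hj⟩ : ∃ j, j = 16 * N * ν * h := ⟨_, rfl⟩
  have hLpos : 0 < L := by rw [hL]; positivity
  have hνL : ν ≤ L := by
    rw [hL]
    calc ν = 1 * (1 * ν) * 1 := by ring
      _ ≤ 36 * (ν * ν) * h := Nat.mul_le_mul (Nat.mul_le_mul (by norm_num)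
        (Nat.mul_le_mul_right _ hn1)) hh
      _ = 36 * ν ^ 2 * h := by ring
  have hLN3 : 16 * L ≤ N3 := by
    rw [hN3]
    calc 16 * L = 16 * L * 1 * 1 := by ring
      _ ≤ 16 * L * ν * h := Nat.mul_le_mul (Nat.mul_le_mul_left _ hn1) hh
  have hN3N : 3 * N3 ≤ N := by
    rw [hN]
    calc 3 * N3 = 3 * 1 * N3 := by ring
      _ ≤ 3 * ν * N3 := Nat.mul_le_mul_right _ (Nat.mul_le_mul_left _ hn1)
  let c : Cf X S J K V Mg RA RB I I' :=
    ⟨A, B, F, G, m0, iA, iB, outA, outB, n, m, N3, N, L, j, r⟩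
  have hg : c.Gd := by
    refine ⟨hF, hG, mono, hA, hB, ?_, hLpos, ?_, ?_, ?_⟩
    · change 4 * nn J n m ≤ N
      rw [← hνe]; omega
    · change L ≤ N
      omega
    · change 0 < N3
      omega
    · change 8 * nn J n m * N3 ≤ 3 * N
      rw [← hνe, hN]
      calc 8 * ν * N3 ≤ 9 * ν * N3 :=
            Nat.mul_le_mul_right _ (Nat.mul_le_mul_right _ (by norm_num))
        _ = 3 * (3 * ν * N3) := by ring
  have key := Cf.attack_cf hg
  have e1 := Cf.hits_root hg
  have e2 := Cf.code1_root hg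
  have e3 := Cf.code2_root hg
  have e4 := Cf.code3_root hg
  have e5 := Cf.bad_root hg
  change _ ≤ 4 * (nn J n m : ℝ) ^ 2 * _ at e1
  change (L : ℝ) * _ ≤ _ at e1
  change (j : ℝ) * _ ≤ 8 * (N : ℝ) * (nn J n m : ℝ) * _ at e2
  change (N3 : ℝ) * _ ≤ 8 * (L : ℝ) * (nn J n m : ℝ) * _ + 2 * (N3 : ℝ) ^ 2 * (j : ℝ) * _ at e4
  change _ ≤ (2 * (nn J n m : ℝ) + (j : ℝ) * (Fintype.card J + 2)) * _ * _ at e5
  refine ⟨c.E, fun t ρ => (Cf.asked_root (c := c) t ρ).trans (le_of_eq ?_), ?_⟩
  · change j = _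
    rw [hj, hN, hN3, hL, ← hνe]
    ring
  · have hnum := M6_num (nn J n m : ℝ) (h : ℝ) (Fintype.card (Cf.Om X S J K RA RB) : ℝ) c.H
      _ _ _ _ (Fintype.card J : ℝ) (Fintype.card S : ℝ) (Fintype.card K : ℝ) (L : ℝ) (N3 : ℝ)
      (N : ℝ) (j : ℝ) (by rw [← hνe]; exact_mod_cast hn1) (by rw [← hνe]; exact_mod_cast hJn)
      (Nat.cast_nonneg _) (by exact_mod_cast hh) (Nat.cast_nonneg _) (Nat.cast_nonneg _)
      (Nat.cast_nonneg _) (by exact_mod_cast Fintype.card_pos) (by rw [hL, ← hνe]; push_cast; ring)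
      (by rw [hN3, ← hνe]; push_cast; ring) (by rw [hN, ← hνe]; push_cast; ring)
      (by rw [hj, ← hνe]; push_cast; ring) e1 e2 e3 e4 e5
    refine key.trans ?_
    rw [add_assoc, add_assoc, add_assoc, add_assoc, add_assoc]
    refine add_le_add_right ?_ _
    refine le_trans (le_of_eq ?_) hnum
    ring

end Pool.Agent.Nbb
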