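import Pool.Agent.Lib.MP_ae38e0_lc.Nbb.Inv

set_option autoImplicit false

/-!
# The process fulfils the conditions `Ok` (rows O1 - O4)
-/

namespace Pool.Agent.Nbb

open Pool.Agent.LinOT Classical

variable {X S J K V Mg StA StB RA RB : Type} [Finite X] [Finite S] [Fintype J] [Finite K]
  [Nonempty K] [Fintype RA] [Fintype RB]

/-- The conditions with the numbers used here. -/
def OkE (N L n m : ℕ) (p : PT X S J K V Mg StA StB) (e : Env X S J K V StA StB RA RB) : Prop :=
  p.Ok SV cel N L (nn J n m) e.A e.B e.kn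

variable {N L n m : ℕ} {e : Env X S J K V StA StB RA RB}

/-! ## Row O1 -/

theorem lt_of_not_hv (N : ℕ) (D : Th X S J K → Prop)
    (h : ¬ ∃ d, D d ∧ Hv SV cel N e.A e.B e.kn d) : Lt SV cel N D e.A e.B e.kn := by
  intro d hD hd
  have h1 : ¬ ((gp SV cel e.A e.B e.kn).card ≤
      N * (tA SV cel e.A e.B e.kn d + tB SV cel e.A e.B e.kn d)) :=
    fun hh => h ⟨d, hD, hd, hh⟩
  rw [not_le, Nat.mul_add] at h1
  constructor <;> omega

/-- A leaf which is not reached is fine. -/
private theorem O1_stop4 {A' : Sd (Th X S J K) (Option J → K) (CS StA S J K) RA}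
    {B' : Sd (Th X S J K) (Option J → K) (CS StB S J K) RB}
    {kn : List (Th X S J K × (Option J → K))} (hA : Bd SV (nn J n m) A' kn)
    (hB : Bd SV (nn J n m) B' kn) (hr : rl SV A' B' kn = ∅) :
    (.stop 4 : PT X S J K V Mg StA StB).Ok SV cel N L (nn J n m) A' B' kn :=
  ⟨hA, hB, fun h4 => absurd h4 (by decide), fun h4 => absurd h4 (by decide), fun _ => hr, le_refl _⟩

/-- A leaf is fine if its code is 1 or 3. -/
theorem ok_stop (h : GI n m e) (k : ℕ) (hk : k = 1 ∨ k = 3) :
    OkE N L n m (.stop k : PT X S J K V Mg StA StB) e :=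
  ⟨gi_bdA h, gi_bdB h, fun h4 => by omega, fun h4 => by omega, fun h4 => by omega, by omega⟩

/-- A leaf which is not reached is fine. -/
theorem ok_stop4 (h : GI n m e) (hr : rl SV e.A e.B e.kn = ∅) :
    OkE N L n m (.stop 4 : PT X S J K V Mg StA StB) e :=
  O1_stop4 (gi_bdA h) (gi_bdB h) hr

theorem knowL_ok (l : List (Th X S J K))
    (cont : Env X S J K V StA StB RA RB → PT X S J K V Mg StA StB) :
    ∀ e : Env X S J K V StA StB RA RB,
      (∀ l', l'.map Prod.fst = l → OkE N L n m (cont (e.knas l')) (e.knas l')) →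
      OkE N L n m (knowL l e cont) e := by
  induction l with
  | nil =>
    intro e hc
    have h1 := hc [] rfl
    have h2 : e.knas [] = e := by
      unfold Env.knas
      rw [List.append_nil]
    rw [h2] at h1
    exact h1
  | cons d l ih =>
    intro e hc v _
    refine ih (e.kna d v) ?_
    intro l' hl'
    have h1 := hc ((d, v) :: l') (by rw [List.map_cons, hl'])
    have h2 : (e.kna d v).knas l' = e.knas ((d, v) :: l') := by
      unfold Env.knas Env.kna
      rw [List.append_assoc, List.singleton_append]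
    rw [h2]
    exact h1

theorem cellStep_ok (q : Th X S J K) (hq : cel q)
    (cont : Env X S J K V StA StB RA RB → PT X S J K V Mg StA StB) (h : GI n m e)
    (hc : ∀ e' : Env X S J K V StA StB RA RB, GI n m e' → OkE N L n m (cont e') e') :
    OkE N L n m (cellStep e q cont) e := by
  cases q with
  | x x =>
    intro v _
    exact hc (e.kna (.x x) v) (gi_x h x v)
  | s s =>
    intro v _
    exact knowL_ok (items v) cont ((e.kna (.s s) v).setTr s v)
      (fun l hl => hc _ (gi_s h s v l hl))
  | h η => exact absurd hq (fun hh => hh)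
  | l η j π => exact absurd hq (fun hh => hh)

omit [Finite X] [Finite S] [Finite K] [Nonempty K] in
/-- the evaluation by the owner touches only cells -/
private theorem O1_leak_cel {St : Type} (F : S → Finset J → Comp X K V) (η : K)
    (ex : J → Option K) (c : CS St S J K) (O : Th X S J K → Option J → K) :
    ∀ d ∈ (leakC F η ex c : Comp _ _ (_ × Pb Mg V)).asked O, cel d := by
  intro d hd
  unfold leakC at hd
  split at hd
  · rw [Comp.asked_bind, asked_lift] at hd
    rcases List.mem_append.1 hd with h1 | h1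
    · obtain ⟨x, -, rfl⟩ := List.mem_map.1 h1
      exact trivial
    · exact absurd h1 (by simp)
  · exact absurd hd (by simp)

omit [Finite X] [Finite S] [Finite K] [Nonempty K] in
/-- the result of the evaluation by the owner is a leaked value -/
private theorem O1_leak_lk {St : Type} (F : S → Finset J → Comp X K V) (η : K)
    (ex : J → Option K) (c : CS St S J K) (O : Th X S J K → Option J → K) :
    ∃ r, ((leakC F η ex c : Comp _ _ (_ × Pb Mg V)).run O).2 = .lk r := by
  unfold leakC
  split
  · exact ⟨_, by rw [Comp.run_bind]; rfl⟩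
  · exact ⟨none, rfl⟩

/-- Row O2. -/
theorem leakStep_ok (F : S → Finset J → Comp X K V)
    (hF : ∀ f s A, ((F s A).asked f).length ≤ m) (η : K)
    (cont : Env X S J K V StA StB RA RB → PT X S J K V Mg StA StB) (h : GI n m e)
    (hp : e.pend = some η) (hL : Lt SV cel N cel e.A e.B e.kn)
    (hc : ∀ e' : Env X S J K V StA StB RA RB, GI n m e' → OkE N L n m (cont e') e') :
    OkE N L n m (leakStep F e η cont) e := by
  unfold leakStep
  split
  · next ex r0 hT =>
    refine ⟨Or.inr ⟨hL, Or.inr fun st O => O1_leak_cel F η ex st O,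
      gi_bd_leakA F hF h η ex ⟨η, ex, r0, hp, hT⟩, gi_bdB h⟩, ?_⟩
    intro b
    have hno : ∀ b' : Pb Mg V, (∀ r, b' ≠ .lk r) →
        (.stop 4 : PT X S J K V Mg StA StB).Ok SV cel N L (nn J n m)
          (e.A.upd (leakC F η ex) b') e.B e.kn := by
      intro b' hb'
      have hP : ∀ r O, ¬ (e.A.upd (leakC F η ex) b').P r O := by
        rintro r O ⟨-, h2⟩
        obtain ⟨r', hr'⟩ := O1_leak_lk (Mg := Mg) F η ex (e.A.s r O) O
        rw [hr'] at h2
        exact hb' r' h2.symm
      refine O1_stop4 ?_ (gi_bdB h) ?_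
      · intro p hp'
        rw [mem_sup] at hp'
        exact absurd hp'.1 (hP _ _)
      · refine Finset.eq_empty_of_forall_notMem fun w hw => ?_
        rw [mem_rl] at hw
        exact hP _ _ hw.1
    match b with
    | .lk r => exact hc _ (gi_leakA F hF h η ex r0 r (.lk r) hp hT)
    | .msg x => exact hno _ (fun r => by simp)
    | .bit x => exact hno _ (fun r => by simp)
  · next ex r0 hT =>
    refine ⟨Or.inr ⟨hL, Or.inr fun st O => O1_leak_cel F η ex st O, gi_bdA h,
      gi_bd_leakB F hF h η ex ⟨η, ex, r0, hp, hT⟩⟩, ?_⟩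
    intro b
    have hno : ∀ b' : Pb Mg V, (∀ r, b' ≠ .lk r) →
        (.stop 4 : PT X S J K V Mg StA StB).Ok SV cel N L (nn J n m)
          e.A (e.B.upd (leakC F η ex) b') e.kn := by
      intro b' hb'
      have hP : ∀ r O, ¬ (e.B.upd (leakC F η ex) b').P r O := by
        rintro r O ⟨-, h2⟩
        obtain ⟨r', hr'⟩ := O1_leak_lk (Mg := Mg) F η ex (e.B.s r O) O
        rw [hr'] at h2
        exact hb' r' h2.symm
      refine O1_stop4 (gi_bdA h) ?_ ?_
      · intro p hp'
        rw [mem_sup] at hp'
        exact absurd hp'.1 (hP _ _)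
      · refine Finset.eq_empty_of_forall_notMem fun w hw => ?_
        rw [mem_rl] at hw
        exact hP _ _ hw.2.1
    match b with
    | .lk r => exact hc _ (gi_leakB F hF h η ex r0 r (.lk r) hp hT)
    | .msg x => exact hno _ (fun r => by simp)
    | .bit x => exact hno _ (fun r => by simp)
  · next hT =>
    exact hc _ (gi_leak0 h)

private theorem O3_rlA (Z : Sd (Th X S J K) (Option J → K) (CS StA S J K) RA)
    (Y : Sd (Th X S J K) (Option J → K) (CS StB S J K) RB)
    (kn : List (Th X S J K × (Option J → K)))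
    (c : CS StA S J K → Comp (Th X S J K) (Option J → K) (CS StA S J K × Pb Mg V)) (b : Pb Mg V)
    (h : ∀ st O, ((c st).run O).2 ≠ b) : rl SV (Z.upd c b) Y kn = ∅ := by
  apply Finset.eq_empty_of_forall_notMem
  intro w hw
  unfold rl at hw
  rw [Finset.mem_filter] at hw
  exact h _ _ hw.2.1.2

private theorem O3_rlB (Z : Sd (Th X S J K) (Option J → K) (CS StA S J K) RA)
    (Y : Sd (Th X S J K) (Option J → K) (CS StB S J K) RB)
    (kn : List (Th X S J K × (Option J → K)))
    (c : CS StB S J K → Comp (Th X S J K) (Option J → K) (CS StB S J K × Pb Mg V)) (b : Pb Mg V)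
    (h : ∀ st O, ((c st).run O).2 ≠ b) : rl SV Z (Y.upd c b) kn = ∅ := by
  apply Finset.eq_empty_of_forall_notMem
  intro w hw
  unfold rl at hw
  rw [Finset.mem_filter] at hw
  exact h _ _ hw.2.2.1.2

omit [Finite X] [Finite S] [Finite K] [Nonempty K] in
private theorem O3_ownH {St : Type} {η : K} {c : CS St S J K} (h : ownH η c = true) :
    ∃ u ∈ c.own, (.h η : Th X S J K) ∈ items u.2 := by
  unfold ownH at h
  obtain ⟨u, hu⟩ := Option.isSome_iff_exists.1 h
  obtain ⟨h1, h2⟩ := lkup_some hu
  exact ⟨u, h1, mem_items.2 (Or.inl (by rw [h2]))⟩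

omit [Finite X] [Finite S] [Finite K] [Nonempty K] in
private theorem O3_ownL {St : Type} {η : K} {j : J} {π : K} {c : CS St S J K}
    (h : ownL η j π c = true) : ∃ u ∈ c.own, (.l η j π : Th X S J K) ∈ items u.2 := by
  unfold ownL at h
  rcases hl : lkup c.own η with _ | u
  · rw [hl] at h
    exact absurd h (by simp)
  · rw [hl] at h
    obtain ⟨h1, h2⟩ := lkup_some hl
    have h3 : u.2 (some j) = π := of_decide_eq_true h
    exact ⟨u, h1, mem_items.2 (Or.inr ⟨j, by rw [h2, h3]⟩)⟩

private theorem O3_supH (Z : Sd (Th X S J K) (Option J → K) (CS StA S J K) RA)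
    (kn : List (Th X S J K × (Option J → K))) (η : K) :
    ∀ p ∈ sup SV (Z.upd (bitH η : CS StA S J K → Comp (Th X S J K) (Option J → K)
        (CS StA S J K × Pb Mg V)) (.bit true)) kn,
      ∃ u ∈ (Z.s p.1 p.2.1).own, (.h η : Th X S J K) ∈ items u.2 := by
  intro p hp
  unfold sup at hp
  rw [Finset.mem_filter] at hp
  have h1 : (Pb.bit (ownH η (Z.s p.1 p.2.1)) : Pb Mg V) = .bit true := hp.2.1.2
  exact O3_ownH (Pb.bit.inj h1)

private theorem O3_if {c : Prop} [Decidable c] {p q : PT X S J K V Mg StA StB}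
    (hp : c → OkE N L n m p e) (hq : ¬ c → OkE N L n m q e) :
    OkE N L n m (if c then p else q) e := by
  by_cases h : c
  · rw [if_pos h]
    exact hp h
  · rw [if_neg h]
    exact hq h

private theorem O3_supL (Z : Sd (Th X S J K) (Option J → K) (CS StA S J K) RA)
    (kn : List (Th X S J K × (Option J → K))) (η : K) (j : J) (π : K) :
    ∀ p ∈ sup SV (Z.upd (bitL η j π : CS StA S J K → Comp (Th X S J K) (Option J → K)
        (CS StA S J K × Pb Mg V)) (.bit true)) kn,
      ∃ u ∈ (Z.s p.1 p.2.1).own, (.l η j π : Th X S J K) ∈ items u.2 := by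
  intro p hp
  unfold sup at hp
  rw [Finset.mem_filter] at hp
  have h1 : (Pb.bit (ownL η j π (Z.s p.1 p.2.1)) : Pb Mg V) = .bit true := hp.2.1.2
  exact O3_ownL (Pb.bit.inj h1)

/-- Row O3. -/
theorem handleStep_ok (η : K)
    (cont : Env X S J K V StA StB RA RB → PT X S J K V Mg StA StB) (h : GI n m e)
    (hp : e.pend = none) (hη : .h η ∉ e.kn.map Prod.fst)
    (hc : ∀ e' : Env X S J K V StA StB RA RB, GI n m e' → OkE N L n m (cont e') e') :
    OkE N L n m (handleStep e η cont) e := by
  intro v _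
  have h1 : GI n m (e.kna (.h η) v) := gi_item h (.h η) (fun h => h) v
  refine ⟨Or.inl fun st O => rfl, ?_⟩
  intro m1
  refine ⟨Or.inl fun st O => rfl, ?_⟩
  intro m2
  have h2 : GI n m (((e.kna (.h η) v).upA (bitH η) m1).upB (bitH η) m2) :=
    gi_bitB (gi_bitA h1 η m1) η m2
  have hkn : (.h η : Th X S J K) ∈
      (((e.kna (.h η) v).upA (bitH η) m1).upB (bitH η) m2).kn.map Prod.fst := by
    show (.h η : Th X S J K) ∈ (e.kn ++ [((.h η : Th X S J K), v)]).map Prod.fst
    rw [List.map_append, List.mem_append]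
    exact Or.inr (List.mem_singleton.2 rfl)
  have hpA : (.h η : Th X S J K) ∉ e.pA := fun hin => hη (h.wA _ hin)
  have hpB : (.h η : Th X S J K) ∉ e.pB := fun hin => hη (h.wB _ hin)
  have hmA : ∀ b : Pb Mg V, (∀ x : Bool, b ≠ .bit x) → m1 = b →
      rl SV (((e.kna (.h η) v).upA (bitH η) m1).upB (bitH η) m2).A
        (((e.kna (.h η) v).upA (bitH η) m1).upB (bitH η) m2).B
        (((e.kna (.h η) v).upA (bitH η) m1).upB (bitH η) m2).kn = ∅ := by
    intro b hb hm
    refine O3_rlA _ _ _ _ _ ?_
    intro st O heq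
    exact hb (ownH η st) (hm ▸ heq.symm)
  have hmB : ∀ b : Pb Mg V, (∀ x : Bool, b ≠ .bit x) → m2 = b →
      rl SV (((e.kna (.h η) v).upA (bitH η) m1).upB (bitH η) m2).A
        (((e.kna (.h η) v).upA (bitH η) m1).upB (bitH η) m2).B
        (((e.kna (.h η) v).upA (bitH η) m1).upB (bitH η) m2).kn = ∅ := by
    intro b hb hm
    refine O3_rlB _ _ _ _ _ ?_
    intro st O heq
    exact hb (ownH η st) (hm ▸ heq.symm)
  rcases m1 with x1 | b1 | r1
  · have hst := ok_stop4 (N := N) (L := L) (Mg := Mg) (V := V) h2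
      (hmA (.msg x1) (fun x hx => by cases hx) rfl)
    rcases m2 with x2 | b2 | r2
    · exact hst
    · exact hst
    · exact hst
  · rcases m2 with x2 | b2 | r2
    · have hst := ok_stop4 (N := N) (L := L) (Mg := Mg) (V := V) h2
        (hmB (.msg x2) (fun x hx => by cases hx) rfl)
      cases b1
      · exact hst
      · exact hst
    · have h3 := ok_stop (N := N) (L := L) (Mg := Mg) (V := V) h2 3 (Or.inr rfl)
      cases b1
      · cases b2
        · exact hc _ h2
        · refine O3_if (c := des e η) (fun _ => h3) (fun _ => ?_)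
          refine hc _ (gi_confB h2 η (.h η) _ hkn hpB hp ?_)
          exact O3_supH _ _ η
      · cases b2
        · refine O3_if (c := des e η) (fun _ => ?_) (fun _ => h3)
          refine hc _ (gi_confA h2 η (.h η) _ hkn hpA hp ?_)
          exact O3_supH _ _ η
        · exact h3
    · have hst := ok_stop4 (N := N) (L := L) (Mg := Mg) (V := V) h2
        (hmB (.lk r2) (fun x hx => by cases hx) rfl)
      cases b1
      · exact hst
      · exact hst
  · have hst := ok_stop4 (N := N) (L := L) (Mg := Mg) (V := V) h2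
      (hmA (.lk r1) (fun x hx => by cases hx) rfl)
    rcases m2 with x2 | b2 | r2
    · exact hst
    · exact hst
    · exact hst

theorem labelStep_ok (η : K) (j : J) (π : K)
    (cont : Env X S J K V StA StB RA RB → PT X S J K V Mg StA StB) (h : GI n m e)
    (hp : e.pend = none) (hη : .l η j π ∉ e.kn.map Prod.fst)
    (hc : ∀ e' : Env X S J K V StA StB RA RB, GI n m e' → OkE N L n m (cont e') e') :
    OkE N L n m (labelStep e η j π cont) e := by
  intro v _
  have h1 : GI n m (e.kna (.l η j π) v) := gi_item h (.l η j π) (fun h => h) v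
  have hkn : (.l η j π : Th X S J K) ∈ (e.kna (.l η j π) v).kn.map Prod.fst := by
    show (.l η j π : Th X S J K) ∈ (e.kn ++ [((.l η j π : Th X S J K), v)]).map Prod.fst
    rw [List.map_append, List.mem_append]
    exact Or.inr (List.mem_singleton.2 rfl)
  have hpA : (.l η j π : Th X S J K) ∉ e.pA := fun hin => hη (h.wA _ hin)
  have hpB : (.l η j π : Th X S J K) ∉ e.pB := fun hin => hη (h.wB _ hin)
  rcases htr : e.T.tr η with _ | y
  · rcases hpr : e.T.pr η with _ | ⟨o, ex, r⟩
    · simp only
      exact hc _ h1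
    · cases o
      · simp only
        refine ⟨Or.inl fun st O => rfl, ?_⟩
        intro b
        have h2 : GI n m ((e.kna (.l η j π) v).upB (bitL η j π) b) := gi_bitLB h1 η j π b
        rcases b with x | b | r'
        · refine ok_stop4 (N := N) (L := L) (Mg := Mg) (V := V) h2 (O3_rlB _ _ _ _ _ ?_)
          intro st O heq
          cases heq
        · cases b
          · exact hc _ h2
          · refine hc _ (gi_confB h2 η (.l η j π) _ hkn hpB hp ?_)
            exact O3_supL _ _ η j π
        · refine ok_stop4 (N := N) (L := L) (Mg := Mg) (V := V) h2 (O3_rlB _ _ _ _ _ ?_)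
          intro st O heq
          cases heq
      · simp only
        refine ⟨Or.inl fun st O => rfl, ?_⟩
        intro b
        have h2 : GI n m ((e.kna (.l η j π) v).upA (bitL η j π) b) := gi_bitLA h1 η j π b
        rcases b with x | b | r'
        · refine ok_stop4 (N := N) (L := L) (Mg := Mg) (V := V) h2 (O3_rlA _ _ _ _ _ ?_)
          intro st O heq
          cases heq
        · cases b
          · exact hc _ h2
          · refine hc _ (gi_confA h2 η (.l η j π) _ hkn hpA hp ?_)
            exact O3_supL _ _ η j π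
        · refine ok_stop4 (N := N) (L := L) (Mg := Mg) (V := V) h2 (O3_rlA _ _ _ _ _ ?_)
          intro st O heq
          cases heq
  · simp only
    exact hc _ h1

/-! ## Row O4 -/

private theorem O4_stop0 (h : GI n m e) (hl : Lgt N L e) :
    OkE N L n m (.stop 0 : PT X S J K V Mg StA StB) e :=
  ⟨gi_bdA h, gi_bdB h, fun _ => hl.1, fun h => absurd h (by omega), fun h => absurd h (by omega),
    by omega⟩

private theorem O4_stop2 (h : GI n m e) (hl : ¬ Gd SV cel e.A e.B e.kn) :
    OkE N L n m (.stop 2 : PT X S J K V Mg StA StB) e :=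
  ⟨gi_bdA h, gi_bdB h, fun h => absurd h (by omega), fun _ => hl, fun h => absurd h (by omega),
    by omega⟩

theorem body_ok (F : S → Finset J → Comp X K V)
    (hF : ∀ f s A, ((F s A).asked f).length ≤ m)
    (cont : Env X S J K V StA StB RA RB → PT X S J K V Mg StA StB)
    (k : PT X S J K V Mg StA StB) (h : GI n m e) (hk : Lgt N L e → OkE N L n m k e)
    (hc : ∀ e' : Env X S J K V StA StB RA RB, GI n m e' → OkE N L n m (cont e') e') :
    OkE N L n m (body F N L e cont k) e := by
  unfold body
  by_cases h1 : Lgt N L e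
  · rw [if_pos h1]
    exact hk h1
  rw [if_neg h1]
  by_cases h2 : Gd SV cel e.A e.B e.kn
  swap
  · rw [if_pos h2]
    exact O4_stop2 h h2
  rw [if_neg (not_not.2 h2)]
  by_cases h3 : ∃ d, cel d ∧ Hv SV cel N e.A e.B e.kn d
  · rw [dif_pos h3]
    exact cellStep_ok _ h3.choose_spec.1 cont h hc
  rw [dif_neg h3]
  have hL := lt_of_not_hv (e := e) N cel h3
  cases hp : e.pend with
  | some η => exact leakStep_ok F hF η cont h hp hL hc
  | none =>
    by_cases h4 : ∃ η, Hv SV cel L e.A e.B e.kn (.h η)
    · simp only [dif_pos h4]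
      exact handleStep_ok _ cont h hp h4.choose_spec.1 hc
    simp only [dif_neg h4]
    by_cases h5 : ∃ x : K × J × K, Hv SV cel L e.A e.B e.kn (.l x.1 x.2.1 x.2.2)
    · simp only [dif_pos h5]
      exact labelStep_ok _ _ _ cont h hp h5.choose_spec.1 hc
    exfalso
    refine h1 ⟨hL, lt_of_not_hv (e := e) L (fun d => ¬ cel d) ?_, hp⟩
    rintro ⟨d, hd, hv⟩
    cases d with
    | x x => exact hd trivial
    | s s => exact hd trivial
    | h η => exact h4 ⟨η, hv⟩
    | l η j π => exact h5 ⟨(η, j, π), hv⟩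

theorem closeT_ok (F : S → Finset J → Comp X K V)
    (hF : ∀ f s A, ((F s A).asked f).length ≤ m)
    (k : ℕ → Env X S J K V StA StB RA RB → PT X S J K V Mg StA StB)
    (hk : ∀ j e, GI n m e → Lgt N L e → OkE N L n m (k j e) e) :
    ∀ j (e : Env X S J K V StA StB RA RB), GI n m e → OkE N L n m (closeT F N L k j e) e := by
  intro j
  induction j with
  | zero =>
    intro e h
    unfold closeT
    split_ifs with h1
    · exact hk 0 e h h1
    · exact ok_stop h 1 (Or.inl rfl)
  | succ j ih =>
    intro e h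
    unfold closeT
    exact body_ok F hF _ _ h (hk (j + 1) e h) ih

variable {I I' : Type} (A : Party (Qry X S J K) (Ans J K V) Mg I)
  (B : Party (Qry X S J K) (Ans J K V) Mg I')

omit [Finite X] [Finite S] [Finite K] [Nonempty K] in
private theorem O4_msg {St : Type} (F : S → Finset J → Comp X K V) (G : V → Finset J → Comp X K V)
    (P : Party (Qry X S J K) (Ans J K V) Mg St) (m0 μ : Mg) (T : Tb S J K V)
    (c : CS P.St S J K) (O : Th X S J K → Option J → K) :
    ∃ x, ((stepC F G P m0 T μ c).run O).2 = .msg x := by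
  unfold stepC
  rw [Comp.run_bind]
  split
  · exact ⟨_, rfl⟩
  · exact ⟨_, rfl⟩

private theorem O4_stopA (F : S → Finset J → Comp X K V) (G : V → Finset J → Comp X K V)
    (hF : ∀ f s A, ((F s A).asked f).length ≤ m) (hG : ∀ f v A, ((G v A).asked f).length ≤ m)
    (m0 μ : Mg) (e : Env X S J K V A.St B.St RA RB) (h : GI n m e) (hp : e.pend = none)
    (T : Tb S J K V) (b : Pb Mg V) (hb : ∀ x, b ≠ .msg x) :
    OkE N L n m (.stop 4 : PT X S J K V Mg A.St B.St) (e.upA (stepC F G A m0 T μ) b) := by
  refine ok_stop4 (gi_msgA A B F G hF hG m0 μ e h hp T b) ?_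
  rw [rl, Finset.filter_eq_empty_iff]
  rintro w _ ⟨⟨_, h1⟩, _⟩
  obtain ⟨x, hx⟩ := O4_msg F G A m0 μ T (e.A.s w.1 w.2.2.1) w.2.2.1
  exact hb x (h1.symm.trans hx)

private theorem O4_stopB (F : S → Finset J → Comp X K V) (G : V → Finset J → Comp X K V)
    (hF : ∀ f s A, ((F s A).asked f).length ≤ m) (hG : ∀ f v A, ((G v A).asked f).length ≤ m)
    (m0 μ : Mg) (e : Env X S J K V A.St B.St RA RB) (h : GI n m e) (hp : e.pend = none)
    (T : Tb S J K V) (b : Pb Mg V) (hb : ∀ x, b ≠ .msg x) :
    OkE N L n m (.stop 4 : PT X S J K V Mg A.St B.St) (e.upB (stepC F G B m0 T μ) b) := by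
  refine ok_stop4 (gi_msgB A B F G hF hG m0 μ e h hp T b) ?_
  rw [rl, Finset.filter_eq_empty_iff]
  rintro w _ ⟨_, ⟨_, h1⟩, _⟩
  obtain ⟨x, hx⟩ := O4_msg F G B m0 μ T (e.B.s w.2.1 w.2.2.1) w.2.2.1
  exact hb x (h1.symm.trans hx)

theorem build_ok (F : S → Finset J → Comp X K V) (G : V → Finset J → Comp X K V)
    (hF : ∀ f s A, ((F s A).asked f).length ≤ m) (hG : ∀ f v A, ((G v A).asked f).length ≤ m)
    (m0 : Mg) : ∀ (r : ℕ) (μ : Mg) (j : ℕ) (e : Env X S J K V A.St B.St RA RB), GI n m e →
      OkE N L n m (build A B F G m0 N L r μ j e) e := by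
  intro r
  induction r with
  | zero =>
    intro μ j e h
    unfold build
    exact closeT_ok F hF _ (fun j e h hl => O4_stop0 h hl) j e h
  | succ r ih =>
    intro μ j e h
    unfold build
    refine closeT_ok F hF _ (fun j e h hl => ?_) j e h
    refine ⟨Or.inr ⟨hl.1, Or.inl hl.2.1, gi_bd_msgA A B F G hF hG m0 μ e h e.T, gi_bdB h⟩, ?_⟩
    intro b
    cases b with
    | msg x =>
      refine closeT_ok F hF _ (fun j e' h' hl' => ?_) j _
        (gi_msgA A B F G hF hG m0 μ e h hl.2.2 e.T _)
      refine ⟨Or.inr ⟨hl'.1, Or.inl hl'.2.1, gi_bdA h', gi_bd_msgB A B F G hF hG m0 x e' h' e'.T⟩,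
        ?_⟩
      intro b'
      cases b' with
      | msg y => exact ih y j _ (gi_msgB A B F G hF hG m0 x e' h' hl'.2.2 e'.T _)
      | bit b => exact O4_stopB A B F G hF hG m0 x e' h' hl'.2.2 e'.T _ (by simp)
      | lk b => exact O4_stopB A B F G hF hG m0 x e' h' hl'.2.2 e'.T _ (by simp)
    | bit b => exact O4_stopA A B F G hF hG m0 μ e h hl.2.2 e.T _ (by simp)
    | lk b => exact O4_stopA A B F G hF hG m0 μ e h hl.2.2 e.T _ (by simp)

end Pool.Agent.Nbb
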