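import Pool.Agent.Lib.MP_ae38e0_lc.Nbb.Gen

set_option autoImplicit false

/-! Row P1: merging independent parties. -/

namespace Pool.Agent.Nbb

open Pool.Agent.LinOT Classical

variable {Q K StA StB RA RB : Type} [Finite Q] [Finite K] [Fintype RA] [Fintype RB]

variable (S : Q → Finset K) (cel : Q → Prop)

/-- `O'` on the list, `O` elsewhere. -/
private noncomputable def P1_mx (l : List Q) (O O' : Orc S) : Orc S :=
  ⟨fun q => if q ∈ l then O'.1 q else O.1 q, fun q => by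
    by_cases h : q ∈ l
    · simpa [h] using O'.2 q
    · simpa [h] using O.2 q⟩

omit [Finite Q] [Finite K] in
private theorem P1_mem (l : List Q) (O O' : Orc S) {x : Q} (hx : x ∈ l) :
    (P1_mx S l O O').1 x = O'.1 x := by
  simp [P1_mx, hx]

omit [Finite Q] [Finite K] in
private theorem P1_notMem (l : List Q) (O O' : Orc S) {x : Q} (hx : x ∉ l) :
    (P1_mx S l O O').1 x = O.1 x := by
  simp [P1_mx, hx]

omit [Finite Q] [Finite K] in
private theorem P1_kn (l : List Q) (kn : List (Q × K)) (O O' : Orc S) (hO : Kn kn O.1)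
    (hO' : Kn kn O'.1) : Kn kn (P1_mx S l O O').1 := by
  intro w hw
  by_cases h : w.1 ∈ l
  · rw [P1_mem S l O O' h]; exact hO' w hw
  · rw [P1_notMem S l O O' h]; exact hO w hw

omit [Finite Q] [Finite K] in
private theorem P1_agree (hcel : ∀ q, ¬ cel q → (S q).card ≤ 1) (m l : List Q)
    (kn : List (Q × K)) (O O' : Orc S) (hO : Kn kn O.1) (hO' : Kn kn O'.1)
    (hD : Dj cel (kn.map Prod.fst) m l) : ∀ x ∈ m, O.1 x = (P1_mx S l O O').1 x := by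
  intro x hx
  by_cases h : x ∈ l
  · rw [P1_mem S l O O' h]
    by_cases hc : cel x
    · obtain ⟨w, hw, rfl⟩ := List.mem_map.mp (hD x hc hx h)
      rw [hO w hw, hO' w hw]
    · exact Finset.card_le_one.mp (hcel x hc) _ (O.2 x) _ (O'.2 x)
  · rw [P1_notMem S l O O' h]

omit [Finite Q] [Finite K] in
private theorem P1_swap (l : List Q) (O O' : Orc S) :
    P1_mx S l (P1_mx S l O O') (P1_mx S l O' O) = O := by
  apply Subtype.ext
  funext x
  by_cases h : x ∈ l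
  · rw [P1_mem S l _ _ h, P1_mem S l _ _ h]
  · rw [P1_notMem S l _ _ h, P1_notMem S l _ _ h]

/-- **Pairs of parties without unknown common cell are real executions.**  Bijection
`((r, O1), (r', O2)) ↦ ((r, r', O), O')` where `O` is `O2` on the list `Y.q r' O2` and `O1` elsewhere,
and `O'` is `O1` on this list and `O2` elsewhere (a common thing is a known cell, or an item, where
all oracles agree). -/
theorem pair_eq (hcel : ∀ q, ¬ cel q → (S q).card ≤ 1) (X : Sd Q K StA RA) (Y : Sd Q K StB RB)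
    (hX : X.Loc) (hY : Y.Loc) (kn : List (Q × K)) {δ δ' : Type} (dA : RA → (Q → K) → δ)
    (hdA : Lc X.q dA) (dB : RB → (Q → K) → δ') (hdB : Lc Y.q dB) (Φ : δ → δ' → Prop) :
    ((gp S cel X Y kn).filter fun z => Φ (dA z.1.1 z.1.2.1) (dB z.2.1 z.2.2.1)).card =
      ((gr S cel X Y kn).filter fun w => Φ (dA w.1 w.2.2.1) (dB w.2.1 w.2.2.1)).card *
        kap S kn := by
  rw [kap, ← Finset.card_product]
  refine Finset.card_bij'
    (fun z _ => ((z.1.1, z.2.1, P1_mx S (Y.q z.2.1 z.2.2.1) z.1.2 z.2.2),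
      P1_mx S (Y.q z.2.1 z.2.2.1) z.2.2 z.1.2))
    (fun w _ => ((w.1.1, P1_mx S (Y.q w.1.2.1 w.1.2.2.1) w.1.2.2 w.2),
      (w.1.2.1, P1_mx S (Y.q w.1.2.1 w.1.2.2.1) w.2 w.1.2.2))) ?_ ?_ ?_ ?_
  · rintro ⟨⟨r, O1⟩, ⟨r', O2⟩⟩ hz
    obtain ⟨hz, hΦ⟩ := Finset.mem_filter.mp hz
    obtain ⟨hz, hD⟩ := Finset.mem_filter.mp hz
    obtain ⟨hz1, hz2⟩ := Finset.mem_product.mp hz
    obtain ⟨-, hXP, hk1⟩ := Finset.mem_filter.mp hz1
    obtain ⟨-, hYP, hk2⟩ := Finset.mem_filter.mp hz2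
    dsimp only at hXP hk1 hYP hk2 hD hΦ
    have hA := P1_agree S cel hcel _ _ kn O1 O2 hk1 hk2 hD
    have hB : ∀ x ∈ Y.q r' O2.1, O2.1 x = (P1_mx S (Y.q r' O2.1) O1 O2).1 x := fun x hx => by
      rw [P1_mem S _ _ _ hx]
    refine Finset.mem_product.mpr ⟨Finset.mem_filter.mpr ⟨Finset.mem_filter.mpr
      ⟨Finset.mem_filter.mpr ⟨Finset.mem_univ _, ?_, ?_, ?_⟩, ?_⟩, ?_⟩,
      Finset.mem_filter.mpr ⟨Finset.mem_univ _, ?_⟩⟩
    · dsimp only; rw [← hX.2.2 r O1.1 _ hA]; exact hXP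
    · dsimp only; rw [← hY.2.2 r' O2.1 _ hB]; exact hYP
    · exact P1_kn S _ kn O1 O2 hk1 hk2
    · unfold Dw; dsimp only; rw [← hX.2.1 r O1.1 _ hA, ← hY.2.1 r' O2.1 _ hB]; exact hD
    · dsimp only; rw [← hdA r O1.1 _ hA, ← hdB r' O2.1 _ hB]; exact hΦ
    · exact P1_kn S _ kn O2 O1 hk2 hk1
  · rintro ⟨⟨r, r', O⟩, O'⟩ hw
    obtain ⟨hw, hk'⟩ := Finset.mem_product.mp hw
    obtain ⟨-, hk'⟩ := Finset.mem_filter.mp hk'
    obtain ⟨hw, hΦ⟩ := Finset.mem_filter.mp hw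
    obtain ⟨hw, hD⟩ := Finset.mem_filter.mp hw
    obtain ⟨-, hXP, hYP, hk⟩ := Finset.mem_filter.mp hw
    unfold Dw at hD
    dsimp only at hXP hk hYP hk' hD hΦ
    have hA := P1_agree S cel hcel _ _ kn O O' hk hk' hD
    have hB : ∀ x ∈ Y.q r' O.1, O.1 x = (P1_mx S (Y.q r' O.1) O' O).1 x := fun x hx => by
      rw [P1_mem S _ _ _ hx]
    refine Finset.mem_filter.mpr ⟨Finset.mem_filter.mpr ⟨Finset.mem_product.mpr
      ⟨Finset.mem_filter.mpr ⟨Finset.mem_univ _, ?_, ?_⟩,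
        Finset.mem_filter.mpr ⟨Finset.mem_univ _, ?_, ?_⟩⟩, ?_⟩, ?_⟩
    · dsimp only; rw [← hX.2.2 r O.1 _ hA]; exact hXP
    · exact P1_kn S _ kn O O' hk hk'
    · dsimp only; rw [← hY.2.2 r' O.1 _ hB]; exact hYP
    · exact P1_kn S _ kn O' O hk' hk
    · dsimp only; rw [← hX.2.1 r O.1 _ hA, ← hY.2.1 r' O.1 _ hB]; exact hD
    · dsimp only; rw [← hdA r O.1 _ hA, ← hdB r' O.1 _ hB]; exact hΦ
  · rintro ⟨⟨r, O1⟩, ⟨r', O2⟩⟩ hz
    have hB : ∀ x ∈ Y.q r' O2.1, O2.1 x = (P1_mx S (Y.q r' O2.1) O1 O2).1 x := fun x hx => by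
      rw [P1_mem S _ _ _ hx]
    dsimp only
    rw [← hY.2.1 r' O2.1 _ hB, P1_swap, P1_swap]
  · rintro ⟨⟨r, r', O⟩, O'⟩ hw
    have hB : ∀ x ∈ Y.q r' O.1, O.1 x = (P1_mx S (Y.q r' O.1) O' O).1 x := fun x hx => by
      rw [P1_mem S _ _ _ hx]
    dsimp only
    rw [← hY.2.1 r' O.1 _ hB, P1_swap, P1_swap]

theorem gp_card (hcel : ∀ q, ¬ cel q → (S q).card ≤ 1) (X : Sd Q K StA RA) (Y : Sd Q K StB RB)
    (hX : X.Loc) (hY : Y.Loc) (kn : List (Q × K)) :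
    (gp S cel X Y kn).card = (gr S cel X Y kn).card * kap S kn := by
  have h := pair_eq S cel hcel X Y hX hY kn (fun _ _ => ()) (fun _ _ _ _ => rfl) (fun _ _ => ())
    (fun _ _ _ _ => rfl) (fun _ _ => True)
  simpa using h

theorem kap_pos (X : Sd Q K StA RA) (Y : Sd Q K StB RB) (kn : List (Q × K))
    (h : 0 < (rl S X Y kn).card) : 0 < kap S kn := by
  obtain ⟨w, hw⟩ := Finset.card_pos.mp h
  refine Finset.card_pos.mpr ⟨w.2.2, ?_⟩
  simp only [rl, Finset.mem_filter, Finset.mem_univ, true_and] at hw ⊢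
  exact hw.2.2

theorem mem_sup {X : Sd Q K StA RA} {kn : List (Q × K)} {p : RA × Orc S} :
    p ∈ sup S X kn ↔ X.P p.1 p.2.1 ∧ Kn kn p.2.1 := by
  simp [sup]

theorem mem_rl {X : Sd Q K StA RA} {Y : Sd Q K StB RB} {kn : List (Q × K)}
    {w : RA × RB × Orc S} :
    w ∈ rl S X Y kn ↔ X.P w.1 w.2.2.1 ∧ Y.P w.2.1 w.2.2.1 ∧ Kn kn w.2.2.1 := by
  simp [rl]

end Pool.Agent.Nbb
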