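import Pool.Agent.Lib.MP_ae38e0_lc.Nbb.Hit

import Pool.Agent.Lib.MP_ae38e0_lc.Nbb.Own

set_option autoImplicit false

/-!
# Public processes

A public process is a tree.  At a node the public learns a thing, or one of the parties runs a
computation with a public result.  Each node also says how an eavesdropper in the real world
observes the outcome (`none`: it is the next message of the transcript).
-/

namespace Pool.Agent.Nbb

open Pool.Agent.LinOT Classical

/-- Public processes. -/
inductive Proc (Q K A B M RQ RK Mg : Type) : Type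
  | stop : ℕ → Proc Q K A B M RQ RK Mg
  | learn : Q → Comp RQ RK K → (K → Proc Q K A B M RQ RK Mg) → Proc Q K A B M RQ RK Mg
  | mA : (Mg → M) ⊕ Comp RQ RK M → (A → Comp Q K (A × M)) →
      (M → Proc Q K A B M RQ RK Mg) → Proc Q K A B M RQ RK Mg
  | mB : (Mg → M) ⊕ Comp RQ RK M → (B → Comp Q K (B × M)) →
      (M → Proc Q K A B M RQ RK Mg) → Proc Q K A B M RQ RK Mg

variable {Q K StA StB RA RB M RQ RK Mg : Type} [Finite Q] [Finite K] [Fintype RA] [Fintype RB]

variable (S : Q → Finset K) (cel : Q → Prop)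

namespace Proc

/-- The public result of the step `c` of the first party. -/
def rsA (c : StA → Comp Q K (StA × M)) (X : Sd Q K StA RA) (w : RA × RB × Orc S) : M :=
  ((c (X.s w.1 w.2.2.1)).run w.2.2.1).2

/-- The public result of the step `c` of the second party. -/
def rsB (c : StB → Comp Q K (StB × M)) (Y : Sd Q K StB RB) (w : RA × RB × Orc S) : M :=
  ((c (Y.s w.2.1 w.2.2.1)).run w.2.2.1).2

/-- The number of steps in which a good execution is hit. -/
noncomputable def hits : Proc Q K StA StB M RQ RK Mg → Sd Q K StA RA → Sd Q K StB RB →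
    List (Q × K) → RA × RB × Orc S → ℕ
  | stop _, _, _, _, _ => 0
  | learn q _ next, X, Y, kn, w =>
    hits (next (w.2.2.1 q)) X Y (kn ++ [(q, w.2.2.1 q)]) w
  | mA _ c next, X, Y, kn, w =>
    (if Dw S cel X Y kn w ∧ hitA S c X Y kn w then 1 else 0) +
      hits (next (rsA S c X w)) (X.upd c (rsA S c X w)) Y kn w
  | mB _ c next, X, Y, kn, w =>
    (if Dw S cel X Y kn w ∧ hitB S c X Y kn w then 1 else 0) +
      hits (next (rsB S c Y w)) X (Y.upd c (rsB S c Y w)) kn w

/-- The code of the leaf which is reached. -/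
noncomputable def lf : Proc Q K StA StB M RQ RK Mg → Sd Q K StA RA → Sd Q K StB RB →
    List (Q × K) → RA × RB × Orc S → ℕ
  | stop k, _, _, _, _ => k
  | learn q _ next, X, Y, kn, w => lf (next (w.2.2.1 q)) X Y (kn ++ [(q, w.2.2.1 q)]) w
  | mA _ c next, X, Y, kn, w => lf (next (rsA S c X w)) (X.upd c (rsA S c X w)) Y kn w
  | mB _ c next, X, Y, kn, w => lf (next (rsB S c Y w)) X (Y.upd c (rsB S c Y w)) kn w

/-- The final states of the parties. -/
noncomputable def fin : Proc Q K StA StB M RQ RK Mg → Sd Q K StA RA → Sd Q K StB RB →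
    List (Q × K) → RA × RB × Orc S → StA × StB
  | stop _, X, Y, _, w => (X.s w.1 w.2.2.1, Y.s w.2.1 w.2.2.1)
  | learn q _ next, X, Y, kn, w => fin (next (w.2.2.1 q)) X Y (kn ++ [(q, w.2.2.1 q)]) w
  | mA _ c next, X, Y, kn, w => fin (next (rsA S c X w)) (X.upd c (rsA S c X w)) Y kn w
  | mB _ c next, X, Y, kn, w => fin (next (rsB S c Y w)) X (Y.upd c (rsB S c Y w)) kn w

/-- The guess at the leaf. -/
noncomputable def lg (outB : RB → StB → Bool) : Proc Q K StA StB M RQ RK Mg → Sd Q K StA RA →
    Sd Q K StB RB → List (Q × K) → RA × RB × Orc S → Bool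
  | stop _, _, Y, kn, _ => gs S outB Y kn
  | learn q _ next, X, Y, kn, w => lg outB (next (w.2.2.1 q)) X Y (kn ++ [(q, w.2.2.1 q)]) w
  | mA _ c next, X, Y, kn, w => lg outB (next (rsA S c X w)) (X.upd c (rsA S c X w)) Y kn w
  | mB _ c next, X, Y, kn, w => lg outB (next (rsB S c Y w)) X (Y.upd c (rsB S c Y w)) kn w

/-- The number of nodes at which a heavy thing `q` with `D q` is learned. -/
noncomputable def cnt (N : ℕ) (D : Q → Prop) : Proc Q K StA StB M RQ RK Mg → Sd Q K StA RA →
    Sd Q K StB RB → List (Q × K) → RA × RB × Orc S → ℕ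
  | stop _, _, _, _, _ => 0
  | learn q _ next, X, Y, kn, w =>
    (if D q ∧ Hv S cel N X Y kn q ∧ Gd S cel X Y kn then 1 else 0) +
      cnt N D (next (w.2.2.1 q)) X Y (kn ++ [(q, w.2.2.1 q)]) w
  | mA _ c next, X, Y, kn, w => cnt N D (next (rsA S c X w)) (X.upd c (rsA S c X w)) Y kn w
  | mB _ c next, X, Y, kn, w => cnt N D (next (rsB S c Y w)) X (Y.upd c (rsB S c Y w)) kn w

/-- The number of nodes at which something is learned. -/
noncomputable def nl : Proc Q K StA StB M RQ RK Mg → Sd Q K StA RA → Sd Q K StB RB →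
    List (Q × K) → RA × RB × Orc S → ℕ
  | stop _, _, _, _, _ => 0
  | learn q _ next, X, Y, kn, w => nl (next (w.2.2.1 q)) X Y (kn ++ [(q, w.2.2.1 q)]) w + 1
  | mA _ c next, X, Y, kn, w => nl (next (rsA S c X w)) (X.upd c (rsA S c X w)) Y kn w
  | mB _ c next, X, Y, kn, w => nl (next (rsB S c Y w)) X (Y.upd c (rsB S c Y w)) kn w

/-- The whole process as one computation, for given states of the parties. -/
def flat : Proc Q K StA StB M RQ RK Mg → StA → StB → Comp Q K Unit
  | stop _, _, _ => .ret ()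
  | learn q _ next, a, b => .ask q fun v => flat (next v) a b
  | mA _ c next, a, b => (c a).bind fun x => flat (next x.2) x.1 b
  | mB _ c next, a, b => (c b).bind fun x => flat (next x.2) a x.1

/-- The eavesdropper in the real world, for a given list of messages. -/
noncomputable def eve (outB : RB → StB → Bool) : Proc Q K StA StB M RQ RK Mg → Sd Q K StA RA →
    Sd Q K StB RB → List (Q × K) → List Mg → Comp RQ RK Bool
  | stop _, _, Y, kn, _ => .ret (gs S outB Y kn)
  | learn q o next, X, Y, kn, t => o.bind fun v => eve outB (next v) X Y (kn ++ [(q, v)]) t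
  | mA (.inr o) c next, X, Y, kn, t => o.bind fun m => eve outB (next m) (X.upd c m) Y kn t
  | mA (.inl i) c next, X, Y, kn, m :: t => eve outB (next (i m)) (X.upd c (i m)) Y kn t
  | mA (.inl _) _ _, _, _, _, [] => .ret false
  | mB (.inr o) c next, X, Y, kn, t => o.bind fun m => eve outB (next m) X (Y.upd c m) kn t
  | mB (.inl i) c next, X, Y, kn, m :: t => eve outB (next (i m)) X (Y.upd c (i m)) kn t
  | mB (.inl _) _ _, _, _, _, [] => .ret false

/-- For the given states the observations of the eavesdropper, with oracle `ρ`, are right, and `t`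
is the list of the messages. -/
def faith (ρ : RQ → RK) (O : Q → K) : Proc Q K StA StB M RQ RK Mg → StA → StB → List Mg → Prop
  | stop _, _, _, _ => True
  | learn q o next, a, b, t => o.run ρ = O q ∧ faith ρ O (next (O q)) a b t
  | mA (.inr o) c next, a, b, t =>
    o.run ρ = ((c a).run O).2 ∧ faith ρ O (next ((c a).run O).2) ((c a).run O).1 b t
  | mA (.inl i) c next, a, b, m :: t =>
    i m = ((c a).run O).2 ∧ faith ρ O (next ((c a).run O).2) ((c a).run O).1 b t
  | mA (.inl _) _ _, _, _, [] => False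
  | mB (.inr o) c next, a, b, t =>
    o.run ρ = ((c b).run O).2 ∧ faith ρ O (next ((c b).run O).2) a ((c b).run O).1 t
  | mB (.inl i) c next, a, b, m :: t =>
    i m = ((c b).run O).2 ∧ faith ρ O (next ((c b).run O).2) a ((c b).run O).1 t
  | mB (.inl _) _ _, _, _, [] => False

/-- The conditions on a process: where a party asks the state is light, and the lists are short.
A leaf has code 0 if the state is light, code 2 if it is not good, code 4 if no real execution
reaches it (and there are leaves with other codes). -/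
def Ok (N L n : ℕ) : Proc Q K StA StB M RQ RK Mg → Sd Q K StA RA → Sd Q K StB RB →
    List (Q × K) → Prop
  | stop k, X, Y, kn => Bd S n X kn ∧ Bd S n Y kn ∧ (k = 0 → Lt S cel N cel X Y kn) ∧
    (k = 2 → ¬ Gd S cel X Y kn) ∧ (k = 4 → rl S X Y kn = ∅) ∧ k ≤ 4
  | learn q _ next, X, Y, kn => ∀ v ∈ S q, Ok N L n (next v) X Y (kn ++ [(q, v)])
  | mA _ c next, X, Y, kn =>
    ((∀ st O, (c st).asked O = []) ∨ (Lt S cel N cel X Y kn ∧
      (Lt S cel L (fun q => ¬ cel q) X Y kn ∨ ∀ st O, ∀ q ∈ (c st).asked O, cel q) ∧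
      Bd S n (X.ext c) kn ∧ Bd S n Y kn)) ∧ ∀ m, Ok N L n (next m) (X.upd c m) Y kn
  | mB _ c next, X, Y, kn =>
    ((∀ st O, (c st).asked O = []) ∨ (Lt S cel N cel X Y kn ∧
      (Lt S cel L (fun q => ¬ cel q) X Y kn ∨ ∀ st O, ∀ q ∈ (c st).asked O, cel q) ∧
      Bd S n X kn ∧ Bd S n (Y.ext c) kn)) ∧ ∀ m, Ok N L n (next m) X (Y.upd c m) kn

end Proc

end Pool.Agent.Nbb
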