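import Pool.Agent.Lib.MP_ae38e0_lc.Nbb.Final

set_option autoImplicit false

/-!
# The barrier: definitions of the statement
-/

namespace Pool.Agent.Nbb

open Pool.Agent.LinOT Classical

variable {k : ℕ} {T J K V M : Type} [Fintype J]

/-- Queries, when `f` has the domain `{0,1}^k` and the keys are the pairs `(t, r)`, `r` of `k`
bits. -/
abbrev Qy (k : ℕ) (T J K : Type) : Type := Qry (Fin (2 ^ k)) (T × Fin (2 ^ k)) J K

/-- Worlds `(f, L)`, when `f` has the domain `{0,1}^k` and the keys are the pairs `(t, r)`, `r` of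
`k` bits. -/
abbrev Wo (k : ℕ) (T J K : Type) : Type := World (Fin (2 ^ k)) (T × Fin (2 ^ k)) J K

/-- What is revealed for the key `(t, r)` does not depend on `r`. -/
def onKey (F : T → Finset J → Comp (Fin (2 ^ k)) K V) :
    T × Fin (2 ^ k) → Finset J → Comp (Fin (2 ^ k)) K V := fun s => F s.1

/-- `F t A` is computed with at most `m` queries to `f`, and `F t A` can be computed from `F t A'`,
by `G` with at most `m` queries, if `A ⊆ A'`. -/
def Leakage (F : T → Finset J → Comp (Fin (2 ^ k)) K V)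
    (G : V → Finset J → Comp (Fin (2 ^ k)) K V) (m : ℕ) : Prop :=
  (∀ f t A, ((F t A).asked f).length ≤ m) ∧ (∀ f v A, ((G v A).asked f).length ≤ m) ∧
  ∀ f t A A', A ⊆ A' → (G ((F t A').run f) A).run f = (F t A).run f

/-- An algorithm with at most `q` queries and calls to `E` finds, for uniformly random `x`, a
preimage of `f x` with probability at most `ε`. -/
def Oneway (F : T → Finset J → Comp (Fin (2 ^ k)) K V)
    (E : List (M × M) → Comp (Qy k T J K) (Ans J K V) Bool) (q : ℕ) (ε : ℝ) : Prop :=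
  ∀ C : K → Comp (Qy k T J K ⊕ List (M × M)) (Ans J K V ⊕ Bool) (Fin (2 ^ k)),
    (∀ y O, ((C y).asked (withAdv O E)).length ≤ q) →
    prob (fun p : Wo k T J K × Fin (2 ^ k) =>
      p.1.1 ((C (p.1.1 p.2)).run (withAdv (ora (onKey F) p.1) E)) = p.1.1 p.2) ≤ ε

/-- The encodings hide: let `f` be any function and `F t0 A = F t1 A`; an algorithm with at most `q`
queries and calls to `E` which gets the handle and the labels with index in `A` of the key
`(t0, r)` or `(t1, r)`, `r` random, distinguishes the two cases with advantage at most `ε`. -/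
def Hiding (F : T → Finset J → Comp (Fin (2 ^ k)) K V)
    (E : List (M × M) → Comp (Qy k T J K) (Ans J K V) Bool) (q : ℕ) (ε : ℝ) : Prop :=
  ∀ (f : Fin (2 ^ k) → K) (t0 t1 : T) (A : Finset J) (C : K → (J → Option K) →
      Comp (Qy k T J K ⊕ List (M × M)) (Ans J K V ⊕ Bool) Bool),
    (∀ η a O, ((C η a).asked (withAdv O E)).length ≤ q) → (F t0 A).run f = (F t1 A).run f →
    |prob (fun p : (T × Fin (2 ^ k) → Option J → K) × Fin (2 ^ k) =>
        (C (p.1 (t0, p.2) none) (vis A (p.1 (t0, p.2)))).run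
          (withAdv (ora (onKey F) (f, p.1)) E) = true) -
      prob (fun p : (T × Fin (2 ^ k) → Option J → K) × Fin (2 ^ k) =>
        (C (p.1 (t1, p.2) none) (vis A (p.1 (t1, p.2)))).run
          (withAdv (ora (onKey F) (f, p.1)) E) = true)| ≤ ε

omit [Fintype J] in
theorem barrier_res [Fintype T] [Nonempty T] [Fintype J] [Fintype K] [Nonempty K]
    (m N n h : ℕ) (F : T → Finset J → Comp (Fin (2 ^ k)) K V)
    (G : V → Finset J → Comp (Fin (2 ^ k)) K V) (R : Party (Qy k T J K) (Ans J K V) M Bool)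
    (D : Party (Qy k T J K) (Ans J K V) M (Bool × Bool)) [Fintype R.Tape] [Fintype D.Tape]
    [Nonempty R.Tape] [Nonempty D.Tape] (out : R.St → Option Bool) (m0 : M)
    (hL : Leakage F G m) (hn : 0 < n) (hh : 0 < h) (hR : limited (onKey F) R false N n)
    (hD : ∀ b, limited (onKey F) D b N n) (δ : ℝ) (b1 : Bool)
    (hδ : ∀ b0, err (onKey F) R D out N m0 false b0 b1 ≤ δ) (B : ℕ)
    (hB : B = 27648 * (n * (Fintype.card J + 2) * (m + 1)) ^ 5 * h ^ 3) :
    ∃ E : List (M × M) → Comp (Qy k T J K) (Ans J K V) Bool,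
      (∀ t O, ((E t).asked O).length ≤ B) ∧
      1 - 2 * δ - 6 / h - B ^ 4 * (2 ^ k * Fintype.card T) / Fintype.card K ≤
        advSum (onKey F) R D N m0 E b1 ∧
      ∀ (q : ℕ) (I : ℝ), I = (B * q + 1) * (Fintype.card J + m + 2) →
        Oneway F E q (I / 2 ^ k + (I * (2 ^ k * Fintype.card T) + 2 ^ k) / Fintype.card K) ∧
        Hiding F E q (2 * I / 2 ^ k + 4 * I * (2 ^ k * Fintype.card T) / Fintype.card K) := by
  obtain ⟨E, h1, h2, h3⟩ := barrier T J K V M k m N n h F G R D out m0 hL.1 hL.2.1 hL.2.2 hn hh hR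
    hD δ b1 hδ B hB
  refine ⟨E, h1, h2, fun q I hI => ⟨fun C hC => (h3 q I hI).1 C hC, ?_⟩⟩
  intro f t0 t1 A C hC hl
  exact (h3 q I hI).2 f t0 t1 A C hC hl

end Pool.Agent.Nbb
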