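import Pool.Agent.Lib.MP_ae38e0_lc.Nbb.Proc

set_option autoImplicit false

/-! Row P6: the real executions are split by the outcome of a step. -/

namespace Pool.Agent.Nbb

open Pool.Agent.LinOT Classical

variable {Q K StA StB RA RB M RQ RK Mg : Type} [Finite Q] [Finite K] [Fintype RA] [Fintype RB]

variable (S : Q → Finset K) (cel : Q → Prop)

private theorem P6_mem_learn (X : Sd Q K StA RA) (Y : Sd Q K StB RB) (kn : List (Q × K)) (q : Q)
    (v : K) (w : RA × RB × Orc S) :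
    w ∈ rl S X Y (kn ++ [(q, v)]) ↔ w ∈ rl S X Y kn ∧ w.2.2.1 q = v := by
  unfold rl Kn
  simp only [Finset.mem_filter, Finset.mem_univ, true_and, List.mem_append, List.mem_singleton]
  constructor
  · rintro ⟨h1, h2, h3⟩
    exact ⟨⟨h1, h2, fun u hu => h3 u (Or.inl hu)⟩, h3 (q, v) (Or.inr rfl)⟩
  · rintro ⟨⟨h1, h2, h3⟩, h4⟩
    refine ⟨h1, h2, ?_⟩
    rintro u (hu | hu)
    · exact h3 u hu
    · rw [hu]
      exact h4

private theorem P6_mem_updA (X : Sd Q K StA RA) (Y : Sd Q K StB RB) (kn : List (Q × K))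
    (c : StA → Comp Q K (StA × M)) (m : M) (w : RA × RB × Orc S) :
    w ∈ rl S (X.upd c m) Y kn ↔ w ∈ rl S X Y kn ∧ Proc.rsA S c X w = m := by
  unfold rl Proc.rsA Sd.upd
  simp only [Finset.mem_filter, Finset.mem_univ, true_and]
  tauto

private theorem P6_mem_updB (X : Sd Q K StA RA) (Y : Sd Q K StB RB) (kn : List (Q × K))
    (c : StB → Comp Q K (StB × M)) (m : M) (w : RA × RB × Orc S) :
    w ∈ rl S X (Y.upd c m) kn ↔ w ∈ rl S X Y kn ∧ Proc.rsB S c Y w = m := by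
  unfold rl Proc.rsB Sd.upd
  simp only [Finset.mem_filter, Finset.mem_univ, true_and]
  tauto

theorem sum_learn (X : Sd Q K StA RA) (Y : Sd Q K StB RB) (kn : List (Q × K)) (q : Q)
    (f : RA × RB × Orc S → ℝ) :
    ∑ v ∈ S q, ∑ w ∈ rl S X Y (kn ++ [(q, v)]), f w = ∑ w ∈ rl S X Y kn, f w := by
  have h : ∀ w ∈ rl S X Y kn, (fun w : RA × RB × Orc S => w.2.2.1 q) w ∈ S q :=
    fun w _ => w.2.2.2 q
  rw [← Finset.sum_fiberwise_of_maps_to h f]
  refine Finset.sum_congr rfl fun v _ => ?_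
  refine Finset.sum_congr ?_ fun _ _ => rfl
  ext w
  rw [P6_mem_learn, Finset.mem_filter]

theorem mem_rl_learn (X : Sd Q K StA RA) (Y : Sd Q K StB RB) (kn : List (Q × K)) (q : Q) (v : K)
    (w : RA × RB × Orc S) :
    w ∈ rl S X Y (kn ++ [(q, v)]) ↔ w ∈ rl S X Y kn ∧ w.2.2.1 q = v :=
  P6_mem_learn S X Y kn q v w

theorem sum_mA (X : Sd Q K StA RA) (Y : Sd Q K StB RB) (kn : List (Q × K))
    (c : StA → Comp Q K (StA × M)) (f : RA × RB × Orc S → ℝ) :
    ∑ m ∈ (rl S X Y kn).image (Proc.rsA S c X), ∑ w ∈ rl S (X.upd c m) Y kn, f w =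
      ∑ w ∈ rl S X Y kn, f w := by
  have h : ∀ w ∈ rl S X Y kn, Proc.rsA S c X w ∈ (rl S X Y kn).image (Proc.rsA S c X) :=
    fun w hw => Finset.mem_image_of_mem _ hw
  rw [← Finset.sum_fiberwise_of_maps_to h f]
  refine Finset.sum_congr rfl fun v _ => ?_
  refine Finset.sum_congr ?_ fun _ _ => rfl
  ext w
  rw [P6_mem_updA, Finset.mem_filter]

theorem mem_rl_updA (X : Sd Q K StA RA) (Y : Sd Q K StB RB) (kn : List (Q × K))
    (c : StA → Comp Q K (StA × M)) (m : M) (w : RA × RB × Orc S) :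
    w ∈ rl S (X.upd c m) Y kn ↔ w ∈ rl S X Y kn ∧ Proc.rsA S c X w = m :=
  P6_mem_updA S X Y kn c m w

theorem sum_mB (X : Sd Q K StA RA) (Y : Sd Q K StB RB) (kn : List (Q × K))
    (c : StB → Comp Q K (StB × M)) (f : RA × RB × Orc S → ℝ) :
    ∑ m ∈ (rl S X Y kn).image (Proc.rsB S c Y), ∑ w ∈ rl S X (Y.upd c m) kn, f w =
      ∑ w ∈ rl S X Y kn, f w := by
  have h : ∀ w ∈ rl S X Y kn, Proc.rsB S c Y w ∈ (rl S X Y kn).image (Proc.rsB S c Y) :=
    fun w hw => Finset.mem_image_of_mem _ hw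
  rw [← Finset.sum_fiberwise_of_maps_to h f]
  refine Finset.sum_congr rfl fun v _ => ?_
  refine Finset.sum_congr ?_ fun _ _ => rfl
  ext w
  rw [P6_mem_updB, Finset.mem_filter]

theorem mem_rl_updB (X : Sd Q K StA RA) (Y : Sd Q K StB RB) (kn : List (Q × K))
    (c : StB → Comp Q K (StB × M)) (m : M) (w : RA × RB × Orc S) :
    w ∈ rl S X (Y.upd c m) kn ↔ w ∈ rl S X Y kn ∧ Proc.rsB S c Y w = m :=
  P6_mem_updB S X Y kn c m w

/-- Good executions stay good when something is learned. -/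
theorem dw_learn (X : Sd Q K StA RA) (Y : Sd Q K StB RB) (kn : List (Q × K)) (q : Q) (v : K)
    (w : RA × RB × Orc S) (h : Dw S cel X Y kn w) : Dw S cel X Y (kn ++ [(q, v)]) w := by
  intro c hc h1 h2
  have h3 := h c hc h1 h2
  rw [List.map_append]
  exact List.mem_append_left _ h3

/-- Good executions which are not hit stay good. -/
theorem dw_updA (X : Sd Q K StA RA) (Y : Sd Q K StB RB) (kn : List (Q × K))
    (c : StA → Comp Q K (StA × M)) (m : M) (w : RA × RB × Orc S) (h : Dw S cel X Y kn w)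
    (h' : ¬ hitA S c X Y kn w) : Dw S cel (X.upd c m) Y kn w := by
  intro d hd h1 h2
  rcases List.mem_append.1 (show d ∈ X.q w.1 w.2.2.1 ++ (c (X.s w.1 w.2.2.1)).asked w.2.2.1 from h1)
    with h3 | h3
  · exact h d hd h3 h2
  · by_contra h4
    exact h' ⟨d, h3, h2, h4⟩

theorem dw_updB (X : Sd Q K StA RA) (Y : Sd Q K StB RB) (kn : List (Q × K))
    (c : StB → Comp Q K (StB × M)) (m : M) (w : RA × RB × Orc S) (h : Dw S cel X Y kn w)
    (h' : ¬ hitB S c X Y kn w) : Dw S cel X (Y.upd c m) kn w := by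
  intro d hd h1 h2
  rcases List.mem_append.1
    (show d ∈ Y.q w.2.1 w.2.2.1 ++ (c (Y.s w.2.1 w.2.2.1)).asked w.2.2.1 from h2) with h3 | h3
  · exact h d hd h1 h3
  · by_contra h4
    exact h' ⟨d, h3, h1, h4⟩

end Pool.Agent.Nbb
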