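import Pool.Agent.Lib.MP_ae38e0_lc.Model

set_option autoImplicit false

/-!
# Random functions with ideal encodings

`f : X → K` is a random function and `L : S → Option J → K` a random encoding: the key `s` has the
handle `L s none` and the labels `L s (some j)`.  Whoever knows a handle and some labels can
evaluate: the result is a prescribed function `F s A` of the key `s` and the set `A` of the indices
of the labels, computed with queries to `f`.
-/

namespace Pool.Agent.Nbb

open Pool.Agent.LinOT Classical

/-- The queries: a value of `f`, the encoding of the key `s` (the handle and all labels), and the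
evaluation for the handle `η` and the labels `a`. -/
inductive Qry (X S J K : Type) : Type
  | f : X → Qry X S J K
  | enc : S → Qry X S J K
  | ev : K → (J → Option K) → Qry X S J K

/-- The answers: a value, an encoding, the result of an evaluation. -/
inductive Ans (J K V : Type) : Type
  | val : K → Ans J K V
  | lab : (Option J → K) → Ans J K V
  | res : Option V → Ans J K V

/-- The indices of the given labels. -/
noncomputable def dom {J K : Type} [Fintype J] (a : J → Option K) : Finset J :=
  Finset.univ.filter fun j => (a j).isSome

/-- The labels `a` are labels of the encoding `v`. -/
def mtch {J K : Type} (a : J → Option K) (v : Option J → K) : Prop :=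
  ∀ j π, a j = some π → v (some j) = π

/-- The oracle of the real world.  An evaluation succeeds if there is exactly one key with the given
handle and labels. -/
noncomputable def orc {X S J K V : Type} [Fintype J] (F : S → Finset J → Comp X K V) (f : X → K)
    (L : S → Option J → K) : Qry X S J K → Ans J K V
  | .f x => .val (f x)
  | .enc s => .lab (L s)
  | .ev η a => .res (if h : ∃! s, L s none = η ∧ mtch a (L s) then
      some ((F h.choose (dom a)).run f) else none)

/-- The things which can be touched: cells of `f`, keys, handles, labels. -/
inductive Th (X S J K : Type) : Type
  | x : X → Th X S J K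
  | s : S → Th X S J K
  | h : K → Th X S J K
  | l : K → J → K → Th X S J K

instance {X S J K : Type} [Finite X] [Finite S] [Finite J] [Finite K] : Finite (Th X S J K) := by
  have : Function.Injective (fun t : Th X S J K => (match t with
    | .x x => .inl x
    | .s s => .inr (.inl s)
    | .h η => .inr (.inr (.inl η))
    | .l η j π => .inr (.inr (.inr (η, j, π))) : X ⊕ S ⊕ K ⊕ (K × J × K))) := by
    intro a b hab
    cases a <;> cases b <;> simp_all
  exact Finite.of_injective _ this

/-- The cells. -/
def cel {X S J K : Type} : Th X S J K → Prop
  | .x _ => True
  | .s _ => True
  | _ => False

/-- The value of the items. -/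
noncomputable def cv {J K : Type} [Nonempty K] : Option J → K := fun _ => Classical.arbitrary K

/-- The possible values of a thing. -/
noncomputable def SV {X S J K : Type} [Finite J] [Finite K] [Nonempty K] (t : Th X S J K) :
    Finset (Option J → K) :=
  match t with
  | .x _ => (Set.toFinite {v : Option J → K | ∀ j, v (some j) = v none}).toFinset
  | .s _ => (Set.toFinite (Set.univ : Set (Option J → K))).toFinset
  | .h _ => {cv}
  | .l _ _ _ => {cv}

/-- A computation with oracle `f`, run on the cells. -/
def lift {X S J K α : Type} : Comp X K α → Comp (Th X S J K) (Option J → K) α
  | .ret a => .ret a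
  | .ask x next => .ask (.x x) fun v => lift (next (v none))

/-- The function `f` of an oracle. -/
def fO {X S J K : Type} (O : Th X S J K → Option J → K) : X → K := fun x => O (.x x) none

/-- The encoding of an oracle. -/
def LO {X S J K : Type} (O : Th X S J K → Option J → K) : S → Option J → K := fun s => O (.s s)

/-- The items of an encoding. -/
noncomputable def items {X S J K : Type} [Fintype J] (v : Option J → K) : List (Th X S J K) :=
  .h (v none) :: (Finset.univ : Finset J).toList.map fun j => .l (v none) j (v (some j))

/-- The items of an evaluation. -/
noncomputable def itev {X S J K : Type} [Fintype J] (η : K) (a : J → Option K) :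
    List (Th X S J K) :=
  .h η :: (Finset.univ : Finset J).toList.filterMap fun j => (a j).map fun π => .l η j π

/-- The keys which a party has encoded. -/
abbrev Own (S J K : Type) := List (S × (Option J → K))

/-- The key with handle `η`. -/
noncomputable def lkup {S J K : Type} (own : Own S J K) (η : K) : Option (S × (Option J → K)) :=
  own.find? fun e => decide (e.2 none = η)

section compile

variable {X S J K V : Type} [Fintype J]

/-- What the public knows about the handles: `tr η` is the key if it is known; `pr η` tells the
owner (`true`: the first party), the public labels and the result of the evaluation for them. -/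
structure Tb (S J K V : Type) where
  tr : K → Option (S × (Option J → K))
  pr : K → Option (Bool × (J → Option K) × Option V)

/-- The local answer to an evaluation. -/
noncomputable def evA (F : S → Finset J → Comp X K V) (G : V → Finset J → Comp X K V)
    (own : Own S J K) (T : Tb S J K V) (η : K) (a : J → Option K) :
    Comp (Th X S J K) (Option J → K) (Option V) :=
  match lkup own η with
  | some e => if mtch a e.2 then (lift (F e.1 (dom a))).bind fun v => .ret (some v) else .ret none
  | none => match T.tr η with
    | some e => if mtch a e.2 then (lift (F e.1 (dom a))).bind fun v => .ret (some v) else .ret none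
    | none => match T.pr η with
      | some (_, ex, some v) =>
        if ∀ j π, a j = some π → ex j = some π then (lift (G v (dom a))).bind fun u => .ret (some u)
        else .ret none
      | _ => .ret none

/-- A computation of the real world, run with local answers.  `n` is the number of queries which are
still allowed. -/
noncomputable def cmp {α : Type} (F : S → Finset J → Comp X K V) (G : V → Finset J → Comp X K V)
    (T : Tb S J K V) : Comp (Qry X S J K) (Ans J K V) α → Own S J K → ℕ →
      Comp (Th X S J K) (Option J → K) (Option α × Own S J K × ℕ)
  | .ret a, own, n => .ret (some a, own, n)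
  | .ask _ _, own, 0 => .ret (none, own, 0)
  | .ask (.f x) next, own, n + 1 => .ask (.x x) fun v => cmp F G T (next (.val (v none))) own n
  | .ask (.enc s) next, own, n + 1 => .ask (.s s) fun v =>
      (Comp.askAll (items v)).bind fun _ => cmp F G T (next (.lab v)) (own ++ [(s, v)]) n
  | .ask (.ev η a) next, own, n + 1 =>
      (Comp.askAll (itev η a)).bind fun _ =>
        (evA F G own T η a).bind fun r => cmp F G T (next (.res r)) own n

/-- The state of a compiled party. -/
structure CS (St S J K : Type) where
  st : St
  own : Own S J K
  fuel : ℕ

/-- The public results: messages, bits, leaked values. -/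
inductive Pb (Mg V : Type) : Type
  | msg : Mg → Pb Mg V
  | bit : Bool → Pb Mg V
  | lk : Option V → Pb Mg V

/-- A step of a compiled party. -/
noncomputable def stepC {Mg I : Type} (F : S → Finset J → Comp X K V)
    (G : V → Finset J → Comp X K V) (P : Party (Qry X S J K) (Ans J K V) Mg I) (m0 : Mg)
    (T : Tb S J K V) (μ : Mg) (c : CS P.St S J K) :
    Comp (Th X S J K) (Option J → K) (CS P.St S J K × Pb Mg V) :=
  (cmp F G T (P.step c.st μ) c.own c.fuel).bind fun r =>
    match r.1 with
    | some x => .ret (⟨x.1, r.2.1, r.2.2⟩, .msg x.2)
    | none => .ret (⟨c.st, r.2.1, r.2.2⟩, .msg m0)

/-- The party owns the handle. -/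
noncomputable def ownH {St : Type} (η : K) (c : CS St S J K) : Bool := (lkup c.own η).isSome

/-- The party owns the label. -/
noncomputable def ownL {St : Type} (η : K) (j : J) (π : K) (c : CS St S J K) : Bool :=
  match lkup c.own η with
  | some e => decide (e.2 (some j) = π)
  | none => false

/-- The party tells whether it owns the handle. -/
noncomputable def bitH {St Mg : Type} (η : K) (c : CS St S J K) :
    Comp (Th X S J K) (Option J → K) (CS St S J K × Pb Mg V) :=
  .ret (c, .bit (ownH η c))

/-- The party tells whether it owns the label. -/
noncomputable def bitL {St Mg : Type} (η : K) (j : J) (π : K) (c : CS St S J K) :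
    Comp (Th X S J K) (Option J → K) (CS St S J K × Pb Mg V) :=
  .ret (c, .bit (ownL η j π c))

/-- The owner evaluates for the public labels. -/
noncomputable def leakC {St Mg : Type} (F : S → Finset J → Comp X K V) (η : K)
    (ex : J → Option K) (c : CS St S J K) :
    Comp (Th X S J K) (Option J → K) (CS St S J K × Pb Mg V) :=
  match lkup c.own η with
  | some e => (lift (F e.1 (dom ex))).bind fun v => .ret (c, .lk (some v))
  | none => .ret (c, .lk none)

end compile

end Pool.Agent.Nbb
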